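import Mathlib

/-!
# MP_921642_ag, FD: coloured polynomial rings

A finite set `σ` of variables with colours in `ι`; the forms of multidegree `S : ι → ℤ` are zero if `S` has
a negative component.  Basic lemmas on the multigraded pieces of an ideal.
-/

set_option autoImplicit false

namespace FrD

open MvPolynomial

/-! ### Multidegrees -/

section basic

variable {σ ι : Type} [Fintype σ] [DecidableEq ι]

/-- multidegree of an exponent for the colouring `col` -/
def md (col : σ → ι) (α : σ →₀ ℕ) : ι → ℤ := fun k => ∑ v, if col v = k then (α v : ℤ) else 0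

lemma md_add (col : σ → ι) (α β : σ →₀ ℕ) : md col (α + β) = md col α + md col β := by
  funext k
  simp only [md, Pi.add_apply, Finsupp.add_apply, Nat.cast_add, ← Finset.sum_add_distrib]
  exact Finset.sum_congr rfl (fun v _ => by split_ifs <;> simp)

lemma md_zero (col : σ → ι) : md col 0 = 0 := by
  funext k; simp [md]

lemma md_nonneg (col : σ → ι) (α : σ →₀ ℕ) : 0 ≤ md col α := by
  intro k
  simp only [md, Pi.zero_apply]
  exact Finset.sum_nonneg (fun v _ => by split_ifs <;> simp)

lemma md_single (col : σ → ι) (v : σ) : md col (Finsupp.single v 1) = Pi.single (col v) 1 := by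
  classical
  funext k
  simp only [md, Finsupp.single_apply]
  rw [Finset.sum_eq_single v]
  · by_cases h : col v = k
    · subst h; simp
    · rw [if_neg h, Pi.single_eq_of_ne (Ne.symm h)]
  · intro w _ hw
    rw [if_neg (Ne.symm hw)]; simp
  · intro h; exact absurd (Finset.mem_univ _) h

lemma le_md (col : σ → ι) (α : σ →₀ ℕ) (v : σ) : (α v : ℤ) ≤ md col α (col v) := by
  simp only [md]
  have h := Finset.single_le_sum (f := fun w => if col w = col v then (α w : ℤ) else 0)
    (fun w _ => by split_ifs <;> simp) (Finset.mem_univ v)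
  simpa using h

lemma finite_md (col : σ → ι) (S : ι → ℤ) : {α : σ →₀ ℕ | md col α = S}.Finite := by
  classical
  refine (Set.finite_Iic (Finsupp.equivFunOnFinite.symm (fun v => (S (col v)).toNat))).subset ?_
  intro α hα v
  have h := le_md col α v
  rw [show md col α = S from hα] at h
  simp only [Finsupp.equivFunOnFinite_symm_apply_apply]
  omega

/-- forms of multidegree `S` -/
noncomputable def R (F : Type) [Field F] (col : σ → ι) (S : ι → ℤ) :
    Submodule F (MvPolynomial σ F) :=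
  restrictSupport F {α | md col α = S}

/-- number of monomials of multidegree `S` -/
noncomputable def rr (col : σ → ι) (S : ι → ℤ) : ℕ := Nat.card {α : σ →₀ ℕ // md col α = S}

variable {F : Type} [Field F]

lemma mem_R (col : σ → ι) (S : ι → ℤ) (p : MvPolynomial σ F) :
    p ∈ R F col S ↔ ∀ α, coeff α p ≠ 0 → md col α = S := by
  rw [R, mem_restrictSupport_iff]
  constructor
  · intro h α hα
    exact h (Finset.mem_coe.2 (mem_support_iff.2 hα))
  · intro h α hα
    exact h α (mem_support_iff.1 (Finset.mem_coe.1 hα))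

lemma monomial_mem_R (col : σ → ι) (α : σ →₀ ℕ) (c : F) : monomial α c ∈ R F col (md col α) := by
  classical
  rw [mem_R]
  intro β hβ
  rw [coeff_monomial] at hβ
  by_contra hne
  apply hβ
  rw [if_neg]
  rintro rfl
  exact hne rfl

lemma X_mem_R (col : σ → ι) (v : σ) : (X v : MvPolynomial σ F) ∈ R F col (Pi.single (col v) 1) := by
  rw [← md_single]
  exact monomial_mem_R col _ _

lemma one_mem_R (col : σ → ι) : (1 : MvPolynomial σ F) ∈ R F col 0 := by
  have := monomial_mem_R (F := F) col 0 1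
  rwa [md_zero] at this

lemma mul_mem_R (col : σ → ι) {S S' : ι → ℤ} {p q : MvPolynomial σ F} (hp : p ∈ R F col S)
    (hq : q ∈ R F col S') : p * q ∈ R F col (S + S') := by
  classical
  rw [mem_R] at hp hq ⊢
  intro α hα
  rw [coeff_mul] at hα
  obtain ⟨x, hx, hne⟩ := Finset.exists_ne_zero_of_sum_ne_zero hα
  have hx' : x.1 + x.2 = α := by simpa using hx
  rw [← hx', md_add, hp _ (left_ne_zero_of_mul hne), hq _ (right_ne_zero_of_mul hne)]

lemma R_neg (col : σ → ι) {S : ι → ℤ} (h : ¬ 0 ≤ S) : R F col S = ⊥ := by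
  rw [eq_bot_iff]
  intro p hp
  rw [mem_R] at hp
  rw [Submodule.mem_bot]
  ext α
  rw [coeff_zero]
  by_contra hne
  exact h (hp α hne ▸ md_nonneg col α)

instance finite_R (col : σ → ι) (S : ι → ℤ) : Module.Finite F (R F col S) := by
  have : Finite ({α | md col α = S} : Set (σ →₀ ℕ)) := (finite_md col S).to_subtype
  exact Module.Finite.of_basis (basisRestrictSupport F {α | md col α = S})

lemma finrank_R (col : σ → ι) (S : ι → ℤ) : Module.finrank F (R F col S) = rr col S := by
  have : Finite ({α | md col α = S} : Set (σ →₀ ℕ)) := (finite_md col S).to_subtype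
  exact Module.finrank_eq_nat_card_basis (basisRestrictSupport F {α | md col α = S})

lemma rr_neg (col : σ → ι) {S : ι → ℤ} (h : ¬ 0 ≤ S) : rr col S = 0 := by
  rw [← finrank_R (F := ℚ), R_neg col h]
  simp

/-- projection to the part of multidegree `S` -/
noncomputable def pr (F : Type) [Field F] (col : σ → ι) (S : ι → ℤ) :
    MvPolynomial σ F →ₗ[F] MvPolynomial σ F :=
  ∑ α ∈ (finite_md col S).toFinset, (monomial α : F →ₗ[F] MvPolynomial σ F) ∘ₗ (lcoeff F α)

open Classical in
lemma coeff_pr (col : σ → ι) (S : ι → ℤ) (p : MvPolynomial σ F) (β : σ →₀ ℕ) :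
    coeff β (pr F col S p) = if md col β = S then coeff β p else 0 := by
  classical
  simp only [pr, LinearMap.sum_apply, LinearMap.comp_apply, coeff_sum, lcoeff_apply,
    coeff_monomial]
  by_cases h : md col β = S
  · rw [if_pos h, Finset.sum_eq_single β]
    · rw [if_pos rfl]
    · intro γ _ hγ; rw [if_neg hγ]
    · intro hn; exact absurd ((Set.Finite.mem_toFinset (finite_md col S)).2 h) hn
  · rw [if_neg h]
    refine Finset.sum_eq_zero (fun γ hγ => ?_)
    rw [if_neg]
    rintro rfl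
    exact h ((Set.Finite.mem_toFinset (finite_md col S)).1 hγ)

lemma pr_mem (col : σ → ι) (S : ι → ℤ) (p : MvPolynomial σ F) : pr F col S p ∈ R F col S := by
  rw [mem_R]
  intro α hα
  rw [coeff_pr] at hα
  by_contra h
  rw [if_neg h] at hα
  exact hα rfl

lemma pr_of_mem (col : σ → ι) {S : ι → ℤ} {p : MvPolynomial σ F} (h : p ∈ R F col S) :
    pr F col S p = p := by
  ext α
  rw [coeff_pr]
  split_ifs with h1
  · rfl
  · rw [mem_R] at h
    by_contra hne
    exact h1 (h α (fun h0 => hne (by rw [h0])))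

lemma pr_of_mem_ne (col : σ → ι) {S S' : ι → ℤ} {p : MvPolynomial σ F} (h : p ∈ R F col S)
    (hne : S ≠ S') : pr F col S' p = 0 := by
  ext α
  rw [coeff_pr, coeff_zero]
  split_ifs with h1
  · rw [mem_R] at h
    by_contra h0
    exact hne ((h α h0).symm.trans h1)
  · rfl

/-- `pr` of a product with a form -/
lemma pr_mul (col : σ → ι) {S : ι → ℤ} {f : MvPolynomial σ F} (hf : f ∈ R F col S) (T : ι → ℤ)
    (p : MvPolynomial σ F) : pr F col T (f * p) = f * pr F col (T - S) p := by
  classical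
  induction p using MvPolynomial.induction_on' with
  | monomial α c =>
    by_cases h : md col α = T - S
    · rw [pr_of_mem col (h ▸ monomial_mem_R col α c : monomial α c ∈ R F col (T - S))]
      apply pr_of_mem
      have := mul_mem_R col hf (monomial_mem_R col α c)
      rwa [h, add_sub_cancel] at this
    · rw [pr_of_mem_ne col (monomial_mem_R col α c) h, mul_zero]
      apply pr_of_mem_ne col (mul_mem_R col hf (monomial_mem_R col α c))
      intro h2
      exact h (by rw [← h2]; simp)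
  | add p q hp hq => rw [mul_add, map_add, hp, hq, map_add, mul_add]

end basic

/-! ### Ideals -/

section ideal

variable {σ ι τ : Type} [Fintype σ] [DecidableEq ι] {F : Type} [Field F]

/-- the part of multidegree `S` of the ideal generated by the forms `f i`, `i ∈ T`, of multidegrees `κ i` -/
noncomputable def Id (col : σ → ι) (κ : τ → ι → ℤ) (f : τ → MvPolynomial σ F) (T : Finset τ)
    (S : ι → ℤ) : Submodule F (MvPolynomial σ F) :=
  ⨆ i ∈ T, (R F col (S - κ i)).map (LinearMap.mulLeft F (f i))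

/-- the expected dimension of the quotient in multidegree `S` -/
noncomputable def E (col : σ → ι) (κ : τ → ι → ℤ) (T : Finset τ) (S : ι → ℤ) : ℤ :=
  ∑ M ∈ T.powerset, (-1) ^ M.card * (rr col (S - ∑ i ∈ M, κ i) : ℤ)

/-- the dimension of the quotient in multidegree `S` -/
noncomputable def dq (col : σ → ι) (κ : τ → ι → ℤ) (f : τ → MvPolynomial σ F) (T : Finset τ)
    (S : ι → ℤ) : ℤ :=
  (rr col S : ℤ) - (Module.finrank F (Id col κ f T S) : ℤ)

/-- `f` is exact in all multidegrees `≤ S` -/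
def Ex (col : σ → ι) (κ : τ → ι → ℤ) (f : τ → MvPolynomial σ F) (T : Finset τ) (S : ι → ℤ) : Prop :=
  ∀ S' ≤ S, dq col κ f T S' ≤ E col κ T S'

/-- a Koszul syzygy -/
def Kos (col : σ → ι) (κ : τ → ι → ℤ) (f : τ → MvPolynomial σ F) (T : Finset τ) (S : ι → ℤ)
    (g : τ → MvPolynomial σ F) : Prop :=
  ∃ b : τ → τ → MvPolynomial σ F, (∀ i ∈ T, ∀ j ∈ T, b i j ∈ R F col (S - κ i - κ j)) ∧
    (∀ i j, b i j = - b j i) ∧ (∀ i, b i i = 0) ∧ ∀ i ∈ T, g i = ∑ j ∈ T, b i j * f j

lemma mem_Id (col : σ → ι) (κ : τ → ι → ℤ) (f : τ → MvPolynomial σ F) (T : Finset τ) (S : ι → ℤ)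
    (p : MvPolynomial σ F) : p ∈ Id col κ f T S ↔
      ∃ g : τ → MvPolynomial σ F, (∀ i, g i ∈ R F col (S - κ i)) ∧ p = ∑ i ∈ T, f i * g i := by
  classical
  induction T using Finset.induction_on generalizing p with
  | empty =>
    simp only [Id, Finset.notMem_empty, iSup_false, iSup_bot, Submodule.mem_bot, Finset.sum_empty]
    exact ⟨fun h => ⟨fun _ => 0, fun _ => Submodule.zero_mem _, h⟩, fun ⟨_, _, h⟩ => h⟩
  | insert i T hi ih =>
    have h1 : Id col κ f (insert i T) S =
        (R F col (S - κ i)).map (LinearMap.mulLeft F (f i)) ⊔ Id col κ f T S := by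
      simp only [Id]
      rw [Finset.iSup_insert]
    rw [h1, Submodule.mem_sup]
    constructor
    · rintro ⟨y, hy, z, hz, rfl⟩
      obtain ⟨g0, hg0, rfl⟩ := Submodule.mem_map.1 hy
      obtain ⟨g, hg, rfl⟩ := (ih z).1 hz
      refine ⟨fun j => if j = i then g0 else g j, fun j => ?_, ?_⟩
      · by_cases hj : j = i
        · subst hj; simpa using hg0
        · simpa [hj] using hg j
      · rw [Finset.sum_insert hi]
        simp only [if_true, LinearMap.mulLeft_apply]
        congr 1
        refine Finset.sum_congr rfl (fun j hj => ?_)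
        rw [if_neg]
        rintro rfl; exact hi hj
    · rintro ⟨g, hg, rfl⟩
      rw [Finset.sum_insert hi]
      exact ⟨_, Submodule.mem_map.2 ⟨g i, hg i, rfl⟩, _, (ih _).2 ⟨g, hg, rfl⟩, by simp⟩

lemma Id_insert [DecidableEq τ] (col : σ → ι) (κ : τ → ι → ℤ) (f : τ → MvPolynomial σ F) (T : Finset τ) (S : ι → ℤ)
    (i : τ) : Id col κ f (insert i T) S =
      Id col κ f T S ⊔ (R F col (S - κ i)).map (LinearMap.mulLeft F (f i)) := by
  simp only [Id]
  rw [Finset.iSup_insert, sup_comm]

lemma Id_empty (col : σ → ι) (κ : τ → ι → ℤ) (f : τ → MvPolynomial σ F) (S : ι → ℤ) :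
    Id col κ f ∅ S = ⊥ := by
  simp [Id]

lemma Id_mono (col : σ → ι) (κ : τ → ι → ℤ) (f : τ → MvPolynomial σ F) {T T' : Finset τ}
    (h : T ⊆ T') (S : ι → ℤ) : Id col κ f T S ≤ Id col κ f T' S := by
  refine iSup₂_le (fun i hi => ?_)
  exact le_iSup₂_of_le i (h hi) le_rfl

lemma Id_le_R (col : σ → ι) (κ : τ → ι → ℤ) (f : τ → MvPolynomial σ F) (T : Finset τ)
    (hf : ∀ i ∈ T, f i ∈ R F col (κ i)) (S : ι → ℤ) : Id col κ f T S ≤ R F col S := by
  refine iSup₂_le (fun i hi => ?_)
  rintro _ ⟨g, hg, rfl⟩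
  have := mul_mem_R col (hf i hi) hg
  rwa [add_sub_cancel] at this

instance finite_Id (col : σ → ι) (κ : τ → ι → ℤ) (f : τ → MvPolynomial σ F) (T : Finset τ)
    (S : ι → ℤ) : Module.Finite F (Id col κ f T S) := by
  classical
  induction T using Finset.induction_on with
  | empty => rw [Id_empty]; infer_instance
  | insert i T hi ih =>
    rw [Id_insert]
    have := ih
    exact Submodule.finite_sup _ _

lemma mul_mem_Id (col : σ → ι) (κ : τ → ι → ℤ) (f : τ → MvPolynomial σ F) (T : Finset τ)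
    {S S' : ι → ℤ} {h p : MvPolynomial σ F} (hh : h ∈ R F col S') (hp : p ∈ Id col κ f T S) :
    h * p ∈ Id col κ f T (S + S') := by
  obtain ⟨g, hg, rfl⟩ := (mem_Id col κ f T S p).1 hp
  refine (mem_Id col κ f T _ _).2 ⟨fun i => h * g i, fun i => ?_, ?_⟩
  · have := mul_mem_R col hh (hg i)
    rwa [show S' + (S - κ i) = S + S' - κ i by abel] at this
  · rw [Finset.mul_sum]
    exact Finset.sum_congr rfl (fun i _ => by ring)

lemma f_mul_mem_Id (col : σ → ι) (κ : τ → ι → ℤ) (f : τ → MvPolynomial σ F) (T : Finset τ)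
    {S : ι → ℤ} {i : τ} (hi : i ∈ T) {g : MvPolynomial σ F} (hg : g ∈ R F col (S - κ i)) :
    f i * g ∈ Id col κ f T S :=
  le_iSup₂ (f := fun i (_ : i ∈ T) => (R F col (S - κ i)).map (LinearMap.mulLeft F (f i))) i hi
    (Submodule.mem_map.2 ⟨g, hg, rfl⟩)

lemma E_empty (col : σ → ι) (κ : τ → ι → ℤ) (S : ι → ℤ) : E col κ ∅ S = rr col S := by
  simp [E]

lemma E_insert [DecidableEq τ] (col : σ → ι) (κ : τ → ι → ℤ) (T : Finset τ) (S : ι → ℤ) (i : τ) (hi : i ∉ T) :
    E col κ (insert i T) S = E col κ T S - E col κ T (S - κ i) := by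
  classical
  simp only [E]
  rw [Finset.sum_powerset_insert hi, sub_eq_add_neg, ← Finset.sum_neg_distrib]
  congr 1
  refine Finset.sum_congr rfl (fun M hM => ?_)
  have hiM : i ∉ M := fun h => hi (Finset.mem_powerset.1 hM h)
  rw [Finset.card_insert_of_notMem hiM, Finset.sum_insert hiM, pow_succ, sub_add_eq_sub_sub]
  ring

lemma dq_empty (col : σ → ι) (κ : τ → ι → ℤ) (f : τ → MvPolynomial σ F) (S : ι → ℤ) :
    dq col κ f ∅ S = rr col S := by
  simp [dq, Id_empty]

lemma dq_nonneg (col : σ → ι) (κ : τ → ι → ℤ) (f : τ → MvPolynomial σ F) (T : Finset τ)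
    (hf : ∀ i ∈ T, f i ∈ R F col (κ i)) (S : ι → ℤ) : 0 ≤ dq col κ f T S := by
  have h := Submodule.finrank_mono (Id_le_R col κ f T hf S)
  rw [finrank_R] at h
  simp only [dq]
  omega

/-- everything is `0` in a multidegree with a negative component -/
lemma E_neg (col : σ → ι) (κ : τ → ι → ℤ) (T : Finset τ) (hκ : ∀ i ∈ T, 0 ≤ κ i) {S : ι → ℤ}
    (h : ¬ 0 ≤ S) : E col κ T S = 0 := by
  refine Finset.sum_eq_zero (fun M hM => ?_)
  rw [rr_neg]
  · simp
  · intro h2
    apply h
    have h3 : 0 ≤ ∑ i ∈ M, κ i := Finset.sum_nonneg (fun i hi => hκ i (Finset.mem_powerset.1 hM hi))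
    intro k
    have h4 := h2 k
    have h5 := h3 k
    simp only [Pi.sub_apply, Pi.zero_apply] at h4 h5 ⊢
    linarith

lemma dq_neg (col : σ → ι) (κ : τ → ι → ℤ) (f : τ → MvPolynomial σ F) (T : Finset τ)
    (hf : ∀ i ∈ T, f i ∈ R F col (κ i)) {S : ι → ℤ} (h : ¬ 0 ≤ S) : dq col κ f T S = 0 := by
  have h1 := Id_le_R col κ f T hf S
  rw [R_neg col h, le_bot_iff] at h1
  rw [dq, h1, rr_neg col h]
  simp

lemma Ex_mono (col : σ → ι) (κ : τ → ι → ℤ) (f : τ → MvPolynomial σ F) (T : Finset τ)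
    {S S' : ι → ℤ} (hS : S' ≤ S) (h : Ex col κ f T S) : Ex col κ f T S' :=
  fun S'' hS'' => h S'' (hS''.trans hS)

/-- the projection of an element of an ideal -/
lemma pr_mem_Id (col : σ → ι) (κ : τ → ι → ℤ) (f : τ → MvPolynomial σ F) (T : Finset τ)
    (hf : ∀ i ∈ T, f i ∈ R F col (κ i)) (S : ι → ℤ) (g : τ → MvPolynomial σ F) :
    pr F col S (∑ i ∈ T, f i * g i) ∈ Id col κ f T S := by
  rw [map_sum]
  refine Submodule.sum_mem _ (fun i hi => ?_)
  rw [pr_mul col (hf i hi)]
  exact f_mul_mem_Id col κ f T hi (pr_mem col _ _)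

end ideal

/-! ### Systems -/

/-- forms of the right multidegrees, and these are nonnegative and nonzero -/
def Sy {σ ι τ : Type} [Fintype σ] [DecidableEq ι] {F : Type} [Field F] (col : σ → ι)
    (κ : τ → ι → ℤ) (f : τ → MvPolynomial σ F) (T : Finset τ) : Prop :=
  ∀ i ∈ T, f i ∈ R F col (κ i) ∧ 0 ≤ κ i ∧ κ i ≠ 0

/-- the multidegree of a set of colours -/
def ind {ι : Type} [DecidableEq ι] (J : Finset ι) : ι → ℤ := fun k => if k ∈ J then 1 else 0

lemma ind_nonneg {ι : Type} [DecidableEq ι] (J : Finset ι) : 0 ≤ ind J := by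
  intro k
  simp only [ind, Pi.zero_apply]
  split_ifs <;> simp

lemma ind_ne_zero {ι : Type} [DecidableEq ι] {J : Finset ι} (hJ : J.Nonempty) : ind J ≠ 0 := by
  obtain ⟨k, hk⟩ := hJ
  intro h
  have := congrFun h k
  simp [ind, hk] at this

/-- Exact systems exist in multidegree `S` (and all the smaller ones) as soon as there are at least `N k`
variables of every colour `k` with `0 < S k` and at most `w J` relations of multidegree `J` for every set
`J` of colours with `ind J ≤ S`. -/
def XX (F : Type) [Field F] {ι : Type} [Fintype ι] [DecidableEq ι] (N : ι → ℕ) (w : Finset ι → ℕ)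
    (S : ι → ℤ) : Prop :=
  ∀ (σ τ : Type) [Fintype σ] [Fintype τ] (col : σ → ι) (κ : τ → Finset ι),
    (∀ k, 0 < S k → N k ≤ Nat.card {v // col v = k}) → (∀ i, (κ i).Nonempty) →
    (∀ J, ind J ≤ S → Nat.card {i // κ i = J} ≤ w J) →
    ∃ f : τ → MvPolynomial σ F, (∀ i, f i ∈ R F col (ind (κ i))) ∧
      Ex col (fun i => ind (κ i)) f Finset.univ S

/-- the uniform case: `N` variables of every colour, `w` relations for every set of `a` colours -/
def XXU (F : Type) [Field F] {ι : Type} [Fintype ι] [DecidableEq ι] (a N w : ℕ) (S : ι → ℤ) : Prop :=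
  XX F (fun _ : ι => N) (fun J => if J.card = a then w else 0) S

/-- push forward of a multidegree -/
def push {ι' ι : Type} [Fintype ι'] [DecidableEq ι] (π : ι' → ι) (S' : ι' → ℤ) : ι → ℤ :=
  fun k => ∑ k', if π k' = k then S' k' else 0

/-- the nonnegative multidegrees over `S` -/
noncomputable def fib {ι' ι : Type} [Fintype ι'] [DecidableEq ι'] [Fintype ι] [DecidableEq ι] (π : ι' → ι)
    (S : ι → ℤ) : Finset (ι' → ℤ) :=
  (Fintype.piFinset (fun k' => Finset.Icc 0 (S (π k')))).filter (fun S' => push π S' = S)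

lemma le_push {ι' ι : Type} [Fintype ι'] [DecidableEq ι] (π : ι' → ι) {S' : ι' → ℤ} (h : 0 ≤ S')
    (k' : ι') : S' k' ≤ push π S' (π k') := by
  simp only [push]
  have h1 := Finset.single_le_sum (f := fun k => if π k = π k' then S' k else 0)
    (fun k _ => by split_ifs; exacts [h k, le_rfl]) (Finset.mem_univ k')
  simpa using h1

lemma mem_fib {ι' ι : Type} [Fintype ι'] [DecidableEq ι'] [Fintype ι] [DecidableEq ι] (π : ι' → ι)
    (S : ι → ℤ) (S' : ι' → ℤ) : S' ∈ fib π S ↔ 0 ≤ S' ∧ push π S' = S := by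
  simp only [fib, Finset.mem_filter, Fintype.mem_piFinset, Finset.mem_Icc]
  constructor
  · rintro ⟨h1, h2⟩
    exact ⟨fun k => (h1 k).1, h2⟩
  · rintro ⟨h1, h2⟩
    refine ⟨fun k => ⟨h1 k, ?_⟩, h2⟩
    rw [← h2]
    exact le_push π h1 k

section modules

variable {σ ι τ : Type} [Fintype σ] [DecidableEq ι] {F : Type} [Field F]

/-- syzygies of multidegree `S` -/
def SZ (col : σ → ι) (κ : τ → ι → ℤ) (f : τ → MvPolynomial σ F) (T : Finset τ) (S : ι → ℤ) :
    Submodule F (τ → MvPolynomial σ F) where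
  carrier := {g | (∀ i ∈ T, g i ∈ R F col (S - κ i)) ∧ (∀ i, i ∉ T → g i = 0) ∧
    ∑ i ∈ T, f i * g i = 0}
  add_mem' := by
    rintro g h ⟨h1, h2, h3⟩ ⟨k1, k2, k3⟩
    refine ⟨fun i hi => Submodule.add_mem _ (h1 i hi) (k1 i hi), fun i hi => ?_, ?_⟩
    · simp [h2 i hi, k2 i hi]
    · simp only [Pi.add_apply, mul_add, Finset.sum_add_distrib, h3, k3, add_zero]
  zero_mem' := ⟨fun i _ => Submodule.zero_mem _, fun i _ => rfl, by simp⟩
  smul_mem' := by
    rintro c g ⟨h1, h2, h3⟩
    refine ⟨fun i hi => Submodule.smul_mem _ c (h1 i hi), fun i hi => ?_, ?_⟩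
    · simp [h2 i hi]
    · simp only [Pi.smul_apply, Algebra.mul_smul_comm, ← Finset.smul_sum, h3, smul_zero]

/-- Koszul syzygies of multidegree `S` -/
def KZ (col : σ → ι) (κ : τ → ι → ℤ) (f : τ → MvPolynomial σ F) (T : Finset τ) (S : ι → ℤ) :
    Submodule F (τ → MvPolynomial σ F) where
  carrier := {g | (∀ i, i ∉ T → g i = 0) ∧ Kos col κ f T S g}
  add_mem' := by
    rintro g h ⟨h2, b, b1, b2, b3, b4⟩ ⟨k2, c, c1, c2, c3, c4⟩
    refine ⟨fun i hi => by simp [h2 i hi, k2 i hi], fun i j => b i j + c i j,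
      fun i hi j hj => Submodule.add_mem _ (b1 i hi j hj) (c1 i hi j hj), fun i j => ?_,
      fun i => ?_, fun i hi => ?_⟩
    · change b i j + c i j = -(b j i + c j i)
      rw [b2 i j, c2 i j]; ring
    · change b i i + c i i = 0
      rw [b3, c3, add_zero]
    · simp only [Pi.add_apply, b4 i hi, c4 i hi, add_mul, Finset.sum_add_distrib]
  zero_mem' := ⟨fun i _ => rfl, fun _ _ => 0, fun _ _ _ _ => Submodule.zero_mem _,
    fun _ _ => by simp, fun _ => rfl, fun i _ => by simp⟩
  smul_mem' := by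
    rintro c g ⟨h2, b, b1, b2, b3, b4⟩
    refine ⟨fun i hi => by simp [h2 i hi], fun i j => c • b i j,
      fun i hi j hj => Submodule.smul_mem _ c (b1 i hi j hj), fun i j => ?_, fun i => ?_,
      fun i hi => ?_⟩
    · change c • b i j = -(c • b j i)
      rw [b2 i j, smul_neg]
    · change c • b i i = 0
      rw [b3, smul_zero]
    · simp only [Pi.smul_apply, b4 i hi, Finset.smul_sum, smul_mul_assoc]

/-- `(Z : J)` in multidegree `S - ind J` -/
def cln (col : σ → ι) (S : ι → ℤ) (Z : Submodule F (MvPolynomial σ F)) (J : Finset ι) :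
    Submodule F (MvPolynomial σ F) where
  carrier := {g | g ∈ R F col (S - ind J) ∧ ∀ h ∈ R F col (ind J), h * g ∈ Z}
  add_mem' := by
    rintro g h ⟨h1, h2⟩ ⟨k1, k2⟩
    refine ⟨Submodule.add_mem _ h1 k1, fun x hx => ?_⟩
    rw [mul_add]
    exact Submodule.add_mem _ (h2 x hx) (k2 x hx)
  zero_mem' := ⟨Submodule.zero_mem _, fun x _ => by rw [mul_zero]; exact Submodule.zero_mem _⟩
  smul_mem' := by
    rintro c g ⟨h1, h2⟩
    refine ⟨Submodule.smul_mem _ c h1, fun x hx => ?_⟩
    rw [Algebra.mul_smul_comm]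
    exact Submodule.smul_mem _ c (h2 x hx)

end modules

end FrD
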