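import Pool.Agent.Lib.MP_921642_ag.FD.Spec

section
/-!
# MP_921642_ag, FD: module BCD

Finitely many polynomials over the algebraic closure of the field with two elements have
coefficients in a finite subfield.
-/
set_option autoImplicit false

namespace FrD.BCDM

open MvPolynomial

theorem specBCD : SpecBCD := by
  intro σ τ _ f
  classical
  have hS : (⋃ i, ((f i).coeffs : Set KK)).Finite :=
    Set.finite_iUnion fun i => Finset.finite_toSet _
  have : Finite (⋃ i, ((f i).coeffs : Set KK) : Set KK) := hS.to_subtype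
  have : FiniteDimensional (ZMod 2)
      (IntermediateField.adjoin (ZMod 2) (⋃ i, ((f i).coeffs : Set KK))) :=
    IntermediateField.finiteDimensional_adjoin fun x _ => Algebra.IsIntegral.isIntegral x
  have : Finite (IntermediateField.adjoin (ZMod 2) (⋃ i, ((f i).coeffs : Set KK))) :=
    Module.finite_of_finite (ZMod 2)
  have h : ∀ i, ∃ g : MvPolynomial σ
      (IntermediateField.adjoin (ZMod 2) (⋃ i, ((f i).coeffs : Set KK))),
      MvPolynomial.map (algebraMap _ KK) g = f i := by
    intro i
    have h1 : f i ∈ Set.range (MvPolynomial.map (σ := σ) (algebraMap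
        (IntermediateField.adjoin (ZMod 2) (⋃ i, ((f i).coeffs : Set KK))) KK)) := by
      rw [MvPolynomial.mem_range_map_iff_coeffs_subset]
      intro c hc
      exact ⟨⟨c, IntermediateField.subset_adjoin _ _ (Set.mem_iUnion.2 ⟨i, hc⟩)⟩, rfl⟩
    exact h1
  choose g hg using h
  exact ⟨_, inferInstance, inferInstance, inferInstance, g, hg⟩

end FrD.BCDM
end

section
/-! # MP_921642_ag, FD, module BCU: base change of the ideals -/
set_option autoImplicit false

namespace FrD.BCUM

open MvPolynomial TensorProduct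

lemma map_mem_R {k K : Type} [Field k] [Field K] [Algebra k K] {σ ι : Type} [Fintype σ]
    [DecidableEq ι] (col : σ → ι) (S : ι → ℤ) (p : MvPolynomial σ k) :
    MvPolynomial.map (algebraMap k K) p ∈ R K col S ↔ p ∈ R k col S := by
  rw [mem_R, mem_R]
  refine forall_congr' (fun α => ?_)
  rw [coeff_map, Ne, Ne, map_eq_zero_iff _ (algebraMap k K).injective]

theorem specBCU : SpecBCU := by
  intro k K _ _ _ σ ι τ _ _ col κ f T S
  refine ⟨by simp only [map_mem_R], ?_⟩
  let V : Submodule k (MvPolynomial σ k) := Id col κ f T S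
  let φ : K ⊗[k] V →ₗ[K] MvPolynomial σ K :=
    (algebraTensorAlgEquiv k K).toLinearMap ∘ₗ (V.subtype.baseChange K)
  have hφ : ∀ (c : K) (v : V), φ (c ⊗ₜ v) =
      c • MvPolynomial.map (algebraMap k K) (v : MvPolynomial σ k) := by
    intro c v
    change algebraTensorAlgEquiv k K (c ⊗ₜ[k] (v : MvPolynomial σ k)) = _
    rw [algebraTensorAlgEquiv_tmul]
  have hinj : Function.Injective φ := by
    change Function.Injective (⇑(algebraTensorAlgEquiv k K) ∘ ⇑(V.subtype.baseChange K))
    refine (algebraTensorAlgEquiv k K).injective.comp ?_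
    exact Module.Flat.lTensor_preserves_injective_linearMap (M := K) V.subtype
      V.injective_subtype
  have hr : LinearMap.range φ =
      Id col κ (fun i => MvPolynomial.map (algebraMap k K) (f i)) T S := by
    apply le_antisymm
    · rintro _ ⟨x, rfl⟩
      induction x using TensorProduct.induction_on with
      | zero => rw [map_zero]; exact Submodule.zero_mem _
      | add x y hx hy => rw [map_add]; exact Submodule.add_mem _ hx hy
      | tmul c v =>
        rw [hφ]
        refine Submodule.smul_mem _ c ?_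
        obtain ⟨g, hg, hv⟩ := (mem_Id col κ f T S v).1 v.2
        refine (mem_Id _ _ _ _ _ _).2 ⟨fun i => MvPolynomial.map (algebraMap k K) (g i),
          fun i => (map_mem_R col _ _).2 (hg i), ?_⟩
        rw [hv, map_sum]
        exact Finset.sum_congr rfl (fun i _ => by rw [map_mul])
    · refine iSup₂_le (fun i hi => ?_)
      rintro _ ⟨g, hg, rfl⟩
      have hg' := (mem_R col _ g).1 hg
      rw [LinearMap.mulLeft_apply, ← support_sum_monomial_coeff g, Finset.mul_sum]
      refine Submodule.sum_mem _ (fun α hα => ?_)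
      have h1 : md col α = S - κ i := hg' α (mem_support_iff.1 hα)
      have h2 : f i * monomial α (1 : k) ∈ V := by
        refine f_mul_mem_Id col κ f T hi ?_
        rw [← h1]
        exact monomial_mem_R col α 1
      refine ⟨(coeff α g) ⊗ₜ ⟨_, h2⟩, ?_⟩
      rw [hφ]
      change coeff α g • MvPolynomial.map (algebraMap k K) (f i * monomial α (1 : k)) = _
      rw [map_mul, map_monomial, map_one, ← mul_smul_comm, smul_monomial, smul_eq_mul, mul_one]
  rw [← hr, LinearMap.finrank_range_of_inj hinj]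
  exact Module.finrank_baseChange

end FrD.BCUM
end

section
/-!
# MP_921642_ag, FD, module BLK: fine and coarse colours
-/
set_option autoImplicit false

namespace FrD.BLKM

open MvPolynomial

section

variable {σ ι ι' : Type} [Fintype σ] [Fintype ι] [DecidableEq ι] [Fintype ι'] [DecidableEq ι']

omit [Fintype ι] in
lemma md_push (π : ι' → ι) (col : σ → ι') (α : σ →₀ ℕ) :
    md (π ∘ col) α = push π (md col α) := by
  funext k
  simp only [md, push, Function.comp]
  have h1 : ∀ k' : ι', (if π k' = k then ∑ v, (if col v = k' then (α v : ℤ) else 0) else 0) =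
      ∑ v, (if π k' = k then (if col v = k' then (α v : ℤ) else 0) else 0) := by
    intro k'
    split_ifs <;> simp
  rw [Finset.sum_congr rfl (fun k' _ => h1 k'), Finset.sum_comm]
  refine Finset.sum_congr rfl (fun v _ => ?_)
  rw [Finset.sum_eq_single (col v)]
  · simp
  · intro b _ hb
    rw [if_neg (Ne.symm hb)]
    simp
  · intro h
    exact absurd (Finset.mem_univ _) h

omit [Fintype ι] [DecidableEq ι'] in
lemma push_sub (π : ι' → ι) (A B : ι' → ℤ) : push π (A - B) = push π A - push π B := by
  funext k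
  simp only [push, Pi.sub_apply, ← Finset.sum_sub_distrib]
  exact Finset.sum_congr rfl (fun v _ => by split_ifs <;> simp)

omit [Fintype ι] [DecidableEq ι'] in
lemma push_add (π : ι' → ι) (A B : ι' → ℤ) : push π (A + B) = push π A + push π B := by
  funext k
  simp only [push, Pi.add_apply, ← Finset.sum_add_distrib]
  exact Finset.sum_congr rfl (fun v _ => by split_ifs <;> simp)

omit [Fintype ι] [DecidableEq ι'] in
lemma push_sum {τ : Type} (π : ι' → ι) (κ : τ → ι' → ℤ) (M : Finset τ) :
    push π (∑ i ∈ M, κ i) = ∑ i ∈ M, push π (κ i) := by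
  classical
  induction M using Finset.induction_on with
  | empty =>
    funext k
    simp [push]
  | insert i M hi ih => rw [Finset.sum_insert hi, Finset.sum_insert hi, push_add, ih]

omit [Fintype ι'] in
lemma rr_eq_card (col : σ → ι') (S : ι' → ℤ) : rr col S = (finite_md col S).toFinset.card := by
  rw [rr, ← Set.ncard_eq_toFinset_card _ (finite_md col S), ← Nat.card_coe_set_eq]
  rfl

lemma rr_push (π : ι' → ι) (col : σ → ι') (S : ι → ℤ) :
    rr (π ∘ col) S = ∑ S' ∈ fib π S, rr col S' := by
  classical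
  have h0 : rr (π ∘ col) S = (finite_md (π ∘ col) S).toFinset.card := rr_eq_card (π ∘ col) S
  rw [h0, Finset.card_eq_sum_card_fiberwise (f := md col) (t := fib π S)]
  · refine Finset.sum_congr rfl (fun S' hS' => ?_)
    rw [rr_eq_card]
    congr 1
    ext α
    simp only [Finset.mem_filter, Set.Finite.mem_toFinset, Set.mem_ofPred_eq]
    constructor
    · exact fun h => h.2
    · intro h
      refine ⟨?_, h⟩
      rw [md_push, h]
      exact ((mem_fib π S S').1 hS').2
  · intro α hα
    have hα' : md (π ∘ col) α = S := by simpa using hα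
    simp only [Finset.mem_coe]
    rw [mem_fib]
    exact ⟨md_nonneg col α, by rw [← md_push]; exact hα'⟩

lemma rr_shift (π : ι' → ι) (col : σ → ι') (S : ι → ℤ) (K : ι' → ℤ) (hK : 0 ≤ K) :
    rr (π ∘ col) (S - push π K) = ∑ S' ∈ fib π S, rr col (S' - K) := by
  rw [rr_push]
  symm
  refine Finset.sum_bij_ne_zero (fun S' _ _ => S' - K) ?_ ?_ ?_ ?_
  · intro S' hS' hne
    rw [mem_fib]
    refine ⟨?_, ?_⟩
    · by_contra h
      exact hne (rr_neg col h)
    · rw [push_sub, ((mem_fib π S S').1 hS').2]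
  · intro A _ _ B _ _ h
    exact sub_left_injective h
  · intro U hU _
    have hU' := (mem_fib π _ U).1 hU
    refine ⟨U + K, ?_, ?_, ?_⟩
    · rw [mem_fib]
      refine ⟨add_nonneg hU'.1 hK, ?_⟩
      rw [push_add, hU'.2, sub_add_cancel]
    · rwa [add_sub_cancel_right]
    · rw [add_sub_cancel_right]
  · intro S' _ _
    rfl

omit [Fintype ι] in
lemma R_push (F : Type) [Field F] (π : ι' → ι) (col : σ → ι') (S' : ι' → ℤ) :
    R F col S' ≤ R F (π ∘ col) (push π S') := by
  intro p hp
  rw [mem_R] at hp ⊢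
  intro α hα
  rw [md_push, hp α hα]

omit [Fintype ι] in
lemma Id_push {F : Type} [Field F] {τ : Type} (π : ι' → ι) (col : σ → ι') (κ : τ → ι' → ℤ)
    (f : τ → MvPolynomial σ F) (T : Finset τ) (S' : ι' → ℤ) :
    Id col κ f T S' ≤ Id (π ∘ col) (fun i => push π (κ i)) f T (push π S') := by
  refine iSup₂_mono (fun i _ => Submodule.map_mono ?_)
  have h := R_push F π col (S' - κ i)
  rwa [push_sub] at h

end

lemma sum_finrank_le {F V β : Type} [Field F] [AddCommGroup V] [Module F V] (s : Finset β)
    (A : β → Submodule F V) (B : Submodule F V) [∀ b, Module.Finite F (A b)] [Module.Finite F B]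
    (hle : ∀ b ∈ s, A b ≤ B) (P : β → V →ₗ[F] V) (hP : ∀ b ∈ s, ∀ x ∈ A b, P b x = x)
    (hP' : ∀ b ∈ s, ∀ c ∈ s, c ≠ b → ∀ x ∈ A c, P b x = 0) :
    ∑ b ∈ s, Module.finrank F (A b) ≤ Module.finrank F B := by
  classical
  let Φ : ((b : s) → A b.1) →ₗ[F] B :=
    ∑ b : s, (Submodule.inclusion (hle b.1 b.2)) ∘ₗ (LinearMap.proj b)
  have hΦ : ∀ x, (Φ x : V) = ∑ b : s, (x b : V) := by
    intro x
    simp only [Φ, LinearMap.sum_apply, LinearMap.comp_apply, LinearMap.proj_apply]
    rw [Submodule.coe_sum]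
    rfl
  have hinj : Function.Injective Φ := by
    rw [← LinearMap.ker_eq_bot, LinearMap.ker_eq_bot']
    intro x hx
    funext b
    have h0 : ∑ c : s, (x c : V) = 0 := by
      rw [← hΦ, hx]
      rfl
    have h4 := congrArg (P b.1) h0
    rw [map_sum, map_zero, Finset.sum_eq_single b] at h4
    · rw [hP b.1 b.2 _ (x b).2] at h4
      exact Subtype.ext h4
    · intro c _ hne
      exact hP' b.1 b.2 c.1 c.2 (fun h => hne (Subtype.ext h)) _ (x c).2
    · intro h
      exact absurd (Finset.mem_univ _) h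
  have h5 := LinearMap.finrank_le_finrank_of_injective hinj
  rw [Module.finrank_pi_fintype] at h5
  rw [← Finset.sum_coe_sort s (fun b => Module.finrank F (A b))]
  exact h5

theorem specBLK : SpecBLK := by
  intro F _ σ ι ι' τ _ _ _ _ _ π col κ f T S hf hκ
  classical
  have h1 : rr (π ∘ col) S = ∑ S' ∈ fib π S, rr col S' := rr_push π col S
  have h2 : E (π ∘ col) (fun i => push π (κ i)) T S = ∑ S' ∈ fib π S, E col κ T S' := by
    simp only [E]
    rw [Finset.sum_comm]
    refine Finset.sum_congr rfl (fun M hM => ?_)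
    rw [← Finset.mul_sum, ← push_sum, rr_shift π col S (∑ i ∈ M, κ i)
      (Finset.sum_nonneg (fun i hi => hκ i (Finset.mem_powerset.1 hM hi)))]
    rw [Nat.cast_sum]
  have h3 : ∑ S' ∈ fib π S, Module.finrank F (Id col κ f T S') ≤
      Module.finrank F (Id (π ∘ col) (fun i => push π (κ i)) f T S) := by
    refine sum_finrank_le (fib π S) (fun S' => Id col κ f T S') _ ?_ (fun S' => pr F col S') ?_ ?_
    · intro S' hS'
      have h := Id_push π col κ f T S'
      rwa [((mem_fib π S S').1 hS').2] at h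
    · intro S' _ x hx
      exact pr_of_mem col (Id_le_R col κ f T hf S' hx)
    · intro S' _ S'' _ hne x hx
      exact pr_of_mem_ne col (Id_le_R col κ f T hf S'' hx) hne
  refine ⟨h1, h2, h3, ?_, R_push F π col⟩
  simp only [dq]
  rw [h1, Finset.sum_sub_distrib, Nat.cast_sum]
  have h6 : ((∑ S' ∈ fib π S, Module.finrank F (Id col κ f T S') : ℕ) : ℤ) ≤
      (Module.finrank F (Id (π ∘ col) (fun i => push π (κ i)) f T S) : ℤ) := by
    exact_mod_cast h3
  rw [Nat.cast_sum] at h6
  exact sub_le_sub_left h6 _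

end FrD.BLKM
end

section
/-!
# MP_921642_ag, FD, module BLX: from fine to coarse colours
-/
set_option autoImplicit false

namespace FrD.BLXM

open MvPolynomial FrD

lemma push_mono {ι' ι : Type} [Fintype ι'] [DecidableEq ι] (π : ι' → ι) {S S' : ι' → ℤ} (h : S ≤ S') :
    push π S ≤ push π S' := by
  intro k
  unfold push
  refine Finset.sum_le_sum fun k' _ => ?_
  split_ifs
  · exact h k'
  · exact le_rfl

lemma push_nonneg {ι' ι : Type} [Fintype ι'] [DecidableEq ι] (π : ι' → ι) {S : ι' → ℤ} (h : 0 ≤ S) :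
    0 ≤ push π S := by
  intro k
  unfold push
  refine Finset.sum_nonneg fun k' _ => ?_
  split_ifs
  · exact h k'
  · exact le_rfl

lemma ind_image_le {ι' ι : Type} [Fintype ι'] [DecidableEq ι'] [DecidableEq ι] (π : ι' → ι)
    (J : Finset ι') : ind (J.image π) ≤ push π (ind J) := by
  intro k
  by_cases hk : k ∈ J.image π
  · obtain ⟨k', hk', rfl⟩ := Finset.mem_image.1 hk
    have h1 := le_push π (ind_nonneg J) k'
    have h2 : ind J k' = 1 := if_pos hk'
    have h3 : ind (J.image π) (π k') = 1 := if_pos hk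
    rw [h3, ← h2]
    exact h1
  · have h3 : ind (J.image π) k = 0 := if_neg hk
    rw [h3]
    exact push_nonneg π (ind_nonneg J) k

lemma push_ind {ι' ι : Type} [Fintype ι'] [DecidableEq ι'] [DecidableEq ι] (π : ι' → ι)
    (J : Finset ι') (hJ : Set.InjOn π J) : push π (ind J) = ind (J.image π) := by
  funext k
  by_cases hk : k ∈ J.image π
  · obtain ⟨k0, hk0, rfl⟩ := Finset.mem_image.1 hk
    have h3 : ind (J.image π) (π k0) = 1 := if_pos hk
    rw [h3]
    unfold push
    rw [Finset.sum_eq_single k0]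
    · rw [if_pos rfl]
      exact if_pos hk0
    · intro b _ hb
      split_ifs with h
      · refine if_neg fun hbJ => hb (hJ hbJ hk0 h)
      · rfl
    · intro h
      exact absurd (Finset.mem_univ _) h
  · have h3 : ind (J.image π) k = 0 := if_neg hk
    rw [h3]
    unfold push
    refine Finset.sum_eq_zero fun b _ => ?_
    split_ifs with h
    · refine if_neg fun hbJ => hk (Finset.mem_image.2 ⟨b, hbJ, h⟩)
    · rfl

theorem specBLX (hBLK : SpecBLK) (hCOM2 : SpecCOM2) (hFIBL : SpecFIBL) : SpecBLX := by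
  classical
  intro F _ _ ι ι' _ _ _ _ π N w N' w' S hπ hN hw hXX σ τ _ _ col κ hcol hne hκ
  obtain ⟨-, hF2, hF3⟩ := hFIBL
  -- the fine colouring
  obtain ⟨col', hcol', hNc⟩ := hF2 σ ι' ι col π N' {k | 0 < S k} (fun x => hπ (col x)) (by
    intro k hk
    exact (hN k hk).trans (hcol k hk))
  -- the fine relations
  obtain ⟨κ0, hκ0, hwc⟩ := hF3 τ {J' : Finset ι' // (J'.image π).card = J'.card} (Finset ι) κ
    (fun J' => J'.1.image π) (fun J' => w' J'.1) {J | ind J ≤ S} (by
      intro x
      obtain ⟨s, hs⟩ := hπ.hasRightInverse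
      have h1 : ((κ x).image s).image π = κ x := by
        rw [Finset.image_image]
        have h2 : π ∘ s = id := funext hs
        rw [h2, Finset.image_id]
      refine ⟨⟨(κ x).image s, ?_⟩, h1⟩
      rw [h1, Finset.card_image_of_injective _ hs.injective]) (by
      intro J hJ
      refine ((hκ J hJ).trans (hw J hJ)).trans ?_
      rw [← Finset.sum_subtype (Finset.univ.filter fun J' : Finset ι' => (J'.image π).card = J'.card)
        (p := fun J' : Finset ι' => (J'.image π).card = J'.card) (by simp)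
        (fun J' => if J'.image π = J then w' J' else 0), Finset.sum_filter]
      refine Finset.sum_le_sum fun J' _ => ?_
      by_cases h1 : J'.image π = J ∧ J'.card = J.card
      · rw [if_pos h1, if_pos (by rw [h1.1, h1.2]), if_pos h1.1]
      · rw [if_neg h1]
        exact Nat.zero_le _)
  obtain ⟨κ', hκ'⟩ : ∃ κ' : τ → Finset ι', κ' = fun i => (κ0 i).1 := ⟨_, rfl⟩
  have him : ∀ i, (κ' i).image π = κ i := by
    intro i
    rw [hκ']
    exact hκ0 i
  have hcard : ∀ i, ((κ' i).image π).card = (κ' i).card := by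
    intro i
    rw [hκ']
    exact (κ0 i).2
  have hinj : ∀ i, Set.InjOn π (κ' i) := fun i => Finset.card_image_iff.1 (hcard i)
  have hne' : ∀ i, (κ' i).Nonempty := by
    intro i
    have h1 := hne i
    rw [← him i] at h1
    exact Finset.image_nonempty.1 h1
  -- the finite set
  obtain ⟨f, hf1, hf2⟩ := hCOM2 F σ ι' τ col' (fun i => ind (κ' i))
    ((Fintype.piFinset (fun k' => Finset.Icc 0 (S (π k')))).filter (fun S' => push π S' ≤ S))
    (fun i => ind_nonneg _) (by
      intro S' hS'
      rw [Finset.mem_filter, Fintype.mem_piFinset] at hS'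
      obtain ⟨h0, hS⟩ := hS'
      have h0' : 0 ≤ S' := fun k' => (Finset.mem_Icc.1 (h0 k')).1
      refine hXX S' h0' hS σ τ col' κ' ?_ hne' ?_
      · intro k' hk'
        refine hNc k' ?_
        exact hk'.trans_le ((le_push π h0' k').trans (hS (π k')))
      · intro J' hJ'
        by_cases hc : (J'.image π).card = J'.card
        · refine le_trans (le_of_eq ?_) (hwc ⟨J', hc⟩ ?_)
          · refine Nat.card_congr (Equiv.subtypeEquivRight fun i => ?_)
            rw [hκ', Subtype.ext_iff]
          · exact (ind_image_le π J').trans ((push_mono π hJ').trans hS)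
        · have h1 : IsEmpty {i // κ' i = J'} := by
            refine ⟨?_⟩
            rintro ⟨i, rfl⟩
            exact hc (hcard i)
          rw [Nat.card_of_isEmpty]
          exact Nat.zero_le _)
  have hpush : ∀ i, push π (ind (κ' i)) = ind (κ i) := by
    intro i
    rw [push_ind π _ (hinj i), him i]
  have hcc : π ∘ col' = col := funext hcol'
  refine ⟨f, ?_, ?_⟩
  · intro i
    obtain ⟨-, -, -, -, h5⟩ := hBLK F σ ι ι' τ π col' (fun i => ind (κ' i)) f Finset.univ 0
      (fun i _ => hf1 i) (fun i _ => ind_nonneg _)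
    have h6 := h5 (ind (κ' i)) (hf1 i)
    rwa [hcc, hpush] at h6
  · intro S1 hS1
    obtain ⟨-, h2, -, h4, -⟩ := hBLK F σ ι ι' τ π col' (fun i => ind (κ' i)) f Finset.univ S1
      (fun i _ => hf1 i) (fun i _ => ind_nonneg _)
    have e1 : (fun i => push π (ind (κ' i))) = fun i => ind (κ i) := funext hpush
    rw [hcc] at h2 h4
    simp only [hpush] at h2 h4
    rw [h2]
    refine h4.trans (Finset.sum_le_sum fun S' hS' => ?_)
    rw [mem_fib] at hS'
    refine hf2 S' ?_ S' le_rfl
    rw [Finset.mem_filter, Fintype.mem_piFinset]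
    have h5 : push π S' ≤ S := by
      rw [hS'.2]
      exact hS1
    refine ⟨fun k' => Finset.mem_Icc.2 ⟨hS'.1 k', ?_⟩, h5⟩
    exact (le_push π hS'.1 k').trans (h5 (π k'))

end FrD.BLXM
end

section
/-!
# MP_921642_ag, FD, module COMB

Finitely many rank conditions on the ideals of systems of forms, each of which can be satisfied, can be satisfied
simultaneously.
-/
set_option autoImplicit false

namespace FrD.COMBM

open MvPolynomial

section

variable {σ ι τ : Type} [Fintype σ] [DecidableEq ι] [Fintype τ] {F : Type} [Field F]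

/-- the parameters: families of forms of multidegrees `κ i` -/
abbrev PP (F : Type) [Field F] (col : σ → ι) (κ : τ → ι → ℤ) : Type := ∀ i : τ, R F col (κ i)

/-- `(f, g) ↦ ∑ f_i g_i` -/
noncomputable def psi (col : σ → ι) (κ : τ → ι → ℤ) (S : ι → ℤ) :
    PP F col κ →ₗ[F] (PP F col (fun i => S - κ i) →ₗ[F] MvPolynomial σ F) :=
  LinearMap.mk₂ F (fun f g => ∑ i, (f i : MvPolynomial σ F) * (g i : MvPolynomial σ F))
    (fun f f' g => by
      simp only [Pi.add_apply, Submodule.coe_add, add_mul, Finset.sum_add_distrib])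
    (fun c f g => by
      simp only [Pi.smul_apply, Submodule.coe_smul, Algebra.smul_mul_assoc, Finset.smul_sum])
    (fun f g g' => by
      simp only [Pi.add_apply, Submodule.coe_add, mul_add, Finset.sum_add_distrib])
    (fun c f g => by
      simp only [Pi.smul_apply, Submodule.coe_smul, Algebra.mul_smul_comm, Finset.smul_sum])

lemma psi_apply (col : σ → ι) (κ : τ → ι → ℤ) (S : ι → ℤ) (f : PP F col κ)
    (g : PP F col (fun i => S - κ i)) :
    psi col κ S f g = ∑ i, (f i : MvPolynomial σ F) * (g i : MvPolynomial σ F) := rfl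

lemma range_psi (col : σ → ι) (κ : τ → ι → ℤ) (S : ι → ℤ) (f : PP F col κ) :
    LinearMap.range (psi col κ S f) = Id col κ (fun i => (f i : MvPolynomial σ F)) Finset.univ S := by
  ext p
  rw [LinearMap.mem_range, mem_Id]
  constructor
  · rintro ⟨g, rfl⟩
    exact ⟨fun i => (g i : MvPolynomial σ F), fun i => (g i).2, rfl⟩
  · rintro ⟨g, hg, rfl⟩
    exact ⟨fun i => ⟨g i, hg i⟩, rfl⟩

end

theorem specCOMB (hGPX : SpecGPX) : SpecCOMB := by
  intro F _ _ σ ι τ _ _ _ col κ 𝒮 ρ h
  obtain ⟨v, hv⟩ := hGPX F (PP F col κ) {S // S ∈ 𝒮} (fun l => PP F col (fun i => l.1 - κ i))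
    (fun _ => MvPolynomial σ F) (fun l => psi col κ l.1) (fun l => ρ l.1) (fun l => by
      obtain ⟨f, hf, hr⟩ := h l.1 l.2
      refine ⟨fun i => ⟨f i, hf i⟩, ?_⟩
      rw [range_psi]
      exact hr)
  refine ⟨fun i => (v i : MvPolynomial σ F), fun i => (v i).2, fun S hS => ?_⟩
  have h1 := hv ⟨S, hS⟩
  rw [range_psi] at h1
  exact h1

end FrD.COMBM
end

section
/-!
# MP_921642_ag, FD, modules COM2 and COM3 (file COMT, since COM2 is not allowed as a file name)

Exactness in finitely many multidegrees, each of which can be achieved, can be achieved simultaneously.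
-/
set_option autoImplicit false

namespace FrD.COM2M

open MvPolynomial FrD

/-- COMB in terms of `dq` and `E` -/
lemma common (hCOMB : SpecCOMB) {F : Type} [Field F] [Infinite F] {σ ι τ : Type} [Fintype σ]
    [DecidableEq ι] [Fintype τ] (col : σ → ι) (κ : τ → ι → ℤ) (𝒯 : Finset (ι → ℤ))
    (h : ∀ S ∈ 𝒯, ∃ f : τ → MvPolynomial σ F, (∀ i, f i ∈ R F col (κ i)) ∧
      dq col κ f Finset.univ S ≤ E col κ Finset.univ S) :
    ∃ f : τ → MvPolynomial σ F, (∀ i, f i ∈ R F col (κ i)) ∧
      ∀ S ∈ 𝒯, dq col κ f Finset.univ S ≤ E col κ Finset.univ S := by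
  obtain ⟨f, hf, hr⟩ := hCOMB F σ ι τ col κ 𝒯
    (fun S => ((rr col S : ℤ) - E col κ Finset.univ S).toNat) (fun S hS => by
      obtain ⟨f, hf, hd⟩ := h S hS
      refine ⟨f, hf, ?_⟩
      rw [Int.toNat_le]
      unfold dq at hd
      linarith)
  refine ⟨f, hf, fun S hS => ?_⟩
  have h1 := hr S hS
  rw [Int.toNat_le] at h1
  unfold dq
  linarith

theorem specCOM2 (hCOMB : SpecCOMB) : SpecCOM2 := by
  classical
  intro F _ _ σ ι τ _ _ _ _ col κ 𝒮 hκ h
  obtain ⟨f, hf, hd⟩ := common hCOMB col κ
    (𝒮.biUnion (fun S => Fintype.piFinset (fun k => Finset.Icc 0 (S k)))) (by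
      intro S' hS'
      obtain ⟨S, hS, hS''⟩ := Finset.mem_biUnion.1 hS'
      obtain ⟨f, hf, hE⟩ := h S hS
      exact ⟨f, hf, hE S' (fun k => (Finset.mem_Icc.1 (Fintype.mem_piFinset.1 hS'' k)).2)⟩)
  refine ⟨f, hf, fun S hS S' hS' => ?_⟩
  by_cases h0 : 0 ≤ S'
  · exact hd S' (Finset.mem_biUnion.2 ⟨S, hS, Fintype.mem_piFinset.2
      fun k => Finset.mem_Icc.2 ⟨h0 k, hS' k⟩⟩)
  · rw [dq_neg col κ f _ (fun i _ => hf i) h0, E_neg col κ _ (fun i _ => hκ i) h0]

theorem specCOM3 (hCOMB : SpecCOMB) : SpecCOM3 := by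
  classical
  intro F _ _ σ ι τ _ _ _ _ col κ S hκ h
  obtain ⟨f, hf, hd⟩ := common hCOMB col κ
    (Fintype.piFinset (fun k => Finset.Icc 0 (S k))) (by
      intro S' hS'
      have h1 := Fintype.mem_piFinset.1 hS'
      exact h S' (fun k => (Finset.mem_Icc.1 (h1 k)).2) (fun k => (Finset.mem_Icc.1 (h1 k)).1))
  refine ⟨f, hf, fun S' hS' => ?_⟩
  by_cases h0 : 0 ≤ S'
  · exact hd S' (Fintype.mem_piFinset.2 fun k => Finset.mem_Icc.2 ⟨h0 k, hS' k⟩)
  · rw [dq_neg col κ f _ (fun i _ => hf i) h0, E_neg col κ _ (fun i _ => hκ i) h0]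

end FrD.COM2M
end

section
set_option autoImplicit false

/-!
# MP_921642_ag, FD: module D1 (helper15)
-/

namespace FrD.D1M

open MvPolynomial

variable {F : Type} [Field F] {σ ι τ : Type} [Fintype σ] [DecidableEq ι]

/-- the kernel of `f_i` modulo the ideal of `T` -/
noncomputable def K (col : σ → ι) (κ : τ → ι → ℤ) (f : τ → MvPolynomial σ F) (T : Finset τ)
    (S : ι → ℤ) (i : τ) : Submodule F (MvPolynomial σ F) :=
  R F col (S - κ i) ⊓ (Id col κ f T S).comap (LinearMap.mulLeft F (f i))

lemma mem_K (col : σ → ι) (κ : τ → ι → ℤ) (f : τ → MvPolynomial σ F) (T : Finset τ)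
    (S : ι → ℤ) (i : τ) (g : MvPolynomial σ F) :
    g ∈ K col κ f T S i ↔ g ∈ R F col (S - κ i) ∧ f i * g ∈ Id col κ f T S := Iff.rfl

/-- dimension of a subspace containing `A` -/
lemma finrank_over {V : Type} [AddCommGroup V] [Module F V] (A W : Submodule F V) (h : A ≤ W)
    [Module.Finite F W] :
    Module.finrank F W = Module.finrank F (W.map A.mkQ) + Module.finrank F A := by
  have h1 := LinearMap.finrank_range_add_finrank_ker (A.mkQ.comp W.subtype)
  rw [LinearMap.range_comp, Submodule.range_subtype, LinearMap.ker_comp, Submodule.ker_mkQ] at h1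
  rw [← h1, (Submodule.comapSubtypeEquivOfLe h).finrank_eq]

lemma finrank_insert [DecidableEq τ] (col : σ → ι) (κ : τ → ι → ℤ) (f : τ → MvPolynomial σ F)
    (T : Finset τ) (S : ι → ℤ) (i : τ) :
    Module.finrank F (Id col κ f (insert i T) S) + Module.finrank F (K col κ f T S i) =
      Module.finrank F (Id col κ f T S) + rr col (S - κ i) := by
  have hA : Id col κ f T S ≤ Id col κ f (insert i T) S :=
    Id_mono col κ f (Finset.subset_insert i T) S
  have h1 := finrank_over (Id col κ f T S) (Id col κ f (insert i T) S) hA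
  have h2 : (Id col κ f (insert i T) S).map (Id col κ f T S).mkQ =
      LinearMap.range (((Id col κ f T S).mkQ.comp (LinearMap.mulLeft F (f i))).comp
        (R F col (S - κ i)).subtype) := by
    rw [Id_insert, Submodule.map_sup, Submodule.mkQ_map_self, bot_sup_eq,
      LinearMap.range_comp, Submodule.range_subtype, Submodule.map_comp]
  have h3 := LinearMap.finrank_range_add_finrank_ker
    (((Id col κ f T S).mkQ.comp (LinearMap.mulLeft F (f i))).comp (R F col (S - κ i)).subtype)
  rw [← h2, finrank_R] at h3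
  have h4 : Module.finrank F (LinearMap.ker
      (((Id col κ f T S).mkQ.comp (LinearMap.mulLeft F (f i))).comp
        (R F col (S - κ i)).subtype)) = Module.finrank F (K col κ f T S i) := by
    rw [LinearMap.ker_comp, LinearMap.ker_comp, Submodule.ker_mkQ]
    have h5 : (K col κ f T S i) ≤ R F col (S - κ i) := inf_le_left
    rw [← (Submodule.comapSubtypeEquivOfLe h5).finrank_eq]
    have h6 : Submodule.comap (R F col (S - κ i)).subtype
        (Submodule.comap (LinearMap.mulLeft F (f i)) (Id col κ f T S)) =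
        Submodule.comap (R F col (S - κ i)).subtype (K col κ f T S i) := by
      ext x
      simp [K]
    rw [h6]
  omega

instance finite_K (col : σ → ι) (κ : τ → ι → ℤ) (f : τ → MvPolynomial σ F) (T : Finset τ)
    (S : ι → ℤ) (i : τ) : Module.Finite F (K col κ f T S i) :=
  Module.Finite.of_injective (Submodule.inclusion (inf_le_left :
    K col κ f T S i ≤ R F col (S - κ i))) (Submodule.inclusion_injective _)

lemma Id_le_K (col : σ → ι) (κ : τ → ι → ℤ) (f : τ → MvPolynomial σ F) (T : Finset τ)
    (hf : ∀ j ∈ T, f j ∈ R F col (κ j)) (S : ι → ℤ) (i : τ) (hi : f i ∈ R F col (κ i)) :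
    Id col κ f T (S - κ i) ≤ K col κ f T S i := by
  intro g hg
  rw [mem_K]
  refine ⟨Id_le_R col κ f T hf _ hg, ?_⟩
  have := mul_mem_Id col κ f T hi hg
  rwa [sub_add_cancel] at this

/-- the difference between the dimension and the expected dimension -/
noncomputable def hh (col : σ → ι) (κ : τ → ι → ℤ) (f : τ → MvPolynomial σ F) (S : ι → ℤ)
    (T : Finset τ) : ℤ := dq col κ f T S - E col κ T S

lemma hh_insert [DecidableEq τ] (col : σ → ι) (κ : τ → ι → ℤ) (f : τ → MvPolynomial σ F)
    (T : Finset τ) (S : ι → ℤ) (i : τ) (hiT : i ∉ T)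
    (h0 : dq col κ f T (S - κ i) = E col κ T (S - κ i)) :
    hh col κ f S (insert i T) = hh col κ f S T +
      ((Module.finrank F (K col κ f T S i) : ℤ) -
        Module.finrank F (Id col κ f T (S - κ i))) := by
  have h1 := finrank_insert col κ f T S i
  simp only [hh]
  rw [E_insert col κ T S i hiT, ← h0]
  simp only [dq]
  have h2 : (Module.finrank F (Id col κ f (insert i T) S) : ℤ) +
      Module.finrank F (K col κ f T S i) =
      Module.finrank F (Id col κ f T S) + rr col (S - κ i) := by exact_mod_cast h1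
  linarith

lemma hh_le_insert [DecidableEq τ] (col : σ → ι) (κ : τ → ι → ℤ) (f : τ → MvPolynomial σ F)
    (T : Finset τ) (hf : ∀ j ∈ T, f j ∈ R F col (κ j)) (S : ι → ℤ) (i : τ)
    (hi : f i ∈ R F col (κ i)) (hiT : i ∉ T)
    (h0 : dq col κ f T (S - κ i) = E col κ T (S - κ i)) :
    hh col κ f S T ≤ hh col κ f S (insert i T) := by
  rw [hh_insert col κ f T S i hiT h0]
  have h1 := Submodule.finrank_mono (Id_le_K col κ f T hf S i hi)
  have h2 : (Module.finrank F (Id col κ f T (S - κ i)) : ℤ) ≤
      Module.finrank F (K col κ f T S i) := by exact_mod_cast h1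
  linarith

lemma hh_mono (col : σ → ι) (κ : τ → ι → ℤ) (f : τ → MvPolynomial σ F) (T : Finset τ)
    (hf : ∀ j ∈ T, f j ∈ R F col (κ j)) (S : ι → ℤ)
    (h0 : ∀ T' ⊆ T, ∀ i ∈ T, dq col κ f T' (S - κ i) = E col κ T' (S - κ i)) :
    ∀ T'' ⊆ T, ∀ T' ⊆ T'', hh col κ f S T' ≤ hh col κ f S T'' := by
  classical
  have key : ∀ D : Finset τ, ∀ T' : Finset τ, T' ∪ D ⊆ T →
      hh col κ f S T' ≤ hh col κ f S (T' ∪ D) := by
    intro D
    induction D using Finset.induction_on with
    | empty => intro T' _; simp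
    | insert i D _ ih =>
      intro T' hT
      have hsub : T' ∪ D ⊆ T := fun x hx => hT (by
        rw [Finset.mem_union] at hx ⊢
        rcases hx with hx | hx
        · exact Or.inl hx
        · exact Or.inr (Finset.mem_insert_of_mem hx))
      have hiT : i ∈ T := hT (Finset.mem_union_right _ (Finset.mem_insert_self _ _))
      refine (ih T' hsub).trans ?_
      rw [Finset.union_insert]
      by_cases hi : i ∈ T' ∪ D
      · rw [Finset.insert_eq_of_mem hi]
      · exact hh_le_insert col κ f _ (fun j hj => hf j (hsub hj)) S i (hf i hiT) hi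
          (h0 _ hsub i hiT)
  intro T'' hT'' T' hT'
  have h1 := key T'' T' (by rwa [Finset.union_eq_right.2 hT'])
  rwa [Finset.union_eq_right.2 hT'] at h1

lemma hh_zero (col : σ → ι) (κ : τ → ι → ℤ) (f : τ → MvPolynomial σ F) (T : Finset τ)
    (hf : ∀ j ∈ T, f j ∈ R F col (κ j)) (S : ι → ℤ)
    (h0 : ∀ T' ⊆ T, ∀ i ∈ T, dq col κ f T' (S - κ i) = E col κ T' (S - κ i))
    (hE : dq col κ f T S ≤ E col κ T S) :
    ∀ T' ⊆ T, hh col κ f S T' = 0 := by
  intro T' hT'
  have h1 := hh_mono col κ f T hf S h0 T' hT' ∅ (Finset.empty_subset _)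
  have h2 := hh_mono col κ f T hf S h0 T (Finset.Subset.refl _) T' hT'
  have h3 : hh col κ f S ∅ = 0 := by
    simp only [hh]
    rw [dq_empty, E_empty]
    ring
  have h4 : hh col κ f S T ≤ 0 := by
    simp only [hh]
    linarith
  linarith

end FrD.D1M

namespace FrD.D1M

open MvPolynomial

lemma main_aux {F : Type} [Field F] {σ ι τ : Type} [Fintype σ] [Fintype ι] [DecidableEq ι]
    (col : σ → ι) (κ : τ → ι → ℤ) (f : τ → MvPolynomial σ F) (T : Finset τ) (S : ι → ℤ)
    (hS : Sy col κ f T) (hE : Ex col κ f T S) : ∀ n : ℕ, ∀ S' ≤ S, ∑ k, S' k < (n : ℤ) →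
    ∀ T' ⊆ T, dq col κ f T' S' = E col κ T' S' := by
  have hneg : ∀ S' : ι → ℤ, ¬ 0 ≤ S' → ∀ T' ⊆ T, dq col κ f T' S' = E col κ T' S' := by
    intro S' h0 T' hT'
    rw [dq_neg col κ f T' (fun i hi => (hS i (hT' hi)).1) h0,
      E_neg col κ T' (fun i hi => (hS i (hT' hi)).2.1) h0]
  intro n
  induction n with
  | zero =>
    intro S' _ hn
    refine hneg S' (fun h0 => ?_)
    have : 0 ≤ ∑ k, S' k := Finset.sum_nonneg (fun k _ => h0 k)
    simp only [Nat.cast_zero] at hn
    omega
  | succ n ih =>
    intro S' hS' hn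
    by_cases hp : 0 ≤ S'
    swap
    · exact hneg S' hp
    have h0 : ∀ T' ⊆ T, ∀ i ∈ T, dq col κ f T' (S' - κ i) = E col κ T' (S' - κ i) := by
      intro T' hT' i hi
      have hk := (hS i hi).2.1
      have hk0 := (hS i hi).2.2
      refine ih (S' - κ i) ((sub_le_self _ hk).trans hS') ?_ T' hT'
      have h1 : 0 < ∑ k, κ i k := by
        refine lt_of_le_of_ne (Finset.sum_nonneg (fun k _ => hk k)) (fun h => hk0 ?_)
        funext k
        exact (Finset.sum_eq_zero_iff_of_nonneg (fun k _ => hk k)).1 h.symm k (Finset.mem_univ k)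
      simp only [Pi.sub_apply, Finset.sum_sub_distrib]
      push_cast at hn
      omega
    intro T' hT'
    have h1 := hh_zero col κ f T (fun j hj => (hS j hj).1) S' h0 (hE S' hS') T' hT'
    simp only [hh] at h1
    linarith

theorem specD1 : SpecD1 := by
  intro F _ σ ι τ _ _ _ col κ f T S hS hE
  have hA : ∀ T' ⊆ T, ∀ S' ≤ S, dq col κ f T' S' = E col κ T' S' := by
    intro T' hT' S' hS'
    refine main_aux col κ f T S hS hE ((∑ k, S' k).toNat + 1) S' hS' ?_ T' hT'
    push_cast
    have := Int.self_le_toNat (∑ k, S' k)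
    omega
  refine ⟨hA, ?_⟩
  classical
  intro T' hT' i hi hiT' S' hS' g hg hfg
  have hk := (hS i hi).2.1
  have hS2 : S' - κ i ≤ S := (sub_le_self _ hk).trans hS'
  have h0 := hA T' hT' (S' - κ i) hS2
  have h1 := hh_insert col κ f T' S' i hiT' h0
  have hins : insert i T' ⊆ T := Finset.insert_subset hi hT'
  have h2 : hh col κ f S' (insert i T') = 0 := by
    simp only [hh]; rw [hA _ hins S' hS']; ring
  have h3 : hh col κ f S' T' = 0 := by
    simp only [hh]; rw [hA _ hT' S' hS']; ring
  rw [h2, h3] at h1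
  have hle := Id_le_K col κ f T' (fun j hj => (hS j (hT' hj)).1) S' i (hS i hi).1
  have h4 : Module.finrank F (Id col κ f T' (S' - κ i)) =
      Module.finrank F (K col κ f T' S' i) := by
    have : (Module.finrank F (Id col κ f T' (S' - κ i)) : ℤ) =
      Module.finrank F (K col κ f T' S' i) := by linarith
    exact_mod_cast this
  have h5 := Submodule.eq_of_le_of_finrank_eq hle h4
  rw [h5, mem_K]
  exact ⟨hg, hfg⟩

end FrD.D1M
end

section
/-!
# MP_921642_ag, FD: module EMB
-/
set_option autoImplicit false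

namespace FrD.EMBM

open MvPolynomial FrD

/-- EXT and TRIM together. -/
lemma ext_trim (hext : SpecEXT) (htrim : SpecTRIM) (F : Type) [Field F] (σ ι τ : Type) [Fintype σ]
    [Fintype ι] [DecidableEq ι] [Fintype τ] (col : σ → ι) (κ : τ → Finset ι) (S : ι → ℤ)
    (pv : σ → Prop) (qi : τ → Prop) [DecidablePred pv] [DecidablePred qi]
    (hne : ∀ i, (κ i).Nonempty) (hq : ∀ i, ¬ qi i → ¬ ind (κ i) ≤ S)
    (f1 : {i // qi i} → MvPolynomial {v // pv v} F)
    (h1 : ∀ i : {i // qi i}, f1 i ∈ R F (fun v : {v // pv v} => col v.1) (ind (κ i.1)))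
    (h2 : Ex (fun v : {v // pv v} => col v.1) (fun i : {i // qi i} => ind (κ i.1)) f1
      Finset.univ S) :
    ∃ f : τ → MvPolynomial σ F, (∀ i, f i ∈ R F col (ind (κ i))) ∧
      Ex col (fun i => ind (κ i)) f Finset.univ S := by
  have hsy : Sy (col ∘ (Subtype.val : {v // pv v} → σ)) (fun i : {i // qi i} => ind (κ i.1)) f1
      Finset.univ := fun i _ => ⟨h1 i, ind_nonneg _, ind_ne_zero (hne i.1)⟩
  obtain ⟨h3, h4⟩ := hext F {v // pv v} σ ι {i // qi i} Subtype.val col
    (fun i : {i // qi i} => ind (κ i.1)) f1 Finset.univ S Subtype.val_injective hsy h2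
  refine ⟨fun i => if h : qi i then rename Subtype.val (f1 ⟨i, h⟩) else 0, fun i => ?_, ?_⟩
  · by_cases h : qi i
    · simp only [dif_pos h]
      exact (h3 ⟨i, h⟩ (Finset.mem_univ _)).1
    · simp only [dif_neg h]
      exact Submodule.zero_mem _
  · refine (htrim F σ ι {i // qi i} τ Subtype.val col (fun i => ind (κ i)) _ S
      Subtype.val_injective (fun i => ind_nonneg _) (fun i hi => hq i (fun h => hi ⟨⟨i, h⟩, rfl⟩))).1 ?_
    have h5 : ((fun i => if h : qi i then rename Subtype.val (f1 ⟨i, h⟩) else 0) ∘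
        (Subtype.val : {i // qi i} → τ)) = fun i : {i // qi i} =>
        rename (Subtype.val : {v // pv v} → σ) (f1 i) := by
      funext i
      simp only [Function.comp_apply, dif_pos i.2]
    rw [h5]
    exact h4

/-- `g` is injective on `A`, so equality of images of subsets of `A` implies equality. -/
lemma image_inj {ι ι0 : Type} [DecidableEq ι0] {A J J' : Finset ι} {g : ι → ι0}
    (hg : ∀ k ∈ A, ∀ k' ∈ A, g k = g k' → k = k') (hJ : J ⊆ A) (hJ' : J' ⊆ A)
    (h : J.image g = J'.image g) : J = J' := by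
  ext k
  constructor
  · intro hk
    have h1 : g k ∈ J'.image g := h ▸ Finset.mem_image_of_mem g hk
    obtain ⟨k', hk', he⟩ := Finset.mem_image.1 h1
    rwa [← hg k' (hJ' hk') k (hJ hk) he]
  · intro hk
    have h1 : g k ∈ J.image g := h ▸ Finset.mem_image_of_mem g hk
    obtain ⟨k', hk', he⟩ := Finset.mem_image.1 h1
    rwa [← hg k' (hJ hk') k (hJ' hk) he]

end FrD.EMBM

namespace FrD

open MvPolynomial EMBM

theorem specEMB (hmapc : SpecMAPC) (hext : SpecEXT) (htrim : SpecTRIM) : SpecEMB := by
  classical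
  intro F _ ι ι0 _ _ _ _ N w S N0 w0 S0 g hg hS0 hS hsurj hN0 hw0 hXX σ τ _ _ col κ hN hne hw
  by_cases h0 : 0 ≤ S
  · have hind : ∀ J : Finset ι, J ⊆ Finset.univ.filter (fun k => 0 < S k) → ind J ≤ S := by
      intro J hJ k
      simp only [ind]
      split_ifs with hk
      · have := (Finset.mem_filter.1 (hJ hk)).2
        omega
      · exact h0 k
    have hgA : ∀ k ∈ Finset.univ.filter (fun k => 0 < S k),
        ∀ k' ∈ Finset.univ.filter (fun k => 0 < S k), g k = g k' → k = k' := fun k hk k' hk' =>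
      hg k k' (Finset.mem_filter.1 hk).2 (Finset.mem_filter.1 hk').2
    obtain ⟨f1, h1, h2⟩ := hXX {v // col v ∈ Finset.univ.filter (fun k => 0 < S k)}
      {i // κ i ⊆ Finset.univ.filter (fun k => 0 < S k)} (fun v => g (col v.1))
      (fun i => (κ i.1).image g) (fun k0 hk0 => by
        obtain ⟨k, hk, rfl⟩ := hsurj k0 hk0
        refine (hN0 k hk).trans ((hN k hk).trans ?_)
        refine Nat.card_le_card_of_injective
          (fun v : {v // col v = k} =>
            (⟨⟨v.1, Finset.mem_filter.2 ⟨Finset.mem_univ _, by rw [v.2]; exact hk⟩⟩,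
              by simp only [v.2]⟩ :
              {v : {v // col v ∈ Finset.univ.filter (fun k => 0 < S k)} // g (col v.1) = g k})) ?_
        intro v v' h
        apply Subtype.ext
        exact congrArg (fun x : {v : {v // col v ∈ Finset.univ.filter (fun k => 0 < S k)} //
          g (col v.1) = g k} => x.1.1) h)
      (fun i => (hne i.1).image g) (fun J0 _ => by
        by_cases hex : Nonempty {i : {i // κ i ⊆ Finset.univ.filter (fun k => 0 < S k)} //
            (κ i.1).image g = J0}
        · obtain ⟨i0⟩ := hex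
          have hJ := hind (κ i0.1.1) i0.1.2
          have h3 := (hw _ hJ).trans (hw0 _ hJ)
          rw [i0.2] at h3
          refine le_trans ?_ h3
          refine Nat.card_le_card_of_injective
            (fun i : {i : {i // κ i ⊆ Finset.univ.filter (fun k => 0 < S k)} //
              (κ i.1).image g = J0} => (⟨i.1.1, image_inj hgA i.1.2 i0.1.2 (i.2.trans i0.2.symm)⟩ :
              {i // κ i = κ i0.1.1})) ?_
          intro v v' h
          apply Subtype.ext
          apply Subtype.ext
          exact congrArg (fun x : {i // κ i = κ i0.1.1} => x.1) h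
        · rw [not_nonempty_iff] at hex
          rw [Nat.card_of_isEmpty]
          exact Nat.zero_le _)
    obtain ⟨h3, h4⟩ := hmapc F {v // col v ∈ Finset.univ.filter (fun k => 0 < S k)} ι ι0
      {i // κ i ⊆ Finset.univ.filter (fun k => 0 < S k)} (Finset.univ.filter (fun k => 0 < S k)) g
      (fun v => col v.1) (fun i => κ i.1) f1 Finset.univ S S0
      (fun k hk k' hk' h => hgA k (Finset.mem_coe.1 hk) k' (Finset.mem_coe.1 hk') h)
      (fun v => v.2) (fun i _ => i.2)
      (fun k hk => by
        by_contra hlt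
        exact hk (Finset.mem_filter.2 ⟨Finset.mem_univ _, not_le.1 hlt⟩))
      hS0 (fun k hk => hS k (Finset.mem_filter.1 hk).2) (fun i _ => h1 i) h2
    refine ext_trim hext htrim F σ ι τ col κ S
      (fun v => col v ∈ Finset.univ.filter (fun k => 0 < S k))
      (fun i => κ i ⊆ Finset.univ.filter (fun k => 0 < S k)) hne ?_ f1
      (fun i => h3 i (Finset.mem_univ _)) h4
    intro i hi hle
    apply hi
    intro k hk
    refine Finset.mem_filter.2 ⟨Finset.mem_univ _, ?_⟩
    have h5 := hle k
    simp only [ind, if_pos hk] at h5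
    omega
  · refine ⟨fun _ => 0, fun _ => Submodule.zero_mem _, fun S' hS' => ?_⟩
    have h0' : ¬ 0 ≤ S' := fun h => h0 (h.trans hS')
    rw [dq_neg col (fun i => ind (κ i)) (fun _ => 0) Finset.univ
      (fun _ _ => Submodule.zero_mem _) h0', E_neg col (fun i => ind (κ i)) Finset.univ
      (fun i _ => ind_nonneg _) h0']

end FrD
end

section
/-!
# MP_921642_ag, FD: module SUBV (only the variables with colours `k`, `0 < S k`, matter)
-/
set_option autoImplicit false

namespace FrD

namespace SUBVM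

open MvPolynomial

variable {σ σ' ι τ : Type} [Fintype σ] [Fintype σ'] [DecidableEq ι] {F : Type} [Field F]

theorem md_mapDomain (u : σ → σ') (hu : Function.Injective u) (col : σ' → ι) (α : σ →₀ ℕ) :
    md col (Finsupp.mapDomain u α) = md (col ∘ u) α := by
  funext k
  simp only [md]
  symm
  refine Fintype.sum_of_injective u hu _ _ ?_ ?_
  · intro v' hv'
    rw [Finsupp.mapDomain_of_notMem_range _ _ hv']
    simp
  · intro v
    rw [Finsupp.mapDomain_apply hu]
    rfl

theorem rename_mem (u : σ → σ') (hu : Function.Injective u) (col : σ' → ι) (S : ι → ℤ)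
    {q : MvPolynomial σ F} (hq : q ∈ R F (col ∘ u) S) : rename u q ∈ R F col S := by
  rw [mem_R] at hq ⊢
  intro β hβ
  obtain ⟨α, rfl, hα⟩ := coeff_rename_ne_zero u q β hβ
  rw [md_mapDomain u hu]
  exact hq α hα

theorem exists_preimage (u : σ → σ') (hu : Function.Injective u) (col : σ' → ι) (S : ι → ℤ)
    (hS : ∀ v', 0 < S (col v') → v' ∈ Set.range u) {S' : ι → ℤ} (hS' : S' ≤ S)
    {p : MvPolynomial σ' F} (hp : p ∈ R F col S') :
    ∃ q ∈ R F (col ∘ u) S', rename u q = p := by
  rw [mem_R] at hp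
  obtain ⟨q, rfl⟩ := exists_rename_eq_of_vars_subset_range p u hu (by
    intro v' hv'
    obtain ⟨β, hβ, hv⟩ := (mem_vars_iff_mem_support v').1 hv'
    apply hS
    have h1 := hp β (mem_support_iff.1 hβ)
    have h2 := le_md col β v'
    have h3 : 0 < β v' := Nat.pos_of_ne_zero (Finsupp.mem_support_iff.1 hv)
    have h4 := hS' (col v')
    rw [← h1] at h4
    have h5 : (0 : ℤ) < (β v' : ℤ) := by exact_mod_cast h3
    exact lt_of_lt_of_le h5 (h2.trans h4))
  refine ⟨q, ?_, rfl⟩
  rw [mem_R]
  intro α hα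
  rw [← md_mapDomain u hu]
  apply hp
  rwa [coeff_rename_mapDomain u hu]

/-- `rename u` as a linear map -/
noncomputable def rho (F : Type) [Field F] (u : σ → σ') : MvPolynomial σ F →ₗ[F] MvPolynomial σ' F :=
  (rename u : MvPolynomial σ F →ₐ[F] MvPolynomial σ' F).toLinearMap

theorem rho_inj (u : σ → σ') (hu : Function.Injective u) :
    Function.Injective (rho F u) := rename_injective u hu

theorem R_eq (u : σ → σ') (hu : Function.Injective u) (col : σ' → ι) (S : ι → ℤ)
    (hS : ∀ v', 0 < S (col v') → v' ∈ Set.range u) {S' : ι → ℤ} (hS' : S' ≤ S) :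
    R F col S' = (R F (col ∘ u) S').map (rho F u) := by
  ext p
  rw [Submodule.mem_map]
  constructor
  · intro hp
    exact exists_preimage u hu col S hS hS' hp
  · rintro ⟨q, hq, rfl⟩
    exact rename_mem u hu col S' hq

theorem finrank_map (u : σ → σ') (hu : Function.Injective u)
    (P : Submodule F (MvPolynomial σ F)) :
    Module.finrank F (P.map (rho F u)) = Module.finrank F P :=
  ((Submodule.equivMapOfInjective (rho F u) (rho_inj u hu) P).finrank_eq).symm

theorem rr_eq (u : σ → σ') (hu : Function.Injective u) (col : σ' → ι) (S : ι → ℤ)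
    (hS : ∀ v', 0 < S (col v') → v' ∈ Set.range u) {S' : ι → ℤ} (hS' : S' ≤ S) :
    rr col S' = rr (col ∘ u) S' := by
  rw [← finrank_R (F := ℚ), ← finrank_R (F := ℚ), R_eq u hu col S hS hS', finrank_map u hu]

theorem E_eq (u : σ → σ') (hu : Function.Injective u) (col : σ' → ι) (S : ι → ℤ)
    (hS : ∀ v', 0 < S (col v') → v' ∈ Set.range u) {S' : ι → ℤ} (hS' : S' ≤ S)
    (κ : τ → ι → ℤ) (T : Finset τ) (hκ : ∀ i ∈ T, 0 ≤ κ i) :
    E col κ T S' = E (col ∘ u) κ T S' := by
  simp only [E]
  refine Finset.sum_congr rfl fun M hM => ?_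
  rw [rr_eq u hu col S hS]
  have h3 : 0 ≤ ∑ i ∈ M, κ i := Finset.sum_nonneg fun i hi => hκ i (Finset.mem_powerset.1 hM hi)
  intro k
  have h4 := h3 k
  have h5 := hS' k
  simp only [Pi.sub_apply, Pi.zero_apply] at h4 ⊢
  linarith

theorem Id_eq (u : σ → σ') (hu : Function.Injective u) (col : σ' → ι) (S : ι → ℤ)
    (hS : ∀ v', 0 < S (col v') → v' ∈ Set.range u) {S' : ι → ℤ} (hS' : S' ≤ S)
    (κ : τ → ι → ℤ) (f : τ → MvPolynomial σ F) (T : Finset τ) (hκ : ∀ i ∈ T, 0 ≤ κ i) :
    Id col κ (fun i => rename u (f i)) T S' = (Id (col ∘ u) κ f T S').map (rho F u) := by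
  simp only [Id, Submodule.map_iSup]
  refine iSup_congr fun i => iSup_congr fun hi => ?_
  rw [R_eq u hu col S hS (S' := S' - κ i), ← Submodule.map_comp, ← Submodule.map_comp]
  · congr 1
    ext1 m
    refine LinearMap.ext fun x => ?_
    simp [rho]
  · intro k
    have h4 := hκ i hi k
    have h5 := hS' k
    simp only [Pi.sub_apply, Pi.zero_apply] at h4 ⊢
    linarith

theorem specSUBV : SpecSUBV := by
  intro F _ σ σ' ι τ _ _ _ u col S hu hS
  refine ⟨fun S' hS' p hp => exists_preimage u hu col S hS hS' hp, fun κ f T hSy => ?_⟩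
  have hκ : ∀ i ∈ T, 0 ≤ κ i := fun i hi => (hSy i hi).2.1
  have key : ∀ S' ≤ S, dq col κ (fun i => rename u (f i)) T S' = dq (col ∘ u) κ f T S' := by
    intro S' hS'
    simp only [dq]
    rw [rr_eq u hu col S hS hS', Id_eq u hu col S hS hS' κ f T hκ, finrank_map u hu]
  constructor
  · intro h S' hS'
    rw [key S' hS', E_eq u hu col S hS hS' κ T hκ]
    exact h S' hS'
  · intro h S' hS'
    rw [← key S' hS', ← E_eq u hu col S hS hS' κ T hκ]
    exact h S' hS'

end SUBVM

end FrD
end

section
/-!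
# MP_921642_ag, FD: module EXT (additional variables do not destroy exactness)

All the additional variables are treated at once: the exponents `γ` of the new ring are uniquely `β + u(α)` with
`β` outside of the range of `u`.
-/
set_option autoImplicit false

namespace FrD

namespace EXTM

open MvPolynomial SUBVM

variable {σ σ' ι τ : Type} [Fintype σ] [Fintype σ'] [DecidableEq ι] {F : Type} [Field F]

/-- exponents outside of the range of `u`, of multidegree `≤ S` -/
def BB (u : σ → σ') (col : σ' → ι) (S : ι → ℤ) : Set (σ' →₀ ℕ) :=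
  {β | (∀ x, β (u x) = 0) ∧ md col β ≤ S}

omit [Fintype σ] in
theorem BB_finite (u : σ → σ') (col : σ' → ι) (S : ι → ℤ) : (BB u col S).Finite := by
  classical
  refine (Set.finite_Iic (Finsupp.equivFunOnFinite.symm (fun v => (S (col v)).toNat))).subset ?_
  intro α hα v
  have h := le_md col α v
  have h2 : md col α (col v) ≤ S (col v) := hα.2 (col v)
  simp only [Finsupp.equivFunOnFinite_symm_apply_apply]
  omega

/-- the same as a finite set -/
noncomputable def BF (u : σ → σ') (col : σ' → ι) (S : ι → ℤ) : Finset (σ' →₀ ℕ) :=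
  (BB_finite u col S).toFinset

theorem mem_BF (u : σ → σ') (col : σ' → ι) (S : ι → ℤ) (β : σ' →₀ ℕ) :
    β ∈ BF u col S ↔ (∀ x, β (u x) = 0) ∧ md col β ≤ S := by
  rw [BF, Set.Finite.mem_toFinset]
  rfl

omit [Fintype σ'] in
/-- uniqueness of the decomposition -/
theorem decomp_unique (u : σ → σ') (hu : Function.Injective u) {β β' : σ' →₀ ℕ}
    (hβ : ∀ x, β (u x) = 0) (hβ' : ∀ x, β' (u x) = 0) {α α' : σ →₀ ℕ}
    (h : β + Finsupp.mapDomain u α = β' + Finsupp.mapDomain u α') : β = β' ∧ α = α' := by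
  constructor
  · ext v
    by_cases hv : v ∈ Set.range u
    · obtain ⟨x, rfl⟩ := hv
      rw [hβ, hβ']
    · have := DFunLike.congr_fun h v
      simpa [Finsupp.mapDomain_of_notMem_range _ _ hv] using this
  · ext x
    have := DFunLike.congr_fun h (u x)
    simpa [hβ, hβ', Finsupp.mapDomain_apply hu] using this

omit [Fintype σ'] in
/-- existence of the decomposition -/
theorem decomp_exists (u : σ → σ') (hu : Function.Injective u) (γ : σ' →₀ ℕ) :
    ∃ (β : σ' →₀ ℕ) (α : σ →₀ ℕ), (∀ x, β (u x) = 0) ∧ γ = β + Finsupp.mapDomain u α := by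
  classical
  refine ⟨γ.filter (fun v => v ∉ Set.range u), γ.comapDomain u hu.injOn, fun x => ?_, ?_⟩
  · rw [Finsupp.filter_apply, if_neg]
    simp
  · ext v
    by_cases hv : v ∈ Set.range u
    · obtain ⟨x, rfl⟩ := hv
      rw [Finsupp.add_apply, Finsupp.filter_apply, if_neg (by simp), Finsupp.mapDomain_apply hu,
        Finsupp.comapDomain_apply, zero_add]
    · rw [Finsupp.add_apply, Finsupp.filter_apply, if_pos hv,
        Finsupp.mapDomain_of_notMem_range _ _ hv, add_zero]

theorem rr_card (col : σ → ι) (S : ι → ℤ) : rr col S = (finite_md col S).toFinset.card := by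
  rw [← Set.ncard_eq_toFinset_card _ (finite_md col S)]
  rfl

theorem rr_sum (u : σ → σ') (hu : Function.Injective u) (col : σ' → ι) (S : ι → ℤ) :
    rr col S = ∑ β ∈ BF u col S, rr (col ∘ u) (S - md col β) := by
  classical
  rw [rr_card]
  have hE : (finite_md col S).toFinset = (BF u col S).biUnion fun β =>
      (finite_md (col ∘ u) (S - md col β)).toFinset.image fun α => β + Finsupp.mapDomain u α := by
    ext γ
    rw [Set.Finite.mem_toFinset, Finset.mem_biUnion]
    constructor
    · intro hγ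
      obtain ⟨β, α, hβ, rfl⟩ := decomp_exists u hu γ
      have h1 : md col β + md (col ∘ u) α = S := by
        rw [← md_mapDomain u hu, ← md_add]
        exact hγ
      refine ⟨β, (mem_BF u col S β).2 ⟨hβ, ?_⟩, Finset.mem_image.2 ⟨α, ?_, rfl⟩⟩
      · rw [← h1]
        exact le_add_of_nonneg_right (md_nonneg _ _)
      · rw [Set.Finite.mem_toFinset]
        show md (col ∘ u) α = S - md col β
        rw [← h1]
        abel
    · rintro ⟨β, _, hγ⟩
      obtain ⟨α, hα, rfl⟩ := Finset.mem_image.1 hγ
      rw [Set.Finite.mem_toFinset] at hα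
      have h1 : md (col ∘ u) α = S - md col β := hα
      show md col (β + Finsupp.mapDomain u α) = S
      rw [md_add, md_mapDomain u hu, h1]
      abel
  rw [hE, Finset.card_biUnion]
  · refine Finset.sum_congr rfl fun β hβ => ?_
    rw [Finset.card_image_of_injective, rr_card]
    intro α α' h
    have hb := ((mem_BF u col S β).1 hβ).1
    exact (decomp_unique u hu hb hb h).2
  · intro β hβ β' hβ' hne
    rw [Function.onFun, Finset.disjoint_left]
    intro γ h1 h2
    obtain ⟨α, _, h3⟩ := Finset.mem_image.1 h1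
    obtain ⟨α', _, h4⟩ := Finset.mem_image.1 h2
    have hb := ((mem_BF u col S β).1 hβ).1
    have hb' := ((mem_BF u col S β').1 hβ').1
    exact hne (decomp_unique u hu hb hb' (h3.trans h4.symm)).1

theorem E_sum (u : σ → σ') (hu : Function.Injective u) (col : σ' → ι) (κ : τ → ι → ℤ)
    (T : Finset τ) (hκ : ∀ i ∈ T, 0 ≤ κ i) (S : ι → ℤ) :
    E col κ T S = ∑ β ∈ BF u col S, E (col ∘ u) κ T (S - md col β) := by
  simp only [E]
  rw [Finset.sum_comm]
  refine Finset.sum_congr rfl fun M hM => ?_
  rw [← Finset.mul_sum, rr_sum u hu, Nat.cast_sum]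
  congr 1
  have h3 : 0 ≤ ∑ i ∈ M, κ i := Finset.sum_nonneg fun i hi => hκ i (Finset.mem_powerset.1 hM hi)
  have hsub : BF u col (S - ∑ i ∈ M, κ i) ⊆ BF u col S := by
    intro β hβ
    rw [mem_BF] at hβ ⊢
    exact ⟨hβ.1, hβ.2.trans (sub_le_self _ h3)⟩
  rw [← Finset.sum_subset hsub]
  · refine Finset.sum_congr rfl fun β _ => ?_
    rw [sub_right_comm]
  · intro β hβ hn
    rw [rr_neg, Nat.cast_zero]
    intro h0
    apply hn
    rw [mem_BF] at hβ ⊢
    refine ⟨hβ.1, ?_⟩
    rw [sub_right_comm] at h0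
    exact sub_nonneg.1 h0

theorem rename_mem_Id (u : σ → σ') (hu : Function.Injective u) (col : σ' → ι) (κ : τ → ι → ℤ)
    (f : τ → MvPolynomial σ F) (T : Finset τ) (S : ι → ℤ) {p : MvPolynomial σ F}
    (hp : p ∈ Id (col ∘ u) κ f T S) : rename u p ∈ Id col κ (fun i => rename u (f i)) T S := by
  obtain ⟨g, hg, rfl⟩ := (mem_Id _ _ _ _ _ _).1 hp
  refine (mem_Id _ _ _ _ _ _).2 ⟨fun i => rename u (g i), fun i => rename_mem u hu col _ (hg i), ?_⟩
  rw [map_sum]
  exact Finset.sum_congr rfl fun i _ => map_mul _ _ _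

/-- the sum of the parts -/
noncomputable def Phi (u : σ → σ') (col : σ' → ι) (κ : τ → ι → ℤ) (f : τ → MvPolynomial σ F)
    (T : Finset τ) (S : ι → ℤ) :
    (∀ β : BF u col S, Id (col ∘ u) κ f T (S - md col β)) →ₗ[F] MvPolynomial σ' F :=
  ∑ β : BF u col S, (LinearMap.mulLeft F (monomial (β : σ' →₀ ℕ) (1 : F))) ∘ₗ (rho F u) ∘ₗ
    (Id (col ∘ u) κ f T (S - md col β)).subtype ∘ₗ
      (LinearMap.proj β : (∀ β : BF u col S, Id (col ∘ u) κ f T (S - md col β)) →ₗ[F] _)

theorem Phi_apply (u : σ → σ') (col : σ' → ι) (κ : τ → ι → ℤ) (f : τ → MvPolynomial σ F)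
    (T : Finset τ) (S : ι → ℤ) (p : ∀ β : BF u col S, Id (col ∘ u) κ f T (S - md col β)) :
    Phi u col κ f T S p =
      ∑ β : BF u col S, monomial (β : σ' →₀ ℕ) (1 : F) * rename u (p β : MvPolynomial σ F) := by
  rw [Phi, LinearMap.sum_apply]
  rfl

theorem Phi_mem (u : σ → σ') (hu : Function.Injective u) (col : σ' → ι) (κ : τ → ι → ℤ)
    (f : τ → MvPolynomial σ F) (T : Finset τ) (S : ι → ℤ)
    (p : ∀ β : BF u col S, Id (col ∘ u) κ f T (S - md col β)) :
    Phi u col κ f T S p ∈ Id col κ (fun i => rename u (f i)) T S := by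
  rw [Phi_apply]
  refine Submodule.sum_mem _ fun β _ => ?_
  have h1 := rename_mem_Id u hu col κ f T _ (p β).2
  have h2 := mul_mem_Id col κ (fun i => rename u (f i)) T
    (monomial_mem_R (F := F) col (β : σ' →₀ ℕ) 1) h1
  rwa [sub_add_cancel] at h2

theorem Phi_coeff (u : σ → σ') (hu : Function.Injective u) (col : σ' → ι) (κ : τ → ι → ℤ)
    (f : τ → MvPolynomial σ F) (T : Finset τ) (S : ι → ℤ)
    (p : ∀ β : BF u col S, Id (col ∘ u) κ f T (S - md col β)) (β : BF u col S) (α : σ →₀ ℕ) :
    coeff ((β : σ' →₀ ℕ) + Finsupp.mapDomain u α) (Phi u col κ f T S p) =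
      coeff α (p β : MvPolynomial σ F) := by
  classical
  rw [Phi_apply, coeff_sum, Finset.sum_eq_single β]
  · rw [coeff_monomial_mul, one_mul, coeff_rename_mapDomain u hu]
  · intro β' _ hne
    rw [coeff_monomial_mul']
    split_ifs with hle
    · rw [one_mul]
      by_contra hc
      obtain ⟨α', h1, _⟩ := coeff_rename_ne_zero u _ _ hc
      apply hne
      have h2 : (β' : σ' →₀ ℕ) + Finsupp.mapDomain u α' = β + Finsupp.mapDomain u α := by
        rw [h1, add_tsub_cancel_of_le hle]
      exact Subtype.ext (decomp_unique u hu ((mem_BF u col S β').1 β'.2).1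
        ((mem_BF u col S β).1 β.2).1 h2).1
    · rfl
  · intro h
    exact absurd (Finset.mem_univ _) h

theorem Phi_inj (u : σ → σ') (hu : Function.Injective u) (col : σ' → ι) (κ : τ → ι → ℤ)
    (f : τ → MvPolynomial σ F) (T : Finset τ) (S : ι → ℤ) :
    Function.Injective (Phi (F := F) u col κ f T S) := by
  rw [injective_iff_map_eq_zero]
  intro p hp
  funext β
  apply Subtype.ext
  ext α
  rw [← Phi_coeff u hu col κ f T S p β α, hp]
  simp

theorem finrank_ge (u : σ → σ') (hu : Function.Injective u) (col : σ' → ι) (κ : τ → ι → ℤ)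
    (f : τ → MvPolynomial σ F) (T : Finset τ) (S : ι → ℤ) :
    ∑ β ∈ BF u col S, Module.finrank F (Id (col ∘ u) κ f T (S - md col β)) ≤
      Module.finrank F (Id col κ (fun i => rename u (f i)) T S) := by
  have h1 := LinearMap.finrank_le_finrank_of_injective
    (f := (Phi (F := F) u col κ f T S).codRestrict (Id col κ (fun i => rename u (f i)) T S)
      (Phi_mem u hu col κ f T S))
    (fun x y h => Phi_inj u hu col κ f T S (congrArg Subtype.val h))
  rw [Module.finrank_pi_fintype] at h1
  rwa [← Finset.sum_coe_sort (BF u col S)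
    (fun β => Module.finrank F (Id (col ∘ u) κ f T (S - md col β)))]

theorem specEXT : SpecEXT := by
  intro F _ σ σ' ι τ _ _ _ u col κ f T S hu hSy hEx
  have hκ : ∀ i ∈ T, 0 ≤ κ i := fun i hi => (hSy i hi).2.1
  refine ⟨fun i hi => ⟨rename_mem u hu col _ (hSy i hi).1, (hSy i hi).2⟩, fun S' hS' => ?_⟩
  have h1 : dq col κ (fun i => rename u (f i)) T S' ≤
      ∑ β ∈ BF u col S', dq (col ∘ u) κ f T (S' - md col β) := by
    simp only [dq]
    rw [rr_sum u hu col S', Finset.sum_sub_distrib, Nat.cast_sum]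
    have h2 := finrank_ge u hu col κ f T S'
    have h3 : (∑ β ∈ BF u col S', (Module.finrank F (Id (col ∘ u) κ f T (S' - md col β)) : ℤ)) ≤
        (Module.finrank F (Id col κ (fun i => rename u (f i)) T S') : ℤ) := by
      exact_mod_cast h2
    linarith
  rw [E_sum u hu col κ T hκ S']
  refine h1.trans (Finset.sum_le_sum fun β hβ => hEx _ ?_)
  exact (sub_le_self _ (md_nonneg col β)).trans hS'

end EXTM

end FrD
end

section
/-! # MP_921642_ag, FD, module FIBL: maps with prescribed sizes of the fibres -/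
set_option autoImplicit false

namespace FrD.FIBLM

lemma one (α β γ : Type) [Finite α] [Finite β] (c : α → γ) (c' : β → γ)
    (h : ∀ k, Nat.card {x // c x = k} ≤ Nat.card {y // c' y = k}) :
    ∃ u : α → β, Function.Injective u ∧ ∀ x, c' (u x) = c x := by
  classical
  have h1 : ∀ k, Nonempty ({x // c x = k} ↪ {y // c' y = k}) := by
    intro k
    have := Fintype.ofFinite {x // c x = k}
    have := Fintype.ofFinite {y // c' y = k}
    refine Function.Embedding.nonempty_of_card_le ?_
    rw [← Nat.card_eq_fintype_card, ← Nat.card_eq_fintype_card]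
    exact h k
  let e : ∀ k, {x // c x = k} ↪ {y // c' y = k} := fun k => (h1 k).some
  refine ⟨fun x => (e (c x) ⟨x, rfl⟩).1, ?_, fun x => (e (c x) ⟨x, rfl⟩).2⟩
  intro x x' hx
  have hx0 : (e (c x) ⟨x, rfl⟩).1 = (e (c x') ⟨x', rfl⟩).1 := hx
  have h2 : c x = c x' := by
    rw [← (e (c x) ⟨x, rfl⟩).2, ← (e (c x') ⟨x', rfl⟩).2, hx0]
  have h3 : ∀ k (hk : c x' = k), (e (c x') ⟨x', rfl⟩).1 = (e k ⟨x', hk⟩).1 := by
    rintro k rfl; rfl
  rw [h3 (c x) h2.symm] at hx0
  have h4 := (e (c x)).injective (Subtype.ext hx0)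
  exact congrArg Subtype.val h4

lemma card_sig {β γ : Type} [Fintype β] [DecidableEq γ] (q : β → γ) (n : β → ℕ) (k : γ) :
    Nat.card {p : Σ y, Fin (n y) // q p.1 = k} = ∑ y, if q y = k then n y else 0 := by
  rw [Nat.card_eq_fintype_card, Fintype.card_subtype, Finset.card_filter, Fintype.sum_sigma]
  refine Finset.sum_congr rfl (fun y _ => ?_)
  by_cases h : q y = k <;> simp [h]

lemma two (α β γ : Type) [Finite α] [Fintype β] [DecidableEq γ] (c : α → γ) (q : β → γ)
    (n : β → ℕ) (G : Set γ) (hq : ∀ x, ∃ y, q y = c x)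
    (hn : ∀ k ∈ G, (∑ y, if q y = k then n y else 0) ≤ Nat.card {x // c x = k}) :
    ∃ u : α → β, (∀ x, q (u x) = c x) ∧ ∀ y, q y ∈ G → n y ≤ Nat.card {x // u x = y} := by
  classical
  obtain ⟨e, he, hce⟩ := one {p : Σ y, Fin (n y) // q p.1 ∈ G} α γ (fun p => q p.1.1) c (by
    intro k
    by_cases hk : k ∈ G
    · refine le_trans ?_ (hn k hk)
      rw [← card_sig]
      refine Nat.card_le_card_of_injective
        (fun p : {p : {p : Σ y, Fin (n y) // q p.1 ∈ G} // q p.1.1 = k} =>
          (⟨p.1.1, p.2⟩ : {p : Σ y, Fin (n y) // q p.1 = k})) ?_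
      intro p p' hpp
      have h2 := congrArg Subtype.val hpp
      exact Subtype.ext (Subtype.ext h2)
    · have : IsEmpty {p : {p : Σ y, Fin (n y) // q p.1 ∈ G} // q p.1.1 = k} :=
        ⟨fun p => hk (p.2 ▸ p.1.2)⟩
      rw [Nat.card_of_isEmpty]
      exact Nat.zero_le _)
  choose r hr using hq
  let u : α → β := fun x => if h : ∃ p, e p = x then h.choose.1.1 else r x
  have hu : ∀ p, u (e p) = p.1.1 := by
    intro p
    have h : ∃ p', e p' = e p := ⟨p, rfl⟩
    have h2 : h.choose = p := he h.choose_spec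
    simp only [u, dif_pos h, h2]
  refine ⟨u, fun x => ?_, fun y hy => ?_⟩
  · by_cases h : ∃ p, e p = x
    · obtain ⟨p, rfl⟩ := h
      rw [hu, hce]
    · simp only [u, dif_neg h, hr]
  · have h1 := Nat.card_le_card_of_injective
      (fun i : Fin (n y) => (⟨e ⟨⟨y, i⟩, hy⟩, hu _⟩ : {x // u x = y})) (by
        intro i j hij
        have h2 := he (congrArg Subtype.val hij)
        have h3 := congrArg Subtype.val h2
        simpa using h3)
    simpa using h1

lemma three (α β γ : Type) [Finite α] [Fintype β] [DecidableEq γ] (c : α → γ) (q : β → γ)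
    (n : β → ℕ) (G : Set γ) (hq : ∀ x, ∃ y, q y = c x)
    (hn : ∀ k ∈ G, Nat.card {x // c x = k} ≤ ∑ y, if q y = k then n y else 0) :
    ∃ u : α → β, (∀ x, q (u x) = c x) ∧ ∀ y, q y ∈ G → Nat.card {x // u x = y} ≤ n y := by
  classical
  obtain ⟨e, he, hce⟩ := one {x // c x ∈ G} (Σ y, Fin (n y)) γ (fun x => c x.1) (fun p => q p.1)
    (by
      intro k
      rw [card_sig]
      by_cases hk : k ∈ G
      · refine le_trans ?_ (hn k hk)
        refine Nat.card_le_card_of_injective
          (fun p : {p : {x // c x ∈ G} // c p.1 = k} => (⟨p.1.1, p.2⟩ : {x // c x = k})) ?_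
        intro p p' hpp
        have h2 := congrArg Subtype.val hpp
        exact Subtype.ext (Subtype.ext h2)
      · have : IsEmpty {p : {x // c x ∈ G} // c p.1 = k} := ⟨fun p => hk (p.2 ▸ p.1.2)⟩
        rw [Nat.card_of_isEmpty]
        exact Nat.zero_le _)
  choose r hr using hq
  let u : α → β := fun x => if h : c x ∈ G then (e ⟨x, h⟩).1 else r x
  have hu : ∀ x (h : c x ∈ G), u x = (e ⟨x, h⟩).1 := fun x h => by simp only [u, dif_pos h]
  have hqu : ∀ x, q (u x) = c x := by
    intro x
    by_cases h : c x ∈ G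
    · rw [hu x h]; exact hce ⟨x, h⟩
    · simp only [u, dif_neg h, hr]
  refine ⟨u, hqu, fun y hy => ?_⟩
  have hG : ∀ x : {x // u x = y}, c x.1 ∈ G := fun x => by
    rw [← hqu, x.2]; exact hy
  have h1 := Nat.card_le_card_of_injective
    (fun x : {x // u x = y} => (⟨e ⟨x.1, hG x⟩, by rw [← hu, x.2]⟩ :
      {p : Σ y, Fin (n y) // p.1 = y})) (by
      intro x x' hxx
      have h2 := he (congrArg Subtype.val hxx)
      have h3 := congrArg Subtype.val h2
      exact Subtype.ext h3)
  rw [Nat.card_congr (Equiv.sigmaSubtype y)] at h1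
  simpa using h1

theorem specFIBL : SpecFIBL := ⟨one, two, three⟩

end FrD.FIBLM
end

section
/-!
# MP_921642_ag, FD, module FNS: a variable which does not occur is a nonzerodivisor
-/
set_option autoImplicit false

namespace FrD

open MvPolynomial

namespace FNSM

/-- division by a variable which does not occur in `f` commutes with the multiplication by `f` -/
theorem mul_div {F σ : Type} [Field F] (f h : MvPolynomial σ F) (z : σ) (hz : z ∉ f.vars) :
    (f * h).divMonomial (Finsupp.single z 1) = f * h.divMonomial (Finsupp.single z 1) := by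
  classical
  have h1 : f * h = X z * (f * h.divMonomial (Finsupp.single z 1))
      + f * h.modMonomial (Finsupp.single z 1) := by
    conv_lhs => rw [← h.divMonomial_add_modMonomial_single z]
    ring
  have h2 : (f * h.modMonomial (Finsupp.single z 1)).divMonomial (Finsupp.single z 1) = 0 := by
    ext α
    rw [coeff_divMonomial, coeff_mul, coeff_zero]
    refine Finset.sum_eq_zero fun x hx => ?_
    rw [Finset.HasAntidiagonal.mem_antidiagonal] at hx
    by_cases hf : coeff x.1 f = 0
    · rw [hf, zero_mul]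
    · have h3 : x.1 z = 0 := by
        by_contra hne
        apply hz
        rw [mem_vars]
        exact ⟨x.1, mem_support_iff.2 hf, Finsupp.mem_support_iff.2 hne⟩
      have h4 : Finsupp.single z 1 ≤ x.2 := by
        rw [Finsupp.single_le_iff]
        have h5 := DFunLike.congr_fun hx z
        simp only [Finsupp.add_apply, Finsupp.single_eq_same, h3] at h5
        omega
      rw [coeff_modMonomial_of_le _ h4, mul_zero]
  rw [h1, add_divMonomial, X_mul_divMonomial, h2, add_zero]

/-- the multidegree of the quotient by a variable -/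
theorem div_mem {F σ ι : Type} [Field F] [Fintype σ] [DecidableEq ι] (col : σ → ι) (S : ι → ℤ)
    (z : σ) (h : MvPolynomial σ F) (hh : h ∈ R F col (S + Pi.single (col z) 1)) :
    h.divMonomial (Finsupp.single z 1) ∈ R F col S := by
  rw [mem_R] at hh ⊢
  intro α hα
  rw [coeff_divMonomial] at hα
  have h1 := hh _ hα
  rw [md_add, md_single, add_comm] at h1
  exact add_right_cancel h1

end FNSM

theorem specFNS : SpecFNS := by
  intro F _ σ ι τ _ _ col κ f T S z hz g hg
  rw [mem_Id] at hg ⊢
  obtain ⟨h, hh, hs⟩ := hg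
  refine ⟨fun i => (h i).divMonomial (Finsupp.single z 1), fun i => ?_, ?_⟩
  · apply FNSM.div_mem
    have h1 := hh i
    rwa [show S + Pi.single (col z) 1 - κ i = S - κ i + Pi.single (col z) 1 by abel] at h1
  · have h2 : (X z * g).divMonomial (Finsupp.single z 1) = g := X_mul_divMonomial z g
    have h3 : ∀ (T' : Finset τ), T' ⊆ T →
        (∑ i ∈ T', f i * h i).divMonomial (Finsupp.single z 1) =
          ∑ i ∈ T', f i * (h i).divMonomial (Finsupp.single z 1) := by
      classical
      intro T'
      induction T' using Finset.induction_on with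
      | empty => intro _; simp [zero_divMonomial]
      | insert i T' hi ih =>
        intro hsub
        rw [Finset.sum_insert hi, Finset.sum_insert hi, add_divMonomial,
          ih (fun j hj => hsub (Finset.mem_insert_of_mem hj)),
          FNSM.mul_div _ _ _ (hz i (hsub (Finset.mem_insert_self i T')))]
    rw [← h2, hs, h3 T subset_rfl]

end FrD
end

section
/-!
# MP_921642_ag, FD, module GPX: simultaneous rank conditions
-/
set_option autoImplicit false

namespace FrD.GPXM

theorem specGPX (hLO : SpecLO) : SpecGPX := by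
  intro F _ _ P _ _ Λ _ U W _ _ _ _ _ Ψ ρ h
  classical
  have := Fintype.ofFinite Λ
  suffices H : ∀ s : Finset Λ, ∃ v, ∀ l ∈ s,
      ρ l ≤ Module.finrank F (LinearMap.range (Ψ l v)) by
    obtain ⟨v, hv⟩ := H Finset.univ
    exact ⟨v, fun l => hv l (Finset.mem_univ l)⟩
  intro s
  induction s using Finset.induction_on with
  | empty => exact ⟨0, by simp⟩
  | insert l0 s hl0 ih =>
    obtain ⟨v, hv⟩ := ih
    obtain ⟨v', hv'⟩ := h l0
    have hfin1 : ∀ l : Λ, {t : F | Module.finrank F
        (LinearMap.range (Ψ l v + t • Ψ l (v' - v))) <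
        Module.finrank F (LinearMap.range (Ψ l v))}.Finite :=
      fun l => hLO F (U l) (W l) (Ψ l v) (Ψ l (v' - v))
    have hfin2 : {t : F | Module.finrank F
        (LinearMap.range (Ψ l0 v' + t • Ψ l0 (v - v'))) <
        Module.finrank F (LinearMap.range (Ψ l0 v'))}.Finite :=
      hLO F (U l0) (W l0) (Ψ l0 v') (Ψ l0 (v - v'))
    have hfin3 := hfin2.preimage (f := fun t : F => 1 - t)
      (by intro a _ b _ hab; simpa using hab)
    have hfin4 := (Set.finite_iUnion hfin1).union hfin3
    obtain ⟨t, ht⟩ := hfin4.exists_notMem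
    rw [Set.mem_union, not_or] at ht
    obtain ⟨ht1, ht2⟩ := ht
    refine ⟨v + t • (v' - v), ?_⟩
    intro l hl
    rcases Finset.mem_insert.1 hl with rfl | hl
    · have h2 : ¬ (Module.finrank F (LinearMap.range (Ψ l v' + (1 - t) • Ψ l (v - v'))) <
          Module.finrank F (LinearMap.range (Ψ l v'))) := by
        intro hc
        exact ht2 hc
      have he : Ψ l v' + (1 - t) • Ψ l (v - v') = Ψ l (v + t • (v' - v)) := by
        rw [← map_smul, ← map_add]
        congr 1
        module
      rw [he] at h2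
      exact hv'.trans (not_lt.1 h2)
    · have h1 : ¬ (Module.finrank F (LinearMap.range (Ψ l v + t • Ψ l (v' - v))) <
          Module.finrank F (LinearMap.range (Ψ l v))) := by
        intro hc
        exact ht1 (Set.mem_iUnion.2 ⟨l, hc⟩)
      have he : Ψ l v + t • Ψ l (v' - v) = Ψ l (v + t • (v' - v)) := by
        rw [← map_smul, ← map_add]
      rw [he] at h1
      exact (hv l hl).trans (not_lt.1 h1)

end FrD.GPXM
end

section
/-!
# MP_921642_ag, FD: module ISOX
-/
set_option autoImplicit false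

namespace FrD.ISOXM

open MvPolynomial FrD

/-- EXT and TRIM together. -/
lemma ext_trim (hext : SpecEXT) (htrim : SpecTRIM) (F : Type) [Field F] (σ ι τ : Type) [Fintype σ]
    [Fintype ι] [DecidableEq ι] [Fintype τ] (col : σ → ι) (κ : τ → Finset ι) (S : ι → ℤ)
    (pv : σ → Prop) (qi : τ → Prop) [DecidablePred pv] [DecidablePred qi]
    (hne : ∀ i, (κ i).Nonempty) (hq : ∀ i, ¬ qi i → ¬ ind (κ i) ≤ S)
    (f1 : {i // qi i} → MvPolynomial {v // pv v} F)
    (h1 : ∀ i : {i // qi i}, f1 i ∈ R F (fun v : {v // pv v} => col v.1) (ind (κ i.1)))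
    (h2 : Ex (fun v : {v // pv v} => col v.1) (fun i : {i // qi i} => ind (κ i.1)) f1
      Finset.univ S) :
    ∃ f : τ → MvPolynomial σ F, (∀ i, f i ∈ R F col (ind (κ i))) ∧
      Ex col (fun i => ind (κ i)) f Finset.univ S := by
  have hsy : Sy (col ∘ (Subtype.val : {v // pv v} → σ)) (fun i : {i // qi i} => ind (κ i.1)) f1
      Finset.univ := fun i _ => ⟨h1 i, ind_nonneg _, ind_ne_zero (hne i.1)⟩
  obtain ⟨h3, h4⟩ := hext F {v // pv v} σ ι {i // qi i} Subtype.val col
    (fun i : {i // qi i} => ind (κ i.1)) f1 Finset.univ S Subtype.val_injective hsy h2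
  refine ⟨fun i => if h : qi i then rename Subtype.val (f1 ⟨i, h⟩) else 0, fun i => ?_, ?_⟩
  · by_cases h : qi i
    · simp only [dif_pos h]
      exact (h3 ⟨i, h⟩ (Finset.mem_univ _)).1
    · simp only [dif_neg h]
      exact Submodule.zero_mem _
  · refine (htrim F σ ι {i // qi i} τ Subtype.val col (fun i => ind (κ i)) _ S
      Subtype.val_injective (fun i => ind_nonneg _) (fun i hi => hq i (fun h => hi ⟨⟨i, h⟩, rfl⟩))).1 ?_
    have h5 : ((fun i => if h : qi i then rename Subtype.val (f1 ⟨i, h⟩) else 0) ∘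
        (Subtype.val : {i // qi i} → τ)) = fun i : {i // qi i} =>
        rename (Subtype.val : {v // pv v} → σ) (f1 i) := by
      funext i
      simp only [Function.comp_apply, dif_pos i.2]
    rw [h5]
    exact h4

end FrD.ISOXM

namespace FrD

open MvPolynomial ISOXM

theorem specISOX (hext : SpecEXT) (htrim : SpecTRIM) : SpecISOX := by
  classical
  intro F _ ι _ _ N w S z hSz hw0 hXX σ τ _ _ col κ hN hne hw
  have hle : S ≤ S + Pi.single z 1 := by
    intro k
    have : (0 : ℤ) ≤ (Pi.single z 1 : ι → ℤ) k := by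
      by_cases hk : k = z
      · subst hk; simp
      · simp [Pi.single_eq_of_ne hk]
    simp only [Pi.add_apply]
    linarith
  obtain ⟨f1, h1, h2⟩ := hXX {v // col v ≠ z} {i // z ∉ κ i} (fun v => col v.1)
    (fun i => κ i.1) (fun k hk => by
      have hkz : k ≠ z := by
        rintro rfl
        rw [hSz] at hk
        exact lt_irrefl _ hk
      refine (hN k (lt_of_lt_of_le hk (hle k))).trans ?_
      refine Nat.card_le_card_of_injective
        (fun v : {v // col v = k} =>
          (⟨⟨v.1, fun h => hkz (v.2.symm.trans h)⟩, v.2⟩ :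
            {v : {v // col v ≠ z} // col v.1 = k})) ?_
      intro v v' h
      apply Subtype.ext
      exact congrArg (fun x : {v : {v // col v ≠ z} // col v.1 = k} => x.1.1) h)
    (fun i => hne i.1) (fun J hJ => by
      refine le_trans ?_ (hw J (hJ.trans hle))
      refine Nat.card_le_card_of_injective
        (fun i : {i : {i // z ∉ κ i} // κ i.1 = J} => (⟨i.1.1, i.2⟩ : {i // κ i = J})) ?_
      intro v v' h
      apply Subtype.ext
      apply Subtype.ext
      exact congrArg (fun x : {i // κ i = J} => x.1) h)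
  refine ext_trim hext htrim F σ ι τ col κ _ (fun v => col v ≠ z) (fun i => z ∉ κ i) hne ?_ f1 h1 ?_
  · intro i hi hS
    have hz : z ∈ κ i := not_not.1 hi
    have h3 := hw (κ i) hS
    rw [hw0 (κ i) hz hS] at h3
    have h4 : 0 < Nat.card {i' // κ i' = κ i} := by
      have : Nonempty {i' // κ i' = κ i} := ⟨⟨i, rfl⟩⟩
      exact Nat.card_pos
    omega
  · intro S' hS'
    by_cases hz : S' z ≤ 0
    · refine h2 S' (fun k => ?_)
      by_cases hk : k = z
      · subst hk; rw [hSz]; exact hz
      · have := hS' k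
        simp only [Pi.add_apply, Pi.single_eq_of_ne hk, add_zero] at this
        exact this
    · push Not at hz
      have hrr : ∀ U : ι → ℤ, 0 < U z →
          rr (fun v : {v // col v ≠ z} => col v.1) U = 0 := by
        intro U hU
        rw [rr]
        have : IsEmpty {α : {v // col v ≠ z} →₀ ℕ //
            md (fun v : {v // col v ≠ z} => col v.1) α = U} := by
          refine ⟨fun α => ?_⟩
          have h5 := congrFun α.2 z
          have h6 : md (fun v : {v // col v ≠ z} => col v.1) α.1 z = 0 := by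
            simp only [md]
            refine Finset.sum_eq_zero (fun v _ => ?_)
            rw [if_neg v.2]
          rw [h6] at h5
          linarith
        exact Nat.card_of_isEmpty
      have hE : E (fun v : {v // col v ≠ z} => col v.1)
          (fun i : {i // z ∉ κ i} => ind (κ i.1)) Finset.univ S' = 0 := by
        refine Finset.sum_eq_zero (fun M _ => ?_)
        rw [hrr _ ?_]
        · simp
        · simp only [Pi.sub_apply, Finset.sum_apply]
          rw [Finset.sum_eq_zero]
          · linarith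
          · intro i _
            simp only [ind]
            rw [if_neg i.2]
      rw [hE, dq, hrr S' hz]
      simp

end FrD
end

section
set_option autoImplicit false

namespace FrD.KDIMM

open MvPolynomial FrD

variable {σ ι τ : Type} [Fintype σ] [DecidableEq ι] {F : Type} [Field F]

/-- extension by zero -/
noncomputable def ext0 (col : σ → ι) (κ : τ → ι → ℤ) (T : Finset τ) (S : ι → ℤ) :
    (∀ i : T, R F col (S - κ i)) →ₗ[F] (τ → MvPolynomial σ F) := by
  classical
  exact LinearMap.pi (fun i => if hi : i ∈ T then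
    (R F col (S - κ i)).subtype ∘ₗ LinearMap.proj (⟨i, hi⟩ : T) else 0)

lemma ext0_mem (col : σ → ι) (κ : τ → ι → ℤ) (T : Finset τ) (S : ι → ℤ)
    (h : ∀ i : T, R F col (S - κ i)) (i : τ) (hi : i ∈ T) :
    ext0 col κ T S h i = (h ⟨i, hi⟩ : MvPolynomial σ F) := by
  classical
  simp [ext0, hi]

lemma ext0_notMem (col : σ → ι) (κ : τ → ι → ℤ) (T : Finset τ) (S : ι → ℤ)
    (h : ∀ i : T, R F col (S - κ i)) (i : τ) (hi : i ∉ T) :
    ext0 col κ T S h i = 0 := by
  classical
  simp [ext0, hi]

/-- the map `h ↦ ∑ f i * h i` -/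
noncomputable def Psi (col : σ → ι) (κ : τ → ι → ℤ) (f : τ → MvPolynomial σ F) (T : Finset τ)
    (S : ι → ℤ) : (∀ i : T, R F col (S - κ i)) →ₗ[F] MvPolynomial σ F :=
  ∑ i : T, (LinearMap.mulLeft F (f i)) ∘ₗ (R F col (S - κ i)).subtype ∘ₗ LinearMap.proj i

lemma Psi_apply (col : σ → ι) (κ : τ → ι → ℤ) (f : τ → MvPolynomial σ F) (T : Finset τ)
    (S : ι → ℤ) (h : ∀ i : T, R F col (S - κ i)) :
    Psi col κ f T S h = ∑ i : T, f i * (h i : MvPolynomial σ F) := by
  simp [Psi, LinearMap.sum_apply]

lemma range_Psi (col : σ → ι) (κ : τ → ι → ℤ) (f : τ → MvPolynomial σ F) (T : Finset τ)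
    (S : ι → ℤ) : LinearMap.range (Psi col κ f T S) = Id col κ f T S := by
  ext p
  rw [mem_Id, LinearMap.mem_range]
  constructor
  · rintro ⟨h, rfl⟩
    refine ⟨ext0 col κ T S h, fun i => ?_, ?_⟩
    · by_cases hi : i ∈ T
      · rw [ext0_mem col κ T S h i hi]; exact (h ⟨i, hi⟩).2
      · rw [ext0_notMem col κ T S h i hi]; exact Submodule.zero_mem _
    · rw [Psi_apply, ← Finset.sum_coe_sort T]
      refine Finset.sum_congr rfl (fun i _ => ?_)
      rw [ext0_mem col κ T S h i i.2]
  · rintro ⟨g, hg, rfl⟩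
    refine ⟨fun i => ⟨g i, hg i⟩, ?_⟩
    rw [Psi_apply, ← Finset.sum_coe_sort T]

lemma map_ker (col : σ → ι) (κ : τ → ι → ℤ) (f : τ → MvPolynomial σ F) (T : Finset τ)
    (S : ι → ℤ) : (LinearMap.ker (Psi col κ f T S)).map (ext0 col κ T S) = SZ col κ f T S := by
  ext g
  rw [Submodule.mem_map]
  constructor
  · rintro ⟨h, hh, rfl⟩
    rw [LinearMap.mem_ker, Psi_apply] at hh
    refine ⟨fun i hi => ?_, fun i hi => ext0_notMem col κ T S h i hi, ?_⟩
    · rw [ext0_mem col κ T S h i hi]; exact (h ⟨i, hi⟩).2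
    · rw [← hh, ← Finset.sum_coe_sort T]
      refine Finset.sum_congr rfl (fun i _ => ?_)
      rw [ext0_mem col κ T S h i i.2]
  · rintro ⟨h1, h2, h3⟩
    refine ⟨fun i => ⟨g i, h1 i i.2⟩, ?_, ?_⟩
    · rw [LinearMap.mem_ker, Psi_apply]
      rw [← Finset.sum_coe_sort T] at h3
      exact h3
    · funext i
      by_cases hi : i ∈ T
      · rw [ext0_mem col κ T S _ i hi]
      · rw [ext0_notMem col κ T S _ i hi, h2 i hi]

lemma ext0_inj (col : σ → ι) (κ : τ → ι → ℤ) (T : Finset τ) (S : ι → ℤ) :
    Function.Injective (ext0 (F := F) col κ T S) := by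
  intro h h' hh
  funext i
  apply Subtype.ext
  have := congrFun hh i
  rwa [ext0_mem col κ T S h i i.2, ext0_mem col κ T S h' i i.2] at this

lemma finite_SZ (col : σ → ι) (κ : τ → ι → ℤ) (f : τ → MvPolynomial σ F) (T : Finset τ)
    (S : ι → ℤ) : Module.Finite F (SZ col κ f T S) := by
  rw [← map_ker]
  infer_instance

lemma finrank_SZ (col : σ → ι) (κ : τ → ι → ℤ) (f : τ → MvPolynomial σ F) (T : Finset τ)
    (S : ι → ℤ) : (Module.finrank F (SZ col κ f T S) : ℤ) + Module.finrank F (Id col κ f T S) =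
      ∑ i ∈ T, (rr col (S - κ i) : ℤ) := by
  have h1 := LinearMap.finrank_range_add_finrank_ker (Psi col κ f T S)
  have h2 : Module.finrank F (SZ col κ f T S) =
      Module.finrank F (LinearMap.ker (Psi col κ f T S)) := by
    rw [← map_ker]
    exact (Submodule.equivMapOfInjective _ (ext0_inj col κ T S) _).finrank_eq.symm
  rw [range_Psi, Module.finrank_pi_fintype] at h1
  have h3 : ∑ i : T, Module.finrank F (R F col (S - κ i)) = ∑ i ∈ T, rr col (S - κ i) := by
    rw [← Finset.sum_coe_sort T]
    exact Finset.sum_congr rfl (fun i _ => finrank_R col _)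
  rw [h2]
  rw [h3] at h1
  have h4 : (((Module.finrank F (Id col κ f T S)) + Module.finrank F (LinearMap.ker (Psi col κ f T S)) : ℕ) : ℤ)
      = ((∑ i ∈ T, rr col (S - κ i) : ℕ) : ℤ) := by rw [h1]
  push_cast at h4
  linarith

lemma KZ_le_SZ (col : σ → ι) (κ : τ → ι → ℤ) (f : τ → MvPolynomial σ F) (T : Finset τ)
    (S : ι → ℤ) (hf : ∀ i ∈ T, f i ∈ R F col (κ i)) : KZ col κ f T S ≤ SZ col κ f T S := by
  classical
  rintro g ⟨h1, b, b1, b2, b3, b4⟩
  refine ⟨fun i hi => ?_, h1, ?_⟩
  · rw [b4 i hi]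
    refine Submodule.sum_mem _ (fun j hj => ?_)
    have := mul_mem_R col (b1 i hi j hj) (hf j hj)
    rwa [sub_add_cancel] at this
  · have h2 : ∑ i ∈ T, f i * g i = ∑ x ∈ T ×ˢ T, b x.1 x.2 * f x.1 * f x.2 := by
      rw [Finset.sum_product]
      refine Finset.sum_congr rfl (fun i hi => ?_)
      rw [b4 i hi, Finset.mul_sum]
      exact Finset.sum_congr rfl (fun j _ => by ring)
    rw [h2]
    refine Finset.sum_involution (fun x _ => (x.2, x.1)) ?_ ?_ ?_ ?_
    · intro x _
      rw [b2 x.2 x.1]
      ring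
    · intro x _ hx heq
      apply hx
      have h3 : x.2 = x.1 := congrArg Prod.fst heq
      rw [h3, b3]
      ring
    · intro x hx
      rw [Finset.mem_product] at hx ⊢
      exact ⟨hx.2, hx.1⟩
    · intro x _; rfl

theorem specKDIM (hD1 : SpecD1) (hSYZ : SpecSYZ) : SpecKDIM := by
  intro F _ σ ι τ _ _ _ col κ f T S hSy hEx
  classical
  refine ⟨finite_SZ col κ f T S, KZ_le_SZ col κ f T S (fun i hi => (hSy i hi).1), ?_⟩
  have key : ∀ T : Finset τ, Sy col κ f T → (∀ i ∈ T, Ex col κ f T (S - κ i)) →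
      (Module.finrank F (KZ col κ f T S) : ℤ) ≤
        E col κ T S - rr col S + ∑ i ∈ T, (rr col (S - κ i) : ℤ) := by
    intro T
    induction T using Finset.induction_on with
    | empty =>
      intro _ _
      have h0 : KZ col κ f ∅ S = ⊥ := by
        rw [eq_bot_iff]
        rintro g ⟨h1, -⟩
        rw [Submodule.mem_bot]
        funext i
        exact h1 i (Finset.notMem_empty i)
      rw [h0, E_empty]
      simp
    | insert k T' hk ih =>
      intro hSy hEx
      have hSy' : Sy col κ f T' := fun i hi => hSy i (Finset.mem_insert_of_mem hi)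
      have hkT : k ∈ insert k T' := Finset.mem_insert_self k T'
      have hDk := hD1 F σ ι τ col κ f (insert k T') (S - κ k) hSy (hEx k hkT)
      have hExk : Ex col κ f T' (S - κ k) := fun S' hS' =>
        (hDk.1 T' (Finset.subset_insert k T') S' hS').le
      have hEx' : ∀ i ∈ T', Ex col κ f T' (S - κ i) := by
        intro i hi
        have hDi := hD1 F σ ι τ col κ f (insert k T') (S - κ i) hSy
          (hEx i (Finset.mem_insert_of_mem hi))
        exact fun S' hS' => (hDi.1 T' (Finset.subset_insert k T') S' hS').le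
      have h1 := ih hSy' hEx'
      -- the linear map g ↦ g k
      have hfinS := finite_SZ col κ f (insert k T') S
      have hle := KZ_le_SZ col κ f (insert k T') S (fun i hi => (hSy i hi).1)
      have hfinK : Module.Finite F (KZ col κ f (insert k T') S) :=
        Submodule.finiteDimensional_of_le hle
      have hfinK' : Module.Finite F (KZ col κ f T' S) := by
        have := finite_SZ col κ f T' S
        exact Submodule.finiteDimensional_of_le (KZ_le_SZ col κ f T' S (fun i hi => (hSy' i hi).1))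
      let p : KZ col κ f (insert k T') S →ₗ[F] MvPolynomial σ F :=
        (LinearMap.proj k) ∘ₗ (KZ col κ f (insert k T') S).subtype
      have h2 := LinearMap.finrank_range_add_finrank_ker p
      have h3 : Module.finrank F (LinearMap.range p) ≤
          Module.finrank F (Id col κ f T' (S - κ k)) := by
        apply Submodule.finrank_mono
        rintro _ ⟨⟨g, hg⟩, rfl⟩
        obtain ⟨-, b, b1, b2, b3, b4⟩ := hg
        change g k ∈ _
        rw [b4 k hkT, Finset.sum_insert hk, b3, zero_mul, zero_add]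
        refine Submodule.sum_mem _ (fun j hj => ?_)
        rw [mul_comm]
        exact f_mul_mem_Id col κ f T' hj (b1 k hkT j (Finset.mem_insert_of_mem hj))
      have h4 : Module.finrank F (LinearMap.ker p) ≤ Module.finrank F (KZ col κ f T' S) := by
        have h5 : (LinearMap.ker p).map (KZ col κ f (insert k T') S).subtype ≤ KZ col κ f T' S := by
          rintro _ ⟨⟨g, hg⟩, hgk, rfl⟩
          have hgk0 : g k = 0 := hgk
          obtain ⟨hg0, b, b1, b2, b3, b4⟩ := hg
          change g ∈ KZ col κ f T' S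
          -- b k · is a syzygy
          have h6 : ∑ j ∈ T', f j * b k j = 0 := by
            have h7 := b4 k hkT
            rw [hgk0, Finset.sum_insert hk, b3, zero_mul, zero_add] at h7
            rw [h7]
            exact Finset.sum_congr rfl (fun j _ => by ring)
          obtain ⟨c, c1, c2, c3, c4⟩ := hSYZ F σ ι τ col κ f T' (S - κ k) hSy' hExk (b k)
            (fun j hj => b1 k hkT j (Finset.mem_insert_of_mem hj)) h6
          refine ⟨fun i hi => ?_, fun i j => b i j - c i j * f k, fun i hi j hj => ?_,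
            fun i j => ?_, fun i => ?_, fun i hi => ?_⟩
          · by_cases hik : i = k
            · rw [hik]; exact hgk0
            · exact hg0 i (by rw [Finset.mem_insert]; push Not; exact ⟨hik, hi⟩)
          · refine Submodule.sub_mem _ (b1 i (Finset.mem_insert_of_mem hi) j
              (Finset.mem_insert_of_mem hj)) ?_
            have := mul_mem_R col (c1 i hi j hj) (hSy k hkT).1
            rwa [show S - κ k - κ i - κ j + κ k = S - κ i - κ j by abel] at this
          · change b i j - c i j * f k = -(b j i - c j i * f k)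
            rw [b2 i j, c2 i j]; ring
          · change b i i - c i i * f k = 0
            rw [b3, c3]; ring
          · have h8 := b4 i (Finset.mem_insert_of_mem hi)
            rw [Finset.sum_insert hk, b2 i k, c4 i hi] at h8
            rw [h8]
            simp only [sub_mul, Finset.sum_sub_distrib, neg_mul]
            have h9 : (∑ j ∈ T', c i j * f j) * f k = ∑ j ∈ T', c i j * f k * f j := by
              rw [Finset.sum_mul]
              exact Finset.sum_congr rfl (fun j _ => by ring)
            rw [h9]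
            ring
        calc Module.finrank F (LinearMap.ker p)
            = Module.finrank F ((LinearMap.ker p).map (KZ col κ f (insert k T') S).subtype) :=
              (Submodule.equivSubtypeMap _ _).finrank_eq
          _ ≤ _ := Submodule.finrank_mono h5
      have h10 := hDk.1 T' (Finset.subset_insert k T') (S - κ k) le_rfl
      rw [E_insert col κ T' S k hk, Finset.sum_insert hk, ← h10]
      simp only [dq]
      have h11 : (Module.finrank F (KZ col κ f (insert k T') S) : ℤ) ≤
          Module.finrank F (Id col κ f T' (S - κ k)) + Module.finrank F (KZ col κ f T' S) := by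
        exact_mod_cast (by omega :
          Module.finrank F (KZ col κ f (insert k T') S) ≤
          Module.finrank F (Id col κ f T' (S - κ k)) + Module.finrank F (KZ col κ f T' S))
      linarith
  have h1 := key T hSy hEx
  have h2 := finrank_SZ col κ f T S
  simp only [dq]
  linarith

end FrD.KDIMM
end

section
set_option autoImplicit false

namespace FrD.LIFTM

open MvPolynomial FrD

variable {σ ι τ : Type} [Fintype σ] [DecidableEq ι] {F : Type} [Field F]

lemma pderiv_monomial_mem (col : σ → ι) (v : σ) (α : σ →₀ ℕ) (c : F) :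
    pderiv v (monomial α c) ∈ R F col (md col α - Pi.single (col v) 1) := by
  rw [pderiv_monomial]
  by_cases h : α v = 0
  · rw [h]
    simp
  · have h1 : α - Finsupp.single v 1 + Finsupp.single v 1 = α := by
      apply tsub_add_cancel_of_le
      rw [Finsupp.single_le_iff]
      omega
    have h2 : md col (α - Finsupp.single v 1) = md col α - Pi.single (col v) 1 := by
      rw [eq_sub_iff_add_eq, ← md_single, ← md_add, h1]
    rw [← h2]
    exact monomial_mem_R col _ _

/-- the derivative of a form -/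
lemma pderiv_mem (col : σ → ι) (v : σ) {S : ι → ℤ} {p : MvPolynomial σ F} (hp : p ∈ R F col S) :
    pderiv v p ∈ R F col (S - Pi.single (col v) 1) := by
  rw [mem_R] at hp
  rw [p.as_sum, map_sum]
  refine Submodule.sum_mem _ (fun α hα => ?_)
  have h1 := pderiv_monomial_mem (F := F) col v α (coeff α p)
  rwa [hp α (mem_support_iff.1 hα)] at h1

/-- forms without variables of the colour of `v` -/
lemma pderiv_eq_zero (col : σ → ι) (v : σ) {S : ι → ℤ} {p : MvPolynomial σ F} (hp : p ∈ R F col S)
    (hS : S (col v) = 0) : pderiv v p = 0 := by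
  rw [mem_R] at hp
  rw [p.as_sum, map_sum]
  refine Finset.sum_eq_zero (fun α hα => ?_)
  have h1 := hp α (mem_support_iff.1 hα)
  have h2 := le_md col α v
  rw [h1, hS] at h2
  have h3 : α v = 0 := by omega
  rw [pderiv_monomial, h3]
  simp

/-- the Euler operator of the colour `x` -/
noncomputable def eu (col : σ → ι) (x : ι) (p : MvPolynomial σ F) : MvPolynomial σ F :=
  ∑ v ∈ Finset.univ.filter (fun v => col v = x), X v * pderiv v p

lemma eu_monomial (col : σ → ι) (x : ι) (α : σ →₀ ℕ) (c : F) :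
    eu col x (monomial α c) = ((md col α x : ℤ) : F) • monomial α c := by
  unfold eu
  have h1 : ∀ v ∈ Finset.univ.filter (fun v => col v = x),
      X v * pderiv v (monomial α c) = ((α v : ℕ) : F) • monomial α c := by
    intro v _
    rw [X_mul_pderiv_monomial, Nat.cast_smul_eq_nsmul]
  rw [Finset.sum_congr rfl h1, ← Finset.sum_smul]
  congr 1
  simp only [md, Int.cast_sum]
  rw [Finset.sum_filter]
  refine Finset.sum_congr rfl (fun v _ => ?_)
  split_ifs <;> simp

lemma euler (col : σ → ι) (x : ι) {S : ι → ℤ} {p : MvPolynomial σ F} (hp : p ∈ R F col S) :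
    eu col x p = ((S x : ℤ) : F) • p := by
  rw [mem_R] at hp
  have h0 : eu col x p = ∑ α ∈ p.support, eu col x (monomial α (coeff α p)) := by
    conv_lhs => rw [p.as_sum]
    unfold eu
    rw [Finset.sum_comm]
    refine Finset.sum_congr rfl (fun v _ => ?_)
    rw [map_sum, Finset.mul_sum]
  rw [h0]
  conv_rhs => rw [p.as_sum]
  rw [Finset.smul_sum]
  refine Finset.sum_congr rfl (fun α hα => ?_)
  rw [eu_monomial, hp α (mem_support_iff.1 hα)]

end FrD.LIFTM

namespace FrD.LIFTM

open MvPolynomial FrD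

theorem specLIFT : SpecLIFT := by
  classical
  intro F _ _ σ ι τ _ _ _ col κ f T S x hSy hSx hκ hsyz g hg hsum hId
  -- the coefficients `b`
  have hb : ∀ i, ∃ b : τ → MvPolynomial σ F, (∀ j, i ∈ T → b j ∈ R F col (S - κ i - κ j)) ∧
      (i ∈ T → κ i x = 1 → g i = ∑ j ∈ T, f j * b j) ∧ (i ∈ T → κ i x = 0 → ∀ j, b j = 0) := by
    intro i
    by_cases hi : i ∈ T ∧ κ i x = 1
    · obtain ⟨b, hb1, hb2⟩ := (mem_Id col κ f T (S - κ i) (g i)).1 (hId i hi.1 hi.2)
      exact ⟨b, fun j _ => hb1 j, fun _ _ => hb2, fun _ h => absurd (h.symm.trans hi.2) (by norm_num)⟩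
    · refine ⟨fun _ => 0, fun j _ => Submodule.zero_mem _, fun h1 h2 => absurd ⟨h1, h2⟩ hi,
        fun _ _ _ => rfl⟩
  choose b hb1 hb2 hb3 using hb
  -- the derivatives
  have hKos : ∀ v, col v = x → ∃ c : τ → τ → MvPolynomial σ F,
      (∀ j ∈ T, ∀ l ∈ T, c j l ∈ R F col (S - Pi.single x 1 - κ j - κ l)) ∧
      (∀ j l, c j l = - c l j) ∧ (∀ j, c j j = 0) ∧
      ∀ j ∈ T, pderiv v (g j) + ∑ i ∈ T, b i j * pderiv v (f i) = ∑ l ∈ T, c j l * f l := by
    intro v hv
    have h1 : ∀ j ∈ T, pderiv v (g j) + ∑ i ∈ T, b i j * pderiv v (f i) ∈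
        R F col (S - Pi.single x 1 - κ j) := by
      intro j hj
      refine Submodule.add_mem _ ?_ (Submodule.sum_mem _ (fun i hi => ?_))
      · have := pderiv_mem col v (hg j hj)
        rwa [hv, show S - κ j - Pi.single x 1 = S - Pi.single x 1 - κ j by abel] at this
      · have := mul_mem_R col (hb1 i j hi) (pderiv_mem col v (hSy i hi).1)
        rwa [hv, show S - κ i - κ j + (κ i - Pi.single x 1) = S - Pi.single x 1 - κ j by abel]
          at this
    have h2 : ∑ j ∈ T, f j * (pderiv v (g j) + ∑ i ∈ T, b i j * pderiv v (f i)) = 0 := by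
      have e1 : ∑ j ∈ T, f j * (pderiv v (g j) + ∑ i ∈ T, b i j * pderiv v (f i)) =
          ∑ j ∈ T, f j * pderiv v (g j) + ∑ i ∈ T, pderiv v (f i) * ∑ j ∈ T, f j * b i j := by
        simp only [mul_add, Finset.sum_add_distrib, Finset.mul_sum]
        congr 1
        rw [Finset.sum_comm]
        exact Finset.sum_congr rfl (fun i _ => Finset.sum_congr rfl (fun j _ => by ring))
      have e2 : ∀ i ∈ T, pderiv v (f i) * ∑ j ∈ T, f j * b i j = pderiv v (f i) * g i := by
        intro i hi
        rcases hκ i hi with h | h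
        · rw [pderiv_eq_zero col v (hSy i hi).1 (by rw [hv]; exact h), zero_mul, zero_mul]
        · rw [← hb2 i hi h]
      have e3 : pderiv v (∑ j ∈ T, f j * g j) = ∑ j ∈ T, (f j * pderiv v (g j) +
          pderiv v (f j) * g j) := by
        rw [map_sum]
        refine Finset.sum_congr rfl (fun j _ => ?_)
        rw [pderiv_mul]
        ring
      rw [e1, Finset.sum_congr rfl e2, ← Finset.sum_add_distrib, ← e3, hsum, map_zero]
    obtain ⟨c, c1, c2, c3, c4⟩ := hsyz _ h1 h2
    exact ⟨c, c1, c2, c3, c4⟩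
  have hKos' : ∀ v, ∃ c : τ → τ → MvPolynomial σ F, col v = x →
      (∀ j ∈ T, ∀ l ∈ T, c j l ∈ R F col (S - Pi.single x 1 - κ j - κ l)) ∧
      (∀ j l, c j l = - c l j) ∧ (∀ j, c j j = 0) ∧
      ∀ j ∈ T, pderiv v (g j) + ∑ i ∈ T, b i j * pderiv v (f i) = ∑ l ∈ T, c j l * f l := by
    intro v
    by_cases hv : col v = x
    · obtain ⟨c, hc⟩ := hKos v hv
      exact ⟨c, fun _ => hc⟩
    · exact ⟨fun _ _ => 0, fun h => absurd h hv⟩
  choose c hc using hKos'
  obtain ⟨Cc, hCc⟩ : ∃ Cc : τ → τ → MvPolynomial σ F, ∀ j l, Cc j l =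
      ∑ v ∈ Finset.univ.filter (fun v => col v = x), X v * c v j l := ⟨_, fun _ _ => rfl⟩
  have hfil : ∀ v ∈ Finset.univ.filter (fun v => col v = x), col v = x := by
    intro v hv
    exact (Finset.mem_filter.1 hv).2
  -- the main identity
  have hmain : ∀ j ∈ T, ((S x : ℤ) : F) • g j = ∑ i ∈ T, (b j i - b i j + Cc j i) * f i := by
    intro j hj
    have e1 : eu col x (g j) + ∑ i ∈ T, b i j * eu col x (f i) = ∑ l ∈ T, Cc j l * f l := by
      have e2 : eu col x (g j) + ∑ i ∈ T, b i j * eu col x (f i) =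
          ∑ v ∈ Finset.univ.filter (fun v => col v = x),
            X v * (pderiv v (g j) + ∑ i ∈ T, b i j * pderiv v (f i)) := by
        unfold eu
        simp only [mul_add, Finset.sum_add_distrib, Finset.mul_sum]
        congr 1
        rw [Finset.sum_comm]
        exact Finset.sum_congr rfl (fun v _ => Finset.sum_congr rfl (fun i _ => by ring))
      rw [e2]
      have e3 : ∀ v ∈ Finset.univ.filter (fun v => col v = x),
          X v * (pderiv v (g j) + ∑ i ∈ T, b i j * pderiv v (f i)) =
            X v * ∑ l ∈ T, c v j l * f l := by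
        intro v hv
        rw [(hc v (hfil v hv)).2.2.2 j hj]
      rw [Finset.sum_congr rfl e3]
      simp only [hCc, Finset.mul_sum, Finset.sum_mul]
      rw [Finset.sum_comm]
      exact Finset.sum_congr rfl (fun l _ => Finset.sum_congr rfl (fun v _ => by ring))
    have e4 : eu col x (g j) = (((S x - κ j x : ℤ)) : F) • g j := euler col x (hg j hj)
    have e5 : ∀ i ∈ T, b i j * eu col x (f i) = b i j * f i := by
      intro i hi
      rw [euler col x (hSy i hi).1]
      rcases hκ i hi with h | h
      · rw [hb3 i hi h j, zero_mul, zero_mul]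
      · rw [h, Int.cast_one, one_smul]
    have e6 : ((κ j x : ℤ) : F) • g j = ∑ i ∈ T, b j i * f i := by
      rcases hκ j hj with h | h
      · rw [h, Int.cast_zero, zero_smul]
        exact (Finset.sum_eq_zero (fun i _ => by rw [hb3 j hj h i, zero_mul])).symm
      · rw [h, Int.cast_one, one_smul, hb2 j hj h]
        exact Finset.sum_congr rfl (fun i _ => by ring)
    rw [e4, Finset.sum_congr rfl e5] at e1
    have e7 : ((S x : ℤ) : F) • g j = (((S x - κ j x : ℤ)) : F) • g j + ((κ j x : ℤ) : F) • g j := by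
      rw [← add_smul]
      congr 1
      push_cast
      ring
    have e8 : (((S x - κ j x : ℤ)) : F) • g j = ∑ l ∈ T, Cc j l * f l - ∑ i ∈ T, b i j * f i :=
      eq_sub_of_add_eq e1
    rw [e7, e8, e6, ← Finset.sum_sub_distrib, ← Finset.sum_add_distrib]
    exact Finset.sum_congr rfl (fun i _ => by ring)
  have hS0 : ((S x : ℤ) : F) ≠ 0 := by
    rw [Int.cast_ne_zero]
    omega
  have hCanti : ∀ j l, Cc j l = - Cc l j := by
    intro j l
    rw [hCc, hCc, ← Finset.sum_neg_distrib]
    refine Finset.sum_congr rfl (fun v hv => ?_)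
    rw [(hc v (hfil v hv)).2.1 j l]
    ring
  refine ⟨fun j i => (((S x : ℤ) : F)⁻¹) • (b j i - b i j + Cc j i), ?_, ?_, ?_, ?_⟩
  · intro j hj i hi
    refine Submodule.smul_mem _ _ (Submodule.add_mem _ (Submodule.sub_mem _ (hb1 j i hj) ?_) ?_)
    · have := hb1 i j hi
      rwa [show S - κ i - κ j = S - κ j - κ i by abel] at this
    · rw [hCc]
      refine Submodule.sum_mem _ (fun v hv => ?_)
      have hv' := hfil v hv
      have := mul_mem_R col (X_mem_R (F := F) col v) ((hc v hv').1 j hj i hi)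
      rwa [hv', show Pi.single x 1 + (S - Pi.single x 1 - κ j - κ i) = S - κ j - κ i by abel]
        at this
  · intro j i
    change (((S x : ℤ) : F)⁻¹) • (b j i - b i j + Cc j i) =
      -((((S x : ℤ) : F)⁻¹) • (b i j - b j i + Cc i j))
    rw [← smul_neg, hCanti j i]
    congr 1
    ring
  · intro j
    change (((S x : ℤ) : F)⁻¹) • (b j j - b j j + Cc j j) = 0
    have h1 : Cc j j = 0 := by
      rw [hCc]
      refine Finset.sum_eq_zero (fun v hv => ?_)
      rw [(hc v (hfil v hv)).2.2.1 j, mul_zero]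
    rw [h1, sub_self, add_zero, smul_zero]
  · intro j hj
    have h1 := hmain j hj
    have h2 : g j = (((S x : ℤ) : F)⁻¹) • (((S x : ℤ) : F) • g j) := by
      rw [smul_smul, inv_mul_cancel₀ hS0, one_smul]
    rw [h2, h1, Finset.smul_sum]
    exact Finset.sum_congr rfl (fun i _ => by rw [smul_mul_assoc])

end FrD.LIFTM
end

section
set_option autoImplicit false

/-!
# MP_921642_ag, FD: module LO (the rank is lower semicontinuous on lines)
-/

namespace FrD.LOM

open Polynomial in
theorem rank_line (F : Type) [Field F] (U W : Type) [AddCommGroup U] [Module F U]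
    [Module.Finite F U] [AddCommGroup W] [Module F W] (A B : U →ₗ[F] W) :
    {t : F | Module.finrank F (LinearMap.range (A + t • B)) <
      Module.finrank F (LinearMap.range A)}.Finite := by
  classical
  obtain ⟨r, hr⟩ : ∃ r, r = Module.finrank F (LinearMap.range A) := ⟨_, rfl⟩
  rw [← hr]
  let b : Module.Basis (Fin r) F (LinearMap.range A) := Module.finBasisOfFinrankEq F _ hr.symm
  have hu : ∀ i, ∃ u : U, A u = (b i : W) := fun i => (b i).2
  choose u hu using hu
  let G : (Fin r → F) →ₗ[F] U := Fintype.linearCombination F u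
  have hGa : ∀ c : Fin r → F, G c = ∑ i, c i • u i := fun c => by
    simp [G, Fintype.linearCombination_apply]
  have hinj : Function.Injective (A ∘ₗ G) := by
    rw [← LinearMap.ker_eq_bot, LinearMap.ker_eq_bot']
    intro c hc
    have h1 : A (G c) = ((∑ i, c i • b i : LinearMap.range A) : W) := by
      rw [hGa, map_sum]
      simp [hu]
    rw [LinearMap.comp_apply, h1] at hc
    have h2 : ∑ i, c i • b i = 0 := by
      apply Subtype.ext
      rw [hc]; rfl
    have h3 := Fintype.linearIndependent_iff.mp b.linearIndependent c h2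
    funext i
    exact h3 i
  obtain ⟨L, hL⟩ := LinearMap.exists_leftInverse_of_injective _ (LinearMap.ker_eq_bot.mpr hinj)
  let Q : Matrix (Fin r) (Fin r) (Polynomial F) := Matrix.of fun i j =>
    Polynomial.C (L (A (u j)) i) + Polynomial.C (L (B (u j)) i) * Polynomial.X
  have hQ : ∀ t : F, (Q.map (Polynomial.evalRingHom t)) =
      LinearMap.toMatrix' (L ∘ₗ (A + t • B) ∘ₗ G) := by
    intro t
    ext i j
    rw [LinearMap.toMatrix'_apply]
    simp only [Matrix.map_apply, Q, Matrix.of_apply, LinearMap.comp_apply, hGa]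
    simp only [Polynomial.coe_evalRingHom, Polynomial.eval_add, Polynomial.eval_mul,
      Polynomial.eval_C, Polynomial.eval_X]
    have h4 : (∑ i', (Pi.single j (1 : F) : Fin r → F) i' • u i') = u j := by
      rw [Finset.sum_eq_single j]
      · simp
      · intro b' _ hb'
        simp [Pi.single_eq_of_ne hb']
      · simp
    rw [h4, LinearMap.add_apply, LinearMap.smul_apply, map_add, map_smul, Pi.add_apply,
      Pi.smul_apply, smul_eq_mul, mul_comm]
  let P : Polynomial F := Q.det
  have hP : ∀ t, P.eval t = (LinearMap.toMatrix' (L ∘ₗ (A + t • B) ∘ₗ G)).det := by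
    intro t
    rw [← hQ t]
    have := RingHom.map_det (Polynomial.evalRingHom t) Q
    simpa [P] using this
  have hPne : P ≠ 0 := by
    intro h0
    have h1 := hP 0
    rw [h0, zero_smul, add_zero, hL] at h1
    simp at h1
  have hfin : {t : F | P.IsRoot t}.Finite := Polynomial.finite_setOfPred_isRoot hPne
  refine hfin.subset (fun t ht => ?_)
  by_contra hroot
  have hdet : (LinearMap.toMatrix' (L ∘ₗ (A + t • B) ∘ₗ G)).det ≠ 0 := by
    rw [← hP t]; exact hroot
  have hunit : IsUnit (L ∘ₗ (A + t • B) ∘ₗ G) := by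
    rw [LinearMap.isUnit_iff_isUnit_det, ← LinearMap.det_toMatrix']
    exact isUnit_iff_ne_zero.mpr hdet
  have htop : LinearMap.range (L ∘ₗ (A + t • B) ∘ₗ G) = ⊤ :=
    LinearMap.isUnit_iff_range_eq_top _ |>.mp hunit
  have h6 : r ≤ Module.finrank F (LinearMap.range (A + t • B)) := by
    have h7 : LinearMap.range (L ∘ₗ (A + t • B) ∘ₗ G) ≤
        (LinearMap.range (A + t • B)).map L := by
      rintro _ ⟨c, rfl⟩
      exact ⟨(A + t • B) (G c), ⟨G c, rfl⟩, rfl⟩
    have h8 := Submodule.finrank_mono h7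
    rw [htop, finrank_top, Module.finrank_fin_fun] at h8
    exact h8.trans (Submodule.finrank_map_le L _)
  exact absurd ht (by
    rw [Set.mem_ofPred_eq]
    exact not_lt.mpr h6)

end FrD.LOM

namespace FrD

theorem specLO : SpecLO := fun F _ U W _ _ _ _ _ A B => LOM.rank_line F U W A B

end FrD
end

section
/-!
# MP_921642_ag, FD: module MAPC (change of the set of colours)
-/
set_option autoImplicit false

namespace FrD

namespace MAPCM

open MvPolynomial

variable {F : Type} [Field F] {σ ι ι0 τ : Type} [Fintype σ] [Fintype ι] [DecidableEq ι]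
  [DecidableEq ι0]

omit [DecidableEq ι] in
lemma push_sub (g : ι → ι0) (S S' : ι → ℤ) : push g (S - S') = push g S - push g S' := by
  funext k0
  simp only [push, Pi.sub_apply, ← Finset.sum_sub_distrib]
  exact Finset.sum_congr rfl fun k _ => by split_ifs <;> simp

omit [DecidableEq ι] in
lemma push_sum (g : ι → ι0) {μ : Type} (M : Finset μ) (κ : μ → ι → ℤ) :
    push g (∑ i ∈ M, κ i) = ∑ i ∈ M, push g (κ i) := by
  funext k0
  simp only [push, Finset.sum_apply]
  rw [Finset.sum_comm]
  refine Finset.sum_congr rfl fun k _ => ?_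
  split_ifs
  · rfl
  · rw [Finset.sum_const_zero]

omit [DecidableEq ι] in
/-- the value of a push forward -/
lemma push_apply (A : Finset ι) (g : ι → ι0) (hg : Set.InjOn g A) {S : ι → ℤ}
    (hS : ∀ k, k ∉ A → S k = 0) {k : ι} (hk : k ∈ A) : push g S (g k) = S k := by
  classical
  simp only [push]
  rw [Finset.sum_eq_single k]
  · rw [if_pos rfl]
  · intro k' _ hne
    by_cases hk' : k' ∈ A
    · rw [if_neg]
      intro h
      exact hne (hg (Finset.mem_coe.2 hk') (Finset.mem_coe.2 hk) h)
    · rw [hS k' hk']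
      split_ifs <;> rfl
  · intro h
    exact absurd (Finset.mem_univ k) h

omit [DecidableEq ι] in
lemma push_apply_not (A : Finset ι) (g : ι → ι0) {S : ι → ℤ} (hS : ∀ k, k ∉ A → S k = 0) {k0 : ι0}
    (hk : ∀ k ∈ A, g k ≠ k0) : push g S k0 = 0 := by
  simp only [push]
  refine Finset.sum_eq_zero fun k _ => ?_
  by_cases h : k ∈ A
  · rw [if_neg (hk k h)]
  · rw [hS k h]
    split_ifs <;> rfl

lemma md_push (g : ι → ι0) (col : σ → ι) (α : σ →₀ ℕ) : md (g ∘ col) α = push g (md col α) := by
  funext k0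
  simp only [md, push, Function.comp_apply]
  have h1 : ∀ k : ι, (if g k = k0 then ∑ v, (if col v = k then (α v : ℤ) else 0) else 0) =
      ∑ v, if col v = k then (if g k = k0 then (α v : ℤ) else 0) else 0 := by
    intro k
    split_ifs with h
    · rfl
    · simp
  rw [Finset.sum_congr rfl fun k _ => h1 k, Finset.sum_comm]
  refine Finset.sum_congr rfl fun v _ => ?_
  rw [Finset.sum_ite_eq Finset.univ (col v) fun k => if g k = k0 then (α v : ℤ) else 0,
    if_pos (Finset.mem_univ _)]

omit [Fintype ι] in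
lemma md_supp (A : Finset ι) (col : σ → ι) (hcol : ∀ v, col v ∈ A) (α : σ →₀ ℕ) (k : ι)
    (hk : k ∉ A) : md col α k = 0 := by
  simp only [md]
  refine Finset.sum_eq_zero fun v _ => ?_
  rw [if_neg]
  rintro rfl
  exact hk (hcol v)

lemma md_iff (A : Finset ι) (g : ι → ι0) (hg : Set.InjOn g A) (col : σ → ι)
    (hcol : ∀ v, col v ∈ A) {S : ι → ℤ} (hS : ∀ k, k ∉ A → S k = 0) (α : σ →₀ ℕ) :
    md col α = S ↔ md (g ∘ col) α = push g S := by
  rw [md_push]
  constructor
  · intro h
    rw [h]
  · intro h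
    funext k
    by_cases hk : k ∈ A
    · rw [← push_apply A g hg hS hk, ← h, push_apply A g hg (md_supp A col hcol α) hk]
    · rw [hS k hk, md_supp A col hcol α k hk]

lemma R_push (A : Finset ι) (g : ι → ι0) (hg : Set.InjOn g A) (col : σ → ι)
    (hcol : ∀ v, col v ∈ A) {S : ι → ℤ} (hS : ∀ k, k ∉ A → S k = 0) :
    R F col S = R F (g ∘ col) (push g S) := by
  ext p
  rw [mem_R, mem_R]
  exact forall_congr' fun α => imp_congr_right fun _ => md_iff A g hg col hcol hS α

lemma rr_push (A : Finset ι) (g : ι → ι0) (hg : Set.InjOn g A) (col : σ → ι)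
    (hcol : ∀ v, col v ∈ A) {S : ι → ℤ} (hS : ∀ k, k ∉ A → S k = 0) :
    rr col S = rr (g ∘ col) (push g S) := by
  rw [← finrank_R (F := ℚ), ← finrank_R (F := ℚ), R_push A g hg col hcol hS]

lemma push_ind (A : Finset ι) (g : ι → ι0) (hg : Set.InjOn g A) {J : Finset ι} (hJ : J ⊆ A) :
    push g (ind J) = ind (J.image g) := by
  have hS : ∀ k, k ∉ A → ind J k = 0 := by
    intro k hk
    rw [ind, if_neg fun h => hk (hJ h)]
  funext k0
  by_cases h : ∃ k ∈ A, g k = k0
  · obtain ⟨k, hk, rfl⟩ := h
    rw [push_apply A g hg hS hk]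
    simp only [ind]
    by_cases hkJ : k ∈ J
    · rw [if_pos hkJ, if_pos (Finset.mem_image_of_mem g hkJ)]
    · rw [if_neg hkJ, if_neg]
      intro h2
      obtain ⟨k', hk', he⟩ := Finset.mem_image.1 h2
      exact hkJ (hg (Finset.mem_coe.2 (hJ hk')) (Finset.mem_coe.2 hk) he ▸ hk')
  · push Not at h
    rw [push_apply_not A g hS h]
    simp only [ind]
    rw [if_neg]
    intro h2
    obtain ⟨k', hk', he⟩ := Finset.mem_image.1 h2
    exact h k' (hJ hk') he

lemma E_push (A : Finset ι) (g : ι → ι0) (hg : Set.InjOn g A) (col : σ → ι)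
    (hcol : ∀ v, col v ∈ A) (κ : τ → Finset ι) (T : Finset τ) (hκ : ∀ i ∈ T, κ i ⊆ A) {S : ι → ℤ}
    (hS : ∀ k, k ∉ A → S k = 0) :
    E col (fun i => ind (κ i)) T S = E (g ∘ col) (fun i => ind ((κ i).image g)) T (push g S) := by
  simp only [E]
  refine Finset.sum_congr rfl fun M hM => ?_
  have hM' : ∀ i ∈ M, κ i ⊆ A := fun i hi => hκ i (Finset.mem_powerset.1 hM hi)
  rw [rr_push A g hg col hcol (S := S - ∑ i ∈ M, ind (κ i)), push_sub, push_sum,
    Finset.sum_congr rfl fun i hi => push_ind A g hg (hM' i hi)]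
  intro k hk
  rw [Pi.sub_apply, Finset.sum_apply, hS k hk, zero_sub, neg_eq_zero]
  refine Finset.sum_eq_zero fun i hi => ?_
  rw [ind, if_neg fun h => hk (hM' i hi h)]

lemma Id_push (A : Finset ι) (g : ι → ι0) (hg : Set.InjOn g A) (col : σ → ι)
    (hcol : ∀ v, col v ∈ A) (κ : τ → Finset ι) (f : τ → MvPolynomial σ F) (T : Finset τ)
    (hκ : ∀ i ∈ T, κ i ⊆ A) {S : ι → ℤ} (hS : ∀ k, k ∉ A → S k = 0) :
    Id col (fun i => ind (κ i)) f T S =
      Id (g ∘ col) (fun i => ind ((κ i).image g)) f T (push g S) := by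
  simp only [Id]
  refine biSup_congr fun i hi => ?_
  rw [R_push A g hg col hcol (S := S - ind (κ i)), push_sub, push_ind A g hg (hκ i hi)]
  intro k hk
  rw [Pi.sub_apply, hS k hk, zero_sub, neg_eq_zero, ind, if_neg fun h => hk (hκ i hi h)]

theorem specMAPC : SpecMAPC := by
  intro F _ σ ι ι0 τ _ _ _ _ _ A g col κ f T S S0 hg hcol hκ hSA hS0 hle hf hEx
  have hf' : ∀ i ∈ T, f i ∈ R F col (ind (κ i)) := by
    intro i hi
    have h0 : ∀ k, k ∉ A → ind (κ i) k = 0 := by
      intro k hk
      rw [ind, if_neg fun h => hk (hκ i hi h)]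
    rw [R_push A g hg col hcol h0, push_ind A g hg (hκ i hi)]
    exact hf i hi
  refine ⟨hf', fun S' hS' => ?_⟩
  by_cases h0 : 0 ≤ S'
  · have hS'A : ∀ k, k ∉ A → S' k = 0 := fun k hk => le_antisymm ((hS' k).trans (hSA k hk)) (h0 k)
    have hp : push g S' ≤ S0 := by
      intro k0
      by_cases h : ∃ k ∈ A, g k = k0
      · obtain ⟨k, hk, rfl⟩ := h
        rw [push_apply A g hg hS'A hk]
        exact (hS' k).trans (hle k hk)
      · push Not at h
        rw [push_apply_not A g hS'A h]
        exact hS0 k0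
    have h1 := hEx _ hp
    unfold dq at h1 ⊢
    rw [E_push A g hg col hcol κ T hκ hS'A, Id_push A g hg col hcol κ f T hκ hS'A,
      rr_push A g hg col hcol hS'A]
    exact h1
  · rw [dq_neg col _ f T hf' h0, E_neg col _ T (fun i _ => ind_nonneg (κ i)) h0]

end MAPCM

end FrD
end

section
/-!
# MP_921642_ag, FD, module MONS: smaller multidegrees
-/
set_option autoImplicit false

namespace FrD

open MvPolynomial

/-- MONS: `XX` in a multidegree implies `XX` in the smaller ones. -/
theorem specMONS (hSUBV : SpecSUBV) (hEXT : SpecEXT) (hTRIM : SpecTRIM) : SpecMONS := by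
  classical
  intro F _ ι _ _ N w S S' hle hX σ τ _ _ col κ hN hκ hw
  by_cases h0 : 0 ≤ S'
  swap
  · refine ⟨fun _ => 0, fun i => Submodule.zero_mem _, fun S'' hS'' => ?_⟩
    have h1 : ¬ 0 ≤ S'' := fun h => h0 (h.trans hS'')
    rw [dq_neg col _ _ _ (fun i _ => Submodule.zero_mem _) h1,
      E_neg col _ _ (fun i _ => ind_nonneg (κ i)) h1]
  -- the colours of `S'`
  let σA := {v : σ // 0 < S' (col v)}
  let σ1 := σA ⊕ (Σ k : {k : ι // ¬ 0 < S' k}, Fin (N k.1))
  let col1 : σ1 → ι := Sum.elim (fun v => col v.1) (fun x => x.1.1)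
  let τ1 := {i : τ // ind (κ i) ≤ S'}
  let κ1 : τ1 → Finset ι := fun i => κ i.1
  obtain ⟨f1, hf1, hex1⟩ := hX σ1 τ1 col1 κ1 (by
    intro k _
    by_cases hk : 0 < S' k
    · refine (hN k hk).trans (Nat.card_le_card_of_injective
        (fun v : {v // col v = k} => (⟨Sum.inl ⟨v.1, by rw [v.2]; exact hk⟩, v.2⟩ :
          {v : σ1 // col1 v = k})) ?_)
      intro v v' hvv
      simp only [Subtype.mk.injEq] at hvv
      have h1 := Sum.inl.inj hvv
      have h2 : v.1 = v'.1 := congrArg (fun x : σA => x.1) h1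
      exact Subtype.ext h2
    · have h1 : Nat.card (Fin (N k)) ≤ Nat.card {v : σ1 // col1 v = k} :=
        Nat.card_le_card_of_injective
        (fun j : Fin (N k) => (⟨Sum.inr ⟨⟨k, hk⟩, j⟩, rfl⟩ : {v : σ1 // col1 v = k})) (by
          intro j j' hjj
          have h1 := Sum.inr_injective (congrArg Subtype.val hjj)
          simpa using h1)
      simpa using h1) (fun i => hκ i.1) (by
    intro J _
    by_cases hJ : ind J ≤ S'
    · refine le_trans (Nat.card_le_card_of_injective
        (fun i : {i : τ1 // κ1 i = J} => (⟨i.1.1, i.2⟩ : {i : τ // κ i = J})) ?_) (hw J hJ)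
      intro i i' hii
      simp only [Subtype.mk.injEq] at hii
      exact Subtype.ext (Subtype.ext hii)
    · have : IsEmpty {i : τ1 // κ1 i = J} := ⟨fun i => hJ (i.2 ▸ i.1.2)⟩
      simp)
  have hex1' := Ex_mono col1 _ f1 _ hle hex1
  obtain ⟨hV1, hV2⟩ := hSUBV F σA σ1 ι τ1 Sum.inl col1 S' Sum.inl_injective (by
    rintro (v | ⟨⟨k, hk⟩, j⟩) hv
    · exact ⟨v, rfl⟩
    · exact absurd hv hk)
  choose f2 hf2 hf2' using fun i : τ1 => hV1 (ind (κ1 i)) i.2 (f1 i) (hf1 i)
  have hSy : Sy (col1 ∘ Sum.inl : σA → ι) (fun i => ind (κ1 i)) f2 Finset.univ :=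
    fun i _ => ⟨hf2 i, ind_nonneg _, ind_ne_zero (hκ i.1)⟩
  have hex2 := (hV2 (fun i => ind (κ1 i)) f2 Finset.univ hSy).2 (by
    simp only [hf2']; exact hex1')
  obtain ⟨hs3, hex3⟩ := hEXT F σA σ ι τ1 Subtype.val col (fun i => ind (κ1 i)) f2 Finset.univ S'
    Subtype.val_injective hSy hex2
  refine ⟨fun i => if h : ind (κ i) ≤ S' then rename Subtype.val (f2 ⟨i, h⟩) else 0,
    fun i => ?_, ?_⟩
  · by_cases h : ind (κ i) ≤ S'
    · simp only [dif_pos h]
      exact (hs3 ⟨i, h⟩ (Finset.mem_univ _)).1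
    · simp only [dif_neg h]
      exact Submodule.zero_mem _
  · rw [← hTRIM F σ ι τ1 τ Subtype.val col (fun i => ind (κ i)) _ S' Subtype.val_injective
      (fun i => ind_nonneg _) (fun i hi h => hi ⟨⟨i, h⟩, rfl⟩)]
    have hf : ((fun i => if h : ind (κ i) ≤ S' then rename Subtype.val (f2 ⟨i, h⟩) else 0) ∘
        Subtype.val : τ1 → MvPolynomial σ F) = fun i => rename Subtype.val (f2 i) := by
      funext i
      simp only [Function.comp_apply]
      rw [dif_pos i.2]
    rw [hf]
    exact hex3

end FrD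
end

section
/-!
# MP_921642_ag, FD, module OBS: second order deformation of a linear map
-/
set_option autoImplicit false

namespace FrD.OBSM

theorem specOBS (hLO : SpecLO) : SpecOBS := by
  intro F _ _ U W _ _ _ _ _ M0 M1 C hC0 hC1
  obtain ⟨D, hD⟩ := Submodule.exists_isCompl (LinearMap.ker M0)
  set A : (D × C) →ₗ[F] W :=
    LinearMap.coprod (M0.comp D.subtype) (M1.comp C.subtype) with hA
  set B : (D × C) →ₗ[F] W := LinearMap.coprod (M1.comp D.subtype) 0 with hB
  have hinj : Function.Injective A := by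
    rw [← LinearMap.ker_eq_bot, LinearMap.ker_eq_bot']
    rintro ⟨⟨d, hd⟩, ⟨c, hc⟩⟩ h
    simp only [hA, LinearMap.coprod_apply, LinearMap.comp_apply, Submodule.subtype_apply] at h
    have hc0 : c = 0 := by
      apply hC1 c hc
      refine ⟨-d, ?_⟩
      rw [map_neg]
      rw [neg_eq_iff_add_eq_zero]
      exact h
    subst hc0
    rw [map_zero, add_zero] at h
    have hd0 : d = 0 := by
      have : d ∈ LinearMap.ker M0 ⊓ D := ⟨h, hd⟩
      rw [hD.inf_eq_bot] at this
      simpa using this
    subst hd0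
    rfl
  have hrA : Module.finrank F (LinearMap.range A) =
      Module.finrank F (LinearMap.range M0) + Module.finrank F C := by
    rw [LinearMap.finrank_range_of_inj hinj, Module.finrank_prod]
    have h1 := LinearMap.finrank_range_add_finrank_ker M0
    have h2 := Submodule.finrank_add_eq_of_isCompl hD
    omega
  have hfin := (hLO F (D × C) W A B).union (Set.finite_singleton (0 : F))
  obtain ⟨t, ht⟩ := hfin.exists_notMem
  rw [Set.mem_union, not_or] at ht
  obtain ⟨ht1, ht2⟩ := ht
  have ht0 : t ≠ 0 := fun h => ht2 (by simp [h])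
  refine ⟨t, ?_⟩
  have h1 : Module.finrank F (LinearMap.range A) ≤
      Module.finrank F (LinearMap.range (A + t • B)) := by
    by_contra hc
    exact ht1 (not_le.1 hc)
  rw [← hrA]
  refine h1.trans (Submodule.finrank_mono ?_)
  rintro _ ⟨⟨⟨d, hd⟩, ⟨c, hc⟩⟩, rfl⟩
  refine ⟨d + t⁻¹ • c, ?_⟩
  simp only [hA, hB, LinearMap.add_apply, LinearMap.smul_apply, LinearMap.coprod_apply,
    LinearMap.comp_apply, Submodule.subtype_apply, map_add, map_smul, LinearMap.zero_apply,
    add_zero, hC0 c hc, smul_zero, smul_add]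
  rw [smul_smul, inv_mul_cancel₀ ht0, one_smul]
  abel

end FrD.OBSM
end
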