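import Pool.Agent.Lib.MP_921642_ag.FD.Spec3

section
/-!
# MP_921642_ag, FD: module AFR (the forms of degree `a`)
-/
set_option autoImplicit false

namespace FrD.AFRM

open MvPolynomial Pool.Agent.Lib.MP_921642_ag

/-- colouring by the residue modulo `K` -/
def colK (n K : ℕ) (hK : 1 ≤ K) (v : Fin (n + 1)) : Fin K := ⟨v.1 % K, Nat.mod_lt _ hK⟩

lemma card_colK (n K : ℕ) (hK : 1 ≤ K) (k : Fin K) :
    (n + 1) / K ≤ Nat.card {v : Fin (n + 1) // colK n K hK v = k} := by
  have hlt : ∀ i : Fin ((n + 1) / K), i.1 * K + k.1 < n + 1 := by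
    intro i
    have h1 : i.1 * K + K ≤ (n + 1) / K * K := by
      have : i.1 + 1 ≤ (n + 1) / K := i.2
      calc i.1 * K + K = (i.1 + 1) * K := by ring
        _ ≤ _ := Nat.mul_le_mul_right K this
    have h2 : (n + 1) / K * K ≤ n + 1 := Nat.div_mul_le_self _ _
    have h3 := k.2
    omega
  have h := Nat.card_le_card_of_injective
    (fun i : Fin ((n + 1) / K) => (⟨⟨i.1 * K + k.1, hlt i⟩, by
      apply Fin.ext
      change (i.1 * K + k.1) % K = k.1
      rw [Nat.add_comm, Nat.add_mul_mod_self_right, Nat.mod_eq_of_lt k.2]⟩ :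
      {v : Fin (n + 1) // colK n K hK v = k})) (by
      intro i j hij
      have h1 := congrArg (fun x => x.1.1) hij
      simp only [Nat.add_right_cancel_iff] at h1
      exact Fin.ext (Nat.eq_of_mul_eq_mul_right hK h1))
  rwa [Nat.card_fin] at h

lemma card_rel (K a w : ℕ) (J : Finset (Fin K)) :
    Nat.card {i : {J : Finset (Fin K) // J.card = a} × Fin w // i.1.1 = J} ≤
      if J.card = a then w else 0 := by
  split_ifs with h
  · have h1 := Nat.card_le_card_of_injective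
      (fun i : {i : {J : Finset (Fin K) // J.card = a} × Fin w // i.1.1 = J} => i.1.2) (by
        rintro ⟨⟨⟨J1, hJ1⟩, x1⟩, h1⟩ ⟨⟨⟨J2, hJ2⟩, x2⟩, h2⟩ hx
        simp only at h1 h2 hx
        subst h1 h2 hx
        rfl)
    rwa [Nat.card_fin] at h1
  · have : IsEmpty {i : {J : Finset (Fin K) // J.card = a} × Fin w // i.1.1 = J} :=
      ⟨fun i => h (by rw [← i.2]; exact i.1.1.2)⟩
    rw [Nat.card_of_isEmpty]

lemma card_tau (K a w : ℕ) :
    Fintype.card ({J : Finset (Fin K) // J.card = a} × Fin w) = K.choose a * w := by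
  rw [Fintype.card_prod, Fintype.card_fin]
  congr 1
  have := Fintype.card_finset_len (α := Fin K) a
  rwa [Fintype.card_fin] at this

lemma push_unit {K : ℕ} (S : Fin K → ℤ) :
    push (fun _ : Fin K => ()) S = fun _ => ∑ k, S k := by
  funext u
  simp [push]

lemma sum_ind {K : ℕ} (J : Finset (Fin K)) : ∑ k, ind J k = (J.card : ℤ) := by
  simp [ind]

lemma mem_V {σ : Type} [Fintype σ] (a : ℕ) (p : MvPolynomial σ ℂ)
    (h : p ∈ R ℂ (fun _ : σ => ()) (fun _ : Unit => (a : ℤ))) : p ∈ V σ a := by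
  rw [mem_homogeneousSubmodule]
  intro d hd
  rw [mem_R] at h
  have h1 := congrFun (h d hd) ()
  simp only [md, if_true] at h1
  have h2 : ∑ v, d v = a := by exact_mod_cast h1
  rw [← h2, Finsupp.weight_apply, Finsupp.sum_fintype _ _ (by simp)]
  simp

/-- from the fine exactness to the exactness with one colour -/
lemma one_colour (hBLK : SpecBLK) {σ τ : Type} [Fintype σ] [Fintype τ] (K a e : ℕ)
    (col : σ → Fin K) (κ : τ → Finset (Fin K)) (hκ : ∀ i, (κ i).card = a)
    (f : τ → MvPolynomial σ ℂ) (hf : ∀ i, f i ∈ R ℂ col (ind (κ i)))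
    (hEx : ∀ S : Fin K → ℤ, 0 ≤ S → ∑ k, S k ≤ e →
      dq col (fun i => ind (κ i)) f Finset.univ S ≤ E col (fun i => ind (κ i)) Finset.univ S) :
    (∀ i, f i ∈ R ℂ (fun _ : σ => ()) (fun _ : Unit => (a : ℤ))) ∧
    Ex (fun _ : σ => ()) (fun _ : τ => fun _ : Unit => (a : ℤ)) f Finset.univ
      (fun _ => (e : ℤ)) := by
  classical
  have hpush : ∀ i, push (fun _ : Fin K => ()) (ind (κ i)) = fun _ => (a : ℤ) := by
    intro i
    rw [push_unit, sum_ind, hκ]
  have hB := fun S : Unit → ℤ => hBLK ℂ σ Unit (Fin K) τ (fun _ => ()) col (fun i => ind (κ i)) f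
    Finset.univ S (fun i _ => hf i) (fun i _ => ind_nonneg _)
  have hcol : (fun _ : Fin K => ()) ∘ col = fun _ : σ => () := rfl
  have hfun : (fun i => push (fun _ : Fin K => ()) (ind (κ i))) =
      (fun _ : τ => fun _ : Unit => (a : ℤ)) := by
    funext i; rw [hpush]
  have hf' : ∀ i, f i ∈ R ℂ (fun _ : σ => ()) (fun _ : Unit => (a : ℤ)) := by
    intro i
    have h5 := (hB (fun _ => 0)).2.2.2.2 (ind (κ i)) (hf i)
    rwa [hpush i, hcol] at h5
  refine ⟨hf', ?_⟩
  intro S1 hS1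
  by_cases h0 : 0 ≤ S1
  · obtain ⟨-, h2, -, h4, -⟩ := hB S1
    rw [hcol, hfun] at h2 h4
    rw [h2]
    refine h4.trans (Finset.sum_le_sum (fun S' hS' => ?_))
    rw [mem_fib] at hS'
    refine hEx S' hS'.1 ?_
    have h6 : ∑ k, S' k = S1 () := by
      have h7 := congrFun hS'.2 ()
      rwa [push_unit] at h7
    rw [h6]
    exact hS1 ()
  · rw [dq_neg _ _ _ _ (fun i _ => hf' i) h0, E_neg _ _ _ (fun i _ => ?_) h0]
    intro u
    simp

theorem specAFR (hPAF : SpecPAF) (hPBI : SpecPBI) (hKNM : SpecKNM) (hBLK : SpecBLK)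
    (hCOM2 : SpecCOM2) (hONE : SpecONE) : SpecAFR := by
  intro a e γ1 γ2 ha hγ1 hγ12 hmu
  classical
  obtain ⟨γ', h1, h2⟩ := exists_between hγ12
  obtain ⟨γ'', h3, h4⟩ := exists_between h2
  obtain ⟨N0, hN0⟩ := hPBI a e γ'' (by omega) (by linarith)
    (hPAF a e γ'' γ2 ha (by linarith) h4 hmu) γ' (by linarith) h3
  obtain ⟨K, hK, n1, hn1⟩ := hKNM a γ1 γ' (by omega) hγ1 h1
  refine ⟨max n1 (K * N0), fun n hn => ?_⟩
  have hN : N0 ≤ (n + 1) / K := by
    rw [Nat.le_div_iff_mul_le hK]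
    have := le_of_max_le_right hn
    rw [Nat.mul_comm]
    omega
  obtain ⟨w, hw, hw2⟩ : ∃ w : ℕ, (w : ℝ) ≤ γ' * (((n + 1) / K : ℕ) : ℝ) ^ a ∧
      w = ⌊γ' * (((n + 1) / K : ℕ) : ℝ) ^ a⌋₊ := by
    refine ⟨_, ?_, rfl⟩
    apply Nat.floor_le
    have : 0 < γ' := by linarith
    positivity
  -- the fine system
  have hXX := fun (S : Fin K → ℤ) (h0 : 0 ≤ S) (hS : ∑ k, S k ≤ e) =>
    hN0 ((n + 1) / K) hN w hw (Fin K) S h0 hS (Fin (n + 1))
      ({J : Finset (Fin K) // J.card = a} × Fin w) (colK n K hK) (fun i => i.1.1)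
      (fun k _ => card_colK n K hK k) (fun i => by
        rw [← Finset.card_pos, i.1.2]; omega) (fun J _ => card_rel K a w J)
  obtain ⟨𝒮, h𝒮⟩ : ∃ 𝒮 : Finset (Fin K → ℤ), ∀ S, S ∈ 𝒮 ↔ 0 ≤ S ∧ ∑ k, S k ≤ (e : ℤ) := by
    refine ⟨(Fintype.piFinset (fun _ => Finset.Icc 0 (e : ℤ))).filter
      (fun S => ∑ k, S k ≤ (e : ℤ)), fun S => ?_⟩
    rw [Finset.mem_filter, Fintype.mem_piFinset]
    constructor
    · rintro ⟨h5, h6⟩
      exact ⟨fun k => (Finset.mem_Icc.1 (h5 k)).1, h6⟩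
    · rintro ⟨h5, h6⟩
      refine ⟨fun k => Finset.mem_Icc.2 ⟨h5 k, ?_⟩, h6⟩
      exact (Finset.single_le_sum (f := S) (fun k _ => h5 k) (Finset.mem_univ k)).trans h6
  obtain ⟨f, hf, hfEx⟩ := hCOM2 ℂ (Fin (n + 1)) (Fin K)
    ({J : Finset (Fin K) // J.card = a} × Fin w) (colK n K hK) (fun i => ind i.1.1) 𝒮
    (fun i => ind_nonneg _) (fun S hS => hXX S ((h𝒮 S).1 hS).1 ((h𝒮 S).1 hS).2)
  have hEx : ∀ S : Fin K → ℤ, 0 ≤ S → ∑ k, S k ≤ e →
      dq (colK n K hK) (fun i : {J : Finset (Fin K) // J.card = a} × Fin w => ind i.1.1) f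
        Finset.univ S ≤
      E (colK n K hK) (fun i : {J : Finset (Fin K) // J.card = a} × Fin w => ind i.1.1)
        Finset.univ S := by
    intro S h0 hS
    exact hfEx S ((h𝒮 S).2 ⟨h0, hS⟩) S le_rfl
  have h7 := one_colour hBLK K a e (colK n K hK)
    (fun i : {J : Finset (Fin K) // J.card = a} × Fin w => i.1.1) (fun i => i.1.2) f hf hEx
  have h8 := hONE (Fin (n + 1)) ({J : Finset (Fin K) // J.card = a} × Fin w) n a e f
    (Fintype.card_fin _) (by omega) (fun i => mem_V a (f i) (h7.1 i)) h7.2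
  obtain ⟨g, hg, hgE⟩ := h8
  refine ⟨g, hg, fun j hj => le_of_eq (hgE j (hj.trans ?_))⟩
  rw [card_tau, hw2]
  exact hn1 n (le_of_max_le_left hn)

end FrD.AFRM
end

section
/-!
# MP_921642_ag, FD: the module AON (the case `m = d`)
-/
set_option autoImplicit false

namespace FrD.AONM

open MvPolynomial Pool.Agent.Lib.MP_921642_ag FrD

/-- the variables, as an infinite sequence of linear forms -/
noncomputable def vs (n : ℕ) (i : ℕ) : MvPolynomial (Fin (n + 1)) ℂ :=
  if h : i < n + 1 then X ⟨i, h⟩ else 0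

lemma vs_mem (n i : ℕ) : vs n i ∈ V (Fin (n + 1)) 1 := by
  unfold vs
  split_ifs with h
  · exact (mem_homogeneousSubmodule _ _).2 (isHomogeneous_X ℂ _)
  · exact Submodule.zero_mem _

/-- the polynomials all of whose monomials contain one of the first `k` variables -/
noncomputable def P (n k : ℕ) : Submodule ℂ (MvPolynomial (Fin (n + 1)) ℂ) where
  carrier := {g | ∀ β : Fin (n + 1) →₀ ℕ, (∀ i : Fin (n + 1), (i : ℕ) < k → β i = 0) →
    coeff β g = 0}
  add_mem' := by
    intro f g hf hg β hβ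
    rw [coeff_add, hf β hβ, hg β hβ, add_zero]
  zero_mem' := by
    intro β _
    exact coeff_zero β
  smul_mem' := by
    intro c f hf β hβ
    rw [coeff_smul, hf β hβ, smul_zero]

lemma Iq_le_P (n k e : ℕ) : FrI.Iq (vs n) 1 e k ≤ P n k := by
  unfold FrI.Iq
  split_ifs with h
  · apply iSup_le
    intro i
    rintro g ⟨h', _, rfl⟩
    intro β hβ
    rw [LinearMap.mulLeft_apply]
    unfold vs
    split_ifs with hi
    · rw [coeff_X_mul', if_neg]
      rw [Finsupp.mem_support_iff, not_not]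
      exact hβ ⟨i, hi⟩ i.2
    · rw [zero_mul, coeff_zero]
  · exact bot_le

lemma mem_Iq (n k e : ℕ) (g : MvPolynomial (Fin (n + 1)) ℂ)
    (hg : g ∈ V (Fin (n + 1)) e) (hP : g ∈ P n k) : g ∈ FrI.Iq (vs n) 1 e k := by
  have h1 : g = ∑ β ∈ g.support, monomial β (coeff β g) := g.as_sum
  rw [h1]
  apply Submodule.sum_mem
  intro β hβ
  have hne : coeff β g ≠ 0 := mem_support_iff.1 hβ
  have hex : ∃ i : Fin (n + 1), (i : ℕ) < k ∧ β i ≠ 0 := by
    by_contra hcon
    push Not at hcon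
    exact hne (hP β hcon)
  obtain ⟨i, hik, hi⟩ := hex
  have hdeg : β.degree = e := by
    by_contra hcon
    exact hne (((mem_homogeneousSubmodule _ _).1 hg).coeff_eq_zero hcon)
  have hdec : β = Finsupp.single i 1 + (β - Finsupp.single i 1) := by
    rw [add_tsub_cancel_of_le]
    rw [Finsupp.single_le_iff]
    omega
  have he : 1 ≤ e := by
    rw [← hdeg, hdec, map_add, Finsupp.degree_single]
    omega
  unfold FrI.Iq
  rw [if_pos he]
  apply Submodule.mem_iSup_of_mem (⟨i, hik⟩ : Fin k)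
  refine ⟨monomial (β - Finsupp.single i 1) (coeff β g), ?_, ?_⟩
  · apply (mem_homogeneousSubmodule _ _).2
    apply isHomogeneous_monomial
    rw [hdec, map_add, Finsupp.degree_single] at hdeg
    omega
  · rw [LinearMap.mulLeft_apply]
    have h2 : vs n ((⟨i, hik⟩ : Fin k) : ℕ) = monomial (Finsupp.single i 1) 1 := by
      unfold vs
      rw [dif_pos i.2]
      rfl
    rw [h2, monomial_mul, one_mul, ← hdec]

lemma reg (n s e : ℕ) (hs : s ≤ n + 1) : FrI.Reg (vs n) 1 e s := by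
  intro k hk e' _ he' g hg hmem
  apply mem_Iq n k (e' - 1) g hg
  intro β hβ
  have h1 := Iq_le_P n k e' hmem
  have hk' : k < n + 1 := by omega
  have h2 := h1 (β + Finsupp.single ⟨k, hk'⟩ 1) (by
    intro i hi
    have hne : (⟨k, hk'⟩ : Fin (n + 1)) ≠ i := by
      intro h
      rw [← h] at hi
      exact absurd hi (lt_irrefl _)
    rw [Finsupp.add_apply, hβ i hi, Finsupp.single_apply, if_neg hne, add_zero])
  unfold vs at h2
  rw [dif_pos hk', mul_comm, coeff_mul_X] at h2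
  exact h2

/-! ### Numbers -/

lemma Fs_eq (hFSR : FrI.SpecFSR) (n : ℕ) : ∀ d j : ℕ, j ≤ n →
    FrI.Fs n 1 d j = ((n + d - j).choose (n - j) : ℤ) := by
  intro d
  induction d with
  | zero =>
    intro j hj
    rw [hFSR.2.1 n 1 0 j le_rfl (by norm_num)]
    simp
  | succ d ihd =>
    intro j
    induction j with
    | zero =>
      intro _
      rw [hFSR.1]
      simp
    | succ j ihj =>
      intro hj
      rw [hFSR.2.2 n 1 d j le_rfl, ihj (by omega), ihd j (by omega)]
      have e1 : n + (d + 1) - j = (n + d - j) + 1 := by omega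
      have e2 : n - j = (n - (j + 1)) + 1 := by omega
      have e3 : n + (d + 1) - (j + 1) = n + d - j := by omega
      rw [e1, e2, e3, Nat.choose_succ_succ]
      push_cast
      have e4 : n - (j + 1) + 1 = Nat.succ (n - (j + 1)) := rfl
      ring

lemma Fs_top (hFSR : FrI.SpecFSR) (n d : ℕ) : FrI.Fs n 1 (d + 1) (n + 1) = 0 := by
  rw [hFSR.2.2 n 1 d n le_rfl, Fs_eq hFSR n (d + 1) n le_rfl, Fs_eq hFSR n d n le_rfl]
  simp

/-- the multiplicities `(d, …, d, 1)` -/
def mm (n d : ℕ) (i : Fin (n + 2)) : ℕ := if (i : ℕ) < n + 1 then d else 1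

lemma lvdim_mm (hFSR : FrI.SpecFSR) (n d : ℕ) (hd : 1 ≤ d) (hdn : d ≤ n) :
    lvdim n d (n + 2) (mm n d) = -1 := by
  classical
  have hn : 1 ≤ n := hd.trans hdn
  let F : Finset (Fin (n + 2)) → ℤ := fun I => if I.card ≤ n then
    (-1) ^ I.card * ((n + kI d (mm n d) I - I.card).choose n : ℤ) else 0
  let f : ℕ → ℤ := fun j => if j ≤ n then (-1) ^ j * ((n + d - j).choose n : ℤ) else 0
  let g : ℕ → ℤ := fun j => if j = 0 then -1 else 0
  set a : Fin (n + 2) := Fin.last (n + 1) with ha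
  set s : Finset (Fin (n + 2)) := Finset.univ.erase a with hs
  have hscard : s.card = n + 1 := by
    rw [hs, Finset.card_erase_of_mem (Finset.mem_univ _), Finset.card_univ, Fintype.card_fin]
    rfl
  have has : a ∉ s := Finset.notMem_erase _ _
  have huniv : (Finset.univ : Finset (Fin (n + 2))) = insert a s :=
    (Finset.insert_erase (Finset.mem_univ a)).symm
  have hlt : ∀ i ∈ s, (i : ℕ) < n + 1 := by
    intro i hi
    have h1 : i ≠ a := Finset.ne_of_mem_erase hi
    have h2 := i.2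
    have h3 : (i : ℕ) ≠ n + 1 := fun h => h1 (Fin.ext h)
    omega
  have hmma : mm n d a = 1 := by
    unfold mm
    rw [if_neg]
    rw [ha, Fin.val_last]
    omega
  have hsum : ∀ t ⊆ s, ∑ i ∈ t, mm n d i = t.card * d := by
    intro t ht
    rw [Finset.sum_congr rfl (fun i hi => show mm n d i = d from if_pos (hlt i (ht hi)))]
    rw [Finset.sum_const, smul_eq_mul]
  have hF1 : ∀ t ∈ s.powerset, F t = f t.card := by
    intro t ht
    rw [Finset.mem_powerset] at ht
    have hk : kI d (mm n d) t = d := by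
      unfold kI
      split_ifs with h
      · rfl
      · have hc : 1 ≤ t.card := Finset.card_pos.2 (Finset.nonempty_iff_ne_empty.2 h)
        rw [hsum t ht]
        obtain ⟨c, hc'⟩ : ∃ c, t.card = c + 1 := ⟨t.card - 1, by omega⟩
        rw [hc', Nat.add_sub_cancel, add_mul, one_mul, Nat.add_sub_cancel_left]
    simp only [F, f, hk]
  have hF2 : ∀ t ∈ s.powerset, F (insert a t) = g t.card := by
    intro t ht
    rw [Finset.mem_powerset] at ht
    have hat : a ∉ t := fun h => has (ht h)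
    have hcard : (insert a t).card = t.card + 1 := Finset.card_insert_of_notMem hat
    have hk : kI d (mm n d) (insert a t) = 1 := by
      unfold kI
      rw [if_neg (Finset.insert_ne_empty _ _), Finset.sum_insert hat, hsum t ht, hcard, hmma,
        Nat.add_sub_cancel, Nat.add_sub_cancel]
    simp only [F, g, hk, hcard]
    by_cases h0 : t.card = 0
    · rw [h0, if_pos (by omega), if_pos rfl]
      simp
    · rw [if_neg h0]
      split_ifs with h1
      · rw [Nat.choose_eq_zero_of_lt (by omega)]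
        simp
      · rfl
  have h1 : lvdim n d (n + 2) (mm n d) = ∑ I ∈ (Finset.univ : Finset (Fin (n + 2))).powerset, F I := by
    unfold lvdim
    rw [Finset.sum_filter]
    refine Finset.sum_congr rfl (fun I _ => ?_)
    have hmin : min n (n + 2) = n := by omega
    rw [hmin]
  rw [h1, huniv, Finset.sum_powerset_insert has, Finset.sum_congr rfl hF1,
    Finset.sum_congr rfl hF2, Finset.sum_powerset_apply_card, Finset.sum_powerset_apply_card, hscard]
  have h2 : ∑ m ∈ Finset.range (n + 1 + 1), (n + 1).choose m • f m = FrI.Fs n 1 d (n + 1) := by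
    unfold FrI.Fs
    have hfil : (Finset.range (d + 1)).filter (fun i => i * 1 ≤ d) = Finset.range (d + 1) := by
      apply Finset.filter_true_of_mem
      intro i hi
      rw [Finset.mem_range] at hi
      omega
    rw [hfil]
    symm
    rw [← Finset.sum_subset (s₁ := Finset.range (d + 1)) (s₂ := Finset.range (n + 1 + 1))]
    · refine Finset.sum_congr rfl (fun i hi => ?_)
      rw [Finset.mem_range] at hi
      simp only [f]
      rw [if_pos (by omega), mul_one, nsmul_eq_mul]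
      ring
    · intro i hi
      rw [Finset.mem_range] at hi ⊢
      omega
    · intro i _ hi
      rw [Finset.mem_range, not_lt] at hi
      simp only [f]
      split_ifs with h
      · rw [Nat.choose_eq_zero_of_lt (show n + d - i < n by omega)]
        simp
      · rw [smul_zero]
  have h3 : ∑ m ∈ Finset.range (n + 1 + 1), (n + 1).choose m • g m = -1 := by
    rw [Finset.sum_eq_single 0]
    · simp [g]
    · intro b _ hb
      simp only [g]
      rw [if_neg hb, smul_zero]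
    · intro h
      exact absurd (Finset.mem_range.2 (by omega)) h
  obtain ⟨d', rfl⟩ : ∃ d', d = d' + 1 := ⟨d - 1, by omega⟩
  rw [h2, h3, Fs_top hFSR n d']
  norm_num

end FrD.AONM

namespace FrD

open FrD.AONM MvPolynomial Pool.Agent.Lib.MP_921642_ag

theorem specAON (hSEMI : FrI.SpecSEMI) (hLV : FrI.SpecLV) (hHILB : FrI.SpecHILB)
    (hFSR : FrI.SpecFSR) : SpecAON := by
  intro n d s hd hdn p
  have hx : (0 : ℤ) ≤ Module.finrank ℂ (linSys n d s (fun _ => d) p) := by positivity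
  have hn : 1 ≤ n := hd.trans hdn
  by_cases hs : s ≤ n + 1
  · have hA : 1 + d = d + 1 := by omega
    have hK := finrank_K_le (n := n) (s := s) hA p
    have hlv := hLV n d s d 1 hA hn hd le_rfl (by omega)
    have hH := hHILB (Fin (n + 1)) n 1 (d - 1) s (vs n) (Fintype.card_fin _) le_rfl (vs_mem n)
      (reg n s (d - 1) hs)
    have h1 := hSEMI n 1 (d - 1) s (vs n) le_rfl (vs_mem n)
      (fun j hj => (hH j hj (d - 1) le_rfl).le) (extPts p)
    have hd1 : d - 1 + 1 = d := by omega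
    rw [hd1] at h1
    apply ldim_le_of_le hx
    rw [hlv]
    exact le_trans h1 hK
  · push Not at hs
    apply ldim_le_of_neg hx
    refine ⟨fun i => if h : (i : ℕ) < n + 2 then mm n d ⟨i, h⟩ else 0, fun i => ?_, ?_⟩
    · simp only
      unfold mm
      split_ifs <;> omega
    · rw [lvdim_extend n d s (n + 2) (by omega) (mm n d) (fun i => by unfold mm; split_ifs <;> omega),
        lvdim_mm hFSR n d hd hdn]
      norm_num

end FrD
end

section
/-!
# MP_921642_ag, FD, module FSN: the asymptotic sign of the Fröberg number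
-/
set_option autoImplicit false

namespace FrD.FSNM

open Filter Topology Asymptotics

/-- `choose K i / K^i → 1 / i!` -/
lemma choose_lim (i : ℕ) :
    Tendsto (fun K : ℕ => (K.choose i : ℝ) / (K : ℝ) ^ i) atTop (𝓝 (1 / (i.factorial : ℝ))) := by
  have h := isEquivalent_choose i
  have hne : ∀ᶠ n : ℕ in atTop, ((n : ℝ) ^ i / (i.factorial : ℝ)) ≠ 0 := by
    filter_upwards [eventually_ge_atTop 1] with n hn
    have h1 : (0 : ℝ) < (n : ℝ) := by exact_mod_cast hn
    have h2 : (0 : ℝ) < (i.factorial : ℝ) := by exact_mod_cast Nat.factorial_pos i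
    positivity
  have h2 := (isEquivalent_iff_tendsto_one hne).mp h
  have hf : (0 : ℝ) < (i.factorial : ℝ) := by exact_mod_cast Nat.factorial_pos i
  have h3 := h2.div_const (i.factorial : ℝ)
  refine (h3.congr (fun n => ?_))
  simp only [Pi.div_apply]
  field_simp

/-- the number of relations -/
noncomputable def ss (a : ℕ) (γ1 : ℝ) (n : ℕ) : ℕ := ⌈γ1 * (n : ℝ) ^ a / (a.factorial : ℝ)⌉₊

lemma ss_lim (a : ℕ) (γ1 : ℝ) (ha : 1 ≤ a) (hγ : 0 < γ1) :
    Tendsto (fun n : ℕ => (ss a γ1 n : ℝ) / (n : ℝ) ^ a) atTop (𝓝 (γ1 / (a.factorial : ℝ))) := by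
  have hf : (0 : ℝ) < (a.factorial : ℝ) := by exact_mod_cast Nat.factorial_pos a
  have h1 := tendsto_nat_ceil_mul_div_atTop (R := ℝ) (a := γ1 / (a.factorial : ℝ)) (by positivity)
  have h2 : Tendsto (fun n : ℕ => (n : ℝ) ^ a) atTop atTop :=
    (tendsto_pow_atTop (by omega)).comp tendsto_natCast_atTop_atTop
  refine (h1.comp h2).congr (fun n => ?_)
  simp only [Function.comp_apply, ss]
  rw [div_mul_eq_mul_div]

lemma ss_atTop (a : ℕ) (γ1 : ℝ) (ha : 1 ≤ a) (hγ : 0 < γ1) :
    Tendsto (fun n : ℕ => ss a γ1 n) atTop atTop := by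
  have hf : (0 : ℝ) < (a.factorial : ℝ) := by exact_mod_cast Nat.factorial_pos a
  have h2 : Tendsto (fun n : ℕ => (n : ℝ) ^ a) atTop atTop :=
    (tendsto_pow_atTop (by omega)).comp tendsto_natCast_atTop_atTop
  have h3 : Tendsto (fun n : ℕ => γ1 * (n : ℝ) ^ a / (a.factorial : ℝ)) atTop atTop := by
    have := h2.const_mul_atTop (show (0 : ℝ) < γ1 / (a.factorial : ℝ) by positivity)
    refine this.congr (fun n => ?_)
    ring
  exact tendsto_nat_ceil_atTop.comp h3

lemma term1 (a i : ℕ) (γ1 : ℝ) (ha : 1 ≤ a) (hγ : 0 < γ1) :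
    Tendsto (fun n : ℕ => ((ss a γ1 n).choose i : ℝ) / (n : ℝ) ^ (i * a)) atTop
      (𝓝 (1 / (i.factorial : ℝ) * (γ1 / (a.factorial : ℝ)) ^ i)) := by
  have h1 := (choose_lim i).comp (ss_atTop a γ1 ha hγ)
  have h2 := (ss_lim a γ1 ha hγ).pow i
  have h3 := h1.mul h2
  refine h3.congr' ?_
  have h4 : ∀ᶠ n : ℕ in atTop, 1 ≤ ss a γ1 n := (ss_atTop a γ1 ha hγ).eventually_ge_atTop 1
  filter_upwards [h4, eventually_ge_atTop 1] with n hn hn1
  have hs : (0 : ℝ) < (ss a γ1 n : ℝ) := by exact_mod_cast hn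
  have hp : (0 : ℝ) < (n : ℝ) := by exact_mod_cast hn1
  simp only [Function.comp_apply]
  rw [div_pow, ← pow_mul, mul_comm a i]
  have h5 : ((ss a γ1 n : ℝ)) ^ i ≠ 0 := (pow_pos hs i).ne'
  have h6 : ((n : ℝ)) ^ (i * a) ≠ 0 := (pow_pos hp _).ne'
  field_simp

lemma term2 (k : ℕ) :
    Tendsto (fun n : ℕ => ((n + k).choose n : ℝ) / (n : ℝ) ^ k) atTop
      (𝓝 (1 / (k.factorial : ℝ))) := by
  have h1 := (choose_lim k).comp (tendsto_add_atTop_nat k)
  have h2 : Tendsto (fun n : ℕ => (((n + k : ℕ) : ℝ) / (n : ℝ)) ^ k) atTop (𝓝 (1 ^ k)) := by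
    refine Tendsto.pow ?_ k
    have h3 : Tendsto (fun n : ℕ => 1 + (k : ℝ) * ((n : ℝ)⁻¹)) atTop (𝓝 (1 + (k : ℝ) * 0)) :=
      tendsto_const_nhds.add (tendsto_inv_atTop_nhds_zero_nat.const_mul _)
    rw [mul_zero, add_zero] at h3
    refine h3.congr' ?_
    filter_upwards [eventually_ge_atTop 1] with n hn1
    have hp : (0 : ℝ) < (n : ℝ) := by exact_mod_cast hn1
    push_cast
    field_simp
  rw [one_pow] at h2
  have h3 := h1.mul h2
  rw [mul_one] at h3
  refine h3.congr' ?_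
  filter_upwards [eventually_ge_atTop 1] with n hn1
  have hp : (0 : ℝ) < (n : ℝ) := by exact_mod_cast hn1
  have hq : (0 : ℝ) < ((n + k : ℕ) : ℝ) := by exact_mod_cast (by omega : 0 < n + k)
  simp only [Function.comp_apply]
  rw [div_pow]
  have h5 : (((n + k : ℕ) : ℝ)) ^ k ≠ 0 := (pow_pos hq k).ne'
  have h6 : ((n : ℝ)) ^ k ≠ 0 := (pow_pos hp _).ne'
  rw [show (n + k).choose k = (n + k).choose n by
    rw [← Nat.choose_symm_of_eq_add (show n + k = n + k from rfl)]]
  field_simp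

theorem specFSN : SpecFSN := by
  intro a d γ1 ha hγ hmu
  have hf : (0 : ℝ) < (a.factorial : ℝ) := by exact_mod_cast Nat.factorial_pos a
  have hd : (0 : ℝ) < (d.factorial : ℝ) := by exact_mod_cast Nat.factorial_pos d
  have hlim : Tendsto (fun n : ℕ => ∑ i ∈ (Finset.range (d + 1)).filter (fun i => i * a ≤ d),
      (-1 : ℝ) ^ i * (((ss a γ1 n).choose i : ℝ) / (n : ℝ) ^ (i * a)) *
        (((n + (d - i * a)).choose n : ℝ) / (n : ℝ) ^ (d - i * a))) atTop
      (𝓝 (∑ i ∈ (Finset.range (d + 1)).filter (fun i => i * a ≤ d),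
        (-1 : ℝ) ^ i * (1 / (i.factorial : ℝ) * (γ1 / (a.factorial : ℝ)) ^ i) *
          (1 / ((d - i * a).factorial : ℝ)))) := by
    refine tendsto_finsetSum _ (fun i _ => ?_)
    exact ((term1 a i γ1 ha hγ).const_mul _).mul (term2 (d - i * a))
  have hval : (∑ i ∈ (Finset.range (d + 1)).filter (fun i => i * a ≤ d),
        (-1 : ℝ) ^ i * (1 / (i.factorial : ℝ) * (γ1 / (a.factorial : ℝ)) ^ i) *
          (1 / ((d - i * a).factorial : ℝ))) = mu a γ1 d / (d.factorial : ℝ) := by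
    rw [mu, Finset.sum_div]
    refine Finset.sum_congr rfl (fun i _ => ?_)
    have h1 : (0 : ℝ) < (i.factorial : ℝ) := by exact_mod_cast Nat.factorial_pos i
    have h2 : (0 : ℝ) < ((d - i * a).factorial : ℝ) := by
      exact_mod_cast Nat.factorial_pos (d - i * a)
    rw [neg_pow γ1, div_pow]
    field_simp
  rw [hval] at hlim
  have hneg : mu a γ1 d / (d.factorial : ℝ) < 0 := div_neg_of_neg_of_pos hmu hd
  obtain ⟨n1, hn1⟩ := eventually_atTop.mp (hlim.eventually (gt_mem_nhds hneg))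
  refine ⟨max n1 1, fun n hn => ?_⟩
  have h1 := hn1 n (le_trans (le_max_left _ _) hn)
  have hn0 : 1 ≤ n := le_trans (le_max_right _ _) hn
  have hp : (0 : ℝ) < (n : ℝ) := by exact_mod_cast hn0
  have h2 : ((FrI.Fs n a d (ss a γ1 n) : ℤ) : ℝ) = (n : ℝ) ^ d *
      ∑ i ∈ (Finset.range (d + 1)).filter (fun i => i * a ≤ d),
      (-1 : ℝ) ^ i * (((ss a γ1 n).choose i : ℝ) / (n : ℝ) ^ (i * a)) *
        (((n + (d - i * a)).choose n : ℝ) / (n : ℝ) ^ (d - i * a)) := by
    rw [FrI.Fs, Finset.mul_sum]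
    push_cast
    refine Finset.sum_congr rfl (fun i hi => ?_)
    have hi2 : i * a ≤ d := (Finset.mem_filter.1 hi).2
    have h3 : (n : ℝ) ^ d = (n : ℝ) ^ (i * a) * (n : ℝ) ^ (d - i * a) := by
      rw [← pow_add]; congr 1; omega
    have h4 : n + d - i * a = n + (d - i * a) := by omega
    rw [h4, h3]
    have h5 : ((n : ℝ)) ^ (i * a) ≠ 0 := (pow_pos hp _).ne'
    have h6 : ((n : ℝ)) ^ (d - i * a) ≠ 0 := (pow_pos hp _).ne'
    field_simp
  have h3 : ((FrI.Fs n a d (ss a γ1 n) : ℤ) : ℝ) < 0 := by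
    rw [h2]
    exact mul_neg_of_pos_of_neg (pow_pos hp d) h1
  have h4 : FrI.Fs n a d (ss a γ1 n) < 0 := by exact_mod_cast h3
  exact h4

end FrD.FSNM
end

section
/-!
# MP_921642_ag, FD: module GAM (the critical density)
-/
set_option autoImplicit false

namespace FrD.GAMM

open FrD

lemma mu_cont (a j : ℕ) : Continuous (fun γ : ℝ => mu a γ j) := by
  unfold mu
  fun_prop

lemma mu_zero_left (h : SpecMUR) (a : ℕ) (ha : 1 ≤ a) (j : ℕ) : mu a 0 j = 1 := by
  induction j with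
  | zero => exact (h a 0 ha).1
  | succ p ih => rw [(h a 0 ha).2 p, ih]; ring

lemma mu_small (h : SpecMUR) (a : ℕ) (ha : 1 ≤ a) (γ : ℝ) (j : ℕ) (hj : j < a) : mu a γ j = 1 := by
  induction j with
  | zero => exact (h a γ ha).1
  | succ p ih =>
    rw [(h a γ ha).2 p, ih (by omega), Nat.choose_eq_zero_of_lt (by omega)]
    simp

lemma mu_one_self (h : SpecMUR) (a : ℕ) (ha : 1 ≤ a) : mu a 1 a = 0 := by
  obtain ⟨b, rfl⟩ : ∃ b, a = b + 1 := ⟨a - 1, by omega⟩
  rw [(h (b + 1) 1 ha).2 b, mu_small h (b + 1) ha 1 b (by omega)]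
  simp [(h (b + 1) 1 ha).1]

/-- the critical density -/
lemma crit (h : SpecMUR) (a n : ℕ) (ha : 1 ≤ a) (han : a ≤ n) :
    ∃ c : ℝ, 0 < c ∧ (∀ j ≤ n, 0 ≤ mu a c j) ∧ ∃ j ≤ n, mu a c j = 0 := by
  set B : Set ℝ := {γ | 0 ≤ γ ∧ ∃ j ≤ n, mu a γ j ≤ 0} with hB
  have hBc : IsClosed B := by
    have h1 : B = {γ : ℝ | 0 ≤ γ} ∩ ⋃ j ∈ Set.Iic n, {γ : ℝ | mu a γ j ≤ 0} := by
      ext γ
      simp only [hB, Set.mem_setOf_eq, Set.mem_inter_iff, Set.mem_iUnion, Set.mem_Iic, exists_prop]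
    rw [h1]
    refine IsClosed.inter (isClosed_le continuous_const continuous_id) ?_
    exact (Set.finite_Iic n).isClosed_biUnion
      (fun j _ => isClosed_le (mu_cont a j) continuous_const)
  have h1B : (1 : ℝ) ∈ B := ⟨by norm_num, a, han, (mu_one_self h a ha).le⟩
  have hbdd : BddBelow B := ⟨0, fun x hx => hx.1⟩
  have hcB : sInf B ∈ B := hBc.csInf_mem ⟨1, h1B⟩ hbdd
  have hc0 : sInf B ≠ 0 := by
    intro h0
    obtain ⟨_, j, _, hj⟩ := hcB
    rw [h0, mu_zero_left h a ha] at hj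
    linarith
  have hcpos : 0 < sInf B := lt_of_le_of_ne hcB.1 (Ne.symm hc0)
  have hnn : ∀ j ≤ n, 0 ≤ mu a (sInf B) j := by
    intro j hj
    by_contra hneg
    push Not at hneg
    have hopen : IsOpen {γ : ℝ | mu a γ j < 0} := isOpen_lt (mu_cont a j) continuous_const
    obtain ⟨ε, hε, hball⟩ := Metric.isOpen_iff.1 hopen (sInf B) hneg
    have hm : 0 < min ε (sInf B) := lt_min hε hcpos
    have hx : sInf B - min ε (sInf B) / 2 ∈ Metric.ball (sInf B) ε := by
      rw [Metric.mem_ball, Real.dist_eq]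
      have h1 : sInf B - min ε (sInf B) / 2 - sInf B = -(min ε (sInf B) / 2) := by ring
      rw [h1, abs_neg, abs_of_pos (by linarith)]
      have := min_le_left ε (sInf B)
      linarith
    have hlt := hball hx
    have hge : 0 ≤ sInf B - min ε (sInf B) / 2 := by
      have := min_le_right ε (sInf B)
      linarith
    have hin : sInf B - min ε (sInf B) / 2 ∈ B := ⟨hge, j, hj, le_of_lt hlt⟩
    have := csInf_le hbdd hin
    linarith
  obtain ⟨_, j, hj, hj0⟩ := hcB
  exact ⟨sInf B, hcpos, hnn, j, hj, le_antisymm hj0 (hnn j hj)⟩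

theorem specGAM (hMUR : SpecMUR) : SpecGAM := by
  classical
  intro a e ha he
  have ha1 : 1 ≤ a := by omega
  obtain ⟨c, hc, hnn, hex⟩ := crit hMUR a (e + a - 1) ha1 (by omega)
  have hex' : ∃ j, j ≤ e + a - 1 ∧ mu a c j = 0 := hex
  set j0 := Nat.find hex' with hj0
  obtain ⟨hj0le, hj0z⟩ := Nat.find_spec hex'
  rw [← hj0] at hj0le hj0z
  have hpos : ∀ j < j0, 0 < mu a c j := by
    intro j hj
    have h1 := Nat.find_min hex' hj
    have h2 : j ≤ e + a - 1 := by omega
    have h3 := hnn j h2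
    exact lt_of_le_of_ne h3 (fun h4 => h1 ⟨h2, h4.symm⟩)
  have hj0a : a ≤ j0 := by
    by_contra hlt
    push Not at hlt
    rw [mu_small hMUR a ha1 c j0 hlt] at hj0z
    norm_num at hj0z
  have hnext : mu a c (j0 + 1) < 0 := by
    rw [(hMUR a c ha1).2 j0, hj0z]
    have h1 : 0 < mu a c (j0 + 1 - a) := hpos _ (by omega)
    have h2 : (0 : ℝ) < (j0.choose (a - 1) : ℝ) := by
      exact_mod_cast Nat.choose_pos (by omega)
    have h3 : 0 < c * (j0.choose (a - 1) : ℝ) * mu a c (j0 + 1 - a) :=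
      mul_pos (mul_pos hc h2) h1
    linarith
  have hj0e : j0 = e + a - 1 := by
    by_contra hne
    have h1 : j0 + 1 ≤ e + a - 1 := by omega
    have := hnn _ h1
    linarith
  have hlast : mu a c (e + a) < 0 := by
    have h1 : j0 + 1 = e + a := by omega
    rwa [h1] at hnext
  have hposj : ∀ j ∈ Finset.range (e + 1), 0 < mu a c j := by
    intro j hj
    exact hpos j (by have := Finset.mem_range.1 hj; omega)
  have hopen : IsOpen (⋂ j ∈ Finset.range (e + 1), {γ : ℝ | 0 < mu a γ j}) :=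
    isOpen_biInter_finset (fun j _ => isOpen_lt continuous_const (mu_cont a j))
  have hcin : c ∈ ⋂ j ∈ Finset.range (e + 1), {γ : ℝ | 0 < mu a γ j} := by
    simp only [Set.mem_iInter]
    exact hposj
  obtain ⟨ε, hε, hball⟩ := Metric.isOpen_iff.1 hopen c hcin
  have hx : c + ε / 2 ∈ Metric.ball c ε := by
    rw [Metric.mem_ball, Real.dist_eq]
    have h1 : c + ε / 2 - c = ε / 2 := by ring
    rw [h1, abs_of_pos (by linarith)]
    linarith
  have hin := hball hx
  simp only [Set.mem_iInter] at hin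
  refine ⟨c, c + ε / 2, hc, by linarith, fun j hj => ?_, hlast⟩
  exact hin j (Finset.mem_range.2 (by omega))

end FrD.GAMM
end

section
/-!
# MP_921642_ag, FD, module KNM: the number of colours
-/
set_option autoImplicit false

namespace FrD.KNMM

open Filter Topology Asymptotics

private lemma choose_lim (a : ℕ) :
    Tendsto (fun K : ℕ => (K.choose a : ℝ) * (a.factorial : ℝ) / (K : ℝ) ^ a) atTop (𝓝 1) := by
  have h := isEquivalent_choose a
  have hne : ∀ᶠ n : ℕ in atTop, ((n : ℝ) ^ a / (a.factorial : ℝ)) ≠ 0 := by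
    filter_upwards [eventually_ge_atTop 1] with n hn
    have h1 : (0 : ℝ) < (n : ℝ) := by exact_mod_cast hn
    have h2 : (0 : ℝ) < (a.factorial : ℝ) := by exact_mod_cast Nat.factorial_pos a
    positivity
  have h2 := (isEquivalent_iff_tendsto_one hne).mp h
  refine h2.congr (fun n => ?_)
  simp only [Pi.div_apply]
  rw [div_div_eq_mul_div]

private lemma exists_K (a : ℕ) (γ1 γ' : ℝ) (h1 : 0 < γ1) (h2 : γ1 < γ') :
    ∃ K : ℕ, 1 ≤ K ∧ γ1 / (a.factorial : ℝ) < (K.choose a : ℝ) * (γ' * (1 / (K : ℝ)) ^ a) := by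
  have h3 : γ1 / γ' < 1 := (div_lt_one (h1.trans h2)).mpr h2
  have h4 := (choose_lim a).eventually (lt_mem_nhds h3)
  obtain ⟨K, hK1, hK2⟩ := ((eventually_ge_atTop 1).and h4).exists
  refine ⟨K, hK1, ?_⟩
  have hKp : (0 : ℝ) < (K : ℝ) := by exact_mod_cast hK1
  have hKa : (0 : ℝ) < (K : ℝ) ^ a := pow_pos hKp a
  have hf : (0 : ℝ) < (a.factorial : ℝ) := by exact_mod_cast Nat.factorial_pos a
  have hg : (0 : ℝ) < γ' := h1.trans h2
  rw [div_lt_div_iff₀ hg hKa] at hK2
  rw [one_div, inv_pow, ← div_eq_mul_inv, ← mul_div_assoc, div_lt_div_iff₀ hf hKa]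
  nlinarith

theorem specKNM : SpecKNM := by
  intro a γ1 γ' ha h1 h2
  obtain ⟨K, hK1, hK⟩ := exists_K a γ1 γ' h1 h2
  have hKp : (0 : ℝ) < (K : ℝ) := by exact_mod_cast hK1
  have hg : (0 : ℝ) < γ' := h1.trans h2
  have hf : (0 : ℝ) < (a.factorial : ℝ) := by exact_mod_cast Nat.factorial_pos a
  have hlim : Tendsto (fun n : ℕ => (K.choose a : ℝ) *
      (γ' * (1 / (K : ℝ) - (n : ℝ)⁻¹) ^ a - ((n : ℝ)⁻¹) ^ a)) atTop
      (𝓝 ((K.choose a : ℝ) * (γ' * (1 / (K : ℝ) - 0) ^ a - (0 : ℝ) ^ a))) := by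
    have h0 : Tendsto (fun n : ℕ => ((n : ℝ)⁻¹)) atTop (𝓝 0) := tendsto_inv_atTop_nhds_zero_nat
    exact (((tendsto_const_nhds.sub h0).pow a).const_mul γ' |>.sub (h0.pow a)).const_mul _
  rw [sub_zero, zero_pow (by omega : a ≠ 0), sub_zero] at hlim
  have hev := hlim.eventually (lt_mem_nhds hK)
  obtain ⟨n1, hn1⟩ := eventually_atTop.mp hev
  refine ⟨K, hK1, max n1 K, fun n hn => ?_⟩
  have hn2 := hn1 n (le_trans (le_max_left _ _) hn)
  have hnK : K ≤ n := le_trans (le_max_right _ _) hn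
  have hnp : (0 : ℝ) < (n : ℝ) := by exact_mod_cast (show 0 < n by omega)
  have hnK' : (K : ℝ) ≤ (n : ℝ) := by exact_mod_cast hnK
  rw [Nat.ceil_le, Nat.cast_mul]
  set q : ℕ := (n + 1) / K with hq
  have hq1 : (n : ℝ) / (K : ℝ) - 1 ≤ (q : ℝ) := by
    have h5 : n + 1 < K * (q + 1) := by
      have := Nat.lt_mul_div_succ (n + 1) (show 0 < K by omega)
      simpa [hq] using this
    have h6 : ((n : ℝ) + 1) < (K : ℝ) * ((q : ℝ) + 1) := by exact_mod_cast h5
    rw [sub_le_iff_le_add, div_le_iff₀ hKp]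
    nlinarith
  have hr0 : (0 : ℝ) ≤ 1 / (K : ℝ) - (n : ℝ)⁻¹ := by
    rw [← one_div, sub_nonneg]
    exact one_div_le_one_div_of_le hKp hnK'
  have hq2 : (n : ℝ) * (1 / (K : ℝ) - (n : ℝ)⁻¹) ≤ (q : ℝ) := by
    have : (n : ℝ) * (1 / (K : ℝ) - (n : ℝ)⁻¹) = (n : ℝ) / (K : ℝ) - 1 := by
      field_simp
    rw [this]
    exact hq1
  have hq3 : (n : ℝ) ^ a * (1 / (K : ℝ) - (n : ℝ)⁻¹) ^ a ≤ (q : ℝ) ^ a := by
    rw [← mul_pow]
    exact pow_le_pow_left₀ (mul_nonneg hnp.le hr0) hq2 a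
  have hfl : γ' * (q : ℝ) ^ a - 1 ≤ (⌊γ' * (q : ℝ) ^ a⌋₊ : ℝ) := (Nat.sub_one_lt_floor _).le
  have hna : (0 : ℝ) < (n : ℝ) ^ a := pow_pos hnp a
  have hC : (0 : ℝ) ≤ (K.choose a : ℝ) := Nat.cast_nonneg _
  have hinv : (n : ℝ) ^ a * ((n : ℝ)⁻¹) ^ a = 1 := by
    rw [← mul_pow, mul_inv_cancel₀ hnp.ne', one_pow]
  calc γ1 * (n : ℝ) ^ a / (a.factorial : ℝ) = (n : ℝ) ^ a * (γ1 / (a.factorial : ℝ)) := by ring
    _ ≤ (n : ℝ) ^ a * ((K.choose a : ℝ) *
        (γ' * (1 / (K : ℝ) - (n : ℝ)⁻¹) ^ a - ((n : ℝ)⁻¹) ^ a)) :=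
      mul_le_mul_of_nonneg_left hn2.le hna.le
    _ = (K.choose a : ℝ) * (γ' * ((n : ℝ) ^ a * (1 / (K : ℝ) - (n : ℝ)⁻¹) ^ a) -
        (n : ℝ) ^ a * ((n : ℝ)⁻¹) ^ a) := by ring
    _ = (K.choose a : ℝ) * (γ' * ((n : ℝ) ^ a * (1 / (K : ℝ) - (n : ℝ)⁻¹) ^ a) - 1) := by
      rw [hinv]
    _ ≤ (K.choose a : ℝ) * (γ' * (q : ℝ) ^ a - 1) := by
      refine mul_le_mul_of_nonneg_left ?_ hC
      have := mul_le_mul_of_nonneg_left hq3 hg.le
      linarith
    _ ≤ (K.choose a : ℝ) * (⌊γ' * (q : ℝ) ^ a⌋₊ : ℝ) := mul_le_mul_of_nonneg_left hfl hC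

end FrD.KNMM
end

section
/-!
# MP_921642_ag, FD: the module MFD (assembly of the theorem)
-/
set_option autoImplicit false

namespace FrD.MFDM

open MvPolynomial Pool.Agent.Lib.MP_921642_ag

theorem specMFD (hGAM : SpecGAM) (hFSN : SpecFSN) (hAFR : SpecAFR) (hAON : SpecAON)
    (hSEMI : FrI.SpecSEMI) (hLV : FrI.SpecLV) (hFSR : FrI.SpecFSR) : SpecMFD := by
  classical
  intro d
  -- the bound for one `A`
  have hN : ∀ A : ℕ, ∃ N : ℕ, 2 ≤ A → A + A ≤ d → ∃ γ1 : ℝ, ∀ n ≥ N,
      FrI.Fs n A d ⌈γ1 * (n : ℝ) ^ A / (A.factorial : ℝ)⌉₊ < 0 ∧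
      ∃ f : ℕ → MvPolynomial (Fin (n + 1)) ℂ, (∀ i, f i ∈ V (Fin (n + 1)) A) ∧
        ∀ j ≤ ⌈γ1 * (n : ℝ) ^ A / (A.factorial : ℝ)⌉₊,
          (Module.finrank ℂ (V (Fin (n + 1)) (d - A)) : ℤ) -
            (Module.finrank ℂ (FrI.Iq f A (d - A) j) : ℤ) ≤ FrI.Fs n A (d - A) j := by
    intro A
    by_cases hA : 2 ≤ A ∧ A + A ≤ d
    · obtain ⟨γ1, γ2, h1, h2, h3, h4⟩ := hGAM A (d - A) hA.1 (by omega)
      have hd : d - A + A = d := by omega
      rw [hd] at h4
      obtain ⟨N1, hN1⟩ := hFSN A d γ1 (by omega) h1 h4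
      obtain ⟨N2, hN2⟩ := hAFR A (d - A) γ1 γ2 hA.1 h1 h2 h3
      exact ⟨max N1 N2, fun _ _ => ⟨γ1, fun n hn =>
        ⟨hN1 n (le_trans (le_max_left _ _) hn), hN2 n (le_trans (le_max_right _ _) hn)⟩⟩⟩
    · exact ⟨0, fun h1 h2 => absurd ⟨h1, h2⟩ hA⟩
  choose N hN using hN
  refine ⟨max (max d 2) (∑ A ∈ Finset.range (d + 1), N A), ?_⟩
  intro n hn m s hm hmd p
  have hnd : d ≤ n := le_trans (le_trans (le_max_left _ _) (le_max_left _ _)) hn
  have hn2 : 2 ≤ n := le_trans (le_trans (le_max_right _ _) (le_max_left _ _)) hn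
  have hnN : ∀ A ≤ d, N A ≤ n := fun A hA =>
    le_trans (Finset.single_le_sum (fun i _ => Nat.zero_le (N i))
      (Finset.mem_range.mpr (Nat.lt_succ_of_le hA))) (le_trans (le_max_right _ _) hn)
  have hx : (0 : ℤ) ≤ Module.finrank ℂ (linSys n d s (fun _ => m) p) := by positivity
  obtain ⟨A, hA⟩ : ∃ A, A + m = d + 1 := ⟨d + 1 - m, by omega⟩
  obtain ⟨e, he⟩ : ∃ e, e + 1 = m := ⟨m - 1, by omega⟩
  have hd : d = e + A := by omega
  have hA1 : 1 ≤ A := by omega
  have hn1 : 1 ≤ n := by omega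
  have hK := finrank_K_le (n := n) (s := s) hA p
  have hnA : d < (n + 1) * A := by
    have h1 : (n + 1) * 1 ≤ (n + 1) * A := Nat.mul_le_mul_left _ hA1
    omega
  have hlv := hLV n d s m A hA hn1 hm hmd hnA
  by_cases hA2 : A = 1
  · have hmd' : m = d := by omega
    subst hmd'
    exact hAON n m s hm hnd p
  by_cases hcase : A ≤ e
  · obtain ⟨γ1, hγ⟩ := hN A (by omega) (by omega)
    obtain ⟨hneg, f, hfV, hf⟩ := hγ n (hnN A (by omega))
    set s1 : ℕ := ⌈γ1 * (n : ℝ) ^ A / (A.factorial : ℝ)⌉₊ with hs1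
    have hde : d - A = e := by omega
    rw [hde] at hf
    by_cases hs : s ≤ s1
    · have h1 := hSEMI n A e s f hA1 hfV (fun j hj => hf j (le_trans hj hs)) (extPts p)
      rw [← hd] at h1
      apply ldim_le_of_le hx
      rw [hlv]
      exact le_trans h1 hK
    · push Not at hs
      apply ldim_le_of_neg hx
      have hlv' := hLV n d s1 m A hA hn1 hm hmd hnA
      refine ⟨fun i => if h : (i : ℕ) < s1 then (fun _ : Fin s1 => m) ⟨i, h⟩ else 0,
        fun i => ?_, ?_⟩
      · simp only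
        split_ifs <;> omega
      · rw [lvdim_extend n d s s1 hs.le (fun _ => m) (fun _ => hmd), hlv']
        exact hneg
  · -- trivial case
    push Not at hcase
    have h1 := finrank_K_trivial (extPts p) A e s
    rw [← hd] at h1
    apply ldim_le_of_le hx
    rw [hlv]
    refine le_trans ?_ (le_trans h1 hK)
    rw [finrank_V', finrank_V']
    -- compute Fs
    have key : ∀ j : ℕ, FrI.Fs n A (e + A) j =
        ((n + (e + A)).choose n : ℤ) - j * ((n + e).choose n : ℤ) := by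
      intro j
      induction j with
      | zero => rw [hFSR.1]; simp
      | succ j ih =>
        rw [hFSR.2.2 n A e j hA1, ih, hFSR.2.1 n A e j hA1 hcase]
        push_cast
        ring
    have key2 := key s
    rw [← hd] at key2
    rw [key2]

end FrD.MFDM
end

section
/-!
# MP_921642_ag, FD: module ONE (one colour)
-/
set_option autoImplicit false

namespace FrD.ONEM

open MvPolynomial Pool.Agent.Lib.MP_921642_ag

section

variable {σ τ : Type} [Fintype σ] [Fintype τ]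

lemma md_one (α : σ →₀ ℕ) : md (fun _ : σ => ()) α = fun _ => ((α.degree : ℕ) : ℤ) := by
  funext k
  simp only [md, if_true]
  rw [Finsupp.degree_eq_sum]
  push_cast
  rfl

lemma R_one (e : ℕ) : R ℂ (fun _ : σ => ()) (fun _ => (e : ℤ)) = V σ e := by
  ext p
  rw [mem_R, mem_homogeneousSubmodule]
  constructor
  · intro h α hα
    have h1 : ((α.degree : ℕ) : ℤ) = (e : ℤ) := by
      have h0 := congrFun (h α hα) ()
      rw [md_one] at h0
      exact h0
    have h2 : α.degree = e := by exact_mod_cast h1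
    rw [← h2, Finsupp.degree_eq_weight_one]
    rfl
  · intro h α hα
    rw [md_one]
    funext _
    have h1 := h hα
    have h2 : α.degree = e := by
      rw [← h1, Finsupp.degree_eq_weight_one]
      rfl
    rw [h2]

lemma rr_one (n k : ℕ) (hn : Fintype.card σ = n + 1) :
    rr (fun _ : σ => ()) (fun _ => (k : ℤ)) = (n + k).choose n := by
  rw [← finrank_R (F := ℂ), R_one, finrank_V, hn, show n + 1 + k - 1 = n + k by omega,
    ← Nat.choose_symm_add]

lemma rr_sub (n a e m : ℕ) (hn : Fintype.card σ = n + 1) :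
    rr (fun _ : σ => ()) ((fun _ : Unit => (e : ℤ)) - (fun _ => ((m * a : ℕ) : ℤ))) =
      if m * a ≤ e then (n + e - m * a).choose n else 0 := by
  split_ifs with h
  · have h1 : (fun _ : Unit => (e : ℤ)) - (fun _ => ((m * a : ℕ) : ℤ)) =
        fun _ => ((e - m * a : ℕ) : ℤ) := by
      funext _
      simp only [Pi.sub_apply]
      omega
    rw [h1, rr_one n _ hn]
    congr 1
    omega
  · apply rr_neg
    intro h1
    have h2 := h1 ()
    simp only [Pi.zero_apply, Pi.sub_apply] at h2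
    omega

lemma E_one (n a e j : ℕ) (hn : Fintype.card σ = n + 1) (ha : 1 ≤ a) (T : Finset τ)
    (hT : T.card = j) :
    E (fun _ : σ => ()) (fun _ : τ => fun _ : Unit => (a : ℤ)) T (fun _ => (e : ℤ)) =
      FrI.Fs n a e j := by
  have h1 : ∀ M ∈ T.powerset, (-1 : ℤ) ^ M.card * (rr (fun _ : σ => ())
      ((fun _ => (e : ℤ)) - ∑ i ∈ M, (fun _ : τ => fun _ : Unit => (a : ℤ)) i) : ℤ) =
      (fun m : ℕ => (-1 : ℤ) ^ m * (if m * a ≤ e then ((n + e - m * a).choose n : ℤ) else 0))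
        M.card := by
    intro M _
    have h2 : (∑ i ∈ M, (fun _ : τ => fun _ : Unit => (a : ℤ)) i) =
        fun _ => ((M.card * a : ℕ) : ℤ) := by
      simp only [Finset.sum_const]
      funext _
      simp
    simp only [h2]
    rw [rr_sub n a e M.card hn]
    push_cast
    rfl
  have h3 := Finset.sum_powerset_apply_card (x := T) (fun m : ℕ => (-1 : ℤ) ^ m *
    (if m * a ≤ e then ((n + e - m * a).choose n : ℤ) else 0))
  rw [E, Finset.sum_congr rfl h1, h3, hT, FrI.Fs]
  rw [Finset.sum_filter]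
  have key : ∀ N : ℕ, j ≤ N → e ≤ N →
      (∑ m ∈ Finset.range (j + 1), (j.choose m) • ((-1 : ℤ) ^ m *
        (if m * a ≤ e then ((n + e - m * a).choose n : ℤ) else 0))) =
      ∑ m ∈ Finset.range (N + 1), (j.choose m) • ((-1 : ℤ) ^ m *
        (if m * a ≤ e then ((n + e - m * a).choose n : ℤ) else 0)) := by
    intro N hN _
    refine Finset.sum_subset (Finset.range_mono (by omega)) (fun m _ hm => ?_)
    rw [Finset.mem_range, not_lt] at hm
    rw [Nat.choose_eq_zero_of_lt (by omega), zero_smul]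
  have key2 : ∀ N : ℕ, e ≤ N →
      (∑ i ∈ Finset.range (e + 1), if i * a ≤ e then (-1 : ℤ) ^ i * (j.choose i : ℤ) *
        ((n + e - i * a).choose n : ℤ) else 0) =
      ∑ i ∈ Finset.range (N + 1), if i * a ≤ e then (-1 : ℤ) ^ i * (j.choose i : ℤ) *
        ((n + e - i * a).choose n : ℤ) else 0 := by
    intro N hN
    refine Finset.sum_subset (Finset.range_mono (by omega)) (fun m _ hm => ?_)
    rw [Finset.mem_range, not_lt] at hm
    rw [if_neg]
    intro h
    have : m * 1 ≤ m * a := Nat.mul_le_mul_left m ha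
    omega
  rw [key (j + e) (by omega) (by omega), key2 (j + e) (by omega)]
  refine Finset.sum_congr rfl (fun m _ => ?_)
  split_ifs
  · rw [nsmul_eq_mul]; ring
  · simp

/-- the first `j` relations -/
noncomputable def Tj (τ : Type) [Fintype τ] (j : ℕ) : Finset τ :=
  Finset.univ.filter (fun t => ((Fintype.equivFin τ) t : ℕ) < j)

lemma card_Tj (j : ℕ) (hj : j ≤ Fintype.card τ) : (Tj τ j).card = j := by
  have h : (Tj τ j).card = (Finset.univ.filter (fun i : Fin (Fintype.card τ) => (i : ℕ) < j)).card := by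
    refine Finset.card_bij (fun t _ => (Fintype.equivFin τ) t) ?_ ?_ ?_
    · intro t ht
      simpa [Tj] using ht
    · intro t _ t' _ h
      exact (Fintype.equivFin τ).injective h
    · intro i hi
      refine ⟨(Fintype.equivFin τ).symm i, ?_, by simp⟩
      simpa [Tj] using hi
  rw [h]
  have h2 : (Finset.univ.filter (fun i : Fin (Fintype.card τ) => (i : ℕ) < j)) =
      (Finset.univ : Finset (Fin j)).map (Fin.castLEEmb hj) := by
    ext i
    simp only [Finset.mem_filter, Finset.mem_univ, true_and, Finset.mem_map]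
    constructor
    · intro h
      exact ⟨⟨i, h⟩, Fin.ext rfl⟩
    · rintro ⟨k, rfl⟩
      exact k.2
  rw [h2, Finset.card_map, Finset.card_univ, Fintype.card_fin]

/-- the enumeration of the relations -/
noncomputable def ff (g : τ → MvPolynomial σ ℂ) (i : ℕ) : MvPolynomial σ ℂ :=
  if h : i < Fintype.card τ then g ((Fintype.equivFin τ).symm ⟨i, h⟩) else 0

lemma Id_one (a e j : ℕ) (g : τ → MvPolynomial σ ℂ) (hj : j ≤ Fintype.card τ) :
    Id (fun _ : σ => ()) (fun _ : τ => fun _ : Unit => (a : ℤ)) g (Tj τ j) (fun _ => (e : ℤ)) =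
      FrI.Iq (ff g) a e j := by
  rw [FrI.Iq]
  split_ifs with h
  · have h1 : (fun _ : Unit => (e : ℤ)) - (fun _ => (a : ℤ)) = fun _ => ((e - a : ℕ) : ℤ) := by
      funext _
      simp only [Pi.sub_apply]
      omega
    simp only [Id]
    rw [h1, R_one]
    apply le_antisymm
    · refine iSup₂_le (fun t ht => ?_)
      have ht' : ((Fintype.equivFin τ) t : ℕ) < j := by simpa [Tj] using ht
      refine le_iSup_of_le ⟨_, ht'⟩ ?_
      have h2 : ff g ((Fintype.equivFin τ) t : ℕ) = g t := by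
        simp [ff]
      simp only [h2, le_refl]
    · refine iSup_le (fun i => ?_)
      have hi : (i : ℕ) < Fintype.card τ := lt_of_lt_of_le i.2 hj
      have h3 : (Fintype.equivFin τ).symm ⟨i, hi⟩ ∈ Tj τ j := by
        simp [Tj]
      refine le_iSup₂_of_le _ h3 ?_
      have h2 : ff g (i : ℕ) = g ((Fintype.equivFin τ).symm ⟨i, hi⟩) := by
        simp [ff, hi]
      simp only [h2, le_refl]
  · rw [eq_bot_iff]
    simp only [Id]
    refine iSup₂_le (fun t _ => ?_)
    rw [R_neg]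
    · simp
    · intro h1
      have h2 := h1 ()
      simp only [Pi.zero_apply, Pi.sub_apply] at h2
      omega

end

theorem specONE (hD1 : SpecD1) : SpecONE := by
  intro σ τ _ _ n a e g hn ha hg hEx
  refine ⟨ff g, ?_, ?_⟩
  · intro i
    simp only [ff]
    split_ifs
    · exact hg _
    · exact Submodule.zero_mem _
  · intro j hj
    have hSy : Sy (fun _ : σ => ()) (fun _ : τ => fun _ : Unit => (a : ℤ)) g Finset.univ := by
      intro i _
      refine ⟨?_, fun _ => by simp, ?_⟩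
      · rw [R_one]; exact hg i
      · intro h
        have h2 := congrFun h ()
        simp only [Pi.zero_apply] at h2
        omega
    have h1 := (hD1 ℂ σ Unit τ (fun _ => ()) (fun _ => fun _ => (a : ℤ)) g Finset.univ
      (fun _ => (e : ℤ)) hSy hEx).1 (Tj τ j) (Finset.subset_univ _) _ le_rfl
    rw [E_one n a e j hn ha (Tj τ j) (card_Tj j hj)] at h1
    rw [← h1, dq, Id_one a e j g hj, ← finrank_R (F := ℂ), R_one]

end FrD.ONEM
end
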