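import Pool.Agent.Lib.MP_921642_ag.FD.Spec2

/-!
# FD, module SA1: the system after one step, on the colours `CB p`
-/

set_option autoImplicit false

namespace FrD

namespace SA1M

open MvPolynomial

/-- the embedding of the colours -/
def g (p : ℕ) : CB p → CC p
  | Sum.inl x => CC.o x
  | Sum.inr false => CC.z
  | Sum.inr true => CC.y

lemma g_inj (p : ℕ) : Function.Injective (g p) := by
  rintro (x | (_ | _)) (y | (_ | _)) h <;> simp_all [g]

/-- the numbers of variables -/
lemma card_var (p N m : ℕ) (k : CB p) :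
    Nat.card {v // colN p N m v = g p k} ≤ Npl p N m k := by
  rcases k with x | (_ | _)
  · have hin : ∀ v : {v // colN p N m v = g p (Sum.inl x)}, ∃ j : Fin N,
        v.1 = Sum.inl (some (Sum.inl x), j) := by
      rintro ⟨v, hv⟩
      rcases v with ⟨(_ | (a | q)), j⟩ | t
      · have h : (CC.z : CC p) = CC.o x := hv
        cases h
      · have h : (CC.o a : CC p) = CC.o x := hv
        cases h
        exact ⟨j, rfl⟩
      · have h : (CC.c q.1 q.2 : CC p) = CC.o x := hv
        cases h
      · have h : (CC.y : CC p) = CC.o x := hv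
        cases h
    choose t ht using hin
    have h2 : Nat.card {v // colN p N m v = g p (Sum.inl x)} ≤ Nat.card (Fin N) := by
      refine Nat.card_le_card_of_injective t ?_
      intro v v' h
      apply Subtype.ext
      rw [ht v, ht v', h]
    simpa [Npl] using h2
  · have hin : ∀ v : {v // colN p N m v = g p (Sum.inr false)}, ∃ j : Fin N,
        v.1 = Sum.inl (none, j) := by
      rintro ⟨v, hv⟩
      rcases v with ⟨(_ | (a | q)), j⟩ | t
      · exact ⟨j, rfl⟩
      · have h : (CC.o a : CC p) = CC.z := hv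
        cases h
      · have h : (CC.c q.1 q.2 : CC p) = CC.z := hv
        cases h
      · have h : (CC.y : CC p) = CC.z := hv
        cases h
    choose t ht using hin
    have h2 : Nat.card {v // colN p N m v = g p (Sum.inr false)} ≤ Nat.card (Fin N) := by
      refine Nat.card_le_card_of_injective t ?_
      intro v v' h
      apply Subtype.ext
      rw [ht v, ht v', h]
    simpa [Npl] using h2
  · have hin : ∀ v : {v // colN p N m v = g p (Sum.inr true)}, ∃ t : Fin m, v.1 = Sum.inr t := by
      rintro ⟨v, hv⟩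
      rcases v with ⟨(_ | (a | q)), j⟩ | t
      · have h : (CC.z : CC p) = CC.y := hv
        cases h
      · have h : (CC.o a : CC p) = CC.y := hv
        cases h
      · have h : (CC.c q.1 q.2 : CC p) = CC.y := hv
        cases h
      · exact ⟨t, rfl⟩
    choose t ht using hin
    have h2 : Nat.card {v // colN p N m v = g p (Sum.inr true)} ≤ Nat.card (Fin m) := by
      refine Nat.card_le_card_of_injective t ?_
      intro v v' h
      apply Subtype.ext
      rw [ht v, ht v', h]
    simpa [Npl] using h2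

lemma kN_nonempty (p a w0 u uz m : ℕ) (wc : ℕ → ℕ) (ha : 2 ≤ a)
    (i : TB p a w0 wc ⊕ RN p a u uz m) : (kN p a w0 u uz m wc i).Nonempty := by
  rcases i with (⟨⟨J, hJ⟩, j⟩ | q) | r
  · change (J.image CC.o).Nonempty
    rw [Finset.image_nonempty, ← Finset.card_pos, hJ]
    omega
  · exact ⟨CC.o q.1.2, by simp [kN, kB]⟩
  · exact ⟨CC.y, by simp [kN]⟩

/-- the ordinary part of a set of colours -/
def ordp {p : ℕ} (J : Finset (CB p)) : Finset (Fin p) :=
  Finset.univ.filter (fun x => (Sum.inl x : CB p) ∈ J)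

lemma mem_ordp {p : ℕ} (J : Finset (CB p)) (x : Fin p) : x ∈ ordp J ↔ (Sum.inl x : CB p) ∈ J := by
  simp [ordp]

lemma eq1 {p : ℕ} (J : Finset (CB p)) (h1 : (Sum.inr true : CB p) ∉ J)
    (h2 : (Sum.inr false : CB p) ∉ J) : J = (ordp J).image Sum.inl := by
  ext k
  rcases k with x | (_ | _)
  · simp [mem_ordp]
  · simp [h2]
  · simp [h1]

lemma eq2 {p : ℕ} (J : Finset (CB p)) (h1 : (Sum.inr true : CB p) ∈ J)
    (h2 : (Sum.inr false : CB p) ∉ J) : J = insert (Sum.inr true) ((ordp J).image Sum.inl) := by
  ext k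
  rcases k with x | (_ | _)
  · simp [mem_ordp]
  · simp [h2]
  · simp [h1]

lemma card_ordp1 {p : ℕ} (J : Finset (CB p)) (h1 : (Sum.inr true : CB p) ∉ J)
    (h2 : (Sum.inr false : CB p) ∉ J) : (ordp J).card = J.card := by
  conv_rhs => rw [eq1 J h1 h2]
  rw [Finset.card_image_of_injective _ Sum.inl_injective]

lemma card_ordp2 {p : ℕ} (J : Finset (CB p)) (h1 : (Sum.inr true : CB p) ∈ J)
    (h2 : (Sum.inr false : CB p) ∉ J) : (ordp J).card + 1 = J.card := by
  conv_rhs => rw [eq2 J h1 h2]
  rw [Finset.card_insert_of_notMem (by simp), Finset.card_image_of_injective _ Sum.inl_injective]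

lemma img1 {p : ℕ} (J : Finset (CB p)) (h1 : (Sum.inr true : CB p) ∉ J)
    (h2 : (Sum.inr false : CB p) ∉ J) : J.image (g p) = (ordp J).image CC.o := by
  conv_lhs => rw [eq1 J h1 h2]
  rw [Finset.image_image]
  rfl

lemma img2 {p : ℕ} (J : Finset (CB p)) (h1 : (Sum.inr true : CB p) ∈ J)
    (h2 : (Sum.inr false : CB p) ∉ J) : J.image (g p) = insert CC.y ((ordp J).image CC.o) := by
  conv_lhs => rw [eq2 J h1 h2]
  rw [Finset.image_insert, Finset.image_image]
  rfl

lemma card_rel (p a w0 u uz m : ℕ) (wc : ℕ → ℕ) (J : Finset (CB p)) :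
    wpl p a w0 u uz m J ≤ Nat.card {i // kN p a w0 u uz m wc i = J.image (g p)} := by
  unfold wpl
  by_cases h1 : (Sum.inr true : CB p) ∈ J
  · rw [if_pos h1]
    by_cases h2 : (Sum.inr false : CB p) ∉ J ∧ J.card = a
    · rw [if_pos h2]
      have hc := card_ordp2 J h1 h2.1
      have huu : uu p a u uz ((ordp J).image CC.o) = u := by
        unfold uu
        rw [if_pos]
        refine ⟨Finset.image_subset_image (Finset.subset_univ _), ?_⟩
        rw [Finset.card_image_of_injective _ (fun x y h => by simpa using h)]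
        omega
      have h3 : Nat.card (Fin (u * m)) ≤
          Nat.card {i // kN p a w0 u uz m wc i = J.image (g p)} := by
        refine Nat.card_le_card_of_injective
          (fun j : Fin (u * m) => (⟨Sum.inr ⟨(ordp J).image CC.o, Fin.cast (by rw [huu]) j⟩, ?_⟩ :
            {i // kN p a w0 u uz m wc i = J.image (g p)})) ?_
        · rw [img2 J h1 h2.1]
          rfl
        · intro j j' h
          simpa using h
      simpa using h3
    · rw [if_neg h2]
      by_cases h3 : J = {Sum.inr true, Sum.inr false}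
      · rw [if_pos h3]
        have huu : uu p a u uz {CC.z} = uz := by
          unfold uu
          rw [if_neg, if_pos rfl]
          rintro ⟨h4, -⟩
          have := h4 (Finset.mem_singleton_self (CC.z : CC p))
          simp at this
        have h4 : Nat.card (Fin (uz * m)) ≤
            Nat.card {i // kN p a w0 u uz m wc i = J.image (g p)} := by
          refine Nat.card_le_card_of_injective
            (fun j : Fin (uz * m) => (⟨Sum.inr ⟨{CC.z}, Fin.cast (by rw [huu]) j⟩, ?_⟩ :
              {i // kN p a w0 u uz m wc i = J.image (g p)})) ?_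
          · rw [h3]
            rfl
          · intro j j' h
            simpa using h
        simpa using h4
      · rw [if_neg h3]
        exact Nat.zero_le _
  · rw [if_neg h1]
    by_cases h2 : (Sum.inr false : CB p) ∉ J ∧ J.card = a
    · rw [if_pos h2]
      have hc := card_ordp1 J h1 h2.1
      have h3 : Nat.card (Fin w0) ≤
          Nat.card {i // kN p a w0 u uz m wc i = J.image (g p)} := by
        refine Nat.card_le_card_of_injective
          (fun j : Fin w0 => (⟨Sum.inl (Sum.inl (⟨ordp J, hc.trans h2.2⟩, j)), ?_⟩ :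
            {i // kN p a w0 u uz m wc i = J.image (g p)})) ?_
        · rw [img1 J h1 h2.1]
          rfl
        · intro j j' h
          simpa using h
      simpa using h3
    · rw [if_neg h2]
      exact Nat.zero_le _

lemma g_mem_pat (p : ℕ) (k : CB p) : g p k ∈ pat p Finset.univ {CC.z, CC.y} := by
  rcases k with x | (_ | _) <;> simp [g, pat]

lemma exists_of_mem_pat (p : ℕ) (k : CC p) (h : k ∈ pat p Finset.univ {CC.z, CC.y}) :
    ∃ k0, g p k0 = k := by
  simp only [pat, Finset.mem_union, Finset.mem_image, Finset.mem_univ, true_and,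
    Finset.mem_insert, Finset.mem_singleton] at h
  rcases h with ⟨x, rfl⟩ | rfl | rfl
  · exact ⟨Sum.inl x, rfl⟩
  · exact ⟨Sum.inr false, rfl⟩
  · exact ⟨Sum.inr true, rfl⟩

theorem specSA1 (hSAB : SpecSAB) (hUNI : SpecUNI) (hEMB : SpecEMB) : SpecSA1 := by
  intro p a N w0 u uz wc ha hN hwc huz hsum hXX
  obtain ⟨m0, hm0⟩ := hSAB p a N w0 u uz wc ha hN hwc huz hsum hXX
  refine ⟨m0, fun m hm => ?_⟩
  obtain ⟨f', hf', hEx⟩ := hm0 m hm
  have h1 := hUNI KK (CC p) (fun k => Nat.card {v // colN p N m v = k})
    (fun J => Nat.card {i // kN p a w0 u uz m wc i = J}) (ind (pat p Finset.univ {CC.z, CC.y}))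
    (VB p N ⊕ Fin m) (TB p a w0 wc ⊕ RN p a u uz m) (colN p N m) (kN p a w0 u uz m wc) f'
    (kN_nonempty p a w0 u uz m wc ha) hf' hEx (fun k _ => le_rfl) (fun J _ => le_rfl)
  refine hEMB KK (CB p) (CC p) (Npl p N m) (wpl p a w0 u uz m) (fun _ => 1) _ _
    (ind (pat p Finset.univ {CC.z, CC.y})) (g p) (fun k k' _ _ h => g_inj p h) (ind_nonneg _)
    ?_ ?_ (fun k _ => card_var p N m k) (fun J _ => card_rel p a w0 u uz m wc J) h1
  · intro k _
    simp [ind, g_mem_pat]
  · intro k0 hk0
    by_cases hk : k0 ∈ pat p Finset.univ {CC.z, CC.y}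
    · obtain ⟨k, hk2⟩ := exists_of_mem_pat p k0 hk
      exact ⟨k, Int.one_pos, hk2⟩
    · simp [ind, hk] at hk0

end SA1M

end FrD
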