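import Pool.Agent.Lib.MP_921642_ag.FD.Spec2

section
/-!
# MP_921642_ag, FD: module NREL (new relations with a new colour)
-/
set_option autoImplicit false

namespace FrD.NRELM

open MvPolynomial

section basics

variable {σ ι : Type} [Fintype σ] [DecidableEq ι] {F : Type} [Field F]

/-- the colouring with `m` new variables of colour `y` -/
abbrev colp (col : σ → ι) (y : ι) (m : ℕ) : σ ⊕ Fin m → ι := Sum.elim col (fun _ : Fin m => y)

lemma md_colp (col : σ → ι) (y : ι) (m : ℕ) (α : σ ⊕ Fin m →₀ ℕ) (k : ι) :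
    md (colp col y m) α k = (∑ v, if col v = k then (α (Sum.inl v) : ℤ) else 0) +
      if y = k then ∑ t, (α (Sum.inr t) : ℤ) else 0 := by
  simp only [md, Fintype.sum_sum_type, Sum.elim_inl, Sum.elim_inr]
  congr 1
  split_ifs <;> simp

lemma md_map (col : σ → ι) (y : ι) (m : ℕ) (β : σ →₀ ℕ) :
    md (colp col y m) (Finsupp.mapDomain Sum.inl β) = md col β := by
  funext k
  rw [md_colp]
  have h1 : ∀ v, (Finsupp.mapDomain Sum.inl β : σ ⊕ Fin m →₀ ℕ) (Sum.inl v) = β v :=
    fun v => Finsupp.mapDomain_apply Sum.inl_injective _ _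
  have h2 : ∀ t, (Finsupp.mapDomain Sum.inl β : σ ⊕ Fin m →₀ ℕ) (Sum.inr t) = 0 :=
    fun t => Finsupp.mapDomain_of_notMem_range _ _ (by simp)
  simp only [h1, h2, md]
  simp

/-- the monomial with one new variable -/
noncomputable def mon (m : ℕ) (t : Fin m) (β : σ →₀ ℕ) : σ ⊕ Fin m →₀ ℕ :=
  Finsupp.single (Sum.inr t) 1 + Finsupp.mapDomain Sum.inl β

omit [Fintype σ] in
lemma mon_inl (m : ℕ) (t : Fin m) (β : σ →₀ ℕ) (v : σ) : mon m t β (Sum.inl v) = β v := by
  classical
  simp only [mon, Finsupp.add_apply]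
  rw [Finsupp.mapDomain_apply Sum.inl_injective, Finsupp.single_apply]
  simp

omit [Fintype σ] in
lemma mon_inr (m : ℕ) (t s : Fin m) (β : σ →₀ ℕ) :
    mon m t β (Sum.inr s) = if t = s then 1 else 0 := by
  classical
  simp only [mon, Finsupp.add_apply]
  rw [Finsupp.mapDomain_of_notMem_range _ _ (by simp), Finsupp.single_apply]
  simp

lemma md_mon (col : σ → ι) (y : ι) (m : ℕ) (t : Fin m) (β : σ →₀ ℕ) :
    md (colp col y m) (mon m t β) = md col β + Pi.single y 1 := by
  rw [mon, md_add, md_map, md_single]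
  simp [add_comm]

omit [Fintype σ] in
lemma inj_inl (m : ℕ) {α α' : σ ⊕ Fin m →₀ ℕ} (h1 : ∀ v, α (Sum.inl v) = α' (Sum.inl v))
    (h2 : ∀ t, α (Sum.inr t) = α' (Sum.inr t)) : α = α' := by
  ext v
  rcases v with v | t
  · exact h1 v
  · exact h2 t

lemma rr_old (col : σ → ι) (y : ι) (m : ℕ) {U : ι → ℤ} (hU : U y = 0) :
    rr (colp col y m) U = rr col U := by
  rw [rr, rr]
  symm
  apply Nat.card_congr
  refine Equiv.ofBijective (fun β => (⟨Finsupp.mapDomain Sum.inl β.1, by rw [md_map]; exact β.2⟩ :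
    {α : σ ⊕ Fin m →₀ ℕ // md (colp col y m) α = U})) ⟨?_, ?_⟩
  · intro β β' h
    have h1 := congrArg Subtype.val h
    exact Subtype.ext (Finsupp.mapDomain_injective Sum.inl_injective h1)
  · rintro ⟨α, hα⟩
    have h0 : ∀ t, α (Sum.inr t) = 0 := by
      intro t
      have h := le_md (colp col y m) α (Sum.inr t)
      rw [hα] at h
      simp only [Sum.elim_inr, hU] at h
      omega
    have h3 : Finsupp.mapDomain Sum.inl (Finsupp.equivFunOnFinite.symm (fun v => α (Sum.inl v)))
        = α := by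
      refine inj_inl m (fun v => ?_) (fun t => ?_)
      · rw [Finsupp.mapDomain_apply Sum.inl_injective]
        simp
      · rw [Finsupp.mapDomain_of_notMem_range _ _ (by simp), h0]
    refine ⟨⟨Finsupp.equivFunOnFinite.symm (fun v => α (Sum.inl v)), ?_⟩, Subtype.ext h3⟩
    rw [← md_map col y m, h3, hα]

lemma rr_new (col : σ → ι) (y : ι) (m : ℕ) (hcol : ∀ v, col v ≠ y) {U : ι → ℤ} (hU : U y = 0) :
    rr (colp col y m) (U + Pi.single y 1) = m * rr col U := by
  have h : rr (colp col y m) (U + Pi.single y 1) =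
      Nat.card (Fin m × {β : σ →₀ ℕ // md col β = U}) := by
    rw [rr]
    symm
    apply Nat.card_congr
    refine Equiv.ofBijective (fun q => (⟨mon m q.1 q.2.1, by rw [md_mon, q.2.2]⟩ :
      {α : σ ⊕ Fin m →₀ ℕ // md (colp col y m) α = U + Pi.single y 1})) ⟨?_, ?_⟩
    · rintro ⟨t, β⟩ ⟨t', β'⟩ h
      have h1 : mon m t β.1 = mon m t' β'.1 := congrArg Subtype.val h
      have h2 : t = t' := by
        by_contra hne
        have := DFunLike.congr_fun h1 (Sum.inr t)
        rw [mon_inr, mon_inr, if_pos rfl, if_neg (Ne.symm hne)] at this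
        exact one_ne_zero this
      have h3 : β = β' := by
        apply Subtype.ext
        ext v
        have := DFunLike.congr_fun h1 (Sum.inl v)
        rwa [mon_inl, mon_inl] at this
      rw [h2, h3]
    · rintro ⟨α, hα⟩
      have h1 : ∑ t, α (Sum.inr t) = 1 := by
        have h := congrFun hα y
        rw [md_colp, if_pos rfl, Finset.sum_eq_zero (fun v _ => if_neg (hcol v)), zero_add,
          Pi.add_apply, hU, zero_add, Pi.single_eq_same] at h
        exact_mod_cast h
      obtain ⟨t, -, ht⟩ := Finset.exists_ne_zero_of_sum_ne_zero (by rw [h1]; exact one_ne_zero)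
      have h2 : α (Sum.inr t) + ∑ s ∈ Finset.univ.erase t, α (Sum.inr s) = 1 := by
        rw [← h1]
        exact Finset.add_sum_erase Finset.univ (fun t => α (Sum.inr t)) (Finset.mem_univ t)
      have h3 : ∀ s, α (Sum.inr s) = if t = s then 1 else 0 := by
        intro s
        by_cases hs : t = s
        · subst hs
          rw [if_pos rfl]
          omega
        · rw [if_neg hs]
          have h4 : α (Sum.inr s) ≤ ∑ s ∈ Finset.univ.erase t, α (Sum.inr s) :=
            Finset.single_le_sum (f := fun t => α (Sum.inr t)) (fun _ _ => Nat.zero_le _)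
            (Finset.mem_erase.2 ⟨Ne.symm hs, Finset.mem_univ s⟩ : s ∈ Finset.univ.erase t)
          omega
      have h5 : mon m t (Finsupp.equivFunOnFinite.symm (fun v => α (Sum.inl v))) = α := by
        refine inj_inl m (fun v => ?_) (fun s => ?_)
        · rw [mon_inl]; simp
        · rw [mon_inr, h3]
      refine ⟨(t, ⟨Finsupp.equivFunOnFinite.symm (fun v => α (Sum.inl v)), ?_⟩), Subtype.ext h5⟩
      have h6 := md_mon col y m t (Finsupp.equivFunOnFinite.symm (fun v => α (Sum.inl v)))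
      rw [h5, hα] at h6
      exact (add_right_cancel h6).symm
  rw [h, Nat.card_prod, Nat.card_fin, rr]

lemma rename_mem (col : σ → ι) (y : ι) (m : ℕ) {U : ι → ℤ} {p : MvPolynomial σ F}
    (hp : p ∈ R F col U) :
    (rename Sum.inl p : MvPolynomial (σ ⊕ Fin m) F) ∈ R F (colp col y m) U := by
  rw [mem_R] at hp ⊢
  intro α hα
  obtain ⟨β, hβ, hne⟩ := coeff_rename_ne_zero _ _ _ hα
  rw [← hβ, md_map]
  exact hp β hne

lemma X_mem (col : σ → ι) (y : ι) (m : ℕ) (t : Fin m) :
    (X (Sum.inr t) : MvPolynomial (σ ⊕ Fin m) F) ∈ R F (colp col y m) (Pi.single y 1) := by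
  have := X_mem_R (F := F) (colp col y m) (Sum.inr t)
  simpa using this

/-- `g ↦ ∑_t X_t g_t` -/
noncomputable def Phi (σ F : Type) [Field F] (m : ℕ) :
    (Fin m → MvPolynomial σ F) →ₗ[F] MvPolynomial (σ ⊕ Fin m) F where
  toFun g := ∑ t, X (Sum.inr t) * rename Sum.inl (g t)
  map_add' g h := by
    simp only [Pi.add_apply, map_add, mul_add, Finset.sum_add_distrib]
  map_smul' c g := by
    simp only [Pi.smul_apply, map_smul, Algebra.mul_smul_comm, Finset.smul_sum, RingHom.id_apply]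

omit [Fintype σ] in
lemma Phi_apply (m : ℕ) (g : Fin m → MvPolynomial σ F) :
    Phi σ F m g = ∑ t, X (Sum.inr t) * rename Sum.inl (g t) := rfl

omit [Fintype σ] in
lemma coeff_Phi (m : ℕ) (g : Fin m → MvPolynomial σ F) (t : Fin m) (β : σ →₀ ℕ) :
    coeff (mon m t β) (Phi σ F m g) = coeff β (g t) := by
  classical
  rw [Phi_apply, coeff_sum, Finset.sum_eq_single t]
  · rw [mon, coeff_X_mul, coeff_rename_mapDomain _ Sum.inl_injective]
  · intro s _ hs
    rw [coeff_X_mul', if_neg]
    rw [Finsupp.mem_support_iff, not_not, mon_inr, if_neg (Ne.symm hs)]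
  · intro h; exact absurd (Finset.mem_univ _) h

omit [Fintype σ] in
lemma Phi_injective (m : ℕ) : Function.Injective (Phi σ F m) := by
  rw [injective_iff_map_eq_zero]
  intro g hg
  funext t
  ext β
  rw [← coeff_Phi, hg]
  simp

end basics

/-! ### The expected dimension -/

section expected

variable {σ ι τ ρ : Type} [Fintype σ] [DecidableEq ι]

/-- the multidegrees -/
abbrev kp (κ : τ → Finset ι) (y : ι) (J : ρ → Finset ι) : τ ⊕ ρ → ι → ℤ :=
  fun i => ind (Sum.elim κ (fun r => insert y (J r)) i)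

omit [Fintype σ] in
lemma ind_insert_new {y : ι} {J : Finset ι} (h : y ∉ J) :
    ind (insert y J) = ind J + Pi.single y 1 := by
  funext k
  simp only [ind, Pi.add_apply, Finset.mem_insert, Pi.single_apply]
  by_cases hk : k = y
  · subst hk; simp [h]
  · simp [hk]

lemma E_old (col : σ → ι) (y : ι) (m : ℕ) (hcol : ∀ v, col v ≠ y) (κ : τ → Finset ι)
    (hκ : ∀ i, y ∉ κ i) (J : ρ → Finset ι) (T : Finset τ) :
    ∀ U : ι → ℤ, U y = 0 →
      E (colp col y m) (kp κ y J) (T.map Function.Embedding.inl) U =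
        E col (fun i => ind (κ i)) T U ∧
      E (colp col y m) (kp κ y J) (T.map Function.Embedding.inl) (U + Pi.single y 1) =
        m * E col (fun i => ind (κ i)) T U := by
  classical
  induction T using Finset.induction_on with
  | empty =>
    intro U hU
    rw [Finset.map_empty, E_empty, E_empty, E_empty, rr_old col y m hU,
      rr_new col y m hcol hU]
    exact ⟨rfl, by push_cast; ring⟩
  | insert i T hi ih =>
    intro U hU
    have hy : (U - ind (κ i)) y = 0 := by
      simp [ind, hκ i, hU]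
    have hni : (Sum.inl i : τ ⊕ ρ) ∉ T.map Function.Embedding.inl := by
      simpa using hi
    rw [Finset.map_insert]
    rw [show (Function.Embedding.inl i : τ ⊕ ρ) = Sum.inl i from rfl]
    rw [E_insert _ _ _ _ _ hni, E_insert _ _ _ _ _ hni, E_insert _ _ _ _ _ hi]
    have h1 : kp κ y J (Sum.inl i : τ ⊕ ρ) = ind (κ i) := rfl
    rw [h1, show U + Pi.single y 1 - ind (κ i) = U - ind (κ i) + Pi.single y 1 by abel,
      (ih U hU).1, (ih U hU).2, (ih _ hy).1, (ih _ hy).2]
    exact ⟨rfl, by ring⟩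

lemma E_new0 (col : σ → ι) (y : ι) (m : ℕ) (κ : τ → Finset ι)
    (J : ρ → Finset ι) (T : Finset (τ ⊕ ρ)) (r : ρ) (hr : Sum.inr r ∉ T)
    (U : ι → ℤ) (hU : U y = 0) [DecidableEq (τ ⊕ ρ)] :
      E (colp col y m) (kp κ y J) (insert (Sum.inr r) T) U = E (colp col y m) (kp κ y J) T U := by
  rw [E_insert _ _ _ _ _ hr, E_neg (S := U - kp κ y J (Sum.inr r)) _ _ _
    (fun i _ => ind_nonneg _), sub_zero]
  intro h
  have := h y
  simp only [Pi.sub_apply, hU, Pi.zero_apply, kp, ind, Sum.elim_inr, Finset.mem_insert,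
    true_or, if_true] at this
  omega

lemma E_new1 (col : σ → ι) (y : ι) (m : ℕ) (κ : τ → Finset ι)
    (J : ρ → Finset ι) (T : Finset (τ ⊕ ρ)) (B : Finset ρ) [DecidableEq (τ ⊕ ρ)]
    (hT : ∀ r, Sum.inr r ∉ T) :
    ∀ U : ι → ℤ, U y = 0 →
      E (colp col y m) (kp κ y J) (T ∪ B.map Function.Embedding.inr) U =
        E (colp col y m) (kp κ y J) T U := by
  classical
  induction B using Finset.induction_on with
  | empty => intro U _; simp
  | insert r B hr ih =>
    intro U hU
    have hni : (Sum.inr r : τ ⊕ ρ) ∉ T ∪ B.map Function.Embedding.inr := by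
      simp [hT, hr]
    rw [Finset.map_insert, Finset.union_insert]
    rw [show (Function.Embedding.inr r : τ ⊕ ρ) = Sum.inr r from rfl]
    rw [E_new0 col y m κ J _ r hni U hU, ih U hU]

lemma E_new2 (col : σ → ι) (y : ι) (m : ℕ) (κ : τ → Finset ι)
    (J : ρ → Finset ι) (hJ : ∀ r, y ∉ J r) (T : Finset (τ ⊕ ρ)) (B : Finset ρ)
    [DecidableEq (τ ⊕ ρ)] (hT : ∀ r, Sum.inr r ∉ T) (U : ι → ℤ) (hU : U y = 0) :
      E (colp col y m) (kp κ y J) (T ∪ B.map Function.Embedding.inr) (U + Pi.single y 1) =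
        E (colp col y m) (kp κ y J) T (U + Pi.single y 1) -
          ∑ r ∈ B, E (colp col y m) (kp κ y J) T (U - ind (J r)) := by
  classical
  induction B using Finset.induction_on with
  | empty => simp
  | insert r B hr ih =>
    have hni : (Sum.inr r : τ ⊕ ρ) ∉ T ∪ B.map Function.Embedding.inr := by
      simp [hT, hr]
    rw [Finset.map_insert, Finset.union_insert]
    rw [show (Function.Embedding.inr r : τ ⊕ ρ) = Sum.inr r from rfl]
    rw [E_insert _ _ _ _ _ hni, ih, Finset.sum_insert hr]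
    have h1 : U + Pi.single y 1 - kp κ y J (Sum.inr r : τ ⊕ ρ) = U - ind (J r) := by
      change U + Pi.single y 1 - ind (insert y (J r)) = U - ind (J r)
      rw [ind_insert_new (hJ r)]
      abel
    rw [h1, E_new1 col y m κ J T B hT _ (by simp [ind, hJ r, hU])]
    ring

end expected

theorem specNREL : SpecNREL := by
  intro F _ σ ι τ ρ _ _ _ _ _ col κ f y S m J φ hcol hκ hκne hf hSy hJ hφ hdq hdqr hinj
  classical
  -- the forms
  let f' : τ ⊕ ρ → MvPolynomial (σ ⊕ Fin m) F :=
    Sum.elim (fun i => rename Sum.inl (f i)) (fun r => Phi σ F m (φ r))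
  have hf' : ∀ i, f' i ∈ R F (colp col y m) (kp κ y J i) := by
    rintro (i | r)
    · exact rename_mem col y m (hf i)
    · change Phi σ F m (φ r) ∈ R F (colp col y m) (ind (insert y (J r)))
      rw [ind_insert_new (hJ r), add_comm, Phi_apply]
      exact Submodule.sum_mem _ (fun t _ => mul_mem_R _ (X_mem col y m t)
        (rename_mem col y m (hφ r t)))
  refine ⟨f', hf', ?_⟩
  -- the expected dimension
  have huniv : (Finset.univ : Finset (τ ⊕ ρ)) =
      (Finset.univ : Finset τ).map Function.Embedding.inl ∪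
        (Finset.univ : Finset ρ).map Function.Embedding.inr := by
    ext x
    rcases x with x | x <;> simp
  have hE : E (colp col y m) (kp κ y J) Finset.univ (S + Pi.single y 1) =
      m * E col (fun i => ind (κ i)) Finset.univ S -
        ∑ r, E col (fun i => ind (κ i)) Finset.univ (S - ind (J r)) := by
    rw [huniv, E_new2 col y m κ J hJ _ _ (by simp) S hSy,
      (E_old col y m hcol κ hκ J Finset.univ S hSy).2]
    congr 1
    refine Finset.sum_congr rfl (fun r _ => ?_)
    exact (E_old col y m hcol κ hκ J Finset.univ (S - ind (J r)) (by simp [ind, hJ r, hSy])).1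
  -- the ideal
  have hren : ∀ U : ι → ℤ, ∀ p ∈ Id col (fun i => ind (κ i)) f Finset.univ U,
      (rename Sum.inl p : MvPolynomial (σ ⊕ Fin m) F) ∈
        Id (colp col y m) (kp κ y J) f' Finset.univ U := by
    intro U p hp
    obtain ⟨g, hg, rfl⟩ := (mem_Id _ _ _ _ _ _).1 hp
    rw [map_sum]
    refine Submodule.sum_mem _ (fun i _ => ?_)
    rw [map_mul]
    exact f_mul_mem_Id (colp col y m) (kp κ y J) f' Finset.univ (i := Sum.inl i)
      (Finset.mem_univ _) (rename_mem col y m (hg i))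
  -- complements
  have hC : ∀ r, ∃ C : Submodule F (MvPolynomial σ F), C ≤ R F col (S - ind (J r)) ∧
      (∀ c ∈ C, c ∈ Id col (fun i => ind (κ i)) f Finset.univ (S - ind (J r)) → c = 0) ∧
      (Module.finrank F C : ℤ) = dq col (fun i => ind (κ i)) f Finset.univ (S - ind (J r)) := by
    intro r
    have hle := Id_le_R col (fun i => ind (κ i)) f Finset.univ (fun i _ => hf i) (S - ind (J r))
    obtain ⟨C, hC⟩ := Submodule.exists_isCompl
      ((Id col (fun i => ind (κ i)) f Finset.univ (S - ind (J r))).comap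
        (R F col (S - ind (J r))).subtype)
    refine ⟨C.map (R F col (S - ind (J r))).subtype, Submodule.map_subtype_le _ _,
      fun c hc hc2 => ?_, ?_⟩
    · obtain ⟨d, hd, rfl⟩ := Submodule.mem_map.1 hc
      have := (Submodule.disjoint_def.1 hC.disjoint) d hc2 hd
      rw [this, map_zero]
    · have h1 := Submodule.finrank_add_eq_of_isCompl hC
      rw [(Submodule.comapSubtypeEquivOfLe hle).finrank_eq, finrank_R] at h1
      rw [dq, Submodule.finrank_map_subtype_eq]
      omega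
  choose C hC0 hC1 hC2 using hC
  let Psi : ((Fin m → Id col (fun i => ind (κ i)) f Finset.univ S) × (∀ r, C r)) →ₗ[F]
      (Fin m → MvPolynomial σ F) :=
    { toFun := fun q t => (q.1 t : MvPolynomial σ F) +
        ∑ r, φ r t * (q.2 r : MvPolynomial σ F)
      map_add' := by
        intro a b
        funext t
        simp only [Prod.fst_add, Pi.add_apply, Submodule.coe_add, Prod.snd_add, mul_add,
          Finset.sum_add_distrib]
        abel
      map_smul' := by
        intro c a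
        funext t
        simp only [Prod.smul_fst, Pi.smul_apply, Submodule.coe_smul, Prod.smul_snd,
          Algebra.mul_smul_comm, ← Finset.smul_sum, RingHom.id_apply, smul_add] }
  have hPsi : ∀ q t, Psi q t = (q.1 t : MvPolynomial σ F) +
      ∑ r, φ r t * (q.2 r : MvPolynomial σ F) := fun _ _ => rfl
  have hinjPsi : Function.Injective Psi := by
    rw [injective_iff_map_eq_zero]
    intro q hq
    have h1 : ∀ t, (q.1 t : MvPolynomial σ F) +
      ∑ r, φ r t * (q.2 r : MvPolynomial σ F) = 0 := by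
      intro t
      rw [← hPsi, hq]; rfl
    have h2 := hinj (fun r => (q.2 r : MvPolynomial σ F))
      (fun r => hC0 r (q.2 r).2) (fun t => by
        have h3 : ∑ r, φ r t * (q.2 r : MvPolynomial σ F) =
            - (q.1 t : MvPolynomial σ F) := by
          rw [eq_neg_iff_add_eq_zero, add_comm]; exact h1 t
        rw [h3]
        exact Submodule.neg_mem _ (q.1 t).2)
    have h4 : q.2 = 0 := by
      funext r
      exact Subtype.ext (hC1 r _ (q.2 r).2 (h2 r))
    have h5 : q.1 = 0 := by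
      funext t
      have := h1 t
      rw [h4] at this
      simp only [Pi.zero_apply, Submodule.coe_zero, mul_zero, Finset.sum_const_zero,
        add_zero] at this
      exact Subtype.ext this
    exact Prod.ext h5 h4
  have hrange : LinearMap.range (Phi σ F m ∘ₗ Psi) ≤
      Id (colp col y m) (kp κ y J) f' Finset.univ (S + Pi.single y 1) := by
    rintro _ ⟨q, rfl⟩
    rw [LinearMap.comp_apply, Phi_apply]
    have h1 : ∑ t, X (Sum.inr t) * rename Sum.inl (Psi q t) =
        (∑ t, X (Sum.inr t) * rename Sum.inl (q.1 t : MvPolynomial σ F)) +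
        ∑ r, f' (Sum.inr r) *
          (rename Sum.inl (q.2 r : MvPolynomial σ F) :
            MvPolynomial (σ ⊕ Fin m) F) := by
      have h2 : ∀ r, f' (Sum.inr r) = ∑ t, X (Sum.inr t) * rename Sum.inl (φ r t) :=
        fun r => rfl
      simp only [hPsi, h2, map_add, map_sum, map_mul, mul_add, Finset.sum_add_distrib,
        Finset.mul_sum, Finset.sum_mul]
      congr 1
      rw [Finset.sum_comm]
      refine Finset.sum_congr rfl (fun r _ => Finset.sum_congr rfl (fun t _ => by ring))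
    rw [h1]
    refine Submodule.add_mem _ (Submodule.sum_mem _ (fun t _ => ?_))
      (Submodule.sum_mem _ (fun r _ => ?_))
    · exact mul_mem_Id _ _ _ _ (X_mem col y m t) (hren S _ (q.1 t).2)
    · refine f_mul_mem_Id (colp col y m) (kp κ y J) f' Finset.univ (i := Sum.inr r)
        (Finset.mem_univ _) ?_
      have h3 : S + Pi.single y 1 - kp κ y J (Sum.inr r : τ ⊕ ρ) = S - ind (J r) := by
        change S + Pi.single y 1 - ind (insert y (J r)) = S - ind (J r)
        rw [ind_insert_new (hJ r)]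
        abel
      rw [h3]
      exact rename_mem col y m (hC0 r (q.2 r).2)
  have hdim := Submodule.finrank_mono hrange
  have hfin : ∀ r, Module.Finite F (C r) := fun r =>
    Submodule.finiteDimensional_of_le (hC0 r)
  have hinjcomp : Function.Injective (Phi σ F m ∘ₗ Psi) := by
    rw [LinearMap.coe_comp]
    exact (Phi_injective m).comp hinjPsi
  rw [LinearMap.finrank_range_of_inj hinjcomp, Module.finrank_prod,
    Module.finrank_pi_fintype, Module.finrank_pi_fintype] at hdim
  simp only [Finset.sum_const, Finset.card_univ, Fintype.card_fin, smul_eq_mul] at hdim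
  change dq (colp col y m) (kp κ y J) f' Finset.univ (S + Pi.single y 1) ≤
    E (colp col y m) (kp κ y J) Finset.univ (S + Pi.single y 1)
  rw [hE, dq, rr_new col y m hcol hSy, ← hdq]
  simp only [← hdqr, ← hC2]
  rw [dq]
  have hd2 : (m : ℤ) * (Module.finrank F (Id col (fun i => ind (κ i)) f Finset.univ S) : ℤ) +
      ∑ r, (Module.finrank F (C r) : ℤ) ≤
      (Module.finrank F (Id (colp col y m) (kp κ y J) f' Finset.univ (S + Pi.single y 1)) : ℤ) := by
    exact_mod_cast hdim
  push_cast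
  linarith

end FrD.NRELM
end

section
/-!
# MP_921642_ag, FD, module PAF
-/
set_option autoImplicit false

namespace FrD.PAFM

open MvPolynomial

/-- multidegree zero -/
theorem xx_zero (F : Type) [Field F] {ι : Type} [Fintype ι] [DecidableEq ι] (N : ι → ℕ)
    (w : Finset ι → ℕ) : XX F N w 0 := by
  intro σ τ _ _ col κ _ hκ _
  refine ⟨fun _ => 0, fun i => Submodule.zero_mem _, fun S' hS' => ?_⟩
  have hE : E col (fun i => ind (κ i)) Finset.univ S' = (rr col S' : ℤ) := by
    classical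
    simp only [E]
    rw [Finset.sum_eq_single ∅]
    · simp
    · intro M _ hM
      obtain ⟨i, hi⟩ := Finset.nonempty_iff_ne_empty.2 hM
      rw [rr_neg]
      · simp
      · intro h
        obtain ⟨k, hk⟩ := hκ i
        have h1 := h k
        have h2 := hS' k
        have h3 : (1 : ℤ) ≤ ∑ i ∈ M, ind (κ i) k := by
          have h4 := Finset.single_le_sum (f := fun i => ind (κ i) k)
            (fun i _ => ind_nonneg (κ i) k) hi
          have h5 : ind (κ i) k = 1 := by simp [ind, hk]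
          simp only [h5] at h4
          exact h4
        simp only [Pi.zero_apply, Pi.sub_apply, Finset.sum_apply] at h1 h2
        omega
    · intro h
      exact absurd (Finset.empty_mem_powerset _) h
  rw [hE, dq]
  have : (0 : ℤ) ≤ (Module.finrank F (Id col (fun i => ind (κ i)) (fun _ => (0 : MvPolynomial σ F))
    Finset.univ S') : ℤ) := Int.natCast_nonneg _
  omega

theorem ind_pos {ι : Type} [DecidableEq ι] {J : Finset ι} {k : ι} : 0 < ind J k ↔ k ∈ J := by
  simp only [ind]
  split_ifs with h <;> simp [h]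

theorem sub_of_ind {ι : Type} [DecidableEq ι] {J J' : Finset ι} (h : ind J' ≤ ind J) : J' ⊆ J := by
  intro k hk
  rw [← ind_pos] at hk ⊢
  exact hk.trans_le (h k)

theorem specPAF (hTHE : SpecTHE) (hPAI : SpecPAI) (hEMB : SpecEMB) (hMONS : SpecMONS)
    (hTRX : SpecTRX) : SpecPAF := by
  intro a e γ γ' ha hγ hγγ hmu N1
  obtain ⟨θ, hθ1, hθ2⟩ := hTHE a e γ γ' ha hγ hγγ hmu
  obtain ⟨N, hN1, h1N, hX⟩ := hPAI a e γ θ ha hγ hθ1 hθ2 e le_rfl N1
  refine ⟨N, hN1, h1N, ⌈γ * (N : ℝ) ^ a⌉₊, Nat.le_ceil _, ?_⟩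
  intro ι _ _ J hJ
  refine hTRX KK ι _ _ _ ?_
  rcases Nat.eq_zero_or_pos J.card with h0 | h0
  · rw [Finset.card_eq_zero] at h0
    subst h0
    have : ind (∅ : Finset ι) = 0 := by
      funext k
      simp [ind]
    rw [this]
    exact xx_zero KK _ _
  · obtain ⟨j, hj⟩ : ∃ j, J.card = j + 1 := ⟨J.card - 1, by omega⟩
    have hX1 := hX j (by omega)
    let e0 : J ≃ Fin (j + 1) := J.equivFinOfCardEq hj
    let φ : Fin (j + 1) → CB j := Fin.lastCases (Sum.inr true) (fun i => Sum.inl i)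
    have hφl : φ (Fin.last j) = Sum.inr true := by
      simp only [φ, Fin.lastCases_last]
    have hφc : ∀ i : Fin j, φ i.castSucc = Sum.inl i := by
      intro i
      simp only [φ, Fin.lastCases_castSucc]
    have hφinj : Function.Injective φ := by
      intro x y
      refine Fin.lastCases ?_ (fun x' => ?_) x
      · refine Fin.lastCases ?_ (fun y' => ?_) y
        · intro _; rfl
        · rw [hφl, hφc]
          intro h
          exact absurd h (by simp)
      · refine Fin.lastCases ?_ (fun y' => ?_) y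
        · rw [hφl, hφc]
          intro h
          exact absurd h (by simp)
        · rw [hφc, hφc]
          intro h
          rw [Sum.inl.inj h]
    have hφne : ∀ x, φ x ≠ Sum.inr false := by
      intro x
      refine Fin.lastCases ?_ (fun x' => ?_) x
      · rw [hφl]; simp
      · rw [hφc]; simp
    have hφsurj : ∀ k0 : CB j, k0 ≠ Sum.inr false → ∃ x, φ x = k0 := by
      rintro (i | b) hk0
      · exact ⟨i.castSucc, hφc i⟩
      · cases b
        · exact absurd rfl hk0
        · exact ⟨Fin.last j, hφl⟩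
    let g : ι → CB j := fun k => if h : k ∈ J then φ (e0 ⟨k, h⟩) else Sum.inr true
    have hg : ∀ k (h : k ∈ J), g k = φ (e0 ⟨k, h⟩) := by
      intro k h
      simp only [g, dif_pos h]
    have hginj : ∀ k k', k ∈ J → k' ∈ J → g k = g k' → k = k' := by
      intro k k' hk hk' h
      rw [hg k hk, hg k' hk'] at h
      have := e0.injective (hφinj h)
      exact congrArg Subtype.val this
    have hgne : ∀ k ∈ J, g k ≠ Sum.inr false := by
      intro k hk
      rw [hg k hk]
      exact hφne _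
    refine hEMB KK ι (CB j) (fun _ => N) _ (ind J) (fun _ => N)
      (wB j a ⌈γ * (N : ℝ) ^ a⌉₊ ⌈θ (j + 1) * (N : ℝ) ^ 2⌉₊)
      (ind ((Finset.univ : Finset (CB j)).erase (Sum.inr false))) g ?_ (ind_nonneg _) ?_ ?_ ?_ ?_ ?_
    · intro k k' hk hk' h
      exact hginj k k' (ind_pos.1 hk) (ind_pos.1 hk') h
    · intro k hk
      rw [ind_pos] at hk
      have h1 : g k ∈ (Finset.univ : Finset (CB j)).erase (Sum.inr false) :=
        Finset.mem_erase.2 ⟨hgne k hk, Finset.mem_univ _⟩
      simp only [ind, if_pos hk, if_pos h1, le_refl]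
    · intro k0 hk0
      rw [ind_pos] at hk0
      obtain ⟨x, hx⟩ := hφsurj k0 (Finset.ne_of_mem_erase hk0)
      refine ⟨(e0.symm x : ι), ind_pos.2 (e0.symm x).2, ?_⟩
      rw [hg _ (e0.symm x).2]
      simp only [Subtype.coe_eta, Equiv.apply_symm_apply]
      exact hx
    · intro k _
      exact le_rfl
    · intro J' hJ'
      have hsub := sub_of_ind hJ'
      by_cases hc : J'.card = a
      · have h1 : (Sum.inr false : CB j) ∉ J'.image g := by
          intro h
          obtain ⟨k, hk, hk2⟩ := Finset.mem_image.1 h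
          exact hgne k (hsub hk) hk2
        have h2 : (J'.image g).card = a := by
          rw [Finset.card_image_of_injOn]
          · exact hc
          · intro k hk k' hk' h
            exact hginj k k' (hsub hk) (hsub hk') h
        simp only [if_pos hc, wB]
        rw [if_pos ⟨h1, h2⟩]
      · simp only [if_neg hc]
        exact Nat.zero_le _
    · refine hMONS KK (CB j) _ _ (fun _ => 1) _ ?_ hX1
      intro k
      simp only [ind]
      split_ifs <;> simp

end FrD.PAFM
end

section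
/-!
# FD, module PAI: the induction on the number of colours (Part A)
-/
set_option autoImplicit false

namespace FrD

namespace PAIM

open MvPolynomial

lemma num1 (γ : ℝ) (N b a : ℕ) :
    ⌈γ * (((N * b : ℕ) : ℝ)) ^ a⌉₊ ≤ b ^ a * ⌈γ * (N : ℝ) ^ a⌉₊ := by
  rw [Nat.ceil_le]
  push_cast
  have h := Nat.le_ceil (γ * (N : ℝ) ^ a)
  calc γ * ((N : ℝ) * b) ^ a = (b : ℝ) ^ a * (γ * (N : ℝ) ^ a) := by rw [mul_pow]; ring
    _ ≤ (b : ℝ) ^ a * (⌈γ * (N : ℝ) ^ a⌉₊ : ℝ) := by gcongr

lemma num2 (γ : ℝ) (N b a : ℕ) :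
    ⌈γ * (((N * b : ℕ) : ℝ)) ^ (a + 1)⌉₊ ≤ b ^ a * (⌈γ * (N : ℝ) ^ a⌉₊ * (N * b)) := by
  rw [Nat.ceil_le]
  push_cast
  have h := Nat.le_ceil (γ * (N : ℝ) ^ a)
  calc γ * ((N : ℝ) * b) ^ (a + 1) = (b : ℝ) ^ a * ((γ * (N : ℝ) ^ a) * (N * b)) := by
        rw [mul_pow]; ring
    _ ≤ (b : ℝ) ^ a * ((⌈γ * (N : ℝ) ^ a⌉₊ : ℝ) * (N * b)) := by gcongr

lemma num3 (θ : ℝ) (N b : ℕ) :
    ⌈θ * (((N * b : ℕ) : ℝ)) ^ 2⌉₊ ≤ b * (⌈θ * (N : ℝ)⌉₊ * (N * b)) := by
  rw [Nat.ceil_le]
  push_cast
  have h := Nat.le_ceil (θ * (N : ℝ))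
  calc θ * ((N : ℝ) * b) ^ 2 = (b : ℝ) * ((θ * (N : ℝ)) * (N * b)) := by ring
    _ ≤ (b : ℝ) * ((⌈θ * (N : ℝ)⌉₊ : ℝ) * (N * b)) := by gcongr

theorem specPAI (hSA1 : SpecSA1) (hSQB : SpecSQB) (hPAN : SpecPAN) : SpecPAI := by
  intro a e γ θ ha hγ hθ hsum p
  induction p with
  | zero =>
    intro _ N1
    exact ⟨max N1 1, le_max_left _ _, le_max_right _ _, fun j hj => absurd hj (Nat.not_lt_zero j)⟩
  | succ p ih =>
    intro hp N1
    obtain ⟨N2, hN2⟩ := hPAN a e p γ θ ha hγ (by omega) hθ (hsum p (by omega))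
    obtain ⟨N, hN, hN1, hX⟩ := ih (by omega) (max N1 N2)
    obtain ⟨h1, h2, h3⟩ := hN2 N (le_trans (le_max_right _ _) hN) hN1
    obtain ⟨m0, hm0⟩ := hSA1 p a N ⌈γ * (N : ℝ) ^ a⌉₊ ⌈γ * (N : ℝ) ^ (a - 1)⌉₊
      ⌈θ (p + 1) * (N : ℝ)⌉₊ (fun i => ⌈θ i * (N : ℝ) ^ 2⌉₊) ha hN1 h1 h2 h3 hX
    obtain ⟨b, hb1, hbm⟩ : ∃ b : ℕ, 1 ≤ b ∧ m0 ≤ b := ⟨max 1 m0, le_max_left _ _, le_max_right _ _⟩
    have hNb : b ≤ N * b := Nat.le_mul_of_pos_left b hN1
    have hNb2 : N ≤ N * b := Nat.le_mul_of_pos_right N hb1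
    have hXm := hm0 (N * b) (le_trans hbm hNb)
    refine ⟨N * b, le_trans (le_trans (le_max_left _ _) hN) hNb2, le_trans hN1 hNb2, ?_⟩
    intro j hj
    rcases Nat.lt_succ_iff_lt_or_eq.1 hj with hj | rfl
    · -- an old number of colours
      refine hSQB KK (CB j) (fun _ => N) (fun _ => N * b) (fun _ => b)
        (wB j a ⌈γ * (N : ℝ) ^ a⌉₊ ⌈θ (j + 1) * (N : ℝ) ^ 2⌉₊) _ (fun _ => hb1)
        (fun _ => le_of_eq (Nat.mul_comm b N)) ?_ (hX j hj)
      intro J
      rw [Finset.prod_const]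
      unfold wB
      by_cases hJ : Sum.inr false ∉ J ∧ J.card = a
      · rw [if_pos hJ, if_pos hJ, hJ.2]
        exact num1 γ N b a
      · rw [if_neg hJ, if_neg hJ]
        by_cases hJ2 : J = {Sum.inr true, Sum.inr false}
        · rw [if_pos hJ2, if_pos hJ2]
          have hc : J.card = 2 := by rw [hJ2]; rfl
          rw [hc]
          exact num1 (θ (j + 1)) N b 2
        · rw [if_neg hJ2, if_neg hJ2]
          exact Nat.zero_le _
    · -- the new number of colours
      refine hSQB KK (CB j) (Npl j N (N * b)) (fun _ => N * b)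
        (fun k => if k = Sum.inr true then 1 else b)
        (wpl j a ⌈γ * (N : ℝ) ^ a⌉₊ ⌈γ * (N : ℝ) ^ (a - 1)⌉₊ ⌈θ (j + 1) * (N : ℝ)⌉₊ (N * b)) _
        ?_ ?_ ?_ hXm
      · intro k
        split_ifs
        · exact le_rfl
        · exact hb1
      · intro k
        rcases k with x | (_ | _)
        · simp [Npl, Nat.mul_comm]
        · simp [Npl, Nat.mul_comm]
        · simp [Npl]
      · intro J
        by_cases hy : (Sum.inr true : CB j) ∈ J
        · have hprod : (∏ k ∈ J, if k = Sum.inr true then 1 else b) = b ^ (J.card - 1) := by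
            rw [← Finset.mul_prod_erase J _ hy, if_pos rfl, one_mul]
            rw [Finset.prod_congr rfl (fun k hk => if_neg (Finset.ne_of_mem_erase hk)),
              Finset.prod_const, Finset.card_erase_of_mem hy]
          rw [hprod]
          unfold wB wpl
          rw [if_pos hy]
          by_cases hJ : Sum.inr false ∉ J ∧ J.card = a
          · rw [if_pos hJ, if_pos hJ, hJ.2]
            have h4 := num2 γ N b (a - 1)
            rw [Nat.sub_add_cancel (by omega : 1 ≤ a)] at h4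
            exact h4
          · rw [if_neg hJ, if_neg hJ]
            by_cases hJ2 : J = {Sum.inr true, Sum.inr false}
            · rw [if_pos hJ2, if_pos hJ2]
              have hc : J.card = 2 := by rw [hJ2]; rfl
              rw [hc]
              simpa using num3 (θ (j + 1)) N b
            · rw [if_neg hJ2, if_neg hJ2]
              exact Nat.zero_le _
        · have hprod : (∏ k ∈ J, if k = Sum.inr true then 1 else b) = b ^ J.card := by
            rw [Finset.prod_congr rfl (fun k hk => if_neg (ne_of_mem_of_not_mem hk hy)),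
              Finset.prod_const]
          rw [hprod]
          unfold wB wpl
          rw [if_neg hy]
          by_cases hJ : Sum.inr false ∉ J ∧ J.card = a
          · rw [if_pos hJ, if_pos hJ, hJ.2]
            exact num1 γ N b a
          · rw [if_neg hJ, if_neg hJ]
            by_cases hJ2 : J = {Sum.inr true, Sum.inr false}
            · exfalso
              apply hy
              rw [hJ2]
              simp
            · rw [if_neg hJ2]
              exact Nat.zero_le _

end PAIM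

end FrD
end

section
/-!
# MP_921642_ag, FD, module PAN

The rounding of the parameters of Part A, for `N` large.
-/
set_option autoImplicit false

namespace FrD.PANM

open Filter Topology

/-- one factor of the denominator -/
lemma factor_le {t : ℝ} {N : ℕ} (hN : 1 ≤ N) :
    t * (N : ℝ) ≤ ((⌈t * (N : ℝ) ^ 2⌉₊ : ℕ) : ℝ) / N := by
  have hN0 : (0 : ℝ) < N := by exact_mod_cast hN
  rw [le_div_iff₀ hN0]
  have := Nat.le_ceil (t * (N : ℝ) ^ 2)
  nlinarith

/-- the numerator -/
lemma num_le {g : ℝ} (hg : 0 < g) {a N : ℕ} (ha : 2 ≤ a) (hN : 1 ≤ N) :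
    ((⌈g * (N : ℝ) ^ (a - 1)⌉₊ : ℕ) : ℝ) ≤ (g + 1 / (N : ℝ)) * (N : ℝ) ^ (a - 1) := by
  have hN0 : (0 : ℝ) < N := by exact_mod_cast hN
  have hN1 : (1 : ℝ) ≤ N := by exact_mod_cast hN
  have h1 : ((⌈g * (N : ℝ) ^ (a - 1)⌉₊ : ℕ) : ℝ) < g * (N : ℝ) ^ (a - 1) + 1 :=
    Nat.ceil_lt_add_one (by positivity)
  have h2 : (1 : ℝ) ≤ 1 / (N : ℝ) * (N : ℝ) ^ (a - 1) := by
    obtain ⟨b, hb⟩ : ∃ b, a - 1 = b + 1 := ⟨a - 2, by omega⟩
    rw [hb, pow_succ]
    have h3 : (1 : ℝ) ≤ (N : ℝ) ^ b := one_le_pow₀ hN1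
    have h4 : 1 / (N : ℝ) * ((N : ℝ) ^ b * N) = (N : ℝ) ^ b := by
      field_simp
    rw [h4]
    exact h3
  rw [add_mul]
  linarith

theorem specPAN : SpecPAN := by
  intro a e p γ θ ha hγ hpe hθ hj
  have hz : Tendsto (fun n : ℕ => 1 / (n : ℝ)) atTop (𝓝 0) := tendsto_one_div_atTop_nhds_zero_nat
  have hθp := hθ (p + 1) (by omega) (by omega)
  have e1 : ∀ᶠ n : ℕ in atTop, 1 / (n : ℝ) < 1 - θ (p + 1) :=
    hz.eventually (gt_mem_nhds (by linarith [hθp.2]))
  have e2 : ∀ᶠ n : ℕ in atTop, ∀ j ∈ Finset.range (p + 1), a - 1 ≤ j →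
      (j.choose (a - 1) : ℝ) * (γ + 1 / (n : ℝ)) / (∏ i ∈ Finset.range (a - 1), θ (j - i)) +
        (θ (p + 1) + 1 / (n : ℝ)) < 1 := by
    rw [Filter.eventually_all_finset]
    intro j hjp
    by_cases haj : a - 1 ≤ j
    · have h1 := hj j (by have := Finset.mem_range.1 hjp; omega) haj
      have h2 : Tendsto (fun n : ℕ => (j.choose (a - 1) : ℝ) * (γ + 1 / (n : ℝ)) /
          (∏ i ∈ Finset.range (a - 1), θ (j - i)) + (θ (p + 1) + 1 / (n : ℝ))) atTop
          (𝓝 ((j.choose (a - 1) : ℝ) * (γ + 0) / (∏ i ∈ Finset.range (a - 1), θ (j - i)) +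
            (θ (p + 1) + 0))) :=
        (((hz.const_add γ).const_mul _).div_const _).add (hz.const_add _)
      rw [add_zero, add_zero] at h2
      exact (h2.eventually (gt_mem_nhds h1)).mono (fun n hn _ => hn)
    · exact Filter.Eventually.of_forall (fun n h => absurd h haj)
  obtain ⟨N2, hN2⟩ := Filter.eventually_atTop.1 (e1.and e2)
  refine ⟨N2, fun N hN hN1 => ?_⟩
  obtain ⟨k1, k2⟩ := hN2 N hN
  have hN0 : (0 : ℝ) < N := by exact_mod_cast hN1
  have hceil : ((⌈θ (p + 1) * (N : ℝ)⌉₊ : ℕ) : ℝ) < θ (p + 1) * (N : ℝ) + 1 :=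
    Nat.ceil_lt_add_one (by have := hθp.1; positivity)
  refine ⟨fun i hi hip => ?_, ?_, fun j hjp haj => ?_⟩
  · have := (hθ i hi (by omega)).1
    exact Nat.one_le_ceil_iff.2 (by positivity)
  · have h1 : 1 < (1 - θ (p + 1)) * (N : ℝ) := by
      rw [div_lt_iff₀ hN0] at k1
      exact k1
    have h2 : ((⌈θ (p + 1) * (N : ℝ)⌉₊ : ℕ) : ℝ) < N := by linarith
    exact_mod_cast h2
  · have h1 := k2 j (Finset.mem_range.2 (by omega)) haj
    have hpos : ∀ i ∈ Finset.range (a - 1), 0 < θ (j - i) := by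
      intro i hi
      have := Finset.mem_range.1 hi
      exact (hθ (j - i) (by omega) (by omega)).1
    have hP : 0 < ∏ i ∈ Finset.range (a - 1), θ (j - i) := Finset.prod_pos hpos
    have hden : (∏ i ∈ Finset.range (a - 1), θ (j - i)) * (N : ℝ) ^ (a - 1) ≤
        ∏ i ∈ Finset.range (a - 1), (((⌈θ (j - i) * (N : ℝ) ^ 2⌉₊ : ℕ) : ℝ) / N) := by
      have h2 : (∏ i ∈ Finset.range (a - 1), θ (j - i)) * (N : ℝ) ^ (a - 1) =
          ∏ i ∈ Finset.range (a - 1), (θ (j - i) * (N : ℝ)) := by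
        rw [Finset.prod_mul_distrib, Finset.prod_const, Finset.card_range]
      rw [h2]
      exact Finset.prod_le_prod (fun i hi => mul_nonneg (hpos i hi).le hN0.le)
        (fun i _ => factor_le hN1)
    have hnum := num_le hγ ha hN1
    have hC : (0 : ℝ) ≤ (j.choose (a - 1) : ℝ) := Nat.cast_nonneg _
    have hPN : 0 < (∏ i ∈ Finset.range (a - 1), θ (j - i)) * (N : ℝ) ^ (a - 1) := by positivity
    have h3 : (j.choose (a - 1) : ℝ) * ((⌈γ * (N : ℝ) ^ (a - 1)⌉₊ : ℕ) : ℝ) /
        (∏ i ∈ Finset.range (a - 1), (((⌈θ (j - i) * (N : ℝ) ^ 2⌉₊ : ℕ) : ℝ) / N)) ≤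
        (j.choose (a - 1) : ℝ) * (γ + 1 / (N : ℝ)) / (∏ i ∈ Finset.range (a - 1), θ (j - i)) := by
      calc (j.choose (a - 1) : ℝ) * ((⌈γ * (N : ℝ) ^ (a - 1)⌉₊ : ℕ) : ℝ) /
            (∏ i ∈ Finset.range (a - 1), (((⌈θ (j - i) * (N : ℝ) ^ 2⌉₊ : ℕ) : ℝ) / N))
          ≤ (j.choose (a - 1) : ℝ) * ((γ + 1 / (N : ℝ)) * (N : ℝ) ^ (a - 1)) /
            ((∏ i ∈ Finset.range (a - 1), θ (j - i)) * (N : ℝ) ^ (a - 1)) := by
            apply div_le_div₀
            · positivity
            · exact mul_le_mul_of_nonneg_left hnum hC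
            · exact hPN
            · exact hden
        _ = (j.choose (a - 1) : ℝ) * (γ + 1 / (N : ℝ)) /
            (∏ i ∈ Finset.range (a - 1), θ (j - i)) := by
            rw [← mul_assoc]
            exact mul_div_mul_right _ _ (by positivity)
    have h4 : ((⌈θ (p + 1) * (N : ℝ)⌉₊ : ℕ) : ℝ) / N ≤ θ (p + 1) + 1 / (N : ℝ) := by
      rw [div_le_iff₀ hN0, add_mul, one_div, inv_mul_cancel₀ hN0.ne']
      exact hceil.le
    calc _ ≤ (j.choose (a - 1) : ℝ) * (γ + 1 / (N : ℝ)) /
          (∏ i ∈ Finset.range (a - 1), θ (j - i)) + (θ (p + 1) + 1 / (N : ℝ)) := add_le_add h3 h4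
      _ < 1 := h1

end FrD.PANM
end

section
/-!
# MP_921642_ag, FD/PBI: the induction on the multidegree

`Cl a γ p d` is the claim `C(p, d)` of the specification: exactness at all multidegrees `S` with `|S| < p`, or
`|S| = p` and `|S| - |supp S| < d`.  `Cl p d` implies `Cl p (d + 1)` for `1 ≤ p ≤ e` (SpecPBR, SpecPBS, SpecEV), and
`Cl p (p + 1)` implies `Cl (p + 1) 0`.
-/
set_option autoImplicit false

namespace FrD.PBIM

open FrD

/-- the claim `C(p, d)` -/
def Cl (a : ℕ) (γ : ℝ) (p d : ℕ) : Prop :=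
  ∀ γ1 : ℝ, 0 < γ1 → γ1 < γ → ∃ N0 : ℕ, ∀ N ≥ N0, ∀ w : ℕ, (w : ℝ) ≤ γ1 * (N : ℝ) ^ a →
    ∀ (ι : Type) [Fintype ι] [DecidableEq ι] (S : ι → ℤ), 0 ≤ S →
      (∑ k, S k < p ∨
        (∑ k, S k = p ∧ p < (Finset.univ.filter (fun k => 0 < S k)).card + d)) →
      XXU ℂ a N w S

lemma card_supp_le {ι : Type} [Fintype ι] (S : ι → ℤ) (hS : 0 ≤ S) :
    ((Finset.univ.filter (fun k => 0 < S k)).card : ℤ) ≤ ∑ k, S k := by
  rw [Finset.card_eq_sum_ones, Nat.cast_sum, Finset.sum_filter]
  refine Finset.sum_le_sum (fun k _ => ?_)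
  have h0 : 0 ≤ S k := hS k
  split_ifs with h
  · push_cast; omega
  · exact h0

lemma xxu_zero (a N' w' : ℕ)
    (h : ∀ (ι : Type) [Fintype ι] [DecidableEq ι], XXU ℂ a N' w' (ind (∅ : Finset ι)))
    (N w : ℕ) (ι : Type) [Fintype ι] [DecidableEq ι] (S : ι → ℤ) (hS : 0 ≤ S)
    (hs : ∑ k, S k = 0) : XXU ℂ a N w S := by
  have h0 : S = ind (∅ : Finset ι) := by
    funext k
    have := (Finset.sum_eq_zero_iff_of_nonneg (fun k _ => hS k)).1 hs k (Finset.mem_univ k)
    simpa [ind] using this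
  subst h0
  intro σ τ _ _ col κ _ h2 _
  refine h ι σ τ col κ (fun k hk => ?_) h2 (fun J hJ => ?_)
  · simp [ind] at hk
  · have hJe : J = ∅ := by
      by_contra hne
      obtain ⟨k, hk⟩ := Finset.nonempty_iff_ne_empty.2 hne
      have := hJ k
      simp [ind, hk] at this
    subst hJe
    have : IsEmpty {i // κ i = ∅} := ⟨fun i => (h2 i.1).ne_empty i.2⟩
    simp

lemma sum_push {ι' ι : Type} [Fintype ι'] [Fintype ι] [DecidableEq ι] (π : ι' → ι) (S' : ι' → ℤ) :
    ∑ k, push π S' k = ∑ k', S' k' := by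
  simp only [push]
  rw [Finset.sum_comm]
  refine Finset.sum_congr rfl (fun k' _ => ?_)
  simp

/-- the standard multidegrees `S0 : Fin c → ℤ` -/
lemma std_step (h2 : SpecPBS) (h3 : SpecEV) {a e : ℕ} {γ : ℝ} (ha : 1 ≤ a) (hγ : 0 < γ)
    (hyp : ∀ N1 : ℕ, ∃ N ≥ N1, 1 ≤ N ∧ ∃ w : ℕ, γ * (N : ℝ) ^ a ≤ w ∧
      ∀ (ι : Type) [Fintype ι] [DecidableEq ι] (J : Finset ι), J.card ≤ e → XXU ℂ a N w (ind J))
    {p d c : ℕ} (hpe : p ≤ e) (hcd : c + d = p) (hC : Cl a γ p d) (S0 : Fin c → ℤ)
    (h1 : ∀ k, 1 ≤ S0 k) (hs : ∑ k, S0 k = p) :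
    ∀ γ1 : ℝ, 0 < γ1 → γ1 < γ → ∃ N0 : ℕ, ∀ N ≥ N0, ∀ w : ℕ, (w : ℝ) ≤ γ1 * (N : ℝ) ^ a →
      XXU ℂ a N w S0 := by
  by_cases hx : ∃ x0, 2 ≤ S0 x0
  · obtain ⟨x0, hx0⟩ := hx
    refine h2 a c γ S0 x0 ha hγ h1 hx0 (fun γ1 hγ1 hγ1' => ?_)
    obtain ⟨N0, hN0⟩ := hC γ1 hγ1 hγ1'
    refine ⟨N0, fun N hN w hw ι _ _ S hS hor => hN0 N hN w hw ι S hS ?_⟩
    rw [hs] at hor
    rcases hor with hlt | ⟨heq, hlt⟩
    · exact Or.inl hlt
    · exact Or.inr ⟨heq, by omega⟩
  · push Not at hx
    have hS1 : ∀ k, S0 k = 1 := fun k => by have := h1 k; have := hx k; omega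
    intro γ1 hγ1 hγ1'
    obtain ⟨N2, -, hN2, w2, hw2, hJ⟩ := hyp 0
    refine h3 (Fin c) S0 a N2 w2 γ1 γ hN2 hγ1 hγ1' hw2 (fun q _ S' hS' hpush => ?_)
    have hle : ∀ k', S' k' ≤ 1 := fun k' => by
      have := le_push Prod.fst hS' k'
      have h' : push Prod.fst S' (Prod.fst k') ≤ S0 (Prod.fst k') := hpush _
      rw [hS1] at h'
      omega
    have hind : S' = ind (Finset.univ.filter (fun k' => 0 < S' k')) := by
      funext k'
      have h0 : 0 ≤ S' k' := hS' k'
      have := hle k'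
      simp only [ind, Finset.mem_filter, Finset.mem_univ, true_and]
      split_ifs with h
      · omega
      · omega
    rw [hind]
    refine hJ _ _ ?_
    have hc1 := card_supp_le S' hS'
    have hc2 : ∑ k', S' k' ≤ c := by
      rw [← sum_push Prod.fst S']
      calc ∑ k, push Prod.fst S' k ≤ ∑ k, S0 k := Finset.sum_le_sum (fun k _ => hpush k)
        _ = c := by simp [hS1]
    have : ((Finset.univ.filter (fun k' => 0 < S' k')).card : ℤ) ≤ e := by
      refine hc1.trans (hc2.trans ?_)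
      exact_mod_cast (by omega : c ≤ e)
    exact_mod_cast this

/-- `C(p, d)` implies `C(p, d + 1)` -/
lemma step (h1 : SpecPBR) (h2 : SpecPBS) (h3 : SpecEV) {a e : ℕ} {γ : ℝ} (ha : 1 ≤ a)
    (hγ : 0 < γ)
    (hyp : ∀ N1 : ℕ, ∃ N ≥ N1, 1 ≤ N ∧ ∃ w : ℕ, γ * (N : ℝ) ^ a ≤ w ∧
      ∀ (ι : Type) [Fintype ι] [DecidableEq ι] (J : Finset ι), J.card ≤ e → XXU ℂ a N w (ind J))
    {p d : ℕ} (hp : 1 ≤ p) (hpe : p ≤ e) (hC : Cl a γ p d) : Cl a γ p (d + 1) := by
  intro γ1 hγ1 hγ1'
  obtain ⟨NA, hNA⟩ := hC γ1 hγ1 hγ1'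
  by_cases hdp : p < d
  · refine ⟨NA, fun N hN w hw ι _ _ S hS hor => hNA N hN w hw ι S hS ?_⟩
    rcases hor with hlt | ⟨heq, -⟩
    · exact Or.inl hlt
    · exact Or.inr ⟨heq, by omega⟩
  push Not at hdp
  obtain ⟨c, hcd⟩ : ∃ c, c + d = p := ⟨p - d, by omega⟩
  have hfin : {S0 : Fin c → ℤ | (∀ k, 1 ≤ S0 k) ∧ ∑ k, S0 k = p}.Finite := by
    refine (Set.finite_Icc (fun _ : Fin c => (1 : ℤ)) (fun _ => (p : ℤ))).subset ?_
    rintro S0 ⟨ha, hb⟩
    refine ⟨fun k => ha k, fun k => ?_⟩
    rw [← hb]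
    exact Finset.single_le_sum (f := S0) (fun k _ => by have := ha k; omega) (Finset.mem_univ k)
  have hstd : ∀ S0 : Fin c → ℤ, ∃ N0 : ℕ, ((∀ k, 1 ≤ S0 k) ∧ ∑ k, S0 k = p) →
      ∀ N ≥ N0, ∀ w : ℕ, (w : ℝ) ≤ γ1 * (N : ℝ) ^ a → XXU ℂ a N w S0 := by
    intro S0
    by_cases hS0 : (∀ k, 1 ≤ S0 k) ∧ ∑ k, S0 k = p
    · obtain ⟨N0, hN0⟩ := std_step h2 h3 ha hγ hyp hpe hcd hC S0 hS0.1 hS0.2 γ1 hγ1 hγ1'
      exact ⟨N0, fun _ => hN0⟩
    · exact ⟨0, fun h => absurd h hS0⟩
  choose NS hNS using hstd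
  obtain ⟨NB, hNB⟩ : ∃ NB, ∀ S0 : Fin c → ℤ, (∀ k, 1 ≤ S0 k) ∧ ∑ k, S0 k = p → NS S0 ≤ NB := by
    refine ⟨hfin.toFinset.sup NS, fun S0 hS0 => ?_⟩
    exact Finset.le_sup (f := NS) (hfin.mem_toFinset.2 hS0)
  refine ⟨max NA NB, fun N hN w hw ι _ _ S hS hor => ?_⟩
  have hN1 : NA ≤ N := (le_max_left _ _).trans hN
  have hN2 : NB ≤ N := (le_max_right _ _).trans hN
  rcases hor with hlt | ⟨heq, hlt⟩
  · exact hNA N hN1 w hw ι S hS (Or.inl hlt)
  by_cases hcase : p < (Finset.univ.filter (fun k => 0 < S k)).card + d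
  · exact hNA N hN1 w hw ι S hS (Or.inr ⟨heq, hcase⟩)
  have hcard : (Finset.univ.filter (fun k => 0 < S k)).card = c := by omega
  have hS0 : S ≠ 0 := by
    rintro rfl
    simp at heq
    omega
  obtain ⟨S0, hS1, hsum, himp⟩ := h1 ι S hS hS0
  refine himp ℂ a N w ?_
  have key : ∀ c', c' = c → ∀ S0 : Fin c' → ℤ, (∀ k, 1 ≤ S0 k) → ∑ k, S0 k = p →
      XXU ℂ a N w S0 := by
    rintro c' rfl S0 hA hB
    exact hNS S0 ⟨hA, hB⟩ N ((hNB S0 ⟨hA, hB⟩).trans hN2) w hw
  exact key _ hcard S0 hS1 (hsum.trans heq)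

theorem specPBI (h1 : SpecPBR) (h2 : SpecPBS) (h3 : SpecEV) : SpecPBI := by
  intro a e γ ha hγ hyp
  have hz : ∀ (N w : ℕ) (ι : Type) [Fintype ι] [DecidableEq ι] (S : ι → ℤ), 0 ≤ S →
      ∑ k, S k = 0 → XXU ℂ a N w S := by
    obtain ⟨N', -, -, w', -, hJ⟩ := hyp 0
    intro N w ι _ _ S hS hs
    exact xxu_zero a N' w' (fun ι _ _ => hJ ι ∅ (by simp)) N w ι S hS hs
  have hd : ∀ p : ℕ, 1 ≤ p → p ≤ e → Cl a γ p 0 → ∀ d, Cl a γ p d := by
    intro p hp hpe h0 d
    induction d with
    | zero => exact h0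
    | succ d ih => exact step h1 h2 h3 ha hγ hyp hp hpe ih
  have hall : ∀ p : ℕ, p ≤ e → Cl a γ (p + 1) 0 := by
    intro p
    induction p with
    | zero =>
      intro _ γ1 _ _
      refine ⟨0, fun N _ w _ ι _ _ S hS hor => hz N w ι S hS ?_⟩
      have hnn : 0 ≤ ∑ k, S k := Finset.sum_nonneg (fun k _ => hS k)
      rcases hor with hlt | ⟨heq, hlt⟩
      · push_cast at hlt; omega
      · have := card_supp_le S hS
        push_cast at heq
        omega
    | succ p ih =>
      intro hpe γ1 hγ1 hγ1'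
      have hp := hd (p + 1) (by omega) hpe (ih (by omega)) (p + 2)
      obtain ⟨N0, hN0⟩ := hp γ1 hγ1 hγ1'
      refine ⟨N0, fun N hN w hw ι _ _ S hS hor => hN0 N hN w hw ι S hS ?_⟩
      have := card_supp_le S hS
      rcases hor with hlt | ⟨heq, hlt⟩
      · by_cases hh : ∑ k, S k < ((p + 1 : ℕ) : ℤ)
        · exact Or.inl hh
        · refine Or.inr ⟨?_, by omega⟩
          push_cast at hlt hh ⊢
          omega
      · push_cast at heq
        omega
  intro γ1 hγ1 hγ1'
  obtain ⟨N0, hN0⟩ := hall e le_rfl γ1 hγ1 hγ1'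
  refine ⟨N0, fun N hN w hw ι _ _ S hS hs => hN0 N hN w hw ι S hS (Or.inl ?_)⟩
  push_cast
  omega

end FrD.PBIM
end

section
/-!
# MP_921642_ag, FD: module PBR (standard form of a multidegree)
-/
set_option autoImplicit false

namespace FrD.PBRM

open MvPolynomial

theorem specPBR (hEMB : SpecEMB) : SpecPBR := by
  intro ι _ _ S hS hS0
  have hne : ∃ k, 0 < S k := by
    by_contra h
    push Not at h
    apply hS0
    funext k
    exact le_antisymm (h k) (hS k)
  obtain ⟨k0, hk0⟩ := hne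
  set s : Finset ι := Finset.univ.filter (fun k => 0 < S k) with hs
  have hmem : ∀ k, k ∈ s ↔ 0 < S k := fun k => by simp [hs]
  let e : s ≃ Fin s.card := s.equivFin
  let g : ι → Fin s.card := fun k => if h : k ∈ s then e ⟨k, h⟩ else e ⟨k0, (hmem k0).2 hk0⟩
  have hg : ∀ k (h : k ∈ s), g k = e ⟨k, h⟩ := fun k h => by simp only [g, dif_pos h]
  refine ⟨fun i => S (e.symm i : ι), ?_, ?_, ?_⟩
  · intro i
    have := (hmem _).1 (e.symm i).2
    exact this
  · rw [← Finset.sum_subset (Finset.subset_univ s)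
      (fun k _ hk => le_antisymm (not_lt.1 (fun h => hk ((hmem k).2 h))) (hS k)),
      ← Finset.sum_coe_sort s]
    exact Equiv.sum_comp e.symm (fun x : s => S (x : ι))
  · intro F _ a N w h
    refine hEMB F ι (Fin s.card) (fun _ => N) _ S (fun _ => N) _ _ g ?_ ?_ ?_ ?_ ?_ ?_ h
    · intro k k' hk hk' h1
      rw [hg k ((hmem k).2 hk), hg k' ((hmem k').2 hk')] at h1
      exact congrArg Subtype.val (e.injective h1)
    · intro i
      exact le_of_lt ((hmem _).1 (e.symm i).2)
    · intro k hk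
      rw [hg k ((hmem k).2 hk), Equiv.symm_apply_apply]
    · intro i _
      refine ⟨e.symm i, (hmem _).1 (e.symm i).2, ?_⟩
      rw [hg _ (e.symm i).2]
      simp
    · intro k _
      exact le_rfl
    · intro J hJ
      have hsub : ∀ k ∈ J, k ∈ s := by
        intro k hk
        rw [hmem]
        have h2 := hJ k
        simp only [ind, if_pos hk] at h2
        omega
      have hcard : (J.image g).card = J.card := by
        apply Finset.card_image_of_injOn
        intro k hk k' hk' h1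
        rw [hg k (hsub k hk), hg k' (hsub k' hk')] at h1
        exact congrArg Subtype.val (e.injective h1)
      simp only [hcard, le_refl]

end FrD.PBRM
end

section
/-!
# MP_921642_ag, FD, module PBS: the step of the induction in PART B
-/
set_option autoImplicit false

namespace FrD.PBSM

open MvPolynomial Filter Topology

/-- the room between `γ3` and `γ2` -/
lemma exN (a : ℕ) (γ3 γ2 : ℝ) (ha : 1 ≤ a) (h3 : 0 < γ3) (h : γ3 < γ2) :
    ∀ᶠ N : ℕ in atTop, γ3 * ((N : ℝ) + 1) ^ a ≤ (⌊γ2 * (N : ℝ) ^ a⌋₊ : ℝ) := by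
  have h1 : Tendsto (fun N : ℕ => (1 + 1 / (N : ℝ)) ^ a) atTop (𝓝 ((1 + 0) ^ a)) :=
    (tendsto_const_nhds.add (tendsto_one_div_atTop_nhds_zero_nat (𝕜 := ℝ))).pow a
  rw [add_zero, one_pow] at h1
  have h4 : 1 < ((γ3 + γ2) / 2) / γ3 := by
    rw [one_lt_div h3]
    linarith
  have h5 := h1.eventually (gt_mem_nhds h4)
  obtain ⟨M, hM⟩ := exists_nat_ge (1 / (γ2 - (γ3 + γ2) / 2))
  filter_upwards [h5, eventually_ge_atTop M, eventually_ge_atTop 1] with N hN hNM hN1
  have hN0 : (1 : ℝ) ≤ (N : ℝ) := by exact_mod_cast hN1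
  have hNpos : (0 : ℝ) < (N : ℝ) := by linarith
  have hNa : (N : ℝ) ≤ (N : ℝ) ^ a := by
    calc (N : ℝ) = (N : ℝ) ^ 1 := (pow_one _).symm
      _ ≤ (N : ℝ) ^ a := pow_le_pow_right₀ hN0 ha
  have e1 : ((N : ℝ) + 1) ^ a = (N : ℝ) ^ a * (1 + 1 / (N : ℝ)) ^ a := by
    rw [← mul_pow]
    congr 1
    field_simp
  have e2 : γ3 * ((N : ℝ) + 1) ^ a ≤ (γ3 + γ2) / 2 * (N : ℝ) ^ a := by
    rw [e1]
    have h6 : γ3 * (1 + 1 / (N : ℝ)) ^ a ≤ (γ3 + γ2) / 2 := by
      have := (lt_div_iff₀ h3).1 hN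
      linarith
    have h7 : (0 : ℝ) ≤ (N : ℝ) ^ a := by positivity
    nlinarith
  have hd : 0 < γ2 - (γ3 + γ2) / 2 := by linarith
  have h8 : 1 ≤ (γ2 - (γ3 + γ2) / 2) * (N : ℝ) ^ a := by
    have h9 : 1 / (γ2 - (γ3 + γ2) / 2) ≤ (N : ℝ) ^ a :=
      le_trans hM (le_trans (by exact_mod_cast hNM) hNa)
    have h10 := (div_le_iff₀ hd).1 h9
    linarith
  have h11 := Nat.lt_floor_add_one (γ2 * (N : ℝ) ^ a)
  linarith

lemma sum_push {ι ι' : Type} [Fintype ι'] [Fintype ι] [DecidableEq ι] (π : ι' → ι) (S' : ι' → ℤ) :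
    ∑ k, push π S' k = ∑ k', S' k' := by
  simp only [push]
  rw [Finset.sum_comm]
  refine Finset.sum_congr rfl fun k' _ => ?_
  rw [Finset.sum_ite_eq]
  simp

/-- the fine multidegrees over `S0` -/
lemma smaller (hTGT : SpecTGT) {c : ℕ} (S0 : Fin c → ℤ) (hS0 : ∀ k, 1 ≤ S0 k) (Z : Type)
    [Fintype Z] [DecidableEq Z] (S' : Fin c × Z → ℤ) (h0 : 0 ≤ S') (hp : push Prod.fst S' ≤ S0)
    (hl : ∀ l, S' ≠ lam S0 l) :
    (∑ k, S' k < ∑ k, S0 k ∨
        (∑ k, S' k = ∑ k, S0 k ∧ c < (Finset.univ.filter (fun k => 0 < S' k)).card)) := by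
  have h1 : ∑ k, S' k ≤ ∑ k, S0 k := by
    rw [← sum_push Prod.fst S']
    exact Finset.sum_le_sum fun k _ => hp k
  rcases lt_or_eq_of_le h1 with h2 | h2
  · exact Or.inl h2
  · refine Or.inr ⟨h2, ?_⟩
    have h3 : push Prod.fst S' = S0 := by
      funext k
      by_contra hne
      have h4 : push Prod.fst S' k < S0 k := lt_of_le_of_ne (hp k) hne
      have h5 : ∑ k, push Prod.fst S' k < ∑ k, S0 k :=
        Finset.sum_lt_sum (fun k _ => hp k) ⟨k, Finset.mem_univ k, h4⟩
      rw [sum_push Prod.fst S', h2] at h5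
      exact lt_irrefl _ h5
    have h6 := (hTGT (Fin c) S0 hS0).2.2.2 Z S' h0 h3 hl
    rwa [Fintype.card_fin] at h6

/-- the case `S' = lam S0 l` -/
lemma lamCase (hEMB : SpecEMB) {c : ℕ} (S0 : Fin c → ℤ) (hS0 : ∀ k, 1 ≤ S0 k) (a N w q : ℕ)
    (l : Fin c → Fin q) (h : XXU ℂ a N w S0) : XXU ℂ a N w (lam S0 l) := by
  have key : ∀ k : Fin c × Fin q, 0 < lam S0 l k → k.2 = l k.1 := by
    intro k hk
    by_contra hne
    simp only [lam, if_neg hne] at hk
    exact lt_irrefl _ hk
  refine hEMB ℂ (Fin c × Fin q) (Fin c) (fun _ => N) (fun J => if J.card = a then w else 0)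
    (lam S0 l) (fun _ => N) (fun J => if J.card = a then w else 0) S0 Prod.fst ?_ ?_ ?_ ?_ ?_ ?_ h
  · intro k k' hk hk' hkk
    refine Prod.ext hkk ?_
    rw [key k hk, key k' hk', hkk]
  · intro k
    exact le_trans zero_le_one (hS0 k)
  · intro k hk
    simp only [lam, if_pos (key k hk)]
    exact le_rfl
  · intro k0 hk0
    refine ⟨(k0, l k0), ?_, rfl⟩
    simpa [lam] using hk0
  · intro k _
    exact le_rfl
  · intro J hJ
    have hinj : Set.InjOn Prod.fst (J : Set (Fin c × Fin q)) := by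
      intro k hk k' hk' hkk
      have h1 : ∀ x ∈ J, 0 < lam S0 l x := by
        intro x hx
        have h2 := hJ x
        simp only [ind, if_pos hx] at h2
        omega
      refine Prod.ext hkk ?_
      rw [key k (h1 k hk), key k' (h1 k' hk'), hkk]
    rw [Finset.card_image_of_injOn hinj]

theorem specPBS (hSTB : SpecSTB) (hEV : SpecEV) (hEMB : SpecEMB) (hTGT : SpecTGT) : SpecPBS := by
  intro a c γ S0 x0 ha hγ hS0 hx0 H γ1 hγ1 hγ1γ
  obtain ⟨γ2, hγ2⟩ : ∃ γ2, γ2 = (γ1 + γ) / 2 := ⟨_, rfl⟩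
  obtain ⟨γ3, hγ3⟩ : ∃ γ3, γ3 = (γ1 + γ2) / 2 := ⟨_, rfl⟩
  have h12 : γ1 < γ3 := by linarith
  have h32 : γ3 < γ2 := by linarith
  have h2 : γ2 < γ := by linarith
  have h3p : 0 < γ3 := by linarith
  have h2p : 0 < γ2 := by linarith
  obtain ⟨N0', hN0'⟩ := H γ2 h2p h2
  obtain ⟨N, hN, hNN0, hN1⟩ := ((exN a γ3 γ2 ha h3p h32).and
    ((eventually_ge_atTop N0').and (eventually_ge_atTop 1))).exists
  have hwle : ((⌊γ2 * (N : ℝ) ^ a⌋₊ : ℕ) : ℝ) ≤ γ2 * (N : ℝ) ^ a :=
    Nat.floor_le (by positivity)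
  obtain ⟨L, hL, hbase⟩ := hSTB (Fin c) S0 x0 a N ⌊γ2 * (N : ℝ) ^ a⌋₊ ha hS0 hx0
    (fun D S' h0 hp hl => hN0' N hNN0 _ hwle _ S' h0 (smaller hTGT S0 hS0 _ S' h0 hp hl))
  set w := ⌊γ2 * (N : ℝ) ^ a⌋₊ with hw
  have hLr : (1 : ℝ) ≤ (L : ℝ) := by exact_mod_cast hL
  have hN2 : N0' ≤ L * (N + 1) := by
    calc N0' ≤ N := hNN0
      _ ≤ 1 * (N + 1) := by omega
      _ ≤ L * (N + 1) := Nat.mul_le_mul_right _ hL
  have hw2 : (((L ^ a * w : ℕ)) : ℝ) ≤ γ2 * ((L * (N + 1) : ℕ) : ℝ) ^ a := by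
    push_cast
    rw [mul_pow]
    have h5 : (N : ℝ) ^ a ≤ ((N : ℝ) + 1) ^ a := pow_le_pow_left₀ (by positivity) (by linarith) a
    calc (L : ℝ) ^ a * (w : ℝ) ≤ (L : ℝ) ^ a * (γ2 * (N : ℝ) ^ a) :=
          mul_le_mul_of_nonneg_left hwle (by positivity)
      _ ≤ (L : ℝ) ^ a * (γ2 * ((N : ℝ) + 1) ^ a) :=
          mul_le_mul_of_nonneg_left (mul_le_mul_of_nonneg_left h5 h2p.le) (by positivity)
      _ = γ2 * ((L : ℝ) ^ a * ((N : ℝ) + 1) ^ a) := by ring
  refine hEV (Fin c) S0 a (L * (N + 1)) (L ^ a * w) γ1 γ3 ?_ hγ1 h12 ?_ ?_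
  · exact Nat.mul_pos hL (Nat.succ_pos N)
  · push_cast
    rw [mul_pow]
    calc γ3 * ((L : ℝ) ^ a * ((N : ℝ) + 1) ^ a) = (L : ℝ) ^ a * (γ3 * ((N : ℝ) + 1) ^ a) := by ring
      _ ≤ (L : ℝ) ^ a * (w : ℝ) := mul_le_mul_of_nonneg_left hN (by positivity)
  · intro q _ S' h0 hp
    by_cases hl : ∀ l, S' ≠ lam S0 l
    · exact hN0' _ hN2 _ hw2 _ S' h0 (smaller hTGT S0 hS0 _ S' h0 hp hl)
    · push Not at hl
      obtain ⟨l, rfl⟩ := hl
      exact lamCase hEMB S0 hS0 a _ _ q l hbase

end FrD.PBSM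
end

section
/-!
# MP_921642_ag, FD, module PHI
-/
set_option autoImplicit false

namespace FrD

open MvPolynomial

namespace PHIM

lemma ind_insert {ι : Type} [DecidableEq ι] (K : Finset ι) (k : ι) (hk : k ∉ K) :
    ind (insert k K) = ind K + Pi.single k 1 := by
  funext j
  simp only [ind, Finset.mem_insert, Pi.add_apply]
  by_cases hj : j = k
  · subst hj; simp [hk]
  · simp [hj]

lemma prod_mem {σ ι : Type} [Fintype σ] [DecidableEq ι] (col : σ → ι) (z : ι → σ)
    (hz : ∀ k, col (z k) = k) (K : Finset ι) :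
    (∏ k ∈ K, (X (z k) : MvPolynomial σ ℂ)) ∈ R ℂ col (ind K) := by
  induction K using Finset.induction_on with
  | empty =>
    have h := one_mem_R (F := ℂ) col
    have h2 : (ind (∅ : Finset ι)) = 0 := by funext j; simp [ind]
    rw [h2, Finset.prod_empty]
    exact h
  | insert k K hk ih =>
    rw [Finset.prod_insert hk, ind_insert K k hk, mul_comm]
    have h := X_mem_R (F := ℂ) col (z k)
    rw [hz k] at h
    exact mul_mem_R col ih h

lemma fns_prod (h4 : SpecFNS) {σ ι τ : Type} [Fintype σ] [DecidableEq ι] (col : σ → ι)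
    (κ : τ → ι → ℤ) (f : τ → MvPolynomial σ ℂ) (T : Finset τ) (z : ι → σ)
    (hz : ∀ k, col (z k) = k) (hzf : ∀ k, ∀ i ∈ T, z k ∉ (f i).vars) (K : Finset ι) :
    ∀ (S : ι → ℤ) (g : MvPolynomial σ ℂ),
      (∏ k ∈ K, (X (z k) : MvPolynomial σ ℂ)) * g ∈ Id col κ f T (S + ind K) →
      g ∈ Id col κ f T S := by
  induction K using Finset.induction_on with
  | empty =>
    intro S g h
    have h2 : (ind (∅ : Finset ι)) = 0 := by funext j; simp [ind]
    rw [h2, Finset.prod_empty, one_mul, add_zero] at h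
    exact h
  | insert k K hk ih =>
    intro S g h
    apply ih
    rw [Finset.prod_insert hk, ind_insert K k hk, mul_assoc, ← add_assoc] at h
    refine h4 ℂ σ ι τ col κ f T (S + ind K) (z k) (hzf k) _ ?_
    rw [hz k]
    exact h

lemma sh_eq {ι Z : Type} [DecidableEq ι] [DecidableEq Z] [AddGroup Z] (x0 : ι) (y c : Z)
    (J : Finset (ι × Z)) (hJ : Set.InjOn Prod.fst (J : Set (ι × Z))) (hx : (x0, y) ∈ J) :
    sh x0 c J = insert (x0, y + c) (J.erase (x0, y)) := by
  ext k
  simp only [sh, Finset.mem_image, Finset.mem_insert, Finset.mem_erase]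
  constructor
  · rintro ⟨a, ha, rfl⟩
    by_cases h : a.1 = x0
    · have h2 : a = (x0, y) := hJ (Finset.mem_coe.2 ha) (Finset.mem_coe.2 hx) h
      left
      rw [if_pos h, h2]
    · right
      rw [if_neg h]
      refine ⟨fun h2 => h ?_, ha⟩
      rw [h2]
  · rintro (rfl | ⟨h1, h2⟩)
    · refine ⟨(x0, y), hx, ?_⟩
      simp
    · refine ⟨k, h2, ?_⟩
      rw [if_neg]
      intro h
      exact h1 (hJ (Finset.mem_coe.2 h2) (Finset.mem_coe.2 hx) h)

lemma ind_sh {ι Z : Type} [DecidableEq ι] [DecidableEq Z] [AddGroup Z] (x0 : ι) (y c : Z)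
    (J : Finset (ι × Z)) (hJ : Set.InjOn Prod.fst (J : Set (ι × Z))) (hx : (x0, y) ∈ J) :
    ind (sh x0 c J) + Pi.single (x0, y) 1 = ind J + Pi.single (x0, y + c) 1 := by
  rw [sh_eq x0 y c J hJ hx, ind_insert]
  · have h : ind J = ind (J.erase (x0, y)) + Pi.single (x0, y) 1 := by
      rw [← ind_insert _ _ (Finset.notMem_erase _ _), Finset.insert_erase hx]
    rw [h]
    abel
  · intro h
    rw [Finset.mem_erase] at h
    exact h.1 (hJ (Finset.mem_coe.2 h.2) (Finset.mem_coe.2 hx) rfl)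

theorem specPHI (h1 : SpecGRD) (h2 : SpecLIFT) (h3 : SpecSYZ) (h4 : SpecFNS) : SpecPHI := by
  intro ι σ τ _ _ _ _ L _ col κ f S0 x0 l D C hne hinj hf hz hS0 hEx hCle hdisj hfin hD
  classical
  choose z hzc hzf using hz
  have hSy : Sy col (fun i => ind (κ i)) f Finset.univ := fun i _ =>
    ⟨hf i, ind_nonneg _, ind_ne_zero (hne i)⟩
  -- the maps
  let P : Fin D → (τ → MvPolynomial σ ℂ) → Prop := fun c φ =>
    (∀ i, φ i ∈ R ℂ col (ind (sh x0 (((c : ℕ) : ZMod L) + 1) (κ i)))) ∧
      ∀ i, (∀ k ∈ κ i, k.1 ≠ x0) → φ i = 0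
  let Φ : (τ → MvPolynomial σ ℂ) → (τ → MvPolynomial σ ℂ) →ₗ[ℂ] MvPolynomial σ ℂ :=
    fun φ => ∑ i, (LinearMap.mulLeft ℂ (φ i)) ∘ₗ (LinearMap.proj i)
  have hΦ : ∀ φ g, Φ φ g = ∑ i, φ i * g i := by
    intro φ g
    simp [Φ, LinearMap.sum_apply]
  have key := h1 ℂ C D
    (fun c => MvPolynomial σ ℂ ⧸ Id col (fun i => ind (κ i)) f Finset.univ
      (tgt S0 x0 l (((c : ℕ) : ZMod L) + 1)))
    (fun c => {ψ | ∃ φ, P c φ ∧ ψ = (Submodule.mkQ (Id col (fun i => ind (κ i)) f Finset.univ
      (tgt S0 x0 l (((c : ℕ) : ZMod L) + 1)))) ∘ₗ (Φ φ) ∘ₗ C.subtype})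
    hD
    (fun c => ⟨_, 0, ⟨fun i => Submodule.zero_mem _, fun i _ => rfl⟩, rfl⟩)
    (by
      intro c g hg
      have hgC : (g : τ → MvPolynomial σ ℂ) ∈ C := g.2
      have hgS := hCle hgC
      obtain ⟨hg1, hg2, hg3⟩ := hgS
      -- g is not Koszul
      have hnK : ¬ Kos col (fun i => ind (κ i)) f Finset.univ (lam S0 l)
          (g : τ → MvPolynomial σ ℂ) := by
        intro hK
        have hK2 : (g : τ → MvPolynomial σ ℂ) ∈ KZ col (fun i => ind (κ i)) f Finset.univ
            (lam S0 l) := ⟨fun i hi => absurd (Finset.mem_univ i) hi, hK⟩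
        have h0 := Submodule.disjoint_def.1 hdisj _ hgC hK2
        exact hg (Subtype.ext h0)
      have hex : ∃ i, ind (κ i) (x0, l x0) = 1 ∧
          (g : τ → MvPolynomial σ ℂ) i ∉ Id col (fun i => ind (κ i)) f Finset.univ
            (lam S0 l - ind (κ i)) := by
        by_contra hcon
        push Not at hcon
        apply hnK
        refine h2 ℂ σ (ι × ZMod L) τ col (fun i => ind (κ i)) f Finset.univ (lam S0 l)
          (x0, l x0) hSy ?_ ?_ ?_ _ hg1 hg3 (fun i _ hi => hcon i hi)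
        · simp only [lam, if_true]
          omega
        · intro i _
          simp only [ind]
          split_ifs
          · right; rfl
          · left; rfl
        · intro h hh1 hh2
          exact h3 ℂ σ (ι × ZMod L) τ col (fun i => ind (κ i)) f Finset.univ
            (lam S0 l - Pi.single (x0, l x0) 1) hSy hEx h hh1 hh2
      obtain ⟨i, hi1, hi2⟩ := hex
      have hxi : (x0, l x0) ∈ κ i := by
        by_contra h
        simp [ind, h] at hi1
      let φ : τ → MvPolynomial σ ℂ := Function.update 0 i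
        (∏ k ∈ sh x0 (((c : ℕ) : ZMod L) + 1) (κ i), X (z k))
      refine ⟨_, ⟨φ, ⟨?_, ?_⟩, rfl⟩, ?_⟩
      · intro j
        by_cases hj : j = i
        · subst hj
          simp only [φ, Function.update_self]
          exact prod_mem col z hzc _
        · simp only [φ, Function.update_of_ne hj]
          exact Submodule.zero_mem _
      · intro j hj
        by_cases hji : j = i
        · subst hji
          exact absurd rfl (hj _ hxi)
        · simp [φ, Function.update_of_ne hji]
      · intro h0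
        rw [LinearMap.comp_apply, LinearMap.comp_apply, Submodule.mkQ_apply,
          Submodule.Quotient.mk_eq_zero, Submodule.subtype_apply, hΦ] at h0
        rw [Finset.sum_eq_single i] at h0
        · simp only [φ, Function.update_self] at h0
          apply hi2
          refine fns_prod h4 col (fun i => ind (κ i)) f Finset.univ z hzc
            (fun k j _ => hzf k j) (sh x0 (((c : ℕ) : ZMod L) + 1) (κ i)) _ _ ?_
          have he : tgt S0 x0 l (((c : ℕ) : ZMod L) + 1) = lam S0 l - ind (κ i) +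
              ind (sh x0 (((c : ℕ) : ZMod L) + 1) (κ i)) := by
            have h5 := ind_sh x0 (l x0) (((c : ℕ) : ZMod L) + 1) (κ i) (hinj i) hxi
            have h6 : ind (sh x0 (((c : ℕ) : ZMod L) + 1) (κ i)) = ind (κ i) +
                Pi.single (x0, l x0 + (((c : ℕ) : ZMod L) + 1)) 1 -
                Pi.single (x0, l x0) 1 := by
              rw [← h5]; abel
            rw [h6, tgt]
            abel
          rw [he] at h0
          exact h0
        · intro j _ hj
          simp [φ, Function.update_of_ne hj]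
        · intro h
          exact absurd (Finset.mem_univ i) h)
  obtain ⟨ψ, hψ, hker⟩ := key
  choose φ hφ hφe using hψ
  refine ⟨φ, fun c i => (hφ c).1 i, fun c i hi => (hφ c).2 i hi, fun g hgC hg => ?_⟩
  have h0 := hker ⟨g, hgC⟩ (fun c => by
    rw [hφe c, LinearMap.comp_apply, LinearMap.comp_apply, Submodule.mkQ_apply,
      Submodule.Quotient.mk_eq_zero, Submodule.subtype_apply, hΦ]
    exact hg c)
  exact congrArg Subtype.val h0

end PHIM

end FrD
end

section
/-!
# MP_921642_ag, FD, module RRB: the number of monomials of a multidegree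
-/
set_option autoImplicit false

namespace FrD.RRBM

open MvPolynomial

theorem specRRB : SpecRRB := by
  intro σ ι _ _ col S
  classical
  have hinj : Function.Injective
      (fun (α : {α : σ →₀ ℕ // md col α = S}) (v : σ) =>
        (⟨α.1 v, by
          have h := le_md col α.1 v
          rw [α.2] at h
          omega⟩ : Fin ((S (col v) + 1).toNat))) := by
    intro α β h
    apply Subtype.ext
    ext v
    have h2 := congrFun h v
    simpa using congrArg Fin.val h2
  have h := Nat.card_le_card_of_injective _ hinj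
  rw [Nat.card_pi] at h
  simpa [rr] using h

end FrD.RRBM
end

section
/-!
# MP_921642_ag, FD, module SA0: the subspace inequality
-/
set_option autoImplicit false

namespace FrD.SA0M

open MvPolynomial

section base

variable {p a w0 N : ℕ} {wc : ℕ → ℕ}

/-- the original relations -/
def TT (p a w0 : ℕ) (wc : ℕ → ℕ) : Finset (TB p a w0 wc) :=
  Finset.univ.filter (fun i => Sum.isLeft i = true)

/-- the certificate relations of `q` -/
def HH (p a w0 : ℕ) (wc : ℕ → ℕ) (q : Finset (Fin p) × Fin p) : Finset (TB p a w0 wc) :=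
  Finset.univ.filter (fun i => Sum.elim (fun _ => false) (fun r => decide (r.1 = q)) i = true)

lemma mem_TT (i : TB p a w0 wc) : i ∈ TT p a w0 wc ↔ ∃ q, i = Sum.inl q := by
  rcases i with q | r
  · simp [TT]
  · simp [TT]

lemma mem_HH (q : Finset (Fin p) × Fin p) (i : TB p a w0 wc) :
    i ∈ HH p a w0 wc q ↔ ∃ j, i = Sum.inr ⟨q, j⟩ := by
  rcases i with q' | ⟨q', j⟩
  · simp [HH]
  · simp only [HH, Finset.mem_filter, Finset.mem_univ, true_and, Sum.elim_inr, decide_eq_true_eq]
    constructor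
    · intro h
      subst h
      exact ⟨j, rfl⟩
    · rintro ⟨j', h⟩
      have := Sum.inr.inj h
      exact congrArg Sigma.fst this

lemma card_HH (q : Finset (Fin p) × Fin p) (h : q.2 ∈ q.1) :
    (HH p a w0 wc q).card = wc q.1.card := by
  classical
  have h1 : HH p a w0 wc q =
      (Finset.univ : Finset (Fin (if q.2 ∈ q.1 then wc q.1.card else 0))).image
        (fun j => (Sum.inr ⟨q, j⟩ : TB p a w0 wc)) := by
    ext i
    rw [mem_HH]
    simp only [Finset.mem_image, Finset.mem_univ, true_and]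
    constructor
    · rintro ⟨j, rfl⟩; exact ⟨j, rfl⟩
    · rintro ⟨j, rfl⟩; exact ⟨j, rfl⟩
  rw [h1, Finset.card_image_of_injective, Finset.card_univ, Fintype.card_fin, if_pos h]
  intro j j' hj
  have := Sum.inr.inj hj
  simpa using this

lemma kB_nonempty (ha : 2 ≤ a) (i : TB p a w0 wc) : (kB p a w0 wc i).Nonempty := by
  rcases i with q | r
  · have h : 0 < q.1.1.card := by rw [q.1.2]; omega
    exact (Finset.card_pos.1 h).image _
  · exact ⟨CC.o r.1.2, by simp [kB]⟩

lemma sy (ha : 2 ≤ a) {k : Type} [Field k] (f : TB p a w0 wc → MvPolynomial (VB p N) k)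
    (hf : ∀ i, f i ∈ R k (colB p N) (ind (kB p a w0 wc i))) (T : Finset (TB p a w0 wc)) :
    Sy (colB p N) (fun i => ind (kB p a w0 wc i)) f T :=
  fun i _ => ⟨hf i, ind_nonneg _, ind_ne_zero (kB_nonempty ha i)⟩

/-- in the multidegrees which vanish at the auxiliary colours only the original relations matter -/
lemma Id_eq {k : Type} [Field k] (f : TB p a w0 wc → MvPolynomial (VB p N) k) (S : CC p → ℤ)
    (hS : ∀ P x, S (CC.c P x) ≤ 0) :
    Id (colB p N) (fun i => ind (kB p a w0 wc i)) f Finset.univ S =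
      Id (colB p N) (fun i => ind (kB p a w0 wc i)) f (TT p a w0 wc) S := by
  refine le_antisymm ?_ (Id_mono _ _ _ (Finset.subset_univ _) _)
  refine iSup₂_le (fun i _ => ?_)
  by_cases hi : i ∈ TT p a w0 wc
  · exact le_iSup₂ (f := fun i (_ : i ∈ TT p a w0 wc) =>
      (R k (colB p N) (S - ind (kB p a w0 wc i))).map (LinearMap.mulLeft k (f i))) i hi
  · rcases i with q | r
    · exact absurd ((mem_TT _).2 ⟨q, rfl⟩) hi
    · rw [R_neg, Submodule.map_bot]
      · exact bot_le
      · intro h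
        have h1 := h (CC.c r.1.1 r.1.2)
        have h2 := hS r.1.1 r.1.2
        have h3 : ind (kB p a w0 wc (Sum.inr r)) (CC.c r.1.1 r.1.2) = 1 := by
          simp [ind, kB]
        simp only [Pi.zero_apply, Pi.sub_apply, h3] at h1
        omega

lemma card_colB_c (P : Finset (Fin p)) (x : Fin p) :
    Nat.card {v : VB p N // colB p N v = CC.c P x} = N := by
  have e : {v : VB p N // colB p N v = CC.c P x} ≃ Fin N :=
    { toFun := fun v => v.1.2
      invFun := fun j => ⟨(some (Sum.inr (P, x)), j), rfl⟩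
      left_inv := by
        rintro ⟨⟨(_ | (y | q)), j⟩, h⟩
        · exact absurd h (by simp [colB])
        · exact absurd h (by simp [colB])
        · simp only [colB, CC.c.injEq] at h
          obtain ⟨h1, h2⟩ := h
          have : q = (P, x) := Prod.ext h1 h2
          subst this
          rfl
      right_inv := fun j => rfl }
  rw [Nat.card_congr e, Nat.card_eq_fintype_card, Fintype.card_fin]

lemma card_colB_z : Nat.card {v : VB p N // colB p N v = CC.z} = N := by
  have e : {v : VB p N // colB p N v = CC.z} ≃ Fin N :=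
    { toFun := fun v => v.1.2
      invFun := fun j => ⟨(none, j), rfl⟩
      left_inv := by
        rintro ⟨⟨(_ | (y | q)), j⟩, h⟩
        · rfl
        · exact absurd h (by simp [colB])
        · exact absurd h (by simp [colB])
      right_inv := fun j => rfl }
  rw [Nat.card_congr e, Nat.card_eq_fintype_card, Fintype.card_fin]

/-! ### multidegrees -/

lemma ind_pat (P : Finset (Fin p)) (b : Finset (CC p)) (hb : b = ∅ ∨ b = {CC.z}) :
    ind (pat p P b) = ind (P.image CC.o) + ind b := by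
  funext k
  simp only [ind, pat, Pi.add_apply, Finset.mem_union]
  rcases hb with rfl | rfl
  · simp
  · by_cases h1 : k ∈ P.image CC.o
    · have h2 : k ≠ CC.z := by
        rintro rfl
        simp at h1
      simp [h1, h2]
    · simp [h1]

lemma ind_insert' {ι : Type} [DecidableEq ι] (x : ι) (P : Finset ι) (hx : x ∉ P) :
    ind (insert x P) = ind P + Pi.single x 1 := by
  funext k
  simp only [ind, Pi.add_apply, Finset.mem_insert]
  by_cases h : k = x
  · subst h
    simp [hx]
  · simp [h]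

lemma ind_pair {ι : Type} [DecidableEq ι] {x z : ι} (h : x ≠ z) :
    ind ({x, z} : Finset ι) = Pi.single x 1 + Pi.single z 1 := by
  rw [ind_insert' x {z} (by simpa using h)]
  have : ind ({z} : Finset ι) = Pi.single z 1 := by
    funext k
    simp only [ind, Finset.mem_singleton, Pi.single_apply]
  rw [this, add_comm]

lemma ind_singleton' {ι : Type} [DecidableEq ι] (z : ι) :
    ind ({z} : Finset ι) = Pi.single z 1 := by
  funext k
  simp only [ind, Finset.mem_singleton, Pi.single_apply]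

lemma ind_sdiff {ι : Type} [DecidableEq ι] {J P : Finset ι} (h : J ⊆ P) :
    ind (P \ J) = ind P - ind J := by
  funext k
  simp only [ind, Pi.sub_apply, Finset.mem_sdiff]
  by_cases h1 : k ∈ J
  · simp [h1, h h1]
  · by_cases h2 : k ∈ P
    · simp [h1, h2]
    · simp [h1, h2]

lemma pat_c (P : Finset (Fin p)) (b : Finset (CC p)) (hb : b = ∅ ∨ b = {CC.z})
    (P' : Finset (Fin p)) (x : Fin p) : ind (pat p P b) (CC.c P' x) = 0 := by
  rcases hb with rfl | rfl <;> simp [ind, pat]

/-- `P ⊆ univ.image o` is an image -/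
lemma exists_image (P : Finset (CC p)) (h : P ⊆ Finset.univ.image CC.o) :
    ∃ P' : Finset (Fin p), P = P'.image CC.o := by
  refine ⟨Finset.univ.filter (fun x => CC.o x ∈ P), ?_⟩
  ext k
  simp only [Finset.mem_image, Finset.mem_filter, Finset.mem_univ, true_and]
  constructor
  · intro hk
    obtain ⟨x, _, rfl⟩ := Finset.mem_image.1 (h hk)
    exact ⟨x, hk, rfl⟩
  · rintro ⟨x, hx, rfl⟩
    exact hx

lemma o_inj : Function.Injective (CC.o : Fin p → CC p) := fun _ _ h => CC.o.inj h

end base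

/-! ### the expansion step -/

section step

variable {p a w0 N : ℕ} {wc : ℕ → ℕ} {k : Type} [Field k]

lemma step (hD1 : SpecD1) (hEXPN : SpecEXPN) (ha : 2 ≤ a) (f : TB p a w0 wc → MvPolynomial (VB p N) k)
    (hf : ∀ i, f i ∈ R k (colB p N) (ind (kB p a w0 wc i)))
    (hex : ∀ (P : Finset (Fin p)) (x : Fin p), x ∈ P →
      Ex (colB p N) (fun i => ind (kB p a w0 wc i)) f Finset.univ
        (ind (pat p P {CC.c P x, CC.z})))
    (P : Finset (Fin p)) (x : Fin p) (hx : x ∉ P) (b : Finset (CC p)) (hb : b = ∅ ∨ b = {CC.z})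
    (U : Submodule k (MvPolynomial (VB p N) k))
    (hU1 : Id (colB p N) (fun i => ind (kB p a w0 wc i)) f (TT p a w0 wc) (ind (pat p P b)) ≤ U)
    (hU2 : U ≤ R k (colB p N) (ind (pat p P b))) :
    (wc (P.card + 1) : ℤ) * ((Module.finrank k U : ℤ) -
      (Module.finrank k (Id (colB p N) (fun i => ind (kB p a w0 wc i)) f (TT p a w0 wc)
        (ind (pat p P b))) : ℤ)) ≤
      (N : ℤ) * ((Module.finrank k (R k (colB p N) (Pi.single (CC.o x) 1) * U ⊔
          Id (colB p N) (fun i => ind (kB p a w0 wc i)) f (TT p a w0 wc)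
            (ind (pat p P b) + Pi.single (CC.o x) 1) : Submodule k (MvPolynomial (VB p N) k)) : ℤ) -
        (Module.finrank k (Id (colB p N) (fun i => ind (kB p a w0 wc i)) f (TT p a w0 wc)
          (ind (pat p P b) + Pi.single (CC.o x) 1)) : ℤ)) := by
  classical
  have hx1 : x ∈ insert x P := Finset.mem_insert_self x P
  have key := hEXPN k (VB p N) (CC p) (TB p a w0 wc) (colB p N) (fun i => ind (kB p a w0 wc i)) f
    (TT p a w0 wc) (HH p a w0 wc (insert x P, x)) (ind (pat p P b)) (CC.o x)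
    (CC.c (insert x P) x) ?_ (sy ha f hf _) (by simp) (pat_c P b hb _ _) ?_ ?_ ?_ U hU1 hU2
  · rw [card_colB_c, card_HH (insert x P, x) hx1] at key
    simp only [Finset.card_insert_of_notMem hx] at key
    exact key
  · rw [Finset.disjoint_left]
    intro i hi hi2
    obtain ⟨q, rfl⟩ := (mem_TT _).1 hi
    obtain ⟨j, hj⟩ := (mem_HH _ _).1 hi2
    exact absurd hj (by simp)
  · intro i hi
    obtain ⟨q, rfl⟩ := (mem_TT _).1 hi
    simp [ind, kB]
  · intro i hi
    obtain ⟨j, rfl⟩ := (mem_HH _ _).1 hi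
    simp only [kB]
    exact ind_pair (by simp)
  · have h1 := (hD1 k (VB p N) (CC p) (TB p a w0 wc) (colB p N) (fun i => ind (kB p a w0 wc i)) f
      Finset.univ (ind (pat p (insert x P) {CC.c (insert x P) x, CC.z})) (sy ha f hf _)
      (hex (insert x P) x hx1)).1 (TT p a w0 wc ∪ HH p a w0 wc (insert x P, x))
      (Finset.subset_univ _)
    refine Ex_mono _ _ _ _ ?_ (fun S' hS' => (h1 S' hS').le)
    rw [ind_pat P b hb]
    intro c
    rcases c with y | ⟨P', y⟩ | _ | _
    · have hb0 : ind b (CC.o y) = 0 := by rcases hb with rfl | rfl <;> simp [ind]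
      simp only [Pi.add_apply, hb0]
      by_cases hy : y = x
      · subst hy
        simp [ind, pat, hx]
      · simp [ind, pat, hy, Pi.single_apply]
    · have hb0 : ind b (CC.c P' y) = 0 := by rcases hb with rfl | rfl <;> simp [ind]
      simp only [Pi.add_apply, hb0]
      by_cases h : P' = insert x P ∧ y = x
      · obtain ⟨rfl, rfl⟩ := h
        simp [ind, pat]
      · have h' : ¬ (CC.c P' y = CC.c (insert x P) x) := by
          intro h2
          exact h ⟨(CC.c.inj h2).1, (CC.c.inj h2).2⟩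
        have h0 : 0 ≤ ind (pat p (insert x P) {CC.c (insert x P) x, CC.z}) (CC.c P' y) :=
          ind_nonneg _ _
        simpa [ind, Pi.single_apply, h'] using h0
    · have hb0 : ind b (CC.z : CC p) ≤ 1 := by
        simp only [ind]; split_ifs <;> simp
      have h1 : ind (pat p (insert x P) {CC.c (insert x P) x, CC.z}) (CC.z : CC p) = 1 := by
        simp [ind, pat]
      have h2 : ind (P.image CC.o) (CC.z : CC p) = 0 := by simp [ind]
      simp only [Pi.add_apply, h1, h2]
      simpa [Pi.single_apply] using hb0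
    · have hb0 : ind b (CC.y : CC p) = 0 := by rcases hb with rfl | rfl <;> simp [ind]
      have h2 : ind (P.image CC.o) (CC.y : CC p) = 0 := by simp [ind]
      have h0 : 0 ≤ ind (pat p (insert x P) {CC.c (insert x P) x, CC.z}) (CC.y : CC p) :=
        ind_nonneg _ _
      simp only [Pi.add_apply, hb0, h2]
      simpa [Pi.single_apply] using h0

/-- the iterated expansion -/
lemma chain (hD1 : SpecD1) (hEXPN : SpecEXPN) (hCHAIN : SpecCHAIN) (ha : 2 ≤ a) (hN : 1 ≤ N)
    (f : TB p a w0 wc → MvPolynomial (VB p N) k)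
    (hf : ∀ i, f i ∈ R k (colB p N) (ind (kB p a w0 wc i)))
    (hex : ∀ (P : Finset (Fin p)) (x : Fin p), x ∈ P →
      Ex (colB p N) (fun i => ind (kB p a w0 wc i)) f Finset.univ
        (ind (pat p P {CC.c P x, CC.z})))
    (b : Finset (CC p)) (hb : b = ∅ ∨ b = {CC.z})
    (J P : Finset (CC p)) (hJP : Disjoint J P) (hsub : J ∪ P ⊆ Finset.univ.image CC.o)
    (U Z : Submodule k (MvPolynomial (VB p N) k))
    (hU1 : Id (colB p N) (fun i => ind (kB p a w0 wc i)) f (TT p a w0 wc) (ind P + ind b) ≤ U)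
    (hU2 : U ≤ R k (colB p N) (ind P + ind b))
    (hZ1 : Id (colB p N) (fun i => ind (kB p a w0 wc i)) f (TT p a w0 wc)
      (ind (P ∪ J) + ind b) ≤ Z)
    (hZ2 : Z ≤ R k (colB p N) (ind (P ∪ J) + ind b))
    (hJU : R k (colB p N) (ind J) * U ≤ Z) :
    (∏ i ∈ Finset.range J.card, ((wc (P.card + i + 1) : ℝ) / N)) *
      ((Module.finrank k U : ℝ) - (Module.finrank k (Id (colB p N)
        (fun i => ind (kB p a w0 wc i)) f (TT p a w0 wc) (ind P + ind b)) : ℝ)) ≤
      (Module.finrank k Z : ℝ) - (Module.finrank k (Id (colB p N)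
        (fun i => ind (kB p a w0 wc i)) f (TT p a w0 wc) (ind (P ∪ J) + ind b)) : ℝ) := by
  have hN' : (0 : ℝ) < N := by exact_mod_cast hN
  refine hCHAIN k (VB p N) (CC p) (TB p a w0 wc) (colB p N) (fun i => ind (kB p a w0 wc i)) f
    (TT p a w0 wc) (ind b) (Finset.univ.image CC.o) (fun i => (wc i : ℝ) / N) (fun i _ => hf i)
    (fun j => by positivity) ?_ J P hJP hsub U Z hU1 hU2 hZ1 hZ2 hJU
  intro P x hx hPx U hU1 hU2
  obtain ⟨P', rfl⟩ := exists_image P ((Finset.subset_insert x P).trans hPx)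
  obtain ⟨x', _, rfl⟩ := Finset.mem_image.1 (hPx (Finset.mem_insert_self x _))
  have hx' : x' ∉ P' := fun h => hx (Finset.mem_image_of_mem _ h)
  have e1 : ind (P'.image CC.o) + ind b = ind (pat p P' b) := (ind_pat P' b hb).symm
  have e2 : ind (insert (CC.o x') (P'.image CC.o)) + ind b =
      ind (pat p P' b) + Pi.single (CC.o x') 1 := by
    rw [ind_insert' _ _ hx, ← e1]; abel
  rw [e1] at hU1 hU2 ⊢
  rw [e2, Finset.card_image_of_injective _ o_inj]
  have key := step hD1 hEXPN ha f hf hex P' x' hx' b hb U hU1 hU2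
  have key' : (wc (P'.card + 1) : ℝ) * ((Module.finrank k U : ℝ) -
      (Module.finrank k (Id (colB p N) (fun i => ind (kB p a w0 wc i)) f (TT p a w0 wc)
        (ind (pat p P' b))) : ℝ)) ≤
      (N : ℝ) * ((Module.finrank k (R k (colB p N) (Pi.single (CC.o x') 1) * U ⊔
          Id (colB p N) (fun i => ind (kB p a w0 wc i)) f (TT p a w0 wc)
            (ind (pat p P' b) + Pi.single (CC.o x') 1) :
              Submodule k (MvPolynomial (VB p N) k)) : ℝ) -
        (Module.finrank k (Id (colB p N) (fun i => ind (kB p a w0 wc i)) f (TT p a w0 wc)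
          (ind (pat p P' b) + Pi.single (CC.o x') 1)) : ℝ)) := by exact_mod_cast key
  rw [div_mul_eq_mul_div, div_le_iff₀ hN', mul_comm _ (N : ℝ)]
  exact key'

end step

/-! ### the inequality for one relation -/

section main

variable {p a w0 N : ℕ} {wc : ℕ → ℕ} {k : Type} [Field k]

lemma cln_le (S : CC p → ℤ) (Z : Submodule k (MvPolynomial (VB p N) k)) (J : Finset (CC p)) :
    cln (colB p N) S Z J ≤ R k (colB p N) (S - ind J) := fun _ h => h.1

lemma Id_le_cln (f : TB p a w0 wc → MvPolynomial (VB p N) k)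
    (hf : ∀ i, f i ∈ R k (colB p N) (ind (kB p a w0 wc i))) (T : Finset (TB p a w0 wc))
    (S : CC p → ℤ) (Z : Submodule k (MvPolynomial (VB p N) k))
    (hZ : Id (colB p N) (fun i => ind (kB p a w0 wc i)) f T S ≤ Z) (J : Finset (CC p)) :
    Id (colB p N) (fun i => ind (kB p a w0 wc i)) f T (S - ind J) ≤ cln (colB p N) S Z J := by
  intro g hg
  refine ⟨Id_le_R _ _ _ _ (fun i _ => hf i) _ hg, fun h hh => hZ ?_⟩
  have := mul_mem_Id _ _ _ _ hh hg
  rwa [sub_add_cancel] at this

lemma mul_cln_le (S : CC p → ℤ) (Z : Submodule k (MvPolynomial (VB p N) k))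
    (J : Finset (CC p)) : R k (colB p N) (ind J) * cln (colB p N) S Z J ≤ Z := by
  rw [Submodule.mul_le]
  intro h hh g hg
  exact hg.2 h hh

/-- dimension of `(Z : J)` over the ideal, as an integer -/
noncomputable def xx (f : TB p a w0 wc → MvPolynomial (VB p N) k) (S : CC p → ℤ)
    (Z : Submodule k (MvPolynomial (VB p N) k)) (J : Finset (CC p)) : ℤ :=
  (Module.finrank k (cln (colB p N) S Z J) : ℤ) -
    (Module.finrank k (Id (colB p N) (fun i => ind (kB p a w0 wc i)) f Finset.univ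
      (S - ind J)) : ℤ)

/-- if the multidegree `S - ind J` has a negative component -/
lemma xx_neg (f : TB p a w0 wc → MvPolynomial (VB p N) k)
    (hf : ∀ i, f i ∈ R k (colB p N) (ind (kB p a w0 wc i))) (S : CC p → ℤ)
    (Z : Submodule k (MvPolynomial (VB p N) k)) (J : Finset (CC p)) (h : ¬ 0 ≤ S - ind J) :
    cln (colB p N) S Z J = ⊥ ∧
    Id (colB p N) (fun i => ind (kB p a w0 wc i)) f Finset.univ (S - ind J) = ⊥ := by
  have h1 := cln_le (k := k) S Z J
  have h2 := Id_le_R (colB p N) (fun i => ind (kB p a w0 wc i)) f Finset.univ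
    (fun i _ => hf i) (S - ind J)
  rw [R_neg _ h, le_bot_iff] at h1 h2
  exact ⟨h1, h2⟩

lemma xx_zero (f : TB p a w0 wc → MvPolynomial (VB p N) k)
    (hf : ∀ i, f i ∈ R k (colB p N) (ind (kB p a w0 wc i))) (S : CC p → ℤ)
    (Z : Submodule k (MvPolynomial (VB p N) k)) (J : Finset (CC p)) (h : ¬ 0 ≤ S - ind J) :
    xx f S Z J = 0 := by
  obtain ⟨e1, e2⟩ := xx_neg f hf S Z J h
  rw [xx, e1, e2, sub_self]

/-- the product of the expansion factors -/
noncomputable def pp (N a : ℕ) (wc : ℕ → ℕ) (j : ℕ) : ℝ :=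
  ∏ i ∈ Finset.range (a - 1), ((wc (j - i) : ℝ) / N)

lemma pp_pos (hN : 1 ≤ N) (hwc : ∀ i, 1 ≤ i → i ≤ p → 1 ≤ wc i) (j : ℕ) (hj : j ≤ p)
    (haj : a - 1 ≤ j) : 0 < pp N a wc j := by
  refine Finset.prod_pos (fun i hi => ?_)
  have hi' := Finset.mem_range.1 hi
  have h1 : 1 ≤ wc (j - i) := hwc _ (by omega) (by omega)
  have h2 : (0 : ℝ) < wc (j - i) := by exact_mod_cast h1
  have h3 : (0 : ℝ) < N := by exact_mod_cast hN
  positivity

lemma case_o (hD1 : SpecD1) (hEXPN : SpecEXPN) (hCHAIN : SpecCHAIN) (ha : 2 ≤ a) (hN : 1 ≤ N)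
    (f : TB p a w0 wc → MvPolynomial (VB p N) k)
    (hf : ∀ i, f i ∈ R k (colB p N) (ind (kB p a w0 wc i)))
    (hex : ∀ (P : Finset (Fin p)) (x : Fin p), x ∈ P →
      Ex (colB p N) (fun i => ind (kB p a w0 wc i)) f Finset.univ
        (ind (pat p P {CC.c P x, CC.z})))
    (b : Finset (CC p)) (hb : b = ∅ ∨ b = {CC.z}) (P : Finset (Fin p)) (J : Finset (CC p))
    (hJ : J ⊆ P.image CC.o) (hJc : J.card = a - 1)
    (Z : Submodule k (MvPolynomial (VB p N) k))
    (hZ1 : Id (colB p N) (fun i => ind (kB p a w0 wc i)) f Finset.univ (ind (pat p P b)) ≤ Z)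
    (hZ2 : Z ≤ R k (colB p N) (ind (pat p P b))) :
    pp N a wc P.card * (xx f (ind (pat p P b)) Z J : ℝ) ≤
      (Module.finrank k Z : ℝ) - (Module.finrank k (Id (colB p N)
        (fun i => ind (kB p a w0 wc i)) f Finset.univ (ind (pat p P b))) : ℝ) := by
  have hcP : (P.image CC.o : Finset (CC p)).card = P.card := Finset.card_image_of_injective _ o_inj
  have hle : a - 1 ≤ P.card := by rw [← hJc, ← hcP]; exact Finset.card_le_card hJ
  have hun : (P.image CC.o \ J) ∪ J = P.image CC.o := Finset.sdiff_union_of_subset hJ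
  have e0 : ind (P.image CC.o \ J) + ind b = ind (pat p P b) - ind J := by
    rw [ind_sdiff hJ, ind_pat P b hb]; abel
  have eS : ind ((P.image CC.o \ J) ∪ J) + ind b = ind (pat p P b) := by
    rw [hun, ind_pat P b hb]
  have hS0 : ∀ P' x, (ind (pat p P b)) (CC.c P' x) ≤ 0 := fun P' x => (pat_c P b hb P' x).le
  have hS1 : ∀ P' x, (ind (pat p P b) - ind J) (CC.c P' x) ≤ 0 := by
    intro P' x
    have h1 := pat_c P b hb P' x
    have h2 := ind_nonneg J (CC.c P' x)
    simp only [Pi.sub_apply, Pi.zero_apply] at h2 ⊢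
    omega
  have eI0 := Id_eq f _ hS0
  have eI1 := Id_eq f _ hS1
  have key := chain hD1 hEXPN hCHAIN ha hN f hf hex b hb J (P.image CC.o \ J)
    Finset.disjoint_sdiff (by
      rw [Finset.union_comm, hun]
      exact Finset.image_subset_image (Finset.subset_univ _))
    (cln (colB p N) (ind (pat p P b)) Z J) Z
    (by rw [e0, ← eI1]; exact Id_le_cln f hf _ _ _ hZ1 J)
    (by rw [e0]; exact cln_le _ _ _)
    (by rw [eS, ← eI0]; exact hZ1) (by rw [eS]; exact hZ2) (mul_cln_le _ _ _)
  rw [e0, eS, ← eI0, ← eI1, hJc] at key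
  have hc : (P.image CC.o \ J).card = P.card - (a - 1) := by
    rw [Finset.card_sdiff_of_subset hJ, hJc, hcP]
  have hp : pp N a wc P.card = ∏ i ∈ Finset.range (a - 1),
      ((wc ((P.image CC.o \ J).card + i + 1) : ℝ) / N) := by
    rw [pp, ← Finset.prod_range_reflect]
    refine Finset.prod_congr rfl (fun i hi => ?_)
    have hi' := Finset.mem_range.1 hi
    rw [hc]
    congr 3
    omega
  rw [hp]
  simp only [xx]
  push_cast
  exact key

lemma case_z (hISO : SpecISO) (ha : 2 ≤ a)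
    (f : TB p a w0 wc → MvPolynomial (VB p N) k)
    (hf : ∀ i, f i ∈ R k (colB p N) (ind (kB p a w0 wc i)))
    (P : Finset (Fin p))
    (Z : Submodule k (MvPolynomial (VB p N) k))
    (hZ2 : Z ≤ R k (colB p N) (ind (pat p P {CC.z}))) :
    (N : ℤ) * xx f (ind (pat p P {CC.z})) Z {CC.z} ≤
      (Module.finrank k Z : ℤ) - (Module.finrank k (Id (colB p N)
        (fun i => ind (kB p a w0 wc i)) f Finset.univ (ind (pat p P {CC.z}))) : ℤ) := by
  have hb : ({CC.z} : Finset (CC p)) = ∅ ∨ ({CC.z} : Finset (CC p)) = {CC.z} := Or.inr rfl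
  have e1 : ind (pat p P {CC.z}) = ind (P.image CC.o) + Pi.single CC.z 1 := by
    rw [ind_pat P _ hb, ind_singleton']
  have e2 : ind (pat p P {CC.z}) - ind {CC.z} = ind (P.image CC.o) := by
    rw [ind_pat P _ hb]; abel
  have hS0 : ∀ P' x, (ind (pat p P {CC.z})) (CC.c P' x) ≤ 0 :=
    fun P' x => (pat_c P _ hb P' x).le
  have hS1 : ∀ P' x, (ind (P.image CC.o) : CC p → ℤ) (CC.c P' x) ≤ 0 := by
    intro P' x
    simp [ind]
  have hz0 : (ind (P.image CC.o) : CC p → ℤ) CC.z = 0 := by simp [ind]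
  obtain ⟨i1, i2, _⟩ := hISO k (VB p N) (CC p) (TB p a w0 wc) (colB p N)
    (fun i => ind (kB p a w0 wc i)) f (TT p a w0 wc) (ind (P.image CC.o)) CC.z hz0 (by
      intro i hi
      obtain ⟨q, rfl⟩ := (mem_TT _).1 hi
      simp [ind, kB])
  rw [card_colB_z] at i1
  have hcl : cln (colB p N) (ind (pat p P {CC.z})) Z {CC.z} ≤
      R k (colB p N) (ind (P.image CC.o)) := by
    have := cln_le (k := k) (ind (pat p P {CC.z})) Z {CC.z}
    rwa [e2] at this
  have h1 := i1 _ hcl
  have h2 := i1 _ (Id_le_R (colB p N) (fun i => ind (kB p a w0 wc i)) f (TT p a w0 wc)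
    (fun i _ => hf i) (ind (P.image CC.o)))
  rw [← i2, ← e1] at h2
  have h3 : R k (colB p N) (Pi.single CC.z 1) * cln (colB p N) (ind (pat p P {CC.z})) Z {CC.z} ≤
      Z := by
    rw [← ind_singleton']
    exact mul_cln_le _ _ _
  have hZf : Module.Finite k Z := Submodule.finiteDimensional_of_le hZ2
  have h4 := Submodule.finrank_mono h3
  rw [h1] at h4
  simp only [xx]
  rw [e2, Id_eq f _ hS0, Id_eq f _ hS1, h2]
  have h4' : (N : ℤ) * (Module.finrank k (cln (colB p N) (ind (pat p P {CC.z})) Z {CC.z}) : ℤ) ≤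
      (Module.finrank k Z : ℤ) := by exact_mod_cast h4
  push_cast
  linarith

/-- the relations of the step with `uu > 0` -/
lemma uu_cases {u uz : ℕ} (ha : 2 ≤ a) (J : Finset (CC p)) :
    (J ⊆ Finset.univ.image CC.o ∧ J.card = a - 1 ∧ uu p a u uz J = u) ∨
    (J = {CC.z} ∧ uu p a u uz J = uz) ∨ uu p a u uz J = 0 := by
  by_cases h1 : J ⊆ Finset.univ.image CC.o ∧ J.card = a - 1
  · exact Or.inl ⟨h1.1, h1.2, by rw [uu, if_pos h1]⟩
  · by_cases h2 : J = {CC.z}
    · exact Or.inr (Or.inl ⟨h2, by rw [uu, if_neg h1, if_pos h2]⟩)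
    · exact Or.inr (Or.inr (by rw [uu, if_neg h1, if_neg h2]))

/-- an ordinary `J` not contained in `P` -/
lemma not_nonneg_o (P : Finset (Fin p)) (b : Finset (CC p)) (hb : b = ∅ ∨ b = {CC.z})
    (J : Finset (CC p)) (hJ : J ⊆ Finset.univ.image CC.o) (hJP : ¬ J ⊆ P.image CC.o) :
    ¬ 0 ≤ ind (pat p P b) - ind J := by
  obtain ⟨c, hc, hcP⟩ := Finset.not_subset.1 hJP
  obtain ⟨x, _, rfl⟩ := Finset.mem_image.1 (hJ hc)
  intro h
  have h1 := h (CC.o x)
  have h2 : ind J (CC.o x) = 1 := by simp [ind, hc]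
  have h3 : ind (pat p P b) (CC.o x) = 0 := by
    have : CC.o x ∉ pat p P b := by
      simp only [pat, Finset.mem_union, not_or]
      refine ⟨hcP, ?_⟩
      rcases hb with rfl | rfl <;> simp
    simp [ind, this]
  simp only [Pi.zero_apply, Pi.sub_apply, h2, h3] at h1
  omega

lemma not_nonneg_z (P : Finset (Fin p)) : ¬ 0 ≤ ind (pat p P ∅) - ind {CC.z} := by
  intro h
  have h1 := h CC.z
  simp [ind, pat] at h1

lemma eq_of_xx (f : TB p a w0 wc → MvPolynomial (VB p N) k)
    (hf : ∀ i, f i ∈ R k (colB p N) (ind (kB p a w0 wc i))) (S : CC p → ℤ)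
    (Z : Submodule k (MvPolynomial (VB p N) k))
    (hZ : Id (colB p N) (fun i => ind (kB p a w0 wc i)) f Finset.univ S ≤ Z) (J : Finset (CC p))
    (h : xx f S Z J ≤ 0) : cln (colB p N) S Z J =
      Id (colB p N) (fun i => ind (kB p a w0 wc i)) f Finset.univ (S - ind J) := by
  have hfin : Module.Finite k (cln (colB p N) S Z J) :=
    Submodule.finiteDimensional_of_le (cln_le S Z J)
  refine (Submodule.eq_of_le_of_finrank_le (Id_le_cln f hf _ S Z hZ J) ?_).symm
  simp only [xx] at h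
  omega

lemma xx_nonneg (f : TB p a w0 wc → MvPolynomial (VB p N) k)
    (hf : ∀ i, f i ∈ R k (colB p N) (ind (kB p a w0 wc i))) (S : CC p → ℤ)
    (Z : Submodule k (MvPolynomial (VB p N) k))
    (hZ : Id (colB p N) (fun i => ind (kB p a w0 wc i)) f Finset.univ S ≤ Z) (J : Finset (CC p)) :
    0 ≤ xx f S Z J := by
  have hfin : Module.Finite k (cln (colB p N) S Z J) :=
    Submodule.finiteDimensional_of_le (cln_le S Z J)
  have := Submodule.finrank_mono (Id_le_cln f hf _ S Z hZ J)
  simp only [xx]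
  omega

end main

end FrD.SA0M

namespace FrD.SA0M

open MvPolynomial

theorem specSA0 (hD1 : SpecD1) (hISO : SpecISO) (hEXPN : SpecEXPN) (hCHAIN : SpecCHAIN) :
    SpecSA0 := by
  intro k _ p a N w0 u uz wc ha hN hwc huz hnum f hf hex P b hb
  have hN' : (0 : ℝ) < N := by exact_mod_cast hN
  have hcP : P.card ≤ p := by simpa using Finset.card_le_univ P
  refine ⟨?_, ?_⟩
  · -- the first claim
    intro J hJ
    have hZ2 := Id_le_R (colB p N) (fun i => ind (kB p a w0 wc i)) f Finset.univ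
      (fun i _ => hf i) (ind (pat p P b))
    rcases uu_cases (u := u) (uz := uz) ha J with ⟨h1, h2, _⟩ | ⟨h1, _⟩ | h1
    · by_cases hJP : J ⊆ P.image CC.o
      · refine eq_of_xx f hf _ _ le_rfl J ?_
        have key := case_o hD1 hEXPN hCHAIN ha hN f hf hex b hb P J hJP h2 _ le_rfl hZ2
        rw [sub_self] at key
        have hle : a - 1 ≤ P.card := by
          rw [← h2, ← Finset.card_image_of_injective P o_inj]
          exact Finset.card_le_card hJP
        have hpos := pp_pos (a := a) (wc := wc) hN hwc P.card hcP hle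
        by_contra hcon
        push Not at hcon
        have h3 : (0 : ℝ) < (xx f (ind (pat p P b)) (Id (colB p N)
          (fun i => ind (kB p a w0 wc i)) f Finset.univ (ind (pat p P b))) J : ℝ) := by
          exact_mod_cast hcon
        exact absurd key (not_le.2 (mul_pos hpos h3))
      · obtain ⟨e1, e2⟩ := xx_neg f hf (ind (pat p P b)) (Id (colB p N)
          (fun i => ind (kB p a w0 wc i)) f Finset.univ (ind (pat p P b))) J
          (not_nonneg_o P b hb J h1 hJP)
        rw [e1, e2]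
    · subst h1
      rcases hb with rfl | rfl
      · obtain ⟨e1, e2⟩ := xx_neg f hf (ind (pat p P ∅)) (Id (colB p N)
          (fun i => ind (kB p a w0 wc i)) f Finset.univ (ind (pat p P ∅))) {CC.z}
          (not_nonneg_z P)
        rw [e1, e2]
      · refine eq_of_xx f hf _ _ le_rfl _ ?_
        have key := case_z hISO ha f hf P _ hZ2
        rw [sub_self] at key
        by_contra hcon
        push Not at hcon
        have h3 : (0 : ℤ) < N := by exact_mod_cast hN
        exact absurd key (not_le.2 (mul_pos h3 hcon))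
    · omega
  · -- the inequality
    intro Z hZ1 hZ2 hne
    have hZf : Module.Finite k Z := Submodule.finiteDimensional_of_le hZ2
    have hD : (0 : ℝ) < (Module.finrank k Z : ℝ) - (Module.finrank k (Id (colB p N)
        (fun i => ind (kB p a w0 wc i)) f Finset.univ (ind (pat p P b))) : ℝ) := by
      have h1 := Submodule.finrank_lt_finrank_of_lt (lt_of_le_of_ne hZ1 (Ne.symm hne))
      have h2 : ((Module.finrank k (Id (colB p N)
        (fun i => ind (kB p a w0 wc i)) f Finset.univ (ind (pat p P b))) : ℕ) : ℝ) <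
          (Module.finrank k Z : ℝ) := by exact_mod_cast h1
      linarith
    set D : ℝ := (Module.finrank k Z : ℝ) - (Module.finrank k (Id (colB p N)
        (fun i => ind (kB p a w0 wc i)) f Finset.univ (ind (pat p P b))) : ℝ) with hDdef
    change ∑ J, (uu p a u uz J : ℤ) * xx f (ind (pat p P b)) Z J < _
    -- the sum
    have hz : (CC.z : CC p) ∉ (P.image CC.o : Finset (CC p)) := by simp
    have hsum : ∑ J, (uu p a u uz J : ℤ) * xx f (ind (pat p P b)) Z J =
        ∑ J ∈ (P.image CC.o).powersetCard (a - 1), (u : ℤ) * xx f (ind (pat p P b)) Z J +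
          (uz : ℤ) * xx f (ind (pat p P b)) Z {CC.z} := by
      have hnot : ({CC.z} : Finset (CC p)) ∉ (P.image CC.o).powersetCard (a - 1) := by
        intro h
        have := (Finset.mem_powersetCard.1 h).1
        exact hz (this (Finset.mem_singleton_self _))
      have hu : ∀ J ∈ (P.image CC.o).powersetCard (a - 1), uu p a u uz J = u := by
        intro J hJ
        obtain ⟨h1, h2⟩ := Finset.mem_powersetCard.1 hJ
        rw [uu, if_pos ⟨h1.trans (Finset.image_subset_image (Finset.subset_univ _)), h2⟩]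
      have huz' : uu p a u uz {CC.z} = uz := by
        rw [uu, if_neg, if_pos rfl]
        rintro ⟨h1, _⟩
        have := h1 (Finset.mem_singleton_self _)
        simp at this
      rw [← Finset.sum_subset (Finset.subset_univ
        (insert {CC.z} ((P.image CC.o).powersetCard (a - 1)))), Finset.sum_insert hnot, add_comm,
        huz']
      · congr 1
        exact Finset.sum_congr rfl (fun J hJ => by rw [hu J hJ])
      · intro J _ hJ
        rw [Finset.mem_insert, not_or] at hJ
        rcases uu_cases (u := u) (uz := uz) ha J with ⟨h1, h2, _⟩ | ⟨h1, _⟩ | h1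
        · have h3 : ¬ J ⊆ P.image CC.o := fun h => hJ.2 (Finset.mem_powersetCard.2 ⟨h, h2⟩)
          rw [xx_zero f hf (ind (pat p P b)) Z J (not_nonneg_o P b hb J h1 h3), mul_zero]
        · exact absurd h1 hJ.1
        · simp [h1]
    -- the term of `z`
    have hzt : ((uz : ℤ) * xx f (ind (pat p P b)) Z {CC.z} : ℤ) * (1 : ℝ) ≤ (uz : ℝ) / N * D := by
      rcases hb with rfl | rfl
      · rw [xx_zero f hf (ind (pat p P ∅)) Z {CC.z} (not_nonneg_z P)]
        have : 0 ≤ (uz : ℝ) / N * D := by positivity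
        simpa using this
      · have key := case_z hISO ha f hf P Z hZ2
        have key' : (N : ℝ) * (xx f (ind (pat p P {CC.z})) Z {CC.z} : ℝ) ≤ D := by
          rw [hDdef]; exact_mod_cast key
        have h1 : (xx f (ind (pat p P {CC.z})) Z {CC.z} : ℝ) ≤ D / N := by
          rw [le_div_iff₀ hN', mul_comm]; exact key'
        push_cast
        calc (uz : ℝ) * (xx f (ind (pat p P {CC.z})) Z {CC.z} : ℝ) * 1
            ≤ (uz : ℝ) * (D / N) := by
              rw [mul_one]; exact mul_le_mul_of_nonneg_left h1 (by positivity)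
          _ = (uz : ℝ) / N * D := by ring
    have hgoal : ((∑ J ∈ (P.image CC.o).powersetCard (a - 1),
        (u : ℤ) * xx f (ind (pat p P b)) Z J +
          (uz : ℤ) * xx f (ind (pat p P b)) Z {CC.z} : ℤ) : ℝ) < D := by
      rw [mul_one] at hzt
      rw [Int.cast_add]
      by_cases haj : a - 1 ≤ P.card
      · have hpos := pp_pos (a := a) (wc := wc) hN hwc P.card hcP haj
        have h1 : ((∑ J ∈ (P.image CC.o).powersetCard (a - 1),
            (u : ℤ) * xx f (ind (pat p P b)) Z J : ℤ) : ℝ) ≤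
            (P.card.choose (a - 1) : ℝ) * u / pp N a wc P.card * D := by
          push_cast
          calc ∑ J ∈ (P.image CC.o).powersetCard (a - 1),
              (u : ℝ) * (xx f (ind (pat p P b)) Z J : ℝ)
              ≤ ∑ _J ∈ (P.image CC.o).powersetCard (a - 1), (u : ℝ) * (D / pp N a wc P.card) := by
                refine Finset.sum_le_sum (fun J hJ => ?_)
                obtain ⟨h1, h2⟩ := Finset.mem_powersetCard.1 hJ
                refine mul_le_mul_of_nonneg_left ?_ (by positivity)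
                rw [le_div_iff₀ hpos, mul_comm]
                exact case_o hD1 hEXPN hCHAIN ha hN f hf hex b hb P J h1 h2 Z hZ1 hZ2
            _ = (P.card.choose (a - 1) : ℝ) * u / pp N a wc P.card * D := by
                rw [Finset.sum_const, Finset.card_powersetCard,
                  Finset.card_image_of_injective _ o_inj, nsmul_eq_mul]
                ring
        have h2 := hnum P.card hcP haj
        have h3 : ((P.card.choose (a - 1) : ℝ) * u / pp N a wc P.card + (uz : ℝ) / N) * D <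
            1 * D := mul_lt_mul_of_pos_right h2 hD
        rw [add_mul, one_mul] at h3
        linarith
      · have h0 : (P.image CC.o).powersetCard (a - 1) = ∅ := by
          apply Finset.powersetCard_eq_empty.2
          rw [Finset.card_image_of_injective _ o_inj]
          omega
        rw [h0, Finset.sum_empty, Int.cast_zero, zero_add]
        have h1 : (uz : ℝ) / N < 1 := by
          rw [div_lt_one hN']; exact_mod_cast huz
        have h3 : (uz : ℝ) / N * D < 1 * D := mul_lt_mul_of_pos_right h1 hD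
        rw [one_mul] at h3
        linarith
    rw [hsum]
    rw [hDdef] at hgoal
    exact_mod_cast hgoal

end FrD.SA0M
end

section
set_option autoImplicit false

/-!
# MP_921642_ag, FD: module SAA (helper72)
-/

namespace FrD.SAAM

open MvPolynomial

lemma colB_ne (p N : ℕ) (v : VB p N) : colB p N v ≠ CC.y := by
  rcases v with ⟨_ | x | q, n⟩ <;> simp [colB]

lemma y_notMem_kB (p a w0 : ℕ) (wc : ℕ → ℕ) (i : TB p a w0 wc) : CC.y ∉ kB p a w0 wc i := by
  rcases i with q | q <;> simp [kB]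

lemma kB_nonempty (p a w0 : ℕ) (wc : ℕ → ℕ) (ha : 2 ≤ a) (i : TB p a w0 wc) :
    (kB p a w0 wc i).Nonempty := by
  rcases i with q | q
  · have h : q.1.1.Nonempty := by
      rw [← Finset.card_pos, q.1.2]; omega
    exact h.image _
  · exact ⟨_, Finset.mem_insert_self _ _⟩

lemma y_notMem_pat (p : ℕ) (P : Finset (Fin p)) (b : Finset (CC p)) (hb : b = ∅ ∨ b = {CC.z}) :
    CC.y ∉ pat p P b := by
  rcases hb with rfl | rfl <;> simp [pat]

lemma ind_pat_le (p : ℕ) (P : Finset (Fin p)) (b : Finset (CC p)) (hb : b = ∅ ∨ b = {CC.z}) :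
    ind (pat p P b) ≤ ind (pat p Finset.univ {CC.z}) := by
  have hsub : pat p P b ⊆ pat p Finset.univ {CC.z} := by
    apply Finset.union_subset_union
    · exact Finset.image_subset_image (Finset.subset_univ _)
    · rcases hb with rfl | rfl
      · exact Finset.empty_subset _
      · exact subset_rfl
  intro k
  simp only [ind]
  by_cases h : k ∈ pat p P b
  · rw [if_pos h, if_pos (hsub h)]
  · rw [if_neg h]
    split_ifs <;> simp

lemma y_notMem_of_uu (p a u uz : ℕ) (J : Finset (CC p)) (h : 0 < uu p a u uz J) : CC.y ∉ J := by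
  unfold uu at h
  split_ifs at h with h1 h2
  · intro hy
    have := h1.1 hy
    simp at this
  · subst h2
    simp
  · exact absurd h (lt_irrefl 0)

theorem specSAA (hD1 : SpecD1) (hSA0 : SpecSA0) (hFMQ : SpecFMQ) (hNREL : SpecNREL) : SpecSAA := by
  intro k _ _ p a N w0 u uz wc ha hN hwc huz hineq f hf hEx hExz P b hb
  obtain ⟨h1, h2⟩ := hSA0 k p a N w0 u uz wc ha hN hwc huz hineq f hf hEx P b hb
  obtain ⟨m0, hm0⟩ := hFMQ k (VB p N) (CC p) (TB p a w0 wc) (colB p N)
    (fun i => ind (kB p a w0 wc i)) f Finset.univ (ind (pat p P b)) (uu p a u uz)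
    (fun i _ => hf i) h1 h2
  refine ⟨m0, fun m hm => ?_⟩
  obtain ⟨φ, hφ, hker⟩ := hm0 m hm
  have hSy : Sy (colB p N) (fun i => ind (kB p a w0 wc i)) f Finset.univ := fun i _ =>
    ⟨hf i, ind_nonneg _, ind_ne_zero (kB_nonempty p a w0 wc ha i)⟩
  have hdq := (hD1 k (VB p N) (CC p) (TB p a w0 wc) (colB p N) (fun i => ind (kB p a w0 wc i)) f
    Finset.univ (ind (pat p Finset.univ {CC.z})) hSy hExz).1 Finset.univ subset_rfl
  have hle := ind_pat_le p P b hb
  exact hNREL k (VB p N) (CC p) (TB p a w0 wc) (RN p a u uz m) (colB p N) (kB p a w0 wc) f CC.y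
    (ind (pat p P b)) m (fun r => r.1) (fun r t => φ r.1 r.2 t) (colB_ne p N)
    (y_notMem_kB p a w0 wc) (kB_nonempty p a w0 wc ha) hf
    (by simp [ind, y_notMem_pat p P b hb])
    (fun r => y_notMem_of_uu p a u uz r.1 (by
      have h := r.2.pos
      exact Nat.pos_of_mul_pos_right h))
    (fun r t => hφ r.1 r.2 t)
    (hdq _ hle)
    (fun r => hdq _ ((sub_le_self _ (ind_nonneg _)).trans hle))
    (fun g hg hsum r => by
      refine hker (fun J j => g ⟨J, j⟩) (fun J j => hg ⟨J, j⟩) (fun t => ?_) r.1 r.2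
      have h := hsum t
      rw [Fintype.sum_sigma] at h
      exact h)

end FrD.SAAM
end
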