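import Pool.Agent.Lib.MP_921642_ag.FD.Spec2

section
/-!
# MP_921642_ag, FD: module BIG
-/
set_option autoImplicit false

namespace FrD.BIGM

open MvPolynomial FrD

lemma subset_of_ind_le {ι : Type} [DecidableEq ι] {J J' : Finset ι} (h : ind J ≤ ind J') :
    J ⊆ J' := by
  intro k hk
  have h1 := h k
  simp only [ind, if_pos hk] at h1
  by_contra hne
  rw [if_neg hne] at h1
  omega

lemma mem_of_ind_pos {ι : Type} [DecidableEq ι] {J : Finset ι} {k : ι} (h : 0 < ind J k) :
    k ∈ J := by
  by_contra hne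
  simp only [ind, if_neg hne] at h
  omega

lemma o_inj (p : ℕ) : Function.Injective (CC.o : Fin p → CC p) := by
  intro x y h
  injection h

lemma card_col (p N : ℕ) (k : CC p) (hk : k ≠ CC.y) :
    N ≤ Nat.card {v : VB p N // colB p N v = k} := by
  have key : ∀ q : Option (Fin p ⊕ (Finset (Fin p) × Fin p)), (∀ n : Fin N, colB p N (q, n) = k) →
      N ≤ Nat.card {v : VB p N // colB p N v = k} := by
    intro q hq
    have h1 : Nat.card (Fin N) ≤ Nat.card {v : VB p N // colB p N v = k} := by
      apply Nat.card_le_card_of_injective (fun n : Fin N => (⟨(q, n), hq n⟩ : {v : VB p N // colB p N v = k}))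
      intro n n' hn
      have := congrArg (fun v => v.1.2) hn
      simpa using this
    simpa using h1
  cases k with
  | o x => exact key (some (Sum.inl x)) (fun n => rfl)
  | c P x => exact key (some (Sum.inr (P, x))) (fun n => rfl)
  | z => exact key none (fun n => rfl)
  | y => exact absurd rfl hk

lemma kB_nonempty (p a w0 : ℕ) (wc : ℕ → ℕ) (ha : 2 ≤ a) (i : TB p a w0 wc) :
    (kB p a w0 wc i).Nonempty := by
  rcases i with q | q
  · obtain ⟨⟨J, hJ⟩, t⟩ := q
    simp only [kB]
    apply Finset.Nonempty.image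
    rw [← Finset.card_pos]
    omega
  · exact ⟨_, Finset.mem_insert_self _ _⟩

lemma c_notMem (p : ℕ) (J : Finset (Fin p)) (P : Finset (Fin p)) (x : Fin p) :
    CC.c P x ∉ J.image CC.o := by
  intro h
  rw [Finset.mem_image] at h
  obtain ⟨y, _, hy⟩ := h
  cases hy

/-- relations over a set of ordinary colours -/
lemma card_inl (p a w0 : ℕ) (wc : ℕ → ℕ) (J' : Finset (Fin p)) (hJ : J'.card = a) :
    Nat.card {i : TB p a w0 wc // kB p a w0 wc i = J'.image CC.o} ≤ w0 := by
  have h1 : Nat.card {i : TB p a w0 wc // kB p a w0 wc i = J'.image CC.o} ≤ Nat.card (Fin w0) := by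
    apply Nat.card_le_card_of_surjective
      (fun t : Fin w0 => (⟨Sum.inl (⟨J', hJ⟩, t), rfl⟩ :
        {i : TB p a w0 wc // kB p a w0 wc i = J'.image CC.o}))
    rintro ⟨i, hi⟩
    rcases i with q | q
    · obtain ⟨⟨J, hJ2⟩, t⟩ := q
      simp only [kB] at hi
      have h2 : J = J' := Finset.image_injective (o_inj p) hi
      subst h2
      exact ⟨t, rfl⟩
    · exfalso
      obtain ⟨⟨P, x⟩, t⟩ := q
      simp only [kB] at hi
      apply c_notMem p J' P x
      rw [← hi]
      simp
  simpa using h1

/-- relations between `x` and `c P x` -/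
lemma card_inr (p a w0 : ℕ) (wc : ℕ → ℕ) (P : Finset (Fin p)) (x : Fin p) (hx : x ∈ P) :
    Nat.card {i : TB p a w0 wc // kB p a w0 wc i = {CC.o x, CC.c P x}} ≤ wc P.card := by
  have h1 : Nat.card {i : TB p a w0 wc // kB p a w0 wc i = {CC.o x, CC.c P x}} ≤
      Nat.card (Fin (if x ∈ P then wc P.card else 0)) := by
    apply Nat.card_le_card_of_surjective
      (fun t : Fin (if x ∈ P then wc P.card else 0) => (⟨Sum.inr ⟨(P, x), t⟩, rfl⟩ :
        {i : TB p a w0 wc // kB p a w0 wc i = {CC.o x, CC.c P x}}))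
    rintro ⟨i, hi⟩
    rcases i with q | q
    · exfalso
      obtain ⟨⟨J, hJ2⟩, t⟩ := q
      simp only [kB] at hi
      apply c_notMem p J P x
      rw [hi]
      simp
    · obtain ⟨⟨P', x'⟩, t⟩ := q
      simp only [kB] at hi
      have h2 : CC.c P' x' ∈ ({CC.o x, CC.c P x} : Finset (CC p)) := by
        rw [← hi]; simp
      simp only [Finset.mem_insert, Finset.mem_singleton, reduceCtorEq, CC.c.injEq, false_or] at h2
      obtain ⟨h3, h4⟩ := h2
      subst h3 h4
      exact ⟨t, rfl⟩
  rw [Nat.card_fin, if_pos hx] at h1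
  exact h1

/-- **BIG**. -/
theorem specBIG (hBIGX : SpecBIGX) (hCOM2 : SpecCOM2) : SpecBIG := by
  classical
  intro p a N w0 wc ha H
  obtain ⟨B1, B2⟩ := hBIGX p a N w0 wc ha H
  let 𝒮 : Finset (CC p → ℤ) :=
    ((Finset.univ : Finset (Finset (Fin p) × Fin p)).filter (fun q => q.2 ∈ q.1)).image
      (fun q => ind (pat p q.1 {CC.c q.1 q.2, CC.z})) ∪ {ind (pat p Finset.univ {CC.z})}
  obtain ⟨f, hf1, hf2⟩ := hCOM2 KK (VB p N) (CC p) (TB p a w0 wc) (colB p N)
    (fun i => ind (kB p a w0 wc i)) 𝒮 (fun i => ind_nonneg _) (by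
      intro S hS
      rw [Finset.mem_union, Finset.mem_image, Finset.mem_singleton] at hS
      rcases hS with ⟨⟨P, x⟩, hq, rfl⟩ | rfl
      · simp only [Finset.mem_filter, Finset.mem_univ, true_and] at hq
        refine B1 P x hq (VB p N) (TB p a w0 wc) (colB p N) (kB p a w0 wc) ?_
          (kB_nonempty p a w0 wc ha) ?_
        · intro k hk
          apply card_col
          rintro rfl
          have h1 := mem_of_ind_pos hk
          simp [pat] at h1
        · intro J hJ
          have hJ' := subset_of_ind_le hJ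
          by_cases hE : IsEmpty {i : TB p a w0 wc // kB p a w0 wc i = J}
          · rw [Nat.card_of_isEmpty]
            exact Nat.zero_le _
          · rw [not_isEmpty_iff] at hE
            obtain ⟨⟨i, hi⟩⟩ := hE
            rcases i with q | q
            · obtain ⟨⟨J0, hJ0⟩, t⟩ := q
              simp only [kB] at hi
              subst hi
              have h2 : J0.image CC.o ⊆ P.image CC.o := by
                intro k hk
                have h3 := hJ' hk
                rw [Finset.mem_image] at hk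
                obtain ⟨y, hy, rfl⟩ := hk
                simpa [pat] using h3
              beta_reduce
              rw [if_pos ⟨h2, by rw [Finset.card_image_of_injective _ (o_inj p)]; exact hJ0⟩]
              exact card_inl p a w0 wc J0 hJ0
            · obtain ⟨⟨P', x'⟩, t⟩ := q
              simp only [kB] at hi
              subst hi
              have h2 : CC.c P' x' ∈ pat p P {CC.c P x, CC.z} := hJ' (by simp)
              simp only [pat, Finset.mem_union, Finset.mem_image, Finset.mem_insert,
                Finset.mem_singleton, reduceCtorEq, and_false, exists_false, CC.c.injEq, false_or,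
                or_false] at h2
              obtain ⟨h3, h4⟩ := h2
              subst h3 h4
              beta_reduce
              rw [if_neg, if_pos rfl]
              · exact card_inr p a w0 wc P' x' hq
              · rintro ⟨h5, _⟩
                exact c_notMem p P' P' x' (h5 (by simp))
      · by_cases hp : 1 ≤ p
        · refine B2 hp (VB p N) (TB p a w0 wc) (colB p N) (kB p a w0 wc) ?_
            (kB_nonempty p a w0 wc ha) ?_
          · intro k hk
            apply card_col
            rintro rfl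
            have h1 := mem_of_ind_pos hk
            simp [pat] at h1
          · intro J hJ
            have hJ' := subset_of_ind_le hJ
            by_cases hE : IsEmpty {i : TB p a w0 wc // kB p a w0 wc i = J}
            · rw [Nat.card_of_isEmpty]
              exact Nat.zero_le _
            · rw [not_isEmpty_iff] at hE
              obtain ⟨⟨i, hi⟩⟩ := hE
              rcases i with q | q
              · obtain ⟨⟨J0, hJ0⟩, t⟩ := q
                simp only [kB] at hi
                subst hi
                beta_reduce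
                rw [if_pos ⟨Finset.image_subset_image (Finset.subset_univ _),
                  by rw [Finset.card_image_of_injective _ (o_inj p)]; exact hJ0⟩]
                exact card_inl p a w0 wc J0 hJ0
              · exfalso
                obtain ⟨⟨P', x'⟩, t⟩ := q
                simp only [kB] at hi
                subst hi
                have h2 : CC.c P' x' ∈ pat p Finset.univ {CC.z} := hJ' (by simp)
                simp [pat] at h2
        · have hp0 : p = 0 := by omega
          subst hp0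
          have hE : IsEmpty (TB 0 a w0 wc) := by
            constructor
            rintro (⟨⟨J, hJ⟩, t⟩ | ⟨⟨P, x⟩, t⟩)
            · have : J = ∅ := by
                ext x; exact x.elim0
              subst this
              simp at hJ
              omega
            · exact x.elim0
          refine ⟨fun _ => 0, fun i => hE.elim i, ?_⟩
          intro S' _
          have hu : (Finset.univ : Finset (TB 0 a w0 wc)) = ∅ := Finset.univ_eq_empty
          rw [hu, dq_empty, E_empty])
  refine ⟨f, hf1, ?_, ?_⟩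
  · intro P x hx
    apply hf2
    apply Finset.mem_union_left
    rw [Finset.mem_image]
    exact ⟨(P, x), by simp [hx], rfl⟩
  · apply hf2
    apply Finset.mem_union_right
    exact Finset.mem_singleton_self _

end FrD.BIGM
end

section
/-!
# MP_921642_ag, FD, module BIGX: the systems for the certificates
-/
set_option autoImplicit false

namespace FrD.BIGXM

open MvPolynomial

lemma exists_g (p j : ℕ) (Q : Finset (CC p)) (x s : CC p) (hx : x ∈ Q) (hs : s ∉ Q)
    (hj : Q.card = j + 1) : ∃ g : CC p → CB j,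
      (∀ k ∈ insert s Q, ∀ k' ∈ insert s Q, g k = g k' → k = k') ∧ g s = Sum.inr false ∧
      g x = Sum.inr true ∧ ∀ y, ∃ k ∈ insert s Q, g k = y := by
  classical
  have hc : (Q.erase x).card = j := by
    rw [Finset.card_erase_of_mem hx]; omega
  have hxs : x ≠ s := fun h => hs (h ▸ hx)
  let e : {k // k ∈ Q.erase x} ≃ Fin j := Finset.equivFinOfCardEq hc
  let g : CC p → CB j := fun k => if k = s then Sum.inr false else if k = x then Sum.inr true else
    if h : k ∈ Q.erase x then Sum.inl (e ⟨k, h⟩) else Sum.inr true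
  have gs : g s = Sum.inr false := by simp [g]
  have gx : g x = Sum.inr true := by
    simp [g, hxs]
  have gq : ∀ k (h : k ∈ Q.erase x), g k = Sum.inl (e ⟨k, h⟩) := by
    intro k h
    have h1 : k ≠ s := fun h2 => hs (h2 ▸ Finset.mem_of_mem_erase h)
    have h2 : k ≠ x := Finset.ne_of_mem_erase h
    simp only [g]
    rw [if_neg h1, if_neg h2, dif_pos h]
  have cases3 : ∀ k ∈ insert s Q, k = s ∨ k = x ∨ k ∈ Q.erase x := by
    intro k hk
    rcases Finset.mem_insert.1 hk with h | h
    · exact Or.inl h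
    · by_cases h2 : k = x
      · exact Or.inr (Or.inl h2)
      · exact Or.inr (Or.inr (Finset.mem_erase.2 ⟨h2, h⟩))
  refine ⟨g, ?_, gs, gx, ?_⟩
  · intro k hk k' hk' hgg
    rcases cases3 k hk with h | h | h <;> rcases cases3 k' hk' with h' | h' | h'
    · rw [h, h']
    · rw [h, h', gs, gx] at hgg; simp at hgg
    · rw [h, gs, gq k' h'] at hgg; simp at hgg
    · rw [h, h', gs, gx] at hgg; simp at hgg
    · rw [h, h']
    · rw [h, gx, gq k' h'] at hgg; simp at hgg
    · rw [h', gs, gq k h] at hgg; simp at hgg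
    · rw [h', gx, gq k h] at hgg; simp at hgg
    · rw [gq k h, gq k' h'] at hgg
      have h1 := e.injective (Sum.inl_injective hgg)
      exact congrArg Subtype.val h1
  · intro y
    rcases y with t | b
    · refine ⟨(e.symm t : CC p), Finset.mem_insert_of_mem
        (Finset.mem_of_mem_erase (e.symm t).2), ?_⟩
      rw [gq _ (e.symm t).2]
      simp
    · cases b
      · exact ⟨s, Finset.mem_insert_self _ _, gs⟩
      · exact ⟨x, Finset.mem_insert_of_mem hx, gx⟩

lemma ind_pos {ι : Type} [DecidableEq ι] (J : Finset ι) (k : ι) : 0 < ind J k ↔ k ∈ J := by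
  simp only [ind]
  split_ifs with h <;> simp [h]

lemma ind_le {ι : Type} [DecidableEq ι] {J J' : Finset ι} (h : ind J ≤ ind J') : J ⊆ J' := by
  intro k hk
  have h1 := h k
  have h2 := (ind_pos J k).2 hk
  exact (ind_pos J' k).1 (lt_of_lt_of_le h2 h1)

lemma gen (hEMB : SpecEMB) (p j a N w0 w1 : ℕ) (Q : Finset (CC p)) (x s : CC p) (hx : x ∈ Q)
    (hs : s ∉ Q) (hj : Q.card = j + 1) (w : Finset (CC p) → ℕ)
    (hw : ∀ J, w J ≤ (if s ∉ J ∧ J.card = a then w0 else if J = {x, s} then w1 else 0))
    (h : XX KK (fun _ : CB j => N) (wB j a w0 w1) (fun _ => 1)) :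
    XX KK (fun _ : CC p => N) w (ind (insert s Q)) := by
  classical
  obtain ⟨g, g1, g2, g3, g4⟩ := exists_g p j Q x s hx hs hj
  refine hEMB KK (CC p) (CB j) (fun _ => N) w (ind (insert s Q)) (fun _ => N) (wB j a w0 w1)
    (fun _ => 1) g ?_ ?_ ?_ ?_ ?_ ?_ h
  · intro k k' hk hk' hgg
    exact g1 k ((ind_pos _ _).1 hk) k' ((ind_pos _ _).1 hk') hgg
  · intro k; simp
  · intro k hk
    simp only [ind]
    split_ifs <;> simp
  · intro k0 _
    obtain ⟨k, hk, hk2⟩ := g4 k0
    exact ⟨k, (ind_pos _ _).2 hk, hk2⟩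
  · intro k _; exact le_rfl
  · intro J hJ
    have hJ2 := ind_le hJ
    refine (hw J).trans ?_
    have hcard : (J.image g).card = J.card :=
      Finset.card_image_of_injOn (fun k hk k' hk' hgg => g1 k (hJ2 hk) k' (hJ2 hk') hgg)
    have hsJ : Sum.inr false ∈ J.image g ↔ s ∈ J := by
      constructor
      · intro hm
        obtain ⟨k, hk, hk2⟩ := Finset.mem_image.1 hm
        rw [← g2] at hk2
        have := g1 k (hJ2 hk) s (Finset.mem_insert_self _ _) hk2
        rwa [this] at hk
      · intro hm
        exact Finset.mem_image.2 ⟨s, hm, g2⟩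
    by_cases c1 : s ∉ J ∧ J.card = a
    · rw [if_pos c1, wB, if_pos ⟨fun h2 => c1.1 (hsJ.1 h2), by rw [hcard]; exact c1.2⟩]
    · rw [if_neg c1]
      by_cases c2 : J = {x, s}
      · rw [if_pos c2]
        have e1 : J.image g = {Sum.inr true, Sum.inr false} := by
          rw [c2, Finset.image_insert, Finset.image_singleton, g3, g2]
        have e2 : Sum.inr false ∈ J.image g := by rw [e1]; simp
        rw [wB, if_neg (fun h3 => h3.1 e2), if_pos e1]
      · rw [if_neg c2]; exact Nat.zero_le _

lemma pat_eq (p : ℕ) (P : Finset (Fin p)) (s : CC p) : pat p P {s} = insert s (P.image CC.o) := by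
  rw [pat, Finset.union_comm, Finset.insert_eq]

lemma card_o (p : ℕ) (P : Finset (Fin p)) : (P.image (CC.o : Fin p → CC p)).card = P.card :=
  Finset.card_image_of_injective _ (fun _ _ h => CC.o.inj h)

lemma c_notMem (p : ℕ) (P P' : Finset (Fin p)) (x : Fin p) :
    (CC.c P' x : CC p) ∉ P.image (CC.o : Fin p → CC p) := by
  intro h
  obtain ⟨_, _, h2⟩ := Finset.mem_image.1 h
  cases h2

lemma z_notMem (p : ℕ) (P : Finset (Fin p)) : (CC.z : CC p) ∉ P.image (CC.o : Fin p → CC p) := by
  intro h
  obtain ⟨_, _, h2⟩ := Finset.mem_image.1 h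
  cases h2

theorem specBIGX (hEMB : SpecEMB) (_ : SpecMONS) (hISOX : SpecISOX) : SpecBIGX := by
  classical
  intro p a N w0 wc ha hX
  constructor
  · intro P x hx
    have hP1 : 1 ≤ P.card := Finset.card_pos.2 ⟨x, hx⟩
    have hPp : P.card ≤ p := by simpa using Finset.card_le_univ P
    obtain ⟨j, hj⟩ : ∃ j, P.card = j + 1 := ⟨P.card - 1, by omega⟩
    have h0 := hX j (by omega)
    have h1 : XX KK (fun _ : CC p => N) (fun J => if J ⊆ P.image CC.o ∧ J.card = a then w0
      else if J = {CC.o x, CC.c P x} then wc P.card else 0) (ind (pat p P {CC.c P x})) := by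
      rw [pat_eq]
      refine gen hEMB p j a N w0 (wc (j + 1)) (P.image CC.o) (CC.o x) (CC.c P x)
        (Finset.mem_image_of_mem _ hx) (c_notMem p P P x) (by rw [card_o, hj]) _ ?_ h0
      intro J
      by_cases c1 : J ⊆ P.image CC.o ∧ J.card = a
      · rw [if_pos c1, if_pos ⟨fun h => c_notMem p P P x (c1.1 h), c1.2⟩]
      · rw [if_neg c1]
        by_cases c2 : J = {CC.o x, CC.c P x}
        · have c3 : ¬ (CC.c P x ∉ J ∧ J.card = a) := fun h => h.1 (by rw [c2]; simp)
          rw [if_pos c2, if_neg c3, if_pos c2, hj]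
        · rw [if_neg c2]; exact Nat.zero_le _
    have hz : (CC.z : CC p) ∉ pat p P {CC.c P x} := by
      rw [pat_eq, Finset.mem_insert]
      rintro (h | h)
      · cases h
      · exact z_notMem p P h
    have hS : ind (pat p P {CC.c P x, CC.z}) =
        ind (pat p P {CC.c P x}) + Pi.single (CC.z : CC p) 1 := by
      funext k
      simp only [ind, pat, Pi.add_apply, Finset.mem_union, Finset.mem_insert,
        Finset.mem_singleton] at hz ⊢
      by_cases hk : k = CC.z
      · subst hk
        rw [Pi.single_eq_same, if_neg hz]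
        simp
      · rw [Pi.single_eq_of_ne hk]
        simp [hk]
    rw [hS]
    refine hISOX KK (CC p) (fun _ => N) _ _ CC.z ?_ ?_ h1
    · simp only [ind]
      rw [if_neg hz]
    · intro J hJ _
      have c1 : ¬ (J ⊆ P.image CC.o ∧ J.card = a) := fun h => z_notMem p P (h.1 hJ)
      have c2 : ¬ J = {CC.o x, CC.c P x} := by
        intro h
        rw [h, Finset.mem_insert, Finset.mem_singleton] at hJ
        rcases hJ with h2 | h2 <;> cases h2
      simp only [c1, c2, if_false]
  · intro hp
    obtain ⟨j, hj⟩ : ∃ j, p = j + 1 := ⟨p - 1, by omega⟩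
    have h0 := hX j (by omega)
    rw [pat_eq]
    refine gen hEMB p j a N w0 (wc (j + 1)) (Finset.univ.image CC.o) (CC.o ⟨0, by omega⟩) CC.z
      (Finset.mem_image_of_mem _ (Finset.mem_univ _)) (z_notMem p _)
      (by rw [card_o, Finset.card_univ, Fintype.card_fin, hj]) _ ?_ h0
    intro J
    by_cases c1 : J ⊆ Finset.univ.image CC.o ∧ J.card = a
    · rw [if_pos c1, if_pos ⟨fun h => z_notMem p _ (c1.1 h), c1.2⟩]
    · rw [if_neg c1]; exact Nat.zero_le _

end FrD.BIGXM
end

section
/-!
# MP_921642_ag, FD: CHAIN, iteration of the expansion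
-/
set_option autoImplicit false

namespace FrD.CHAINM

open MvPolynomial

variable {F : Type} [Field F] {σ ι τ : Type} [Fintype σ] [Fintype ι] [DecidableEq ι]

lemma ind_empty : ind (∅ : Finset ι) = 0 := by
  funext k; simp [ind]

lemma ind_insert {x : ι} {P : Finset ι} (hx : x ∉ P) : ind (insert x P) = ind P + Pi.single x 1 := by
  funext k
  simp only [ind, Pi.add_apply, Finset.mem_insert]
  by_cases h : k = x
  · subst h
    simp [hx]
  · simp [h, Pi.single_eq_of_ne h]

lemma ind_union {P J : Finset ι} (h : Disjoint J P) : ind (P ∪ J) = ind P + ind J := by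
  funext k
  simp only [ind, Pi.add_apply, Finset.mem_union]
  by_cases h1 : k ∈ P
  · have h2 : k ∉ J := fun h2 => Finset.disjoint_left.1 h h2 h1
    simp [h1, h2]
  · simp [h1]

lemma R_mul_R (col : σ → ι) (S S' : ι → ℤ) : R F col S * R F col S' ≤ R F col (S + S') := by
  rw [Submodule.mul_le]
  intro a ha b hb
  exact mul_mem_R col ha hb

lemma R_mul_Id (col : σ → ι) (κ : τ → ι → ℤ) (f : τ → MvPolynomial σ F) (T : Finset τ)
    (S S' : ι → ℤ) : R F col S' * Id col κ f T S ≤ Id col κ f T (S + S') := by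
  rw [Submodule.mul_le]
  intro a ha b hb
  exact mul_mem_Id col κ f T ha hb

theorem specCHAIN : SpecCHAIN := by
  intro F _ σ ι τ _ _ _ col κ f T b Pm ρ hf hρ hstep J
  induction J using Finset.induction_on with
  | empty =>
    intro P _ _ U Z h1 h2 h3 h4 h5
    simp only [Finset.card_empty, Finset.range_zero, Finset.prod_empty, one_mul,
      Finset.union_empty] at *
    have hUZ : U ≤ Z := by
      intro p hp
      have : (1 : MvPolynomial σ F) * p ∈ R F col (ind ∅) * U := by
        apply Submodule.mul_mem_mul _ hp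
        rw [ind_empty]
        exact one_mem_R col
      rw [one_mul] at this
      exact h5 this
    have : Module.Finite F Z := Submodule.finiteDimensional_of_le h4
    have h6 := Submodule.finrank_mono hUZ
    have h7 : (Module.finrank F U : ℝ) ≤ (Module.finrank F Z : ℝ) := by exact_mod_cast h6
    rw [Finset.union_empty]
    linarith
  | insert x J' hx ih =>
    intro P hdis hsub U Z h1 h2 h3 h4 h5
    have hxP : x ∉ P := fun h => Finset.disjoint_left.1 hdis (Finset.mem_insert_self x J') h
    have hdis' : Disjoint J' P :=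
      Finset.disjoint_left.2 (fun y hy => Finset.disjoint_left.1 hdis (Finset.mem_insert_of_mem hy))
    have hdis2 : Disjoint J' (insert x P) := by
      rw [Finset.disjoint_insert_right]
      exact ⟨hx, hdis'⟩
    have hset : insert x P ∪ J' = P ∪ insert x J' := by
      ext y; simp only [Finset.mem_union, Finset.mem_insert]; tauto
    have hset2 : J' ∪ insert x P ⊆ Pm := by
      rw [Finset.union_comm, hset, Finset.union_comm]; exact hsub
    have hPm : insert x P ⊆ Pm := (Finset.subset_union_right).trans hset2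
    set U' : Submodule F (MvPolynomial σ F) :=
      R F col (Pi.single x 1) * U ⊔ Id col κ f T (ind (insert x P) + b) with hU'
    have hU'R : U' ≤ R F col (ind (insert x P) + b) := by
      refine sup_le ?_ (Id_le_R col κ f T hf _)
      refine (mul_le_mul' le_rfl h2).trans ((R_mul_R col _ _).trans (le_of_eq ?_))
      congr 1
      rw [ind_insert hxP]; abel
    have hJU' : R F col (ind J') * U' ≤ Z := by
      rw [hU', Submodule.mul_sup]
      refine sup_le ?_ ?_
      · rw [← mul_assoc]
        refine (mul_le_mul' ?_ le_rfl).trans h5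
        refine (R_mul_R col _ _).trans (le_of_eq ?_)
        rw [ind_insert hx]
      · refine (R_mul_Id col κ f T _ _).trans ((le_of_eq ?_).trans h3)
        congr 1
        rw [← hset, ind_union hdis2]; abel
    have h6 := ih (insert x P) hdis2 hset2 U' Z le_sup_right hU'R
      (by rw [hset]; exact h3) (by rw [hset]; exact h4) hJU'
    rw [hset, Finset.card_insert_of_notMem hxP] at h6
    have h7 := hstep P x hxP hPm U h1 h2
    rw [Finset.card_insert_of_notMem hx, Finset.prod_range_succ']
    have e1 : ∏ i ∈ Finset.range J'.card, ρ (P.card + (i + 1) + 1) =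
        ∏ i ∈ Finset.range J'.card, ρ (P.card + 1 + i + 1) :=
      Finset.prod_congr rfl (fun i _ => by congr 1; ring)
    rw [e1, add_zero]
    have hprod : 0 ≤ ∏ i ∈ Finset.range J'.card, ρ (P.card + 1 + i + 1) :=
      Finset.prod_nonneg (fun i _ => hρ _)
    have h8 := mul_le_mul_of_nonneg_left h7 hprod
    calc _ = (∏ i ∈ Finset.range J'.card, ρ (P.card + 1 + i + 1)) *
          (ρ (P.card + 1) * ((Module.finrank F U : ℝ) -
            (Module.finrank F (Id col κ f T (ind P + b)) : ℝ))) := by ring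
      _ ≤ _ := h8
      _ ≤ _ := h6

end FrD.CHAINM
end

section
/-!
# MP_921642_ag, FD, module DEB: one deformation for all the fine multidegrees
-/
set_option autoImplicit false

namespace FrD

open MvPolynomial

namespace DEBM

theorem push_lam {ι Z : Type} [Fintype ι] [Fintype Z] [DecidableEq ι] [DecidableEq Z] (S0 : ι → ℤ)
    (l : ι → Z) : push Prod.fst (lam S0 l) = S0 := by
  funext k
  simp only [push, lam]
  rw [Finset.sum_eq_single (k, l k)]
  · simp
  · rintro ⟨a, b⟩ _ hne
    by_cases h : a = k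
    · subst h
      rw [if_pos rfl, if_neg]
      intro h2
      apply hne
      simp only at h2
      rw [h2]
    · rw [if_neg h]
  · intro h
    exact absurd (Finset.mem_univ _) h

theorem push_mono {ι' ι : Type} [Fintype ι'] [DecidableEq ι] (π : ι' → ι) {S T : ι' → ℤ}
    (h : S ≤ T) : push π S ≤ push π T := by
  intro k
  simp only [push]
  refine Finset.sum_le_sum fun i _ => ?_
  split_ifs
  · exact h i
  · exact le_rfl

theorem push_sub {ι' ι : Type} [Fintype ι'] [DecidableEq ι] (π : ι' → ι) (S T : ι' → ℤ) :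
    push π (S - T) = push π S - push π T := by
  funext k
  simp only [push, Pi.sub_apply]
  rw [← Finset.sum_sub_distrib]
  refine Finset.sum_congr rfl fun i _ => ?_
  split_ifs <;> simp

/-- exactness below a fine multidegree `lam S0 l` -/
theorem ex_sub {ι σ τ Z : Type} [Fintype σ] [Fintype ι] [DecidableEq ι] [Fintype Z] [DecidableEq Z]
    [Fintype τ] (col : σ → ι × Z) (κ : τ → Finset (ι × Z)) (f : τ → MvPolynomial σ ℂ) (S0 : ι → ℤ)
    (hf : ∀ i, f i ∈ R ℂ col (ind (κ i)))
    (hmain : ∀ S' : ι × Z → ℤ, 0 ≤ S' → push Prod.fst S' ≤ S0 → (∀ l, S' ≠ lam S0 l) →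
      dq col (fun i => ind (κ i)) f Finset.univ S' ≤ E col (fun i => ind (κ i)) Finset.univ S')
    (l : ι → Z) (T : ι × Z → ℤ) (hT : 0 ≤ T) (k0 : ι × Z) (hk : 0 < T k0) :
    Ex col (fun i => ind (κ i)) f Finset.univ (lam S0 l - T) := by
  intro S' hS'
  by_cases h : 0 ≤ S'
  · have h1 : push Prod.fst S' ≤ S0 - push Prod.fst T := by
      have := push_mono Prod.fst hS'
      rwa [push_sub, push_lam] at this
    have h2 : T k0 ≤ push Prod.fst T k0.1 := le_push Prod.fst hT k0
    refine hmain S' h (fun k => ?_) ?_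
    · have h3 := h1 k
      have h4 : 0 ≤ push Prod.fst T k := by
        simp only [push]
        refine Finset.sum_nonneg fun i _ => ?_
        split_ifs
        · exact hT i
        · exact le_rfl
      simp only [Pi.sub_apply] at h3
      linarith
    · intro l' hl'
      have h3 := h1 k0.1
      rw [hl', push_lam, Pi.sub_apply] at h3
      linarith
  · rw [dq_neg col (fun i => ind (κ i)) f Finset.univ (fun i _ => hf i) h,
      E_neg col (fun i => ind (κ i)) Finset.univ (fun i _ => ind_nonneg _) h]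

/-- the bilinear map `(φ, g) ↦ (∑ φ c i * g i)_c` -/
noncomputable def bil (σ τ : Type) [Fintype τ] (D : ℕ) :
    (Fin D → τ → MvPolynomial σ ℂ) →ₗ[ℂ] (τ → MvPolynomial σ ℂ) →ₗ[ℂ] (Fin D → MvPolynomial σ ℂ) :=
  LinearMap.mk₂ ℂ (fun φ g c => ∑ i, φ c i * g i)
    (fun φ φ' g => by
      funext c
      simp only [Pi.add_apply, add_mul, Finset.sum_add_distrib])
    (fun a φ g => by
      funext c
      simp only [Pi.smul_apply, Algebra.smul_mul_assoc, Finset.smul_sum])
    (fun φ g g' => by
      funext c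
      simp only [Pi.add_apply, mul_add, Finset.sum_add_distrib])
    (fun a φ g => by
      funext c
      simp only [Pi.smul_apply, Algebra.mul_smul_comm, Finset.smul_sum])

theorem bil_apply {σ τ : Type} [Fintype τ] {D : ℕ} (φ : Fin D → τ → MvPolynomial σ ℂ)
    (g : τ → MvPolynomial σ ℂ) (c : Fin D) : bil σ τ D φ g c = ∑ i, φ c i * g i := rfl

/-- the map `Ψ` -/
noncomputable def Psi {σ τ : Type} [Fintype τ] {D : ℕ} (P : Submodule ℂ (Fin D → τ → MvPolynomial σ ℂ))
    (C : Submodule ℂ (τ → MvPolynomial σ ℂ)) (I : Fin D → Submodule ℂ (MvPolynomial σ ℂ)) :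
    P →ₗ[ℂ] (C →ₗ[ℂ] (∀ c, MvPolynomial σ ℂ ⧸ I c)) where
  toFun φ := (LinearMap.pi fun c => (I c).mkQ ∘ₗ LinearMap.proj c) ∘ₗ (bil σ τ D φ.1) ∘ₗ C.subtype
  map_add' φ φ' := by
    rw [Submodule.coe_add, map_add, LinearMap.add_comp, LinearMap.comp_add]
  map_smul' a φ := by
    rw [Submodule.coe_smul, map_smul, LinearMap.smul_comp, LinearMap.comp_smul]
    rfl

theorem Psi_eq_zero {σ τ : Type} [Fintype τ] {D : ℕ}
    (P : Submodule ℂ (Fin D → τ → MvPolynomial σ ℂ))
    (C : Submodule ℂ (τ → MvPolynomial σ ℂ)) (I : Fin D → Submodule ℂ (MvPolynomial σ ℂ))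
    (φ : P) (g : C) :
    Psi P C I φ g = 0 ↔ ∀ c, ∑ i, φ.1 c i * g.1 i ∈ I c := by
  rw [funext_iff]
  refine forall_congr' fun c => ?_
  exact Submodule.Quotient.mk_eq_zero (I c)

end DEBM

open DEBM in
/-- DEB: one deformation for all the fine multidegrees. -/
theorem specDEB (hPHI : SpecPHI) (hGPX : SpecGPX) (hKDIM : SpecKDIM) : SpecDEB := by
  intro ι σ τ _ _ _ _ D col κ f S0 x0 hS1 hS2 hκ hinj hf hz hmain hSZ
  have hSy : Sy col (fun i => ind (κ i)) f Finset.univ :=
    fun i _ => ⟨hf i, ind_nonneg _, ind_ne_zero (hκ i)⟩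
  have hK : ∀ l : ι → ZMod (2 * D + 1),
      Module.Finite ℂ (SZ col (fun i => ind (κ i)) f Finset.univ (lam S0 l)) ∧
      KZ col (fun i => ind (κ i)) f Finset.univ (lam S0 l) ≤
        SZ col (fun i => ind (κ i)) f Finset.univ (lam S0 l) ∧
      dq col (fun i => ind (κ i)) f Finset.univ (lam S0 l) -
        E col (fun i => ind (κ i)) Finset.univ (lam S0 l) +
        (Module.finrank ℂ (KZ col (fun i => ind (κ i)) f Finset.univ (lam S0 l)) : ℤ) ≤
      (Module.finrank ℂ (SZ col (fun i => ind (κ i)) f Finset.univ (lam S0 l)) : ℤ) := by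
    intro l
    refine hKDIM ℂ σ (ι × ZMod (2 * D + 1)) τ col (fun i => ind (κ i)) f Finset.univ (lam S0 l) hSy ?_
    intro i _
    obtain ⟨k0, hk0⟩ := hκ i
    refine ex_sub col κ f S0 hf hmain l (ind (κ i)) (ind_nonneg _) k0 ?_
    simp only [ind, if_pos hk0]
    norm_num
  have hC : ∀ l : ι → ZMod (2 * D + 1), ∃ C : Submodule ℂ (τ → MvPolynomial σ ℂ),
      C ≤ SZ col (fun i => ind (κ i)) f Finset.univ (lam S0 l) ∧
      Disjoint C (KZ col (fun i => ind (κ i)) f Finset.univ (lam S0 l)) ∧
      dq col (fun i => ind (κ i)) f Finset.univ (lam S0 l) -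
        E col (fun i => ind (κ i)) Finset.univ (lam S0 l) ≤ (Module.finrank ℂ C : ℤ) := by
    intro l
    obtain ⟨hfin, hle, hdim⟩ := hK l
    obtain ⟨C', hC'⟩ := Submodule.exists_isCompl
      (KZ col (fun i => ind (κ i)) f Finset.univ (lam S0 l))
    refine ⟨C' ⊓ SZ col (fun i => ind (κ i)) f Finset.univ (lam S0 l), inf_le_right, ?_, ?_⟩
    · exact (hC'.symm.disjoint).mono_left inf_le_left
    · have h1 : KZ col (fun i => ind (κ i)) f Finset.univ (lam S0 l) ⊔
          (C' ⊓ SZ col (fun i => ind (κ i)) f Finset.univ (lam S0 l)) =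
          SZ col (fun i => ind (κ i)) f Finset.univ (lam S0 l) := by
        rw [← sup_inf_assoc_of_le C' hle, hC'.sup_eq_top, top_inf_eq]
      have hf1 : Module.Finite ℂ (KZ col (fun i => ind (κ i)) f Finset.univ (lam S0 l)) :=
        Submodule.finiteDimensional_of_le hle
      have hf2 : Module.Finite ℂ (C' ⊓ SZ col (fun i => ind (κ i)) f Finset.univ (lam S0 l) :
          Submodule ℂ (τ → MvPolynomial σ ℂ)) :=
        Submodule.finiteDimensional_of_le inf_le_right
      have h2 := Submodule.finrank_add_le_finrank_add_finrank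
        (KZ col (fun i => ind (κ i)) f Finset.univ (lam S0 l))
        (C' ⊓ SZ col (fun i => ind (κ i)) f Finset.univ (lam S0 l))
      rw [h1] at h2
      have h3 : (Module.finrank ℂ (SZ col (fun i => ind (κ i)) f Finset.univ (lam S0 l)) : ℤ) ≤
          (Module.finrank ℂ (KZ col (fun i => ind (κ i)) f Finset.univ (lam S0 l)) : ℤ) +
          (Module.finrank ℂ (C' ⊓ SZ col (fun i => ind (κ i)) f Finset.univ (lam S0 l) :
            Submodule ℂ (τ → MvPolynomial σ ℂ)) : ℤ) := by exact_mod_cast h2
      linarith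
  choose C hC1 hC2 hC3 using hC
  have hCf : ∀ l, Module.Finite ℂ (C l) := by
    intro l
    have := (hK l).1
    exact Submodule.finiteDimensional_of_le (hC1 l)
  -- the space of all `φ`
  let P : Submodule ℂ (Fin D → τ → MvPolynomial σ ℂ) :=
    { carrier := {φ | (∀ (c : Fin D) (i : τ),
        φ c i ∈ R ℂ col (ind (sh x0 (((c : ℕ) : ZMod (2 * D + 1)) + 1) (κ i)))) ∧
        ∀ (c : Fin D) (i : τ), (∀ k ∈ κ i, k.1 ≠ x0) → φ c i = 0}
      add_mem' := by
        rintro φ φ' ⟨h1, h2⟩ ⟨h3, h4⟩
        refine ⟨fun c i => Submodule.add_mem _ (h1 c i) (h3 c i), fun c i h => ?_⟩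
        rw [Pi.add_apply, Pi.add_apply, h2 c i h, h4 c i h, add_zero]
      zero_mem' := ⟨fun c i => Submodule.zero_mem _, fun c i _ => rfl⟩
      smul_mem' := by
        rintro a φ ⟨h1, h2⟩
        refine ⟨fun c i => Submodule.smul_mem _ a (h1 c i), fun c i h => ?_⟩
        rw [Pi.smul_apply, Pi.smul_apply, h2 c i h, smul_zero] }
  let I : (ι → ZMod (2 * D + 1)) → Fin D → Submodule ℂ (MvPolynomial σ ℂ) := fun l c =>
    Id col (fun i => ind (κ i)) f Finset.univ (tgt S0 x0 l (((c : ℕ) : ZMod (2 * D + 1)) + 1))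
  have hφ : ∀ l, ∃ v : P, Module.finrank ℂ (C l) ≤
      Module.finrank ℂ (LinearMap.range (Psi P (C l) (I l) v)) := by
    intro l
    have hEx : Ex col (fun i => ind (κ i)) f Finset.univ (lam S0 l - Pi.single (x0, l x0) 1) := by
      refine ex_sub col κ f S0 hf hmain l (Pi.single (x0, l x0) 1) ?_ (x0, l x0) ?_
      · exact Pi.single_nonneg.2 zero_le_one
      · rw [Pi.single_eq_same]
        norm_num
    have hle : Module.finrank ℂ (C l) ≤ D := by
      have := (hK l).1
      exact (Submodule.finrank_mono (hC1 l)).trans (hSZ l)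
    obtain ⟨φ, h1, h2, h3⟩ := hPHI ι σ τ (2 * D + 1) col κ f S0 x0 l D (C l) hκ hinj hf hz hS2 hEx
      (hC1 l) (hC2 l) (hCf l) hle
    refine ⟨⟨φ, h1, h2⟩, ?_⟩
    have hinj' : Function.Injective (Psi P (C l) (I l) ⟨φ, h1, h2⟩) := by
      rw [injective_iff_map_eq_zero]
      intro g hg
      rw [Psi_eq_zero] at hg
      exact Subtype.ext (h3 g.1 g.2 hg)
    rw [LinearMap.finrank_range_of_inj hinj']
  obtain ⟨v, hv⟩ := hGPX ℂ P (ι → ZMod (2 * D + 1)) (fun l => C l)
    (fun l => ∀ c, MvPolynomial σ ℂ ⧸ I l c) (fun l => Psi P (C l) (I l))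
    (fun l => Module.finrank ℂ (C l)) hφ
  refine ⟨C, v.1, hC1, hC3, v.2.1, v.2.2, ?_⟩
  intro l g hg hg2
  have h1 := LinearMap.finrank_range_add_finrank_ker (Psi P (C l) (I l) v)
  have h2 : Module.finrank ℂ (LinearMap.ker (Psi P (C l) (I l) v)) = 0 := by
    have := hv l
    omega
  have h3 : LinearMap.ker (Psi P (C l) (I l) v) = ⊥ := Submodule.finrank_eq_zero.1 h2
  have h4 : (⟨g, hg⟩ : C l) ∈ LinearMap.ker (Psi P (C l) (I l) v) := by
    rw [LinearMap.mem_ker, Psi_eq_zero]
    exact hg2
  rw [h3, Submodule.mem_bot] at h4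
  exact congrArg Subtype.val h4

end FrD
end

section
/-!
# MP_921642_ag, FD: module DEC

The obstruction argument: a fine system with unobstructed complements `C l` is deformed to a coarse system.
-/
set_option autoImplicit false

namespace FrD

namespace DECM

open MvPolynomial

lemma push_ind {ι' ι : Type} [Fintype ι'] [DecidableEq ι'] [DecidableEq ι] (π : ι' → ι)
    (J : Finset ι') (h : Set.InjOn π (J : Set ι')) : push π (ind J) = ind (J.image π) := by
  funext k
  simp only [push, ind]
  by_cases hk : k ∈ J.image π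
  · rw [if_pos hk]
    obtain ⟨j, hj, rfl⟩ := Finset.mem_image.1 hk
    rw [Finset.sum_eq_single j]
    · simp [hj]
    · intro j' _ hne
      by_cases h1 : π j' = π j
      · rw [if_pos h1, if_neg]
        intro hj'
        exact hne (h hj' hj h1)
      · rw [if_neg h1]
    · intro h2; exact absurd (Finset.mem_univ _) h2
  · rw [if_neg hk]
    refine Finset.sum_eq_zero (fun j _ => ?_)
    by_cases h1 : π j = k
    · rw [if_pos h1, if_neg]
      intro hj
      exact hk (Finset.mem_image.2 ⟨j, hj, h1⟩)
    · rw [if_neg h1]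

lemma push_sub {ι' ι : Type} [Fintype ι'] [DecidableEq ι] (π : ι' → ι) (S T : ι' → ℤ) :
    push π (S - T) = push π S - push π T := by
  funext k
  simp only [push, Pi.sub_apply, ← Finset.sum_sub_distrib]
  exact Finset.sum_congr rfl (fun v _ => by split_ifs <;> simp)

lemma mem_sh {ι : Type} [DecidableEq ι] {L : ℕ} (x0 : ι) (c : ZMod L) (J : Finset (ι × ZMod L))
    (x : ι) (w : ZMod L) : (x, w) ∈ sh x0 c J ↔
      (x = x0 ∧ (x0, w - c) ∈ J) ∨ (x ≠ x0 ∧ (x, w) ∈ J) := by
  rw [sh, Finset.mem_image]
  constructor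
  · rintro ⟨⟨x', w'⟩, h, h'⟩
    by_cases h2 : x' = x0
    · simp only [h2, if_true, Prod.mk.injEq] at h'
      obtain ⟨h3, h4⟩ := h'
      left
      refine ⟨h3.symm, ?_⟩
      rw [← h4, add_sub_cancel_right, ← h2]
      exact h
    · simp only [h2, if_false, Prod.mk.injEq] at h'
      obtain ⟨h3, h4⟩ := h'
      right
      rw [← h3, ← h4]
      exact ⟨h2, h⟩
  · rintro (⟨h1, h2⟩ | ⟨h1, h2⟩)
    · refine ⟨(x0, w - c), h2, ?_⟩
      simp [h1]
    · refine ⟨(x, w), h2, ?_⟩
      simp [h1]

lemma ind_sh {ι : Type} [DecidableEq ι] {L : ℕ} (x0 : ι) (c : ZMod L) (J : Finset (ι × ZMod L))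
    (z : ZMod L) (hinj : Set.InjOn Prod.fst (J : Set (ι × ZMod L))) (hz : (x0, z) ∈ J) :
    ind (sh x0 c J) = ind J - Pi.single (x0, z) 1 + Pi.single (x0, z + c) 1 := by
  have hJ : ∀ w, (x0, w) ∈ J ↔ w = z := by
    intro w
    constructor
    · intro hw
      have h1 : ((x0, w) : ι × ZMod L) = (x0, z) := hinj hw hz rfl
      simpa using h1
    · rintro rfl
      exact hz
  funext k
  rcases k with ⟨x, w⟩
  simp only [Pi.add_apply, Pi.sub_apply, ind, mem_sh, Pi.single_apply, Prod.mk.injEq]
  by_cases hx : x = x0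
  · subst hx
    simp only [true_and, ne_eq, not_true_eq_false, false_and, or_false, hJ]
    have h1 : (w - c = z) ↔ (w = z + c) := sub_eq_iff_eq_add
    simp only [h1]
    ring
  · simp [hx]

/-- the image of the shifted set under `fst` -/
lemma image_sh {ι : Type} [DecidableEq ι] {L : ℕ} (x0 : ι) (c : ZMod L)
    (J : Finset (ι × ZMod L)) : (sh x0 c J).image Prod.fst = J.image Prod.fst := by
  rw [sh, Finset.image_image]
  refine Finset.image_congr (fun k _ => ?_)
  simp only [Function.comp_apply]
  split_ifs <;> rfl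

lemma injOn_sh {ι : Type} [DecidableEq ι] {L : ℕ} (x0 : ι) (c : ZMod L)
    (J : Finset (ι × ZMod L)) (hinj : Set.InjOn Prod.fst (J : Set (ι × ZMod L))) :
    Set.InjOn Prod.fst ((sh x0 c J : Finset (ι × ZMod L)) : Set (ι × ZMod L)) := by
  rintro ⟨x, w⟩ h1 ⟨x', w'⟩ h2 h3
  simp only at h3
  subst h3
  rw [Finset.mem_coe, mem_sh] at h1 h2
  rcases h1 with ⟨a1, b1⟩ | ⟨a1, b1⟩
  · rcases h2 with ⟨_, b2⟩ | ⟨a2, _⟩
    · have h4 : ((x0, w - c) : ι × ZMod L) = (x0, w' - c) := hinj b1 b2 rfl
      have h5 : w - c = w' - c := by simpa using h4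
      rw [sub_left_inj] at h5
      rw [h5]
    · exact absurd a1 a2
  · rcases h2 with ⟨a2, _⟩ | ⟨_, b2⟩
    · exact absurd a2 a1
    · exact hinj b1 b2 rfl

/-- the sum map -/
lemma exists_sum {F W Λ τ : Type} [Field F] [AddCommGroup W] [Module F W] [Fintype Λ]
    (A : τ → Submodule F W) (C : Λ → Submodule F (τ → W))
    (h : ∀ l, ∀ g ∈ C l, ∀ i, g i ∈ A i) :
    ∃ J : (∀ l, C l) →ₗ[F] (∀ i, A i), ∀ (g : ∀ l, C l) (i : τ),
      ((J g i : A i) : W) = ∑ l, (g l : τ → W) i := by
  refine ⟨{ toFun := fun g i => ⟨∑ l, (g l : τ → W) i,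
              Submodule.sum_mem _ (fun l _ => h l _ (g l).2 i)⟩
            map_add' := fun g g' => ?_
            map_smul' := fun c g => ?_ }, fun g i => rfl⟩
  · funext i
    apply Subtype.ext
    simp [Finset.sum_add_distrib]
  · funext i
    apply Subtype.ext
    simp [Finset.smul_sum]

/-- the multiplication map -/
lemma exists_mul {F : Type} [Field F] {σ τ : Type} [Fintype τ]
    (A : τ → Submodule F (MvPolynomial σ F)) (ψ : τ → MvPolynomial σ F) :
    ∃ P : (∀ i, A i) →ₗ[F] MvPolynomial σ F, ∀ g : ∀ i, A i,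
      P g = ∑ i, ψ i * (g i : MvPolynomial σ F) := by
  refine ⟨{ toFun := fun g => ∑ i, ψ i * (g i : MvPolynomial σ F)
            map_add' := fun g g' => ?_
            map_smul' := fun c g => ?_ }, fun g => rfl⟩
  · simp [mul_add, Finset.sum_add_distrib]
  · simp [Finset.smul_sum]

theorem specDEC (hOBS : SpecOBS) (hBLK : SpecBLK) (hTGT : SpecTGT) : SpecDEC := by
  intro ι σ τ _ _ _ _ D col κ f S0 x0 C φ hS hx0 hne hinj hf hC hφ hφ0 hker
  classical
  obtain ⟨t1, t2, t3, t4⟩ := hTGT ι S0 hS
  -- coarse multidegrees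
  have hpi : ∀ i, push Prod.fst (ind (κ i)) = ind ((κ i).image Prod.fst) :=
    fun i => push_ind Prod.fst (κ i) (hinj i)
  obtain ⟨b1, b2, b3, b4, b5⟩ := hBLK ℂ σ ι (ι × ZMod (2 * D + 1)) τ Prod.fst col
    (fun i => ind (κ i)) f Finset.univ S0 (fun i _ => hf i) (fun i _ => ind_nonneg _)
  have hfc : ∀ i, f i ∈ R ℂ (Prod.fst ∘ col) (ind ((κ i).image Prod.fst)) := by
    intro i
    have h := b5 (ind (κ i)) (hf i)
    rwa [hpi] at h
  have hφc : ∀ c i, φ c i ∈ R ℂ (Prod.fst ∘ col) (ind ((κ i).image Prod.fst)) := by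
    intro c i
    have h := b5 _ (hφ c i)
    rwa [push_ind Prod.fst _ (injOn_sh x0 _ (κ i) (hinj i)), image_sh] at h
  -- the elements of `C l`
  have hCR : ∀ l, ∀ g ∈ C l, ∀ i, g i ∈ R ℂ col (lam S0 l - ind (κ i)) :=
    fun l g hg i => (hC l hg).1 i (Finset.mem_univ i)
  have hC0 : ∀ l, ∀ g ∈ C l, ∑ i, f i * g i = 0 := fun l g hg => (hC l hg).2.2
  have hCU : ∀ l, ∀ g ∈ C l, ∀ i,
      g i ∈ R ℂ (Prod.fst ∘ col) (S0 - ind ((κ i).image Prod.fst)) := by
    intro l g hg i
    have h := b5 _ (hCR l g hg i)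
    rwa [push_sub, (t1 (2 * D + 1) l).2, hpi] at h
  let κc : τ → ι → ℤ := fun i => ind ((κ i).image Prod.fst)
  obtain ⟨Jm, hJm⟩ := exists_sum (fun i => R ℂ (Prod.fst ∘ col) (S0 - κc i)) C hCU
  let φs : τ → MvPolynomial σ ℂ := fun i => ∑ c, φ c i
  obtain ⟨Pf, hPf⟩ := exists_mul (fun i => R ℂ (Prod.fst ∘ col) (S0 - κc i)) f
  obtain ⟨Pφ, hPφ⟩ := exists_mul (fun i => R ℂ (Prod.fst ∘ col) (S0 - κc i)) φs
  -- the products
  have hprod : ∀ l, ∀ g ∈ C l, ∀ (c : Fin D) (i : τ), φ c i * g i ∈
      R ℂ col (tgt S0 x0 l (((c : ℕ) : ZMod (2 * D + 1)) + 1)) := by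
    intro l g hg c i
    by_cases h1 : 0 ≤ lam S0 l - ind (κ i)
    · by_cases h2 : ∀ k ∈ κ i, k.1 ≠ x0
      · rw [hφ0 c i h2, zero_mul]
        exact Submodule.zero_mem _
      · obtain ⟨k, hk, hkx⟩ : ∃ k ∈ κ i, k.1 = x0 := by
          by_contra h3
          exact h2 (fun k hk hkx => h3 ⟨k, hk, hkx⟩)
        have h3 := h1 k
        simp only [Pi.zero_apply, Pi.sub_apply, ind, if_pos hk, lam] at h3
        have h4 : k.2 = l k.1 := by
          by_contra h4
          rw [if_neg h4] at h3
          omega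
        have h5 : k = (x0, l x0) := by
          apply Prod.ext
          · exact hkx
          · simp only [h4, hkx]
        have h6 := mul_mem_R col (hφ c i) (hCR l g hg i)
        rw [ind_sh x0 _ (κ i) (l x0) (hinj i) (h5 ▸ hk)] at h6
        have h7 : ind (κ i) - Pi.single (x0, l x0) 1 +
            Pi.single (x0, l x0 + (((c : ℕ) : ZMod (2 * D + 1)) + 1)) 1 +
            (lam S0 l - ind (κ i)) = tgt S0 x0 l (((c : ℕ) : ZMod (2 * D + 1)) + 1) := by
          rw [tgt]
          abel
        rwa [h7] at h6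
    · have h2 := hCR l g hg i
      rw [R_neg col h1, Submodule.mem_bot] at h2
      rw [h2, mul_zero]
      exact Submodule.zero_mem _
  -- the main claim
  have hmain : ∀ g : ∀ l, C l, Pφ (Jm g) ∈ LinearMap.range Pf → g = 0 := by
    intro g hg
    obtain ⟨h, hh⟩ := hg
    rw [hPf, hPφ] at hh
    funext l
    apply Subtype.ext
    apply hker l (g l : τ → MvPolynomial σ ℂ) (g l).2
    intro c
    have e1 : pr ℂ col (tgt S0 x0 l (((c : ℕ) : ZMod (2 * D + 1)) + 1))
        (∑ i, φs i * ((Jm g i : R ℂ (Prod.fst ∘ col) (S0 - κc i)) : MvPolynomial σ ℂ)) =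
        ∑ i, φ c i * (g l : τ → MvPolynomial σ ℂ) i := by
      rw [map_sum]
      refine Finset.sum_congr rfl (fun i _ => ?_)
      rw [hJm]
      simp only [φs]
      rw [Finset.sum_mul, map_sum, Finset.sum_eq_single c]
      · rw [Finset.mul_sum, map_sum, Finset.sum_eq_single l]
        · exact pr_of_mem col (hprod l _ (g l).2 c i)
        · intro l' _ hl'
          refine pr_of_mem_ne col (hprod l' _ (g l').2 c i) ?_
          intro h2
          exact hl' (t3 x0 D l' l c c hx0 h2).1
        · intro h2; exact absurd (Finset.mem_univ _) h2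
      · intro c' _ hc'
        rw [Finset.mul_sum, map_sum]
        refine Finset.sum_eq_zero (fun l' _ => ?_)
        refine pr_of_mem_ne col (hprod l' _ (g l').2 c' i) ?_
        intro h2
        exact hc' (t3 x0 D l' l c' c hx0 h2).2
      · intro h2; exact absurd (Finset.mem_univ _) h2
    rw [← e1, ← hh]
    exact pr_mem_Id col (fun i => ind (κ i)) f Finset.univ (fun i _ => hf i) _ _
  have hJinj : Function.Injective Jm := by
    rw [← LinearMap.ker_eq_bot, LinearMap.ker_eq_bot']
    intro g hg
    apply hmain g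
    rw [hg, map_zero]
    exact Submodule.zero_mem _
  have hfinC : ∀ l, Module.Finite ℂ (C l) := by
    intro l
    have h1 : Function.Injective (Jm ∘ₗ (LinearMap.single ℂ (fun l => C l) l)) := by
      rw [LinearMap.coe_comp]
      refine hJinj.comp (fun a b h => ?_)
      have h2 := congrFun h l
      simpa using h2
    exact Module.Finite.of_injective _ h1
  obtain ⟨t, ht⟩ := hOBS ℂ (∀ i, R ℂ (Prod.fst ∘ col) (S0 - κc i)) (MvPolynomial σ ℂ) Pf Pφ
    (LinearMap.range Jm)
    (by
      rintro _ ⟨g, rfl⟩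
      rw [hPf]
      simp only [hJm, Finset.mul_sum]
      rw [Finset.sum_comm]
      exact Finset.sum_eq_zero (fun l _ => hC0 l _ (g l).2))
    (by
      rintro _ ⟨g, rfl⟩ hg
      rw [hmain g hg, map_zero])
  refine ⟨fun i => f i + t • φs i, fun i => ?_, ?_⟩
  · exact Submodule.add_mem _ (hfc i) (Submodule.smul_mem _ t
      (Submodule.sum_mem _ (fun c _ => hφc c i)))
  · have r1 : LinearMap.range (Pf) =
        Id (Prod.fst ∘ col) κc f Finset.univ S0 := by
      ext p
      rw [mem_Id]
      constructor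
      · rintro ⟨g, rfl⟩
        exact ⟨fun i => (g i : MvPolynomial σ ℂ), fun i => (g i).2, hPf _⟩
      · rintro ⟨g, hg, rfl⟩
        exact ⟨fun i => ⟨g i, hg i⟩, hPf _⟩
    have r2 : LinearMap.range (Pf + t • Pφ) ≤
        Id (Prod.fst ∘ col) κc (fun i => f i + t • φs i) Finset.univ S0 := by
      rintro _ ⟨g, rfl⟩
      rw [mem_Id]
      refine ⟨fun i => (g i : MvPolynomial σ ℂ), fun i => (g i).2, ?_⟩
      rw [LinearMap.add_apply, LinearMap.smul_apply, hPf, hPφ, Finset.smul_sum,
        ← Finset.sum_add_distrib]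
      exact Finset.sum_congr rfl (fun i _ => by rw [add_mul, smul_mul_assoc])
    have r3 : Module.finrank ℂ (LinearMap.range Jm) = ∑ l, Module.finrank ℂ (C l) := by
      rw [LinearMap.finrank_range_of_inj hJinj, Module.finrank_pi_fintype]
    have r4 := Submodule.finrank_mono r2
    have r5 : (fun i => push Prod.fst (ind (κ i))) = κc := funext hpi
    rw [r5] at b3
    rw [r3, r1] at ht
    exact le_trans (Nat.add_le_add_right b3 _) (ht.trans r4)

end DECM

end FrD
end

section
/-!
# MP_921642_ag, FD, module DEF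

Deformation of a fine system to a coarse system with `dq ≤ E` at `S0`.
-/
set_option autoImplicit false

namespace FrD.DEFM

open MvPolynomial

lemma push_ind {ι Z : Type} [Fintype ι] [DecidableEq ι] [Fintype Z] [DecidableEq Z]
    {J : Finset (ι × Z)} (h : Set.InjOn Prod.fst (J : Set (ι × Z))) :
    push Prod.fst (ind J) = ind (J.image Prod.fst) := by
  funext k
  simp only [push, ind]
  by_cases hk : k ∈ J.image Prod.fst
  · rw [if_pos hk]
    obtain ⟨x, hx, rfl⟩ := Finset.mem_image.1 hk
    rw [Finset.sum_eq_single x]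
    · rw [if_pos rfl, if_pos hx]
    · intro y _ hy
      by_cases h1 : y.1 = x.1
      · rw [if_pos h1, if_neg]
        intro h2
        exact hy (h (Finset.mem_coe.2 h2) (Finset.mem_coe.2 hx) h1)
      · rw [if_neg h1]
    · intro h1
      exact absurd (Finset.mem_univ _) h1
  · rw [if_neg hk]
    refine Finset.sum_eq_zero (fun y _ => ?_)
    by_cases h1 : y.1 = k
    · rw [if_pos h1, if_neg]
      intro h2
      exact hk (Finset.mem_image.2 ⟨y, h2, h1⟩)
    · rw [if_neg h1]

theorem specDEF (hDEB : SpecDEB) (hDEC : SpecDEC) (hBLK : SpecBLK) (hTGT : SpecTGT) : SpecDEF := by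
  intro ι σ τ _ _ _ _ D col κ f S0 x0 h1 h2 h3 h4 h5 h6 h7 h8
  obtain ⟨C, φ, hC, hdim, hφ, hφ0, hinj⟩ := hDEB ι σ τ D col κ f S0 x0 h1 h2 h3 h4 h5 h6 h7 h8
  obtain ⟨f', hf', hd'⟩ := hDEC ι σ τ D col κ f S0 x0 C φ h1 h2 h3 h4 h5 hC hφ hφ0 hinj
  refine ⟨f', hf', ?_⟩
  obtain ⟨b1, b2, -, -, -⟩ := hBLK ℂ σ ι (ι × ZMod (2 * D + 1)) τ Prod.fst col
    (fun i => ind (κ i)) f Finset.univ S0 (fun i _ => h5 i) (fun i _ => ind_nonneg _)
  obtain ⟨t1, t2, -, -⟩ := hTGT ι S0 h1
  have hpush : ∀ i, push Prod.fst (ind (κ i)) = ind ((κ i).image Prod.fst) :=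
    fun i => push_ind (h4 i)
  simp only [hpush] at b2
  rw [b2]
  have hL : dq (Prod.fst ∘ col) (fun i => ind ((κ i).image Prod.fst)) f' Finset.univ S0 =
      (∑ S' ∈ fib Prod.fst S0, (rr col S' : ℤ)) -
        (Module.finrank ℂ (Id (Prod.fst ∘ col) (fun i => ind ((κ i).image Prod.fst)) f'
          Finset.univ S0) : ℤ) := by
    rw [dq, b1, Nat.cast_sum]
  have hd2 : (∑ S' ∈ fib Prod.fst S0,
        (Module.finrank ℂ (Id col (fun i => ind (κ i)) f Finset.univ S') : ℤ)) +
      ∑ l, (Module.finrank ℂ (C l) : ℤ) ≤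
      (Module.finrank ℂ (Id (Prod.fst ∘ col) (fun i => ind ((κ i).image Prod.fst)) f'
          Finset.univ S0) : ℤ) := by
    exact_mod_cast hd'
  have hsub : Finset.univ.image (lam (Z := ZMod (2 * D + 1)) S0) ⊆ fib Prod.fst S0 := by
    intro S' hS'
    obtain ⟨l, -, rfl⟩ := Finset.mem_image.1 hS'
    exact (mem_fib _ _ _).2 (t1 (2 * D + 1) l)
  have hkey : ∑ S' ∈ fib Prod.fst S0, (dq col (fun i => ind (κ i)) f Finset.univ S' -
      E col (fun i => ind (κ i)) Finset.univ S') ≤ ∑ l, (Module.finrank ℂ (C l) : ℤ) := by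
    rw [← Finset.sum_sdiff hsub]
    have ha : ∑ S' ∈ fib Prod.fst S0 \ Finset.univ.image (lam (Z := ZMod (2 * D + 1)) S0),
        (dq col (fun i => ind (κ i)) f Finset.univ S' -
          E col (fun i => ind (κ i)) Finset.univ S') ≤ 0 := by
      refine Finset.sum_nonpos (fun S' hS' => ?_)
      obtain ⟨hm, hn⟩ := Finset.mem_sdiff.1 hS'
      obtain ⟨hp, hq⟩ := (mem_fib _ _ _).1 hm
      have := h7 S' hp hq.le (fun l hl => hn (Finset.mem_image.2 ⟨l, Finset.mem_univ _, hl.symm⟩))
      linarith
    have hb : ∑ S' ∈ Finset.univ.image (lam (Z := ZMod (2 * D + 1)) S0),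
        (dq col (fun i => ind (κ i)) f Finset.univ S' -
          E col (fun i => ind (κ i)) Finset.univ S') ≤ ∑ l, (Module.finrank ℂ (C l) : ℤ) := by
      rw [Finset.sum_image (fun l _ l' _ h => t2 (2 * D + 1) l l' h)]
      exact Finset.sum_le_sum (fun l _ => hdim l)
    linarith
  rw [Finset.sum_sub_distrib] at hkey
  have hdq : ∑ S' ∈ fib Prod.fst S0, dq col (fun i => ind (κ i)) f Finset.univ S' =
      (∑ S' ∈ fib Prod.fst S0, (rr col S' : ℤ)) - ∑ S' ∈ fib Prod.fst S0,
        (Module.finrank ℂ (Id col (fun i => ind (κ i)) f Finset.univ S') : ℤ) := by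
    rw [← Finset.sum_sub_distrib]
    rfl
  rw [hL]
  linarith

end FrD.DEFM
end

section
/-!
# MP_921642_ag, FD: from one number of variables to all large ones (EV)
-/
set_option autoImplicit false

namespace FrD

open MvPolynomial

namespace EVM

/-- the graph of a function on `J` -/
def gr {ι : Type} [DecidableEq ι] {q : ℕ} (J : Finset ι) (g : J → Fin q) : Finset (ι × Fin q) :=
  Finset.univ.image (fun k : J => (k.1, g k))

lemma gr_inj {ι : Type} [DecidableEq ι] {q : ℕ} (J : Finset ι) :
    Function.Injective (gr (q := q) J) := by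
  intro g g' h
  funext k
  have h1 : (k.1, g k) ∈ gr J g' := by
    rw [← h]
    exact Finset.mem_image_of_mem _ (Finset.mem_univ k)
  obtain ⟨k', _, hk'⟩ := Finset.mem_image.1 h1
  have h2 : k'.1 = k.1 := congrArg Prod.fst hk'
  have h3 : k' = k := Subtype.ext h2
  subst h3
  exact (congrArg Prod.snd hk').symm

lemma gr_card {ι : Type} [DecidableEq ι] {q : ℕ} (J : Finset ι) (g : J → Fin q) :
    (gr J g).card = J.card := by
  rw [gr, Finset.card_image_of_injective, Finset.card_univ, Fintype.card_coe]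
  intro k k' h
  exact Subtype.ext (congrArg Prod.fst h)

lemma gr_fst {ι : Type} [DecidableEq ι] {q : ℕ} (J : Finset ι) (g : J → Fin q) :
    (gr J g).image Prod.fst = J := by
  ext k
  simp only [gr, Finset.mem_image, Finset.mem_univ, true_and]
  constructor
  · rintro ⟨_, ⟨k', rfl⟩, rfl⟩
    exact k'.2
  · intro hk
    exact ⟨_, ⟨⟨k, hk⟩, rfl⟩, rfl⟩

lemma count {ι : Type} [Fintype ι] [DecidableEq ι] {q : ℕ} (J : Finset ι) (w2 : ℕ) :
    q ^ J.card * w2 ≤ ∑ J' : Finset (ι × Fin q),
      if J'.image Prod.fst = J ∧ J'.card = J.card then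
        (if J'.card = J.card then w2 else 0) else 0 := by
  classical
  have h1 : ∑ J' ∈ Finset.univ.image (gr (q := q) J), w2 = q ^ J.card * w2 := by
    rw [Finset.sum_const, Finset.card_image_of_injective _ (gr_inj J), Finset.card_univ,
      Fintype.card_fun, Fintype.card_fin, Fintype.card_coe, smul_eq_mul]
  rw [← h1]
  have h2 : ∑ J' ∈ Finset.univ.image (gr (q := q) J), w2 =
      ∑ J' ∈ Finset.univ.image (gr (q := q) J),
        if J'.image Prod.fst = J ∧ J'.card = J.card then
          (if J'.card = J.card then w2 else 0) else 0 := by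
    refine Finset.sum_congr rfl (fun J' hJ' => ?_)
    obtain ⟨g, _, rfl⟩ := Finset.mem_image.1 hJ'
    rw [if_pos ⟨gr_fst J g, gr_card J g⟩, if_pos (gr_card J g)]
  rw [h2]
  exact Finset.sum_le_sum_of_subset (Finset.subset_univ _)

lemma vars {ι : Type} [Fintype ι] [DecidableEq ι] {q N2 : ℕ} (k : ι) :
    (∑ k' : ι × Fin q, if k'.1 = k then N2 else 0) = q * N2 := by
  rw [Fintype.sum_prod_type]
  rw [Finset.sum_eq_single k]
  · simp
  · intro b _ hb
    simp [hb]
  · intro h; exact absurd (Finset.mem_univ _) h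

lemma large (a : ℕ) (γ1 γ3 : ℝ) (h1 : 0 < γ1) (h3 : γ1 < γ3) :
    ∃ Q : ℕ, 1 ≤ Q ∧ ∀ q : ℕ, Q ≤ q → γ1 * ((q : ℝ) + 1) ^ a ≤ γ3 * (q : ℝ) ^ a := by
  have ht : Filter.Tendsto (fun q : ℕ => (1 + 1 / ((q : ℝ))) ^ a) Filter.atTop (nhds 1) := by
    have := ((tendsto_const_nhds (x := (1 : ℝ))).add
      (tendsto_one_div_atTop_nhds_zero_nat (𝕜 := ℝ))).pow a
    simpa using this
  have hlt : (1 : ℝ) < γ3 / γ1 := (one_lt_div h1).2 h3
  have he := (ht.eventually (gt_mem_nhds hlt)).and (Filter.eventually_ge_atTop 1)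
  obtain ⟨Q, hQ⟩ := Filter.eventually_atTop.1 he
  refine ⟨max Q 1, le_max_right _ _, fun q hq => ?_⟩
  obtain ⟨h4, h5⟩ := hQ q ((le_max_left _ _).trans hq)
  have hq0 : (0 : ℝ) < q := by exact_mod_cast h5
  have h6 : ((q : ℝ) + 1) ^ a = (1 + 1 / (q : ℝ)) ^ a * (q : ℝ) ^ a := by
    rw [← mul_pow]
    congr 1
    field_simp
  rw [h6, ← mul_assoc]
  refine mul_le_mul_of_nonneg_right ?_ (by positivity)
  have h7 := (lt_div_iff₀ h1).1 h4
  linarith

end EVM

open EVM in
theorem specEV (hBLX : SpecBLX) : SpecEV := by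
  classical
  intro ι _ _ S a N2 w2 γ1 γ3 hN2 hγ1 hγ3 hw2 hX
  obtain ⟨Q, hQ1, hQ⟩ := large a γ1 γ3 hγ1 hγ3
  refine ⟨Q * N2, fun N hN w hw => ?_⟩
  set q := N / N2 with hq
  have hqQ : Q ≤ q := (Nat.le_div_iff_mul_le (by omega)).2 hN
  have hq1 : 1 ≤ q := hQ1.trans hqQ
  have hqN : q * N2 ≤ N := Nat.div_mul_le_self N N2
  have hNq : N ≤ (q + 1) * N2 := by
    have := Nat.lt_succ_iff.1 (Nat.lt_succ_of_lt (Nat.lt_mul_div_succ N (show 0 < N2 by omega)))
    rw [mul_comm] at this
    simpa [hq] using this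
  have hwq : w ≤ q ^ a * w2 := by
    have e1 : (w : ℝ) ≤ (q : ℝ) ^ a * w2 := by
      calc (w : ℝ) ≤ γ1 * (N : ℝ) ^ a := hw
        _ ≤ γ1 * (((q : ℝ) + 1) * N2) ^ a := by
            refine mul_le_mul_of_nonneg_left ?_ hγ1.le
            refine pow_le_pow_left₀ (by positivity) ?_ a
            exact_mod_cast hNq
        _ = (γ1 * ((q : ℝ) + 1) ^ a) * (N2 : ℝ) ^ a := by rw [mul_pow]; ring
        _ ≤ (γ3 * (q : ℝ) ^ a) * (N2 : ℝ) ^ a :=
            mul_le_mul_of_nonneg_right (hQ q hqQ) (by positivity)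
        _ = (q : ℝ) ^ a * (γ3 * (N2 : ℝ) ^ a) := by ring
        _ ≤ (q : ℝ) ^ a * w2 := mul_le_mul_of_nonneg_left hw2 (by positivity)
    exact_mod_cast e1
  have hne : Nonempty (Fin q) := ⟨⟨0, hq1⟩⟩
  refine hBLX ℂ ι (ι × Fin q) Prod.fst (fun _ => N) (fun J => if J.card = a then w else 0)
    (fun _ => N2) (fun J' => if J'.card = a then w2 else 0) S
    (fun k => ⟨(k, hne.some), rfl⟩) (fun k _ => ?_) (fun J _ => ?_)
    (fun S' h1 h2 => hX q hq1 S' h1 h2)
  · rw [vars k]
    exact hqN
  · by_cases hJ : J.card = a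
    · rw [if_pos hJ]
      have := count (q := q) J w2
      subst hJ
      exact hwq.trans this
    · rw [if_neg hJ]
      exact Nat.zero_le _

end FrD
end

section
/-!
# MP_921642_ag, FD, module EXPN: the expansion inequality of an isolated colour
-/
set_option autoImplicit false

namespace FrD

open MvPolynomial

namespace EXPNM

/-- rank and nullity for a restricted map -/
theorem rn {F V W : Type*} [Field F] [AddCommGroup V] [Module F V] [AddCommGroup W] [Module F W]
    (f : V →ₗ[F] W) (K : Submodule F V) [Module.Finite F K] :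
    Module.finrank F (Submodule.map f K) + Module.finrank F (LinearMap.ker f ⊓ K : Submodule F V) =
      Module.finrank F K := by
  have h := LinearMap.finrank_range_add_finrank_ker (f.domRestrict K)
  rw [LinearMap.range_domRestrict] at h
  have h2 : Module.finrank F (LinearMap.ker (f.domRestrict K)) =
      Module.finrank F (LinearMap.ker f ⊓ K : Submodule F V) := by
    have e : Submodule.map K.subtype (LinearMap.ker (f.domRestrict K)) = LinearMap.ker f ⊓ K := by
      ext z
      constructor
      · rintro ⟨y, hy, rfl⟩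
        exact ⟨hy, y.2⟩
      · rintro ⟨h1, h2⟩
        exact ⟨⟨z, h2⟩, h1, rfl⟩
    rw [← e]
    exact (LinearEquiv.finrank_eq (Submodule.equivMapOfInjective _ K.injective_subtype _))
  rw [← h2]
  exact h

/-- the dimension of `B + f U` -/
theorem step {F V : Type*} [Field F] [AddCommGroup V] [Module F V]
    (f : V →ₗ[F] V) (U B : Submodule F V) [Module.Finite F U] [Module.Finite F B] :
    Module.finrank F (B ⊔ U.map f : Submodule F V) +
      Module.finrank F (B.comap f ⊓ U : Submodule F V) =
      Module.finrank F U + Module.finrank F B := by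
  have h1 := rn (B.mkQ ∘ₗ f) U
  have h2 := rn B.mkQ (B ⊔ U.map f)
  rw [Submodule.ker_mkQ, inf_eq_left.2 (le_sup_left : B ≤ B ⊔ U.map f), Submodule.map_sup,
    Submodule.mkQ_map_self, bot_sup_eq] at h2
  rw [LinearMap.ker_comp, Submodule.ker_mkQ, Submodule.map_comp] at h1
  omega

variable {F : Type} [Field F] {σ ι τ : Type} [Fintype σ] [Fintype ι] [DecidableEq ι] [DecidableEq τ]

/-- relations with the colour `z` do not contribute in multidegrees without `z` -/
theorem Id_union (col : σ → ι) (κ : τ → ι → ℤ) (f : τ → MvPolynomial σ F) (T H : Finset τ)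
    (S : ι → ℤ) (z : ι) (hS : S z = 0) (hH : ∀ i ∈ H, 0 < κ i z) :
    Id col κ f (T ∪ H) S = Id col κ f T S := by
  refine le_antisymm (iSup₂_le fun i hi => ?_) (Id_mono col κ f Finset.subset_union_left S)
  rcases Finset.mem_union.1 hi with h | h
  · exact le_iSup₂ (f := fun i (_ : i ∈ T) => (R F col (S - κ i)).map (LinearMap.mulLeft F (f i))) i h
  · rw [R_neg col, Submodule.map_bot]
    · exact bot_le
    · intro h0
      have h1 := h0 z
      have h2 := hH i h
      simp only [Pi.zero_apply, Pi.sub_apply] at h1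
      omega

end EXPNM

open EXPNM in
/-- EXPN: the expansion inequality. -/
theorem specEXPN (hD1 : SpecD1) (hISO : SpecISO) : SpecEXPN := by
  intro F _ σ ι τ _ _ _ _ col κ f T H S x z hTH hSy hxz hS hT hH hEx U hU1 hU2
  obtain ⟨-, hD⟩ := hD1 F σ ι τ col κ f (T ∪ H) (S + Pi.single x 1 + Pi.single z 1) hSy hEx
  have hfT : ∀ i ∈ T, f i ∈ R F col (κ i) := fun i hi => (hSy i (Finset.mem_union_left _ hi)).1
  have hSx : (S + Pi.single x 1 : ι → ℤ) z = 0 := by
    rw [Pi.add_apply, hS, Pi.single_eq_of_ne (Ne.symm hxz), add_zero]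
  have hxz0 : (Pi.single x 1 : ι → ℤ) z = 0 := Pi.single_eq_of_ne (Ne.symm hxz) _
  obtain ⟨hi1, hi2, hi3⟩ := hISO F σ ι τ col κ f T (S + Pi.single x 1) z hSx hT
  obtain ⟨-, -, hj3⟩ := hISO F σ ι τ col κ f T (Pi.single x 1) z hxz0 hT
  have hκz : ∀ i ∈ H, 0 < κ i z := by
    intro i hi
    rw [hH i hi, Pi.add_apply, hxz0, Pi.single_eq_same]
    norm_num
  haveI : Module.Finite F U := Submodule.finiteDimensional_of_le hU2
  set A := Id col κ f T (S + Pi.single x 1 + Pi.single z 1) with hA
  -- the induction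
  have key : ∀ H' : Finset τ, H' ⊆ H →
      (A ⊔ ⨆ i ∈ H', U.map (LinearMap.mulLeft F (f i)) : Submodule F (MvPolynomial σ F)) ≤
        Id col κ f (T ∪ H') (S + Pi.single x 1 + Pi.single z 1) ∧
      (H'.card : ℤ) * ((Module.finrank F U : ℤ) - (Module.finrank F (Id col κ f T S) : ℤ)) ≤
        (Module.finrank F (A ⊔ ⨆ i ∈ H', U.map (LinearMap.mulLeft F (f i)) :
          Submodule F (MvPolynomial σ F)) : ℤ) - (Module.finrank F A : ℤ) := by
    intro H'
    induction H' using Finset.induction_on with
    | empty =>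
      intro _
      have h0 : (A ⊔ ⨆ i ∈ (∅ : Finset τ), U.map (LinearMap.mulLeft F (f i)) :
          Submodule F (MvPolynomial σ F)) = A := by simp
      rw [h0, Finset.union_empty, Finset.card_empty, Nat.cast_zero, zero_mul, sub_self]
      exact ⟨le_rfl, le_rfl⟩
    | insert i H' hi ih =>
      intro hsub
      have hiH : i ∈ H := hsub (Finset.mem_insert_self _ _)
      obtain ⟨ih1, ih2⟩ := ih ((Finset.subset_insert _ _).trans hsub)
      set B : Submodule F (MvPolynomial σ F) :=
        A ⊔ ⨆ i ∈ H', U.map (LinearMap.mulLeft F (f i)) with hB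
      have hBi : (A ⊔ ⨆ j ∈ insert i H', U.map (LinearMap.mulLeft F (f j)) :
          Submodule F (MvPolynomial σ F)) = B ⊔ U.map (LinearMap.mulLeft F (f i)) := by
        rw [Finset.iSup_insert, hB, sup_comm (U.map (LinearMap.mulLeft F (f i))), sup_assoc]
      rw [hBi]
      have hdeg : S + Pi.single x 1 + Pi.single z 1 - κ i = S := by
        rw [hH i hiH]
        abel
      haveI : Module.Finite F B := Submodule.finiteDimensional_of_le ih1
      refine ⟨sup_le (ih1.trans (Id_mono col κ f ?_ _)) ?_, ?_⟩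
      · intro j hj
        rcases Finset.mem_union.1 hj with h | h
        · exact Finset.mem_union_left _ h
        · exact Finset.mem_union_right _ (Finset.mem_insert_of_mem h)
      · rintro _ ⟨u, hu, rfl⟩
        refine f_mul_mem_Id col κ f _ (Finset.mem_union_right _ (Finset.mem_insert_self _ _)) ?_
        rw [hdeg]
        exact hU2 hu
      · have h1 := step (LinearMap.mulLeft F (f i)) U B
        have h2 : (B.comap (LinearMap.mulLeft F (f i)) ⊓ U : Submodule F (MvPolynomial σ F)) ≤
            Id col κ f T S := by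
          rintro u ⟨hu1, hu2⟩
          have h3 : f i * u ∈ Id col κ f (T ∪ H') (S + Pi.single x 1 + Pi.single z 1) := ih1 hu1
          have h4 := hD (T ∪ H') (Finset.union_subset_union_right
            ((Finset.subset_insert _ _).trans hsub)) i (Finset.mem_union_right _ hiH) ?_
            (S + Pi.single x 1 + Pi.single z 1) le_rfl u (by rw [hdeg]; exact hU2 hu2) h3
          · rw [hdeg, Id_union col κ f T H' S z hS
              (fun j hj => hκz j (hsub (Finset.mem_insert_of_mem hj)))] at h4
            exact h4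
          · intro h
            rcases Finset.mem_union.1 h with h | h
            · exact (Finset.disjoint_left.1 hTH) h hiH
            · exact hi h
        have h5 := Submodule.finrank_mono h2
        rw [Finset.card_insert_of_notMem hi]
        push_cast
        have h6 : (Module.finrank F (B ⊔ U.map (LinearMap.mulLeft F (f i)) :
            Submodule F (MvPolynomial σ F)) : ℤ) +
            (Module.finrank F (B.comap (LinearMap.mulLeft F (f i)) ⊓ U :
              Submodule F (MvPolynomial σ F)) : ℤ) =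
            (Module.finrank F U : ℤ) + (Module.finrank F B : ℤ) := by exact_mod_cast h1
        have h7 : (Module.finrank F (B.comap (LinearMap.mulLeft F (f i)) ⊓ U :
              Submodule F (MvPolynomial σ F)) : ℤ) ≤ (Module.finrank F (Id col κ f T S) : ℤ) := by
          exact_mod_cast h5
        linarith
  obtain ⟨-, hk⟩ := key H subset_rfl
  refine hk.trans ?_
  -- the upper bound
  set V : Submodule F (MvPolynomial σ F) :=
    R F col (Pi.single x 1) * U ⊔ Id col κ f T (S + Pi.single x 1) with hV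
  have hV1 : V ≤ R F col (S + Pi.single x 1) := by
    refine sup_le (Submodule.mul_le.2 fun p hp q hq => ?_) (Id_le_R col κ f T hfT _)
    rw [add_comm]
    exact mul_mem_R col hp (hU2 hq)
  have hle : (A ⊔ ⨆ i ∈ H, U.map (LinearMap.mulLeft F (f i)) : Submodule F (MvPolynomial σ F)) ≤
      R F col (Pi.single z 1) * V := by
    refine sup_le ?_ (iSup₂_le fun i hi => ?_)
    · rw [hi2]
      exact mul_le_mul' le_rfl le_sup_right
    · rintro _ ⟨u, hu, rfl⟩
      rw [LinearMap.mulLeft_apply]
      have h1 : f i ∈ R F col (Pi.single z 1) * R F col (Pi.single x 1) := by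
        rw [← hj3, ← hH i hi]
        exact (hSy i (Finset.mem_union_right _ hi)).1
      have h2 := Submodule.mul_mem_mul h1 hu
      rw [mul_assoc] at h2
      exact (mul_le_mul' le_rfl (le_sup_left : R F col (Pi.single x 1) * U ≤ V) :
        R F col (Pi.single z 1) * (R F col (Pi.single x 1) * U) ≤ R F col (Pi.single z 1) * V) h2
  have hfin : R F col (Pi.single z 1) * V ≤ R F col (S + Pi.single x 1 + Pi.single z 1) := by
    rw [hi3]
    exact mul_le_mul' le_rfl hV1
  haveI : Module.Finite F (R F col (Pi.single z 1) * V : Submodule F (MvPolynomial σ F)) :=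
    Submodule.finiteDimensional_of_le hfin
  have h1 := Submodule.finrank_mono hle
  rw [hi1 V hV1] at h1
  have h2 : Module.finrank F A = Nat.card {v // col v = z} *
      Module.finrank F (Id col κ f T (S + Pi.single x 1)) := by
    rw [hi2, hi1 _ (Id_le_R col κ f T hfT _)]
  rw [h2]
  push_cast
  have h3 : (Module.finrank F (A ⊔ ⨆ i ∈ H, U.map (LinearMap.mulLeft F (f i)) :
      Submodule F (MvPolynomial σ F)) : ℤ) ≤
      (Nat.card {v // col v = z} : ℤ) * (Module.finrank F V : ℤ) := by exact_mod_cast h1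
  linarith

end FrD
end

section
/-!
# MP_921642_ag, FD: FM, the counting lemma over a finite field
-/
set_option autoImplicit false

namespace FrD.FMM

open MvPolynomial

section

variable {k : Type} [Field k] {𝒥 : Type} [Fintype 𝒥] {A D : 𝒥 → Type}
  [∀ J, AddCommGroup (A J)] [∀ J, Module k (A J)]
  [∀ J, AddCommGroup (D J)] [∀ J, Module k (D J)]
  {Q : Type} [AddCommGroup Q] [Module k Q]

/-- the linear map given by a family `d` -/
noncomputable def L (μ : ∀ J, A J →ₗ[k] D J →ₗ[k] Q) (n : 𝒥 → ℕ) (d : ∀ J, Fin (n J) → D J) :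
    (∀ J, Fin (n J) → A J) →ₗ[k] Q :=
  ∑ J, ∑ j, ((μ J).flip (d J j)) ∘ₗ (LinearMap.proj j) ∘ₗ (LinearMap.proj J)

lemma L_apply (μ : ∀ J, A J →ₗ[k] D J →ₗ[k] Q) (n : 𝒥 → ℕ) (d : ∀ J, Fin (n J) → D J)
    (a : ∀ J, Fin (n J) → A J) : L μ n d a = ∑ J, ∑ j, μ J (a J j) (d J j) := by
  simp [L, LinearMap.sum_apply]

lemma mem_range_L (μ : ∀ J, A J →ₗ[k] D J →ₗ[k] Q) (n : 𝒥 → ℕ) (d : ∀ J, Fin (n J) → D J)
    (J : 𝒥) (j : Fin (n J)) (a : A J) : μ J a (d J j) ∈ LinearMap.range (L μ n d) := by
  classical
  refine ⟨Pi.single J (Pi.single j a), ?_⟩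
  rw [L_apply, Finset.sum_eq_single J]
  · rw [Finset.sum_eq_single j]
    · simp
    · intro b _ hb
      simp [Pi.single_eq_of_ne hb]
    · intro h; exact absurd (Finset.mem_univ _) h
  · intro J' _ hJ'
    refine Finset.sum_eq_zero (fun b _ => ?_)
    rw [Pi.single_eq_of_ne hJ']
    simp
  · intro h; exact absurd (Finset.mem_univ _) h

end

theorem specFM : SpecFM := by
  intro k _ _ 𝒥 _ A D _ _ _ _ _ _ Q _ _ _ μ u h1 h2
  classical
  haveI : ∀ J, Finite (A J) := fun J => Module.finite_of_finite k
  haveI : ∀ J, Finite (D J) := fun J => Module.finite_of_finite k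
  haveI : Finite Q := Module.finite_of_finite k
  haveI hfs : Finite (Submodule k Q) :=
    Finite.of_injective (fun Z : Submodule k Q => (Z : Set Q)) SetLike.coe_injective
  haveI : Fintype (Submodule k Q) := Fintype.ofFinite _
  set q := Nat.card k with hqdef
  have hq : 2 ≤ q := Finite.one_lt_card
  refine ⟨Fintype.card (Submodule k Q), fun m hm => ?_⟩
  set n : 𝒥 → ℕ := fun J => u J * m with hn
  haveI : Fintype (∀ J, Fin (n J) → A J) := Fintype.ofFinite _
  haveI : Fintype (∀ J, Fin (n J) → D J) := Fintype.ofFinite _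
  haveI : ∀ J, Fintype (D J) := fun J => Fintype.ofFinite _
  by_contra hcon
  -- a bad `d` for every `ψ`
  have hbad : ∀ ψ : Fin m → (∀ J, Fin (n J) → A J), ∃ d : ∀ J, Fin (n J) → D J,
      (∀ t, L μ n d (ψ t) = 0) ∧ LinearMap.range (L μ n d) ≠ ⊥ := by
    intro ψ
    by_contra hno
    push Not at hno
    apply hcon
    refine ⟨fun J j t => ψ t J j, fun d hd J j => ?_⟩
    by_contra hne
    have hz := hno d (fun t => by rw [L_apply]; exact hd t)
    have hu : 0 < u J := by
      rcases Nat.eq_zero_or_pos (u J) with h0 | h0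
      · exfalso
        have := j.2
        simp only [hn, h0, Nat.zero_mul] at this
        exact absurd this (Nat.not_lt_zero _)
      · exact h0
    apply hne
    apply h1 J hu
    intro a
    have := mem_range_L μ n d J j a
    rw [hz] at this
    exact (Submodule.mem_bot k).1 this
  set α := Module.finrank k (∀ J, Fin (n J) → A J) with hα
  -- the number of `d` with a given range
  have hcount : ∀ Z : Submodule k Q, Z ≠ ⊥ →
      (Finset.univ.filter (fun d : ∀ J, Fin (n J) → D J => LinearMap.range (L μ n d) = Z)).card ≤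
        q ^ ((Module.finrank k Z - 1) * m) := by
    intro Z hZ
    set C : ∀ J, Submodule k (D J) := fun J => ⨅ a : A J, Z.comap (μ J a) with hC
    have hsub : (Finset.univ.filter (fun d : ∀ J, Fin (n J) → D J =>
        LinearMap.range (L μ n d) = Z)) ⊆
        Fintype.piFinset (fun J => Fintype.piFinset (fun _ : Fin (n J) =>
          Finset.univ.filter (fun x : D J => x ∈ C J))) := by
      intro d hd
      rw [Finset.mem_filter] at hd
      rw [Fintype.mem_piFinset]
      intro J
      rw [Fintype.mem_piFinset]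
      intro j
      rw [Finset.mem_filter]
      refine ⟨Finset.mem_univ _, ?_⟩
      simp only [hC, Submodule.mem_iInf, Submodule.mem_comap]
      intro a
      rw [← hd.2]
      exact mem_range_L μ n d J j a
    refine (Finset.card_le_card hsub).trans ?_
    rw [Fintype.card_piFinset]
    have e1 : ∀ J, (Fintype.piFinset (fun _ : Fin (n J) =>
        Finset.univ.filter (fun x : D J => x ∈ C J))).card =
        q ^ (Module.finrank k (C J) * n J) := by
      intro J
      rw [Fintype.card_piFinset, Finset.prod_const, Finset.card_univ, Fintype.card_fin, pow_mul q]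
      congr 1
      rw [← Module.natCard_eq_pow_finrank, Nat.card_eq_fintype_card, Fintype.card_subtype]
    rw [Finset.prod_congr rfl (fun J _ => e1 J), Finset.prod_pow_eq_pow_sum]
    apply Nat.pow_le_pow_right (by omega)
    have h3 := h2 Z hZ
    have e2 : ∑ J, Module.finrank k (C J) * n J =
        (∑ J, u J * Module.finrank k (C J)) * m := by
      rw [Finset.sum_mul]
      refine Finset.sum_congr rfl (fun J _ => ?_)
      simp only [hn]; ring
    rw [e2]
    exact Nat.mul_le_mul_right _ (Nat.le_sub_one_of_lt h3)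
  -- the number of `ψ` for a given `d`
  have hker : ∀ d : ∀ J, Fin (n J) → D J,
      (Finset.univ.filter (fun ψ : Fin m → (∀ J, Fin (n J) → A J) =>
        ∀ t, L μ n d (ψ t) = 0)).card =
        q ^ ((α - Module.finrank k (LinearMap.range (L μ n d))) * m) := by
    intro d
    have e1 : (Finset.univ.filter (fun ψ : Fin m → (∀ J, Fin (n J) → A J) =>
        ∀ t, L μ n d (ψ t) = 0)) = Fintype.piFinset (fun _ : Fin m =>
          Finset.univ.filter (fun x : ∀ J, Fin (n J) → A J => x ∈ LinearMap.ker (L μ n d))) := by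
      ext ψ
      simp [Fintype.mem_piFinset, LinearMap.mem_ker]
    rw [e1, Fintype.card_piFinset, Finset.prod_const, Finset.card_univ, Fintype.card_fin, pow_mul q]
    congr 1
    have e2 : Module.finrank k (LinearMap.ker (L μ n d)) =
        α - Module.finrank k (LinearMap.range (L μ n d)) := by
      have := LinearMap.finrank_range_add_finrank_ker (L μ n d)
      omega
    rw [← e2, ← Module.natCard_eq_pow_finrank, Nat.card_eq_fintype_card, Fintype.card_subtype]
  -- total
  have hαpos : 1 ≤ α := by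
    obtain ⟨d, -, hd⟩ := hbad 0
    by_contra h0
    apply hd
    have h3 := LinearMap.finrank_range_add_finrank_ker (L μ n d)
    have h4 : Module.finrank k (LinearMap.range (L μ n d)) = 0 := by omega
    exact Submodule.finrank_eq_zero.1 h4
  have htot : q ^ (α * m) ≤ Fintype.card (Submodule k Q) * q ^ ((α - 1) * m) := by
    have e1 : q ^ (α * m) = (Finset.univ : Finset (Fin m → (∀ J, Fin (n J) → A J))).card := by
      rw [Finset.card_univ, Fintype.card_fun, Fintype.card_fin, pow_mul q, ← Nat.card_eq_fintype_card,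
        Module.natCard_eq_pow_finrank (K := k)]
    have hsub : (Finset.univ : Finset (Fin m → (∀ J, Fin (n J) → A J))) ⊆
        (Finset.univ.filter (fun Z : Submodule k Q => Z ≠ ⊥)).biUnion (fun Z =>
          (Finset.univ.filter (fun d : ∀ J, Fin (n J) → D J =>
            LinearMap.range (L μ n d) = Z)).biUnion (fun d =>
            Finset.univ.filter (fun ψ : Fin m → (∀ J, Fin (n J) → A J) =>
              ∀ t, L μ n d (ψ t) = 0))) := by
      intro ψ _
      obtain ⟨d, hd, hd2⟩ := hbad ψ
      simp only [Finset.mem_biUnion, Finset.mem_filter, Finset.mem_univ, true_and]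
      exact ⟨_, hd2, d, rfl, hd⟩
    rw [e1]
    refine (Finset.card_le_card hsub).trans (Finset.card_biUnion_le.trans ?_)
    have h3 : ∀ Z ∈ Finset.univ.filter (fun Z : Submodule k Q => Z ≠ ⊥),
        ((Finset.univ.filter (fun d : ∀ J, Fin (n J) → D J =>
            LinearMap.range (L μ n d) = Z)).biUnion (fun d =>
            Finset.univ.filter (fun ψ : Fin m → (∀ J, Fin (n J) → A J) =>
              ∀ t, L μ n d (ψ t) = 0))).card ≤ q ^ ((α - 1) * m) := by
      intro Z hZ
      rw [Finset.mem_filter] at hZ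
      rcases (Finset.univ.filter (fun d : ∀ J, Fin (n J) → D J =>
            LinearMap.range (L μ n d) = Z)).eq_empty_or_nonempty with h0 | ⟨d0, hd0⟩
      · rw [h0]; simp
      · rw [Finset.mem_filter] at hd0
        have hZα : Module.finrank k Z ≤ α := by
          have := LinearMap.finrank_range_add_finrank_ker (L μ n d0)
          rw [hd0.2] at this
          omega
        have hZ1 : 1 ≤ Module.finrank k Z := by
          by_contra hlt
          exact hZ.2 (Submodule.finrank_eq_zero.1 (by omega))
        refine (Finset.card_biUnion_le).trans ?_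
        have h4 : ∀ d ∈ (Finset.univ.filter (fun d : ∀ J, Fin (n J) → D J =>
            LinearMap.range (L μ n d) = Z)),
            (Finset.univ.filter (fun ψ : Fin m → (∀ J, Fin (n J) → A J) =>
              ∀ t, L μ n d (ψ t) = 0)).card = q ^ ((α - Module.finrank k Z) * m) := by
          intro d hd
          rw [Finset.mem_filter] at hd
          rw [hker d, hd.2]
        rw [Finset.sum_congr rfl h4, Finset.sum_const, smul_eq_mul]
        refine (Nat.mul_le_mul_right _ (hcount Z hZ.2)).trans ?_
        rw [← pow_add, ← add_mul]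
        apply Nat.pow_le_pow_right (by omega)
        apply Nat.mul_le_mul_right
        omega
    refine (Finset.sum_le_sum h3).trans ?_
    rw [Finset.sum_const, smul_eq_mul]
    exact Nat.mul_le_mul_right _ (Finset.card_le_univ _)
  have e3 : q ^ (α * m) = q ^ m * q ^ ((α - 1) * m) := by
    rw [← pow_add]
    congr 1
    obtain ⟨β, hβ⟩ : ∃ β, α = β + 1 := ⟨α - 1, by omega⟩
    rw [hβ, Nat.add_sub_cancel]
    ring
  rw [e3] at htot
  have h5 : q ^ m ≤ Fintype.card (Submodule k Q) :=
    Nat.le_of_mul_le_mul_right htot (Nat.pos_of_ne_zero (by positivity))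
  have h6 : m < 2 ^ m := Nat.lt_two_pow_self
  have h7 : 2 ^ m ≤ q ^ m := Nat.pow_le_pow_left hq m
  omega

end FrD.FMM
end

section
/-!
# MP_921642_ag, FD: module FMQ

The counting lemma FM for the multidegree pieces of a multigraded polynomial ring modulo an ideal.
-/
set_option autoImplicit false

namespace FrD.FMQM

open MvPolynomial FrD

section general

variable {k V : Type} [Field k] [AddCommGroup V] [Module k V]

/-- the subspace of `V` which corresponds to a subspace of `P / I` -/
def lft (P I : Submodule k V) (W : Submodule k (P ⧸ I.comap P.subtype)) : Submodule k V :=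
  (W.comap (I.comap P.subtype).mkQ).map P.subtype

lemma mem_lft (P I : Submodule k V) (W : Submodule k (P ⧸ I.comap P.subtype)) (x : V) :
    x ∈ lft P I W ↔ ∃ h : x ∈ P, (I.comap P.subtype).mkQ ⟨x, h⟩ ∈ W := by
  simp only [lft, Submodule.mem_map, Submodule.mem_comap]
  constructor
  · rintro ⟨y, hy, rfl⟩
    exact ⟨y.2, hy⟩
  · rintro ⟨h, hW⟩
    exact ⟨⟨x, h⟩, hW, rfl⟩

lemma lft_le (P I : Submodule k V) (W : Submodule k (P ⧸ I.comap P.subtype)) : lft P I W ≤ P := by
  intro x hx
  exact ((mem_lft P I W x).1 hx).1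

lemma mkQ_eq_zero (P I : Submodule k V) (x : V) (h : x ∈ P) :
    (I.comap P.subtype).mkQ ⟨x, h⟩ = 0 ↔ x ∈ I := by
  rw [Submodule.mkQ_apply, Submodule.Quotient.mk_eq_zero]
  exact Iff.rfl

lemma le_lft (P I : Submodule k V) (hI : I ≤ P) (W : Submodule k (P ⧸ I.comap P.subtype)) :
    I ≤ lft P I W := by
  intro x hx
  refine (mem_lft P I W x).2 ⟨hI hx, ?_⟩
  rw [(mkQ_eq_zero P I x (hI hx)).2 hx]
  exact W.zero_mem

/-- the projection of `lft` to `W` -/
def toW (P I : Submodule k V) (W : Submodule k (P ⧸ I.comap P.subtype)) : lft P I W →ₗ[k] W :=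
  LinearMap.codRestrict W
    ((I.comap P.subtype).mkQ.comp (Submodule.inclusion (lft_le P I W)))
    (fun x => ((mem_lft P I W x).1 x.2).2)

lemma toW_surj (P I : Submodule k V) (W : Submodule k (P ⧸ I.comap P.subtype)) :
    Function.Surjective (toW P I W) := by
  rintro ⟨w, hw⟩
  obtain ⟨⟨x, hx⟩, rfl⟩ := Submodule.mkQ_surjective _ w
  exact ⟨⟨x, (mem_lft P I W x).2 ⟨hx, hw⟩⟩, rfl⟩

lemma ker_toW (P I : Submodule k V) (W : Submodule k (P ⧸ I.comap P.subtype)) :
    LinearMap.ker (toW P I W) = I.comap (lft P I W).subtype := by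
  ext ⟨x, hx⟩
  rw [LinearMap.mem_ker, ← Subtype.coe_inj]
  exact mkQ_eq_zero P I x (lft_le P I W hx)

lemma finrank_lft (P I : Submodule k V) [Module.Finite k P] (hI : I ≤ P)
    (W : Submodule k (P ⧸ I.comap P.subtype)) :
    Module.finrank k (lft P I W) = Module.finrank k W + Module.finrank k I := by
  have hfin : Module.Finite k (lft P I W) := Submodule.finiteDimensional_of_le (lft_le P I W)
  have h1 := LinearMap.finrank_range_add_finrank_ker (toW P I W)
  rw [LinearMap.range_eq_top.2 (toW_surj P I W), finrank_top, ker_toW] at h1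
  rw [← h1]
  congr 1
  exact LinearEquiv.finrank_eq (Submodule.comapSubtypeEquivOfLe (le_lft P I hI W))

end general

section main

variable {k σ ι τ : Type} [Field k] [Fintype σ] [DecidableEq ι]

/-- multiplication of forms -/
noncomputable def mulR (col : σ → ι) (S : ι → ℤ) (J : Finset ι) :
    R k col (ind J) →ₗ[k] R k col (S - ind J) →ₗ[k] R k col S :=
  LinearMap.mk₂ k (fun a g => ⟨(a : MvPolynomial σ k) * g, by
      have := mul_mem_R col a.2 g.2
      rwa [add_sub_cancel] at this⟩)
    (fun a b g => Subtype.ext (add_mul _ _ _))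
    (fun c a g => Subtype.ext (by simp))
    (fun a g h => Subtype.ext (mul_add _ _ _))
    (fun c a g => Subtype.ext (by simp))

lemma mulR_coe (col : σ → ι) (S : ι → ℤ) (J : Finset ι) (a : R k col (ind J))
    (g : R k col (S - ind J)) :
    ((mulR col S J a g : R k col S) : MvPolynomial σ k) = (a : MvPolynomial σ k) * g := rfl

variable (col : σ → ι) (κ : τ → ι → ℤ) (f : τ → MvPolynomial σ k) (T : Finset τ) (S : ι → ℤ)

/-- the ideal in `R S'` -/
noncomputable abbrev IQ (S' : ι → ℤ) : Submodule k (R k col S') :=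
  (Id col κ f T S').comap (R k col S').subtype

lemma le_comap (J : Finset ι) (a : R k col (ind J)) :
    IQ col κ f T (S - ind J) ≤ (IQ col κ f T S).comap (mulR col S J a) := by
  intro g hg
  have h := mul_mem_Id col κ f T a.2 (show (g : MvPolynomial σ k) ∈ Id col κ f T (S - ind J) from hg)
  rw [sub_add_cancel] at h
  exact h

/-- multiplication modulo the ideal -/
noncomputable def mu (J : Finset ι) : R k col (ind J) →ₗ[k]
    (R k col (S - ind J) ⧸ IQ col κ f T (S - ind J)) →ₗ[k] (R k col S ⧸ IQ col κ f T S) :=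
  LinearMap.mk₂ k (fun a d => Submodule.mapQ _ _ (mulR col S J a) (le_comap col κ f T S J a) d)
    (fun a b d => by
      obtain ⟨g, rfl⟩ := Submodule.Quotient.mk_surjective _ d
      simp only [Submodule.mapQ_apply, map_add, LinearMap.add_apply, Submodule.Quotient.mk_add])
    (fun c a d => by
      obtain ⟨g, rfl⟩ := Submodule.Quotient.mk_surjective _ d
      simp only [Submodule.mapQ_apply, map_smul, LinearMap.smul_apply, Submodule.Quotient.mk_smul])
    (fun a d d' => map_add _ _ _)
    (fun c a d => map_smul _ _ _)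

lemma mu_mk (J : Finset ι) (a : R k col (ind J)) (g : R k col (S - ind J)) :
    mu col κ f T S J a ((IQ col κ f T (S - ind J)).mkQ g) =
      (IQ col κ f T S).mkQ (mulR col S J a g) := rfl

/-- the preimage of the quotient ideal -/
lemma lft_iInf (J : Finset ι) (Z : Submodule k (R k col S ⧸ IQ col κ f T S)) :
    lft (R k col (S - ind J)) (Id col κ f T (S - ind J))
        (⨅ a : R k col (ind J), Z.comap (mu col κ f T S J a)) =
      cln col S (lft (R k col S) (Id col κ f T S) Z) J := by
  ext g
  rw [mem_lft]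
  constructor
  · rintro ⟨hg, h⟩
    refine ⟨hg, fun a ha => ?_⟩
    rw [Submodule.mem_iInf] at h
    have h1 := h ⟨a, ha⟩
    rw [Submodule.mem_comap] at h1
    exact (mem_lft _ _ _ _).2 ⟨(mulR col S J ⟨a, ha⟩ ⟨g, hg⟩).2, h1⟩
  · rintro ⟨hg, h⟩
    refine ⟨hg, ?_⟩
    rw [Submodule.mem_iInf]
    rintro ⟨a, ha⟩
    rw [Submodule.mem_comap]
    obtain ⟨h1, h2⟩ := (mem_lft _ _ _ _).1 (h a ha)
    exact h2

end main

theorem specFMQ (hFM : SpecFM) : SpecFMQ := by
  intro k _ _ σ ι τ _ _ _ col κ f T S u hf h1 h2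
  have hId : ∀ S' : ι → ℤ, Id col κ f T S' ≤ R k col S' := Id_le_R col κ f T hf
  have key := hFM k (Finset ι) (fun J => R k col (ind J))
    (fun J => R k col (S - ind J) ⧸ IQ col κ f T (S - ind J))
    (R k col S ⧸ IQ col κ f T S) (fun J => mu col κ f T S J) u
  have key1 := key (by
    intro J hJ d hd
    obtain ⟨g, rfl⟩ := Submodule.mkQ_surjective _ d
    refine (mkQ_eq_zero _ _ (g : MvPolynomial σ k) g.2).2 ?_
    rw [← h1 J hJ]
    refine ⟨g.2, fun a ha => ?_⟩
    have h3 := hd ⟨a, ha⟩
    rw [mu_mk] at h3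
    exact (mkQ_eq_zero _ _ _ (mulR col S J ⟨a, ha⟩ g).2).1 h3)
  have key2 := key1 (by
    intro Z hZ
    have h3 := h2 (lft (R k col S) (Id col κ f T S) Z) (le_lft _ _ (hId S) Z) (lft_le _ _ Z) ?_
    · rw [finrank_lft _ _ (hId S) Z] at h3
      have h4 : ∀ J : Finset ι, (Module.finrank k
          (cln col S (lft (R k col S) (Id col κ f T S) Z) J) : ℤ) -
          (Module.finrank k (Id col κ f T (S - ind J)) : ℤ) =
          (Module.finrank k (⨅ a : R k col (ind J), Z.comap (mu col κ f T S J a) :
            Submodule k (R k col (S - ind J) ⧸ IQ col κ f T (S - ind J))) : ℤ) := by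
        intro J
        rw [← lft_iInf, finrank_lft _ _ (hId _) _]
        push_cast
        ring
      simp only [h4] at h3
      push_cast at h3
      have h5 : (∑ J : Finset ι, (u J : ℤ) * (Module.finrank k
          (⨅ a : R k col (ind J), Z.comap (mu col κ f T S J a) :
            Submodule k (R k col (S - ind J) ⧸ IQ col κ f T (S - ind J))) : ℤ)) <
          (Module.finrank k Z : ℤ) := by linarith
      exact_mod_cast h5
    · intro h4
      apply hZ
      rw [eq_bot_iff]
      intro z hz
      obtain ⟨g, rfl⟩ := Submodule.mkQ_surjective _ z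
      have h5 : (g : MvPolynomial σ k) ∈ lft (R k col S) (Id col κ f T S) Z :=
        (mem_lft _ _ _ _).2 ⟨g.2, hz⟩
      rw [h4] at h5
      rw [Submodule.mem_bot]
      exact (mkQ_eq_zero _ _ (g : MvPolynomial σ k) g.2).2 h5)
  obtain ⟨m0, hm0⟩ := key2
  refine ⟨m0, fun m hm => ?_⟩
  obtain ⟨φ, hφ⟩ := hm0 m hm
  refine ⟨fun J j t => (φ J j t : MvPolynomial σ k), fun J j t => (φ J j t).2, ?_⟩
  intro g hg hsum J j
  have h3 := hφ (fun J j => (IQ col κ f T (S - ind J)).mkQ ⟨g J j, hg J j⟩) ?_ J j
  · exact (mkQ_eq_zero _ _ _ _).1 h3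
  · intro t
    have h4 : ∑ J : Finset ι, ∑ j, mu col κ f T S J (φ J j t)
        ((IQ col κ f T (S - ind J)).mkQ ⟨g J j, hg J j⟩) =
        (IQ col κ f T S).mkQ (∑ J : Finset ι, ∑ j, mulR col S J (φ J j t) ⟨g J j, hg J j⟩) := by
      simp only [map_sum, mu_mk]
    rw [h4, Submodule.mkQ_apply, Submodule.Quotient.mk_eq_zero]
    change (R k col S).subtype _ ∈ Id col κ f T S
    simp only [map_sum, Submodule.subtype_apply, mulR_coe]
    exact hsum t

end FrD.FMQM
end

section
/-!
# MP_921642_ag, FD: GRD, the greedy choice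
-/
set_option autoImplicit false

namespace FrD.GRDM

open FrD

/-- common kernel of the maps `ψ c`, `c < n` -/
def KK {F : Type} [Field F] {C : Type} [AddCommGroup C] [Module F C] {D : ℕ} {Q : Fin D → Type}
    [∀ c, AddCommGroup (Q c)] [∀ c, Module F (Q c)] (n : ℕ) (ψ : ∀ c, C →ₗ[F] Q c) :
    Submodule F C where
  carrier := {g | ∀ c : Fin D, (c : ℕ) < n → ψ c g = 0}
  add_mem' := by
    intro x y hx hy c hc
    rw [map_add, hx c hc, hy c hc, add_zero]
  zero_mem' := fun c _ => map_zero _
  smul_mem' := by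
    intro a x hx c hc
    rw [map_smul, hx c hc, smul_zero]

theorem specGRD : SpecGRD := by
  intro F _ C _ _ _ D Q _ _ W hC hne hψ
  have key : ∀ n ≤ D, ∃ ψ : ∀ c, C →ₗ[F] Q c, (∀ c, ψ c ∈ W c) ∧
      Module.finrank F (KK n ψ) ≤ D - n := by
    intro n
    induction n with
    | zero =>
      intro _
      refine ⟨fun c => (hne c).some, fun c => (hne c).some_mem, ?_⟩
      exact (Submodule.finrank_le _).trans hC
    | succ n ih =>
      intro hn
      obtain ⟨ψ, h1, h2⟩ := ih (by omega)
      by_cases hK : KK n ψ = ⊥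
      · refine ⟨ψ, h1, ?_⟩
        have h3 : KK (n + 1) ψ = ⊥ := by
          rw [eq_bot_iff, ← hK]
          intro g hg c hc
          exact hg c (by omega)
        rw [h3, finrank_bot]
        omega
      · obtain ⟨g, hg, hg0⟩ := Submodule.exists_mem_ne_zero_of_ne_bot hK
        obtain ⟨ψ', h3, h4⟩ := hψ ⟨n, by omega⟩ g hg0
        refine ⟨Function.update ψ ⟨n, by omega⟩ ψ', fun c => ?_, ?_⟩
        · by_cases hc : c = ⟨n, by omega⟩
          · subst hc
            rw [Function.update_self]
            exact h3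
          · rw [Function.update_of_ne hc]
            exact h1 c
        · have h5 : KK (n + 1) (Function.update ψ ⟨n, by omega⟩ ψ') < KK n ψ := by
            refine lt_of_le_of_ne ?_ ?_
            · intro x hx c hc
              have h6 := hx c (by omega)
              rwa [Function.update_of_ne] at h6
              intro h7
              rw [h7] at hc
              exact lt_irrefl _ hc
            · intro h6
              rw [← h6] at hg
              have h7 := hg ⟨n, by omega⟩ (Nat.lt_succ_self n)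
              rw [Function.update_self] at h7
              exact h4 h7
          have h8 := Submodule.finrank_lt_finrank_of_lt h5
          omega
  obtain ⟨ψ, h1, h2⟩ := key D le_rfl
  refine ⟨ψ, h1, fun g hg => ?_⟩
  have h3 : KK D ψ = ⊥ := by
    rw [← Submodule.finrank_eq_zero (R := F)]
    omega
  have h4 : g ∈ KK D ψ := fun c _ => hg c
  rw [h3] at h4
  exact (Submodule.mem_bot F).1 h4

end FrD.GRDM
end

section
/-!
# MP_921642_ag, FD, module ISO: an isolated colour
-/
set_option autoImplicit false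

namespace FrD

open MvPolynomial

namespace ISOM

variable {F : Type} [Field F] {σ ι τ : Type} [Fintype σ] [DecidableEq ι]

/-- forms are sums of monomials -/
theorem R_le (col : σ → ι) (S : ι → ℤ) (N : Submodule F (MvPolynomial σ F))
    (h : ∀ α, md col α = S → ∀ c, (monomial α c : MvPolynomial σ F) ∈ N) : R F col S ≤ N := by
  intro p hp
  rw [mem_R] at hp
  rw [← support_sum_monomial_coeff p]
  exact Submodule.sum_mem _ fun α hα => h α (hp α (mem_support_iff.1 hα)) _

/-- a monomial of a multidegree with positive `z`-part contains a variable of colour `z` -/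
theorem exists_var (col : σ → ι) (α : σ →₀ ℕ) (z : ι) (h : md col α z ≠ 0) :
    ∃ v, col v = z ∧ Finsupp.single v 1 ≤ α := by
  simp only [md] at h
  obtain ⟨v, -, hv⟩ := Finset.exists_ne_zero_of_sum_ne_zero h
  split_ifs at hv with h1
  · refine ⟨v, h1, ?_⟩
    rw [Finsupp.single_le_iff]
    have : α v ≠ 0 := by simpa using hv
    omega
  · exact absurd rfl hv

theorem R_add (col : σ → ι) (S : ι → ℤ) (z : ι) (hS : S z = 0) :
    R F col (S + Pi.single z 1) = R F col (Pi.single z 1) * R F col S := by
  apply le_antisymm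
  · apply R_le
    intro α hα c
    obtain ⟨v, hv, hle⟩ := exists_var col α z (by rw [hα]; simp [hS])
    have hd : α = Finsupp.single v 1 + (α - Finsupp.single v 1) := by
      rw [add_tsub_cancel_of_le hle]
    have hmd : md col (α - Finsupp.single v 1) = S := by
      have h1 := md_add col (Finsupp.single v 1) (α - Finsupp.single v 1)
      rw [← hd, hα, md_single, hv, add_comm] at h1
      exact (add_left_cancel h1).symm
    have h2 : (monomial α c : MvPolynomial σ F) =
        X v * monomial (α - Finsupp.single v 1) c := by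
      rw [X, monomial_mul, ← hd, one_mul]
    rw [h2]
    refine Submodule.mul_mem_mul ?_ ?_
    · have := X_mem_R (F := F) col v
      rwa [hv] at this
    · have := monomial_mem_R (F := F) col (α - Finsupp.single v 1) c
      rwa [hmd] at this
  · rw [Submodule.mul_le]
    intro p hp q hq
    have := mul_mem_R col hp hq
    rwa [add_comm] at this

theorem R_single (col : σ → ι) (z : ι) : R F col (Pi.single z 1) =
    Submodule.span F (Set.range fun v : {v // col v = z} => (X v.1 : MvPolynomial σ F)) := by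
  apply le_antisymm
  · apply R_le
    intro α hα c
    obtain ⟨v, hv, hle⟩ := exists_var col α z (by rw [hα]; simp)
    have hd : α = Finsupp.single v 1 + (α - Finsupp.single v 1) := by
      rw [add_tsub_cancel_of_le hle]
    have hmd : md col (α - Finsupp.single v 1) = 0 := by
      have h1 := md_add col (Finsupp.single v 1) (α - Finsupp.single v 1)
      rw [← hd, hα, md_single, hv] at h1
      exact (left_eq_add.1 h1)
    have h0 : α - Finsupp.single v 1 = 0 := by
      ext w
      have h3 := le_md col (α - Finsupp.single v 1) w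
      rw [hmd] at h3
      simp only [Pi.zero_apply] at h3
      simp only [Finsupp.coe_zero, Pi.zero_apply]
      omega
    rw [h0, add_zero] at hd
    rw [hd, show (monomial (Finsupp.single v 1) c : MvPolynomial σ F) = c • X v by
      rw [X, smul_monomial, smul_eq_mul, mul_one]]
    exact Submodule.smul_mem _ _ (Submodule.subset_span ⟨⟨v, hv⟩, rfl⟩)
  · rw [Submodule.span_le]
    rintro _ ⟨v, rfl⟩
    have := X_mem_R (F := F) col v.1
    rwa [v.2] at this

theorem map_mul' (f : MvPolynomial σ F) (P Q : Submodule F (MvPolynomial σ F)) :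
    (P * Q).map (LinearMap.mulLeft F f) = P * Q.map (LinearMap.mulLeft F f) := by
  apply le_antisymm
  · rw [Submodule.map_le_iff_le_comap, Submodule.mul_le]
    intro p hp q hq
    rw [Submodule.mem_comap, LinearMap.mulLeft_apply, mul_left_comm]
    exact Submodule.mul_mem_mul hp (Submodule.mem_map.2 ⟨q, hq, rfl⟩)
  · rw [Submodule.mul_le]
    rintro p hp _ ⟨q, hq, rfl⟩
    rw [LinearMap.mulLeft_apply, mul_left_comm]
    exact Submodule.mem_map.2 ⟨p * q, Submodule.mul_mem_mul hp hq, rfl⟩

/-- `(w_v) ↦ ∑ X v * w_v` -/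
noncomputable def Phi (col : σ → ι) (z : ι) (W : Submodule F (MvPolynomial σ F)) :
    ({v // col v = z} → W) →ₗ[F] MvPolynomial σ F :=
  ∑ v : {v // col v = z}, LinearMap.mulLeft F (X v.1) ∘ₗ W.subtype ∘ₗ LinearMap.proj v

theorem Phi_apply (col : σ → ι) (z : ι) (W : Submodule F (MvPolynomial σ F))
    (w : {v // col v = z} → W) : Phi col z W w = ∑ v, X v.1 * (w v : MvPolynomial σ F) := by
  simp [Phi]

theorem Phi_inj (col : σ → ι) (S : ι → ℤ) (z : ι) (hS : S z = 0)
    (W : Submodule F (MvPolynomial σ F)) (hW : W ≤ R F col S) :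
    Function.Injective (Phi col z W) := by
  classical
  rw [injective_iff_map_eq_zero]
  intro w hw
  rw [Phi_apply] at hw
  funext v
  apply Subtype.ext
  ext β
  simp only [Pi.zero_apply, Submodule.coe_zero, coeff_zero]
  by_contra hne
  have hβ : md col β = S := (mem_R col S _).1 (hW (w v).2) β hne
  have h1 := congrArg (coeff (Finsupp.single v.1 1 + β)) hw
  rw [coeff_sum, Finset.sum_eq_single v] at h1
  · rw [coeff_X_mul, coeff_zero] at h1
    exact hne h1
  · intro u _ huv
    rw [coeff_X_mul', if_neg]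
    rw [Finsupp.mem_support_iff, not_not, Finsupp.add_apply, Finsupp.single_apply, if_neg]
    · have h3 := le_md col β u.1
      rw [hβ, u.2, hS] at h3
      omega
    · intro h
      exact huv (Subtype.ext h.symm)
  · intro h
    exact absurd (Finset.mem_univ _) h

theorem Phi_range (col : σ → ι) (z : ι) (W : Submodule F (MvPolynomial σ F)) :
    LinearMap.range (Phi col z W) = R F col (Pi.single z 1) * W := by
  apply le_antisymm
  · rintro _ ⟨w, rfl⟩
    rw [Phi_apply]
    refine Submodule.sum_mem _ fun v _ => Submodule.mul_mem_mul ?_ (w v).2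
    have := X_mem_R (F := F) col v.1
    rwa [v.2] at this
  · rw [Submodule.mul_le]
    intro m hm n hn
    rw [R_single, Submodule.mem_span_range_iff_exists_fun] at hm
    obtain ⟨c, rfl⟩ := hm
    refine ⟨fun v => c v • ⟨n, hn⟩, ?_⟩
    rw [Phi_apply, Finset.sum_mul]
    refine Finset.sum_congr rfl fun v _ => ?_
    simp

end ISOM

open ISOM in
/-- ISO: an isolated colour. -/
theorem specISO : SpecISO := by
  intro F _ σ ι τ _ _ col κ f T S z hS hT
  refine ⟨fun W hW => ?_, ?_, R_add col S z hS⟩
  · have hfin : Module.Finite F W := Submodule.finiteDimensional_of_le hW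
    rw [← Phi_range col z W, LinearMap.finrank_range_of_inj (Phi_inj col S z hS W hW),
      Module.finrank_pi_fintype]
    simp [Nat.card_eq_fintype_card]
  · simp only [Id, Submodule.mul_iSup]
    refine iSup_congr fun i => iSup_congr fun hi => ?_
    rw [show S + Pi.single z 1 - κ i = (S - κ i) + Pi.single z 1 by abel,
      R_add col (S - κ i) z (by rw [Pi.sub_apply, hS, hT i hi, sub_zero]), map_mul']

end FrD
end

section
/-!
# MP_921642_ag, FD, module MUR: the recursion of the matching numbers
-/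
set_option autoImplicit false

namespace FrD.MURM

/-- the number of `i`-matchings by `a`-subsets, as a real number -/
private noncomputable def MM (a p i : ℕ) : ℝ :=
  if i * a ≤ p then (p.factorial : ℝ) /
      ((i.factorial : ℝ) * (a.factorial : ℝ) ^ i * ((p - i * a).factorial : ℝ)) else 0

private lemma mu_eq (a : ℕ) (γ : ℝ) (p K : ℕ) (ha : 1 ≤ a) (hK : p + 1 ≤ K) :
    mu a γ p = ∑ i ∈ Finset.range K, (-γ) ^ i * MM a p i := by
  have h1 : mu a γ p = ∑ i ∈ Finset.range (p + 1), (-γ) ^ i * MM a p i := by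
    unfold mu
    rw [Finset.sum_filter]
    refine Finset.sum_congr rfl (fun i _ => ?_)
    unfold MM
    split_ifs with h
    · rw [mul_div_assoc]
    · simp
  rw [h1]
  refine Finset.sum_subset (fun x hx => ?_) (fun x _ hx => ?_)
  · rw [Finset.mem_range] at hx ⊢
    omega
  · rw [Finset.mem_range] at hx
    have h2 : ¬ (x * a ≤ p) := by
      intro h3
      have h4 : x * 1 ≤ x * a := Nat.mul_le_mul_left x ha
      omega
    unfold MM
    rw [if_neg h2, mul_zero]

private lemma mm_zero (a p : ℕ) : MM a p 0 = 1 := by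
  unfold MM
  have h : (p.factorial : ℝ) ≠ 0 := by exact_mod_cast Nat.factorial_ne_zero p
  simp [h]

private lemma mm_rec (a p i : ℕ) (ha : 1 ≤ a) :
    MM a (p + 1) (i + 1) = MM a p (i + 1) + (p.choose (a - 1) : ℝ) * MM a (p + 1 - a) i := by
  by_cases hap : a ≤ p + 1
  · obtain ⟨b, rfl⟩ : ∃ b, a = b + 1 := ⟨a - 1, by omega⟩
    obtain ⟨q, hq⟩ : ∃ q, p = q + b := ⟨p - b, by omega⟩
    have hq2 : p + 1 - (b + 1) = q := by omega
    rw [hq2]
    have hch : (p.choose (b + 1 - 1) : ℝ) = (p.factorial : ℝ) / ((b.factorial : ℝ) * (q.factorial : ℝ)) := by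
      rw [Nat.add_sub_cancel, Nat.cast_choose ℝ (by omega : b ≤ p)]
      rw [show p - b = q by omega]
    rw [hch]
    have hpf : (p.factorial : ℝ) ≠ 0 := by exact_mod_cast Nat.factorial_ne_zero p
    have hbf : (b.factorial : ℝ) ≠ 0 := by exact_mod_cast Nat.factorial_ne_zero b
    have hqf : (q.factorial : ℝ) ≠ 0 := by exact_mod_cast Nat.factorial_ne_zero q
    have hif : (i.factorial : ℝ) ≠ 0 := by exact_mod_cast Nat.factorial_ne_zero i
    have hi1 : (((i + 1).factorial : ℕ) : ℝ) = ((i : ℝ) + 1) * (i.factorial : ℝ) := by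
      rw [Nat.factorial_succ]; push_cast; ring
    have hb1 : (((b + 1).factorial : ℕ) : ℝ) = ((b : ℝ) + 1) * (b.factorial : ℝ) := by
      rw [Nat.factorial_succ]; push_cast; ring
    have hp1 : (((p + 1).factorial : ℕ) : ℝ) = ((p : ℝ) + 1) * (p.factorial : ℝ) := by
      rw [Nat.factorial_succ]; push_cast; ring
    have hip : ((i : ℝ) + 1) ≠ 0 := by positivity
    have hbp : ((b : ℝ) + 1) ≠ 0 := by positivity
    have hexp : (i + 1) * (b + 1) = i * (b + 1) + (b + 1) := by ring
    by_cases h1 : i * (b + 1) ≤ q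
    · have hM1 : MM (b + 1) (p + 1) (i + 1) = (((p + 1).factorial : ℕ) : ℝ) /
          ((((i + 1).factorial : ℕ) : ℝ) * (((b + 1).factorial : ℕ) : ℝ) ^ (i + 1) *
            ((q - i * (b + 1)).factorial : ℝ)) := by
        unfold MM
        rw [if_pos (by omega), show p + 1 - (i + 1) * (b + 1) = q - i * (b + 1) by omega]
      have hM3 : MM (b + 1) q i = (q.factorial : ℝ) /
          ((i.factorial : ℝ) * (((b + 1).factorial : ℕ) : ℝ) ^ i *
            ((q - i * (b + 1)).factorial : ℝ)) := by
        unfold MM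
        rw [if_pos h1]
      rw [hM1, hM3, hi1, hp1]
      have hpow : (((b + 1).factorial : ℕ) : ℝ) ^ (i + 1) =
          (((b + 1).factorial : ℕ) : ℝ) ^ i * (((b : ℝ) + 1) * (b.factorial : ℝ)) := by
        rw [pow_succ, hb1]
      have hP : (((b + 1).factorial : ℕ) : ℝ) ^ i ≠ 0 :=
        pow_ne_zero _ (by exact_mod_cast Nat.factorial_ne_zero (b + 1))
      rw [hpow]
      set P : ℝ := (((b + 1).factorial : ℕ) : ℝ) ^ i with hPdef
      obtain hr | ⟨s, hs⟩ : q - i * (b + 1) = 0 ∨ ∃ s, q - i * (b + 1) = s + 1 := by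
        rcases Nat.eq_zero_or_eq_succ_pred (q - i * (b + 1)) with h | h
        · exact Or.inl h
        · exact Or.inr ⟨_, h⟩
      · have hM2 : MM (b + 1) p (i + 1) = 0 := by
          unfold MM
          rw [if_neg (by omega)]
        rw [hM2, hr]
        have hpc : (p : ℝ) + 1 = ((i : ℝ) + 1) * ((b : ℝ) + 1) := by
          have : p + 1 = (i + 1) * (b + 1) := by omega
          exact_mod_cast this
        rw [hpc]
        simp only [Nat.factorial_zero, Nat.cast_one]
        field_simp
        try ring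
      · have hM2 : MM (b + 1) p (i + 1) = (p.factorial : ℝ) /
          ((((i + 1).factorial : ℕ) : ℝ) * (((b + 1).factorial : ℕ) : ℝ) ^ (i + 1) *
            (s.factorial : ℝ)) := by
          unfold MM
          rw [if_pos (by omega), show p - (i + 1) * (b + 1) = s by omega]
        rw [hM2, hs, hi1, hpow]
        have hs1 : (((s + 1).factorial : ℕ) : ℝ) = ((s : ℝ) + 1) * (s.factorial : ℝ) := by
          rw [Nat.factorial_succ]; push_cast; ring
        rw [hs1]
        have hsf : (s.factorial : ℝ) ≠ 0 := by exact_mod_cast Nat.factorial_ne_zero s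
        have hsp : ((s : ℝ) + 1) ≠ 0 := by positivity
        have hpc : (p : ℝ) + 1 = ((s : ℝ) + 1) + ((i : ℝ) + 1) * ((b : ℝ) + 1) := by
          have : p + 1 = (s + 1) + (i + 1) * (b + 1) := by omega
          exact_mod_cast this
        rw [hpc]
        field_simp
        try ring
    · have hM1 : MM (b + 1) (p + 1) (i + 1) = 0 := by
        unfold MM
        rw [if_neg (by omega)]
      have hM2 : MM (b + 1) p (i + 1) = 0 := by
        unfold MM
        rw [if_neg (by omega)]
      have hM3 : MM (b + 1) q i = 0 := by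
        unfold MM
        rw [if_neg h1]
      rw [hM1, hM2, hM3]
      ring
  · have h0 : p.choose (a - 1) = 0 := Nat.choose_eq_zero_of_lt (by omega)
    have hexp : (i + 1) * a = i * a + a := by ring
    have hM1 : MM a (p + 1) (i + 1) = 0 := by
      unfold MM
      rw [if_neg (by rw [hexp]; omega)]
    have hM2 : MM a p (i + 1) = 0 := by
      unfold MM
      rw [if_neg (by rw [hexp]; omega)]
    rw [hM1, hM2, h0]
    simp

theorem specMUR : SpecMUR := by
  intro a γ ha
  constructor
  · rw [mu_eq a γ 0 1 ha le_rfl]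
    simp [mm_zero]
  · intro p
    rw [mu_eq a γ (p + 1) (p + 2 + 1) ha (by omega), mu_eq a γ p (p + 2 + 1) ha (by omega),
      mu_eq a γ (p + 1 - a) (p + 2) ha (by omega)]
    rw [Finset.sum_range_succ' (fun i => (-γ) ^ i * MM a (p + 1) i),
      Finset.sum_range_succ' (fun i => (-γ) ^ i * MM a p i)]
    rw [mm_zero, mm_zero]
    have h : ∑ i ∈ Finset.range (p + 2), (-γ) ^ (i + 1) * MM a (p + 1) (i + 1) =
        ∑ i ∈ Finset.range (p + 2), (-γ) ^ (i + 1) * MM a p (i + 1) -
          γ * (p.choose (a - 1) : ℝ) * ∑ i ∈ Finset.range (p + 2), (-γ) ^ i * MM a (p + 1 - a) i := by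
      rw [Finset.mul_sum, ← Finset.sum_sub_distrib]
      refine Finset.sum_congr rfl (fun i _ => ?_)
      rw [mm_rec a p i ha, pow_succ]
      ring
    rw [h]
    ring

end FrD.MURM
end

section
/-!
# MP_921642_ag, FD: module SAB

The step of PART A: one exact system with the new colour over the algebraic closure of the field with two elements.
-/
set_option autoImplicit false

namespace FrD

namespace SABM

open MvPolynomial

lemma kB_nonempty (p a w0 : ℕ) (wc : ℕ → ℕ) (ha : 2 ≤ a) (i : TB p a w0 wc) :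
    (kB p a w0 wc i).Nonempty := by
  rcases i with q | q
  · have h1 : q.1.1.Nonempty := by
      rw [← Finset.card_pos, q.1.2]
      omega
    exact h1.image _
  · exact ⟨_, Finset.mem_insert_self _ _⟩

lemma infinite_KK : Infinite KK := IsAlgClosed.instInfinite (K := KK)

/-- base change of `dq` -/
lemma dq_map (hBCU : SpecBCU) {k K : Type} [Field k] [Field K] [Algebra k K] {σ ι τ : Type}
    [Fintype σ] [DecidableEq ι] (col : σ → ι) (κ : τ → ι → ℤ) (f : τ → MvPolynomial σ k)
    (T : Finset τ) (S : ι → ℤ) :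
    dq col κ (fun i => MvPolynomial.map (algebraMap k K) (f i)) T S = dq col κ f T S := by
  rw [dq, dq, (hBCU k K σ ι τ col κ f T S).2]

lemma mem_map (hBCU : SpecBCU) {k K : Type} [Field k] [Field K] [Algebra k K] {σ ι : Type}
    [Fintype σ] [DecidableEq ι] (col : σ → ι) (S : ι → ℤ) (q : MvPolynomial σ k) :
    q ∈ R k col S ↔ MvPolynomial.map (algebraMap k K) q ∈ R K col S := by
  have h := (hBCU k K σ ι Unit col (fun _ => S) (fun _ => q) Finset.univ S).1
  simpa using h

theorem specSAB (hBIG : SpecBIG) (hBCD : SpecBCD) (hBCU : SpecBCU) (hSAA : SpecSAA)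
    (hEXT : SpecEXT) (hTRIM : SpecTRIM) (hCOM3 : SpecCOM3) : SpecSAB := by
  intro p a N w0 u uz wc ha hN hwc huz hineq hXX
  classical
  have := infinite_KK
  obtain ⟨f, hf, hE1, hE2⟩ := hBIG p a N w0 wc ha hXX
  obtain ⟨k, _, _, _, f0, hf0⟩ := hBCD (VB p N) (TB p a w0 wc) f
  have hfe : f = fun i => MvPolynomial.map (algebraMap k KK) (f0 i) := by
    funext i
    exact (hf0 i).symm
  have hf0R : ∀ i, f0 i ∈ R k (colB p N) (ind (kB p a w0 wc i)) := by
    intro i
    rw [mem_map (K := KK) hBCU, hf0 i]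
    exact hf i
  have hEx : ∀ S, Ex (colB p N) (fun i => ind (kB p a w0 wc i)) f Finset.univ S →
      Ex (colB p N) (fun i => ind (kB p a w0 wc i)) f0 Finset.univ S := by
    intro S h S' hS'
    have h1 := h S' hS'
    rw [hfe, dq_map hBCU] at h1
    exact h1
  have hS := hSAA k p a N w0 u uz wc ha hN hwc huz hineq f0 hf0R
    (fun P x hx => hEx _ (hE1 P x hx)) (hEx _ hE2)
  choose m1 hm1 using fun P => hS P ∅ (Or.inl rfl)
  choose m2 hm2 using fun P => hS P {CC.z} (Or.inr rfl)
  refine ⟨(Finset.univ.sup m1) ⊔ (Finset.univ.sup m2), fun m hm => ?_⟩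
  have hma : ∀ P, m1 P ≤ m := fun P =>
    (Finset.le_sup (f := m1) (Finset.mem_univ P)).trans (le_sup_left.trans hm)
  have hmb : ∀ P, m2 P ≤ m := fun P =>
    (Finset.le_sup (f := m2) (Finset.mem_univ P)).trans (le_sup_right.trans hm)
  have hκ : ∀ i : TB p a w0 wc ⊕ RN p a u uz m, 0 ≤ ind (kN p a w0 u uz m wc i) :=
    fun i => ind_nonneg _
  refine hCOM3 KK (VB p N ⊕ Fin m) (CC p) (TB p a w0 wc ⊕ RN p a u uz m) (colN p N m)
    (fun i => ind (kN p a w0 u uz m wc i)) (ind (pat p Finset.univ {CC.z, CC.y})) hκ ?_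
  intro S' hS' hS0
  have ho : ∀ x, 0 ≤ S' (CC.o x) ∧ S' (CC.o x) ≤ 1 := by
    intro x
    have h1 := hS' (CC.o x)
    have h2 := hS0 (CC.o x)
    simp only [ind, pat, Finset.mem_union, Finset.mem_image, Finset.mem_univ, true_and,
      CC.o.injEq, exists_eq, true_or, if_true] at h1
    exact ⟨h2, h1⟩
  have hc : ∀ P x, S' (CC.c P x) = 0 := by
    intro P x
    have h1 := hS' (CC.c P x)
    have h2 := hS0 (CC.c P x)
    simp [ind, pat] at h1
    exact le_antisymm h1 h2
  have hz : 0 ≤ S' CC.z ∧ S' CC.z ≤ 1 := by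
    have h1 := hS' CC.z
    have h2 := hS0 CC.z
    simp [ind, pat] at h1
    exact ⟨h2, h1⟩
  have hy : 0 ≤ S' CC.y ∧ S' CC.y ≤ 1 := by
    have h1 := hS' CC.y
    have h2 := hS0 CC.y
    simp [ind, pat] at h1
    exact ⟨h2, h1⟩
  by_cases hy1 : S' CC.y = 1
  · -- the new colour occurs
    have hfin : ∀ (P : Finset (Fin p)) (b : Finset (CC p)),
        (∃ f' : TB p a w0 wc ⊕ RN p a u uz m → MvPolynomial (VB p N ⊕ Fin m) k,
          (∀ i, f' i ∈ R k (colN p N m) (ind (kN p a w0 u uz m wc i))) ∧
          dq (colN p N m) (fun i => ind (kN p a w0 u uz m wc i)) f' Finset.univ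
            (ind (pat p P b) + Pi.single CC.y 1) ≤
          E (colN p N m) (fun i => ind (kN p a w0 u uz m wc i)) Finset.univ
            (ind (pat p P b) + Pi.single CC.y 1)) →
        S' = ind (pat p P b) + Pi.single CC.y 1 →
        ∃ f' : TB p a w0 wc ⊕ RN p a u uz m → MvPolynomial (VB p N ⊕ Fin m) KK,
          (∀ i, f' i ∈ R KK (colN p N m) (ind (kN p a w0 u uz m wc i))) ∧
          dq (colN p N m) (fun i => ind (kN p a w0 u uz m wc i)) f' Finset.univ S' ≤
          E (colN p N m) (fun i => ind (kN p a w0 u uz m wc i)) Finset.univ S' := by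
      rintro P b ⟨f', h1, h2⟩ rfl
      refine ⟨fun i => MvPolynomial.map (algebraMap k KK) (f' i), fun i => ?_, ?_⟩
      · rw [← mem_map hBCU]
        exact h1 i
      · rw [dq_map hBCU]
        exact h2
    by_cases hz1 : S' CC.z = 1
    · refine hfin (Finset.univ.filter (fun x => S' (CC.o x) = 1)) {CC.z}
        (hm2 _ m (hmb _)) ?_
      funext c
      rcases c with x | ⟨P, x⟩ | _ | _
      · have h1 := ho x
        by_cases h2 : S' (CC.o x) = 1
        · simp [ind, pat, h2]
        · have h3 : S' (CC.o x) = 0 := by omega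
          simp [ind, pat, h3]
      · simp [ind, pat, hc]
      · simp [ind, pat, hz1]
      · simp [ind, pat, hy1]
    · have hz0 : S' CC.z = 0 := by omega
      refine hfin (Finset.univ.filter (fun x => S' (CC.o x) = 1)) ∅
        (hm1 _ m (hma _)) ?_
      funext c
      rcases c with x | ⟨P, x⟩ | _ | _
      · have h1 := ho x
        by_cases h2 : S' (CC.o x) = 1
        · simp [ind, pat, h2]
        · have h3 : S' (CC.o x) = 0 := by omega
          simp [ind, pat, h3]
      · simp [ind, pat, hc]
      · simp [ind, pat, hz0]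
      · simp [ind, pat, hy1]
  · -- the new colour does not occur
    have hy0 : S' CC.y = 0 := by omega
    have hSy : Sy (colN p N m ∘ Sum.inl) (fun i => ind (kB p a w0 wc i)) f Finset.univ :=
      fun i _ => ⟨hf i, ind_nonneg _, ind_ne_zero (kB_nonempty p a w0 wc ha i)⟩
    have h1 := (hEXT KK (VB p N) (VB p N ⊕ Fin m) (CC p) (TB p a w0 wc) Sum.inl (colN p N m)
      (fun i => ind (kB p a w0 wc i)) f Finset.univ (ind (pat p Finset.univ {CC.z}))
      Sum.inl_injective hSy hE2)
    let f' : TB p a w0 wc ⊕ RN p a u uz m → MvPolynomial (VB p N ⊕ Fin m) KK :=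
      Sum.elim (fun i => rename Sum.inl (f i)) (fun _ => 0)
    have h2 := (hTRIM KK (VB p N ⊕ Fin m) (CC p) (TB p a w0 wc) (TB p a w0 wc ⊕ RN p a u uz m)
      Sum.inl (colN p N m) (fun i => ind (kN p a w0 u uz m wc i)) f'
      (ind (pat p Finset.univ {CC.z})) Sum.inl_injective (fun i => ind_nonneg _) (by
        intro i hi
        rcases i with i | r
        · exact absurd ⟨i, rfl⟩ hi
        · intro h3
          have h4 := h3 CC.y
          simp [ind, pat] at h4)).1 h1.2
    refine ⟨f', fun i => ?_, h2 S' ?_⟩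
    · rcases i with i | r
      · exact (h1.1 i (Finset.mem_univ i)).1
      · exact Submodule.zero_mem _
    · intro c
      rcases c with x | ⟨P, x⟩ | _ | _
      · have h3 := ho x
        simp only [ind, pat, Finset.mem_union, Finset.mem_image, Finset.mem_univ, true_and,
          CC.o.injEq, exists_eq, true_or, if_true]
        exact h3.2
      · simp [ind, pat, hc]
      · simp [ind, pat, hz.2]
      · simp [ind, pat, hy0]

end SABM

end FrD
end
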