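import Pool.Agent.Lib.MP_921642_ag.FD.Spec2
import Pool.Agent.Lib.MP_921642_ag.FI.Spec4

/-!
# MP_921642_ag, FD: numbers, and the theorem

See Spec.lean.  Modules of this file import `FD.Spec3`.  From the library FI (namespace `FrI`): `Iq`, `Fs`, `SpecSEMI`, `SpecLV`,
`SpecFSR`, `SpecHILB`, …
-/

set_option autoImplicit false

namespace FrD

open MvPolynomial Pool.Agent.Lib.MP_921642_ag

/-! ### 12. Numbers -/

/-- GAM (hypothesis SpecMUR).  `mu a γ j` is a polynomial in `γ`, `= 1` for `γ = 0` and for `j < a` (closed form), and `mu a 1 a = 0`.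
`c = sInf {γ ≥ 0 | ∃ j ≤ e + a - 1, mu a γ j ≤ 0}` (closed, contains `1`, does not contain `0`, so `0 < c ≤ 1` and `c` belongs to it).
For `γ < c` all the `mu a γ j > 0`, so `mu a c j ≥ 0` for `j ≤ e + a - 1`.  Let `j0` be the smallest `j` with `mu a c j = 0`; `j0 ≥ a`.  If `j0 < e + a - 1`, MUR
gives `mu a c (j0 + 1) = - c choose j0 (a-1) mu a c (j0 + 1 - a) < 0` (`j0 + 1 - a < j0`), a contradiction.  So `j0 = e + a - 1 > e` and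
`mu a c (e + a) = - c choose (e+a-1) (a-1) mu a c e < 0`.  `γ1 = c`; by continuity there is `γ2 > c` with `mu a γ2 j > 0` for all `j ≤ e`. -/
def SpecGAM : Prop := ∀ a e : ℕ, 2 ≤ a → 1 ≤ e → ∃ γ1 γ2 : ℝ, 0 < γ1 ∧ γ1 < γ2 ∧
  (∀ j ≤ e, 0 < mu a γ2 j) ∧ mu a γ1 (e + a) < 0

/-- FSN.  `s = ⌈γ1 n^a / a!⌉`.  For fixed `i` with `i a ≤ d`, as `n → ∞`: `choose s i / n^{i a} → (γ1 / a!)^i / i!`,
`choose (n + d - i a) n / n^{d - i a} → 1 / (d - i a)!`.  So `Fs n a d s / n^d → ∑_i (-1)^i (γ1/a!)^i / (i! (d - i a)!) = mu a γ1 d / d! < 0`. -/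
def SpecFSN : Prop := ∀ (a d : ℕ) (γ1 : ℝ), 1 ≤ a → 0 < γ1 → mu a γ1 d < 0 →
  ∃ n0 : ℕ, ∀ n ≥ n0, FrI.Fs n a d ⌈γ1 * (n : ℝ) ^ a / (a.factorial : ℝ)⌉₊ < 0

/-- KNM.  `choose K a · a! / K^a = ∏_{i < a} (1 - i/K) → 1`: choose `K ≥ 1` with `choose K a · a! γ' > γ'' K^a`, `γ1 < γ'' < γ'`.  Then
`(n+1)/K ≥ n/K - 1`, and `choose K a (γ' (n/K - 1)^a - 1) ≥ γ1 n^a / a! + 1` for `n` large. -/
def SpecKNM : Prop := ∀ (a : ℕ) (γ1 γ' : ℝ), 1 ≤ a → 0 < γ1 → γ1 < γ' →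
  ∃ K ≥ 1, ∃ n0 : ℕ, ∀ n ≥ n0, ⌈γ1 * (n : ℝ) ^ a / (a.factorial : ℝ)⌉₊ ≤
    K.choose a * ⌊γ' * (((n + 1) / K : ℕ) : ℝ) ^ a⌋₊

/-! ### 13. One colour -/

/-- ONE (hypothesis SpecD1).  `R ℂ col (fun _ => e) = V σ e` (`V` = `homogeneousSubmodule`, multidegree = degree).  Choose an enumeration `τ ≃ Fin (card τ)`,
`f i` = the `i`-th `g`, `f i = 0` for `i ≥ card τ`.  By D1 for `T'` = the first `j` relations `dq T' e = E T' e`; `Id T' e = Iq f a e j`;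
`E T' e = ∑_{M ⊆ T'} (-1)^{|M|} rr (e - a |M|) = ∑_i (-1)^i choose j i choose (n + e - i a) n = Fs n a e j` (`rr (fun _ => k) = choose (n + k) n` for `k ≥ 0`,
`0` for `k < 0`). -/
def SpecONE : Prop := ∀ (σ τ : Type) [Fintype σ] [Fintype τ] (n a e : ℕ) (g : τ → MvPolynomial σ ℂ),
  Fintype.card σ = n + 1 → 1 ≤ a → (∀ i, g i ∈ V σ a) →
  Ex (fun _ : σ => ()) (fun _ : τ => fun _ : Unit => (a : ℤ)) g Finset.univ (fun _ => (e : ℤ)) →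
  ∃ f : ℕ → MvPolynomial σ ℂ, (∀ i, f i ∈ V σ a) ∧ ∀ j ≤ Fintype.card τ,
    (Module.finrank ℂ (V σ e) : ℤ) - (Module.finrank ℂ (FrI.Iq f a e j) : ℤ) = FrI.Fs n a e j

/-- AFR (hypotheses SpecPAF, SpecPBI, SpecKNM, SpecBLK, SpecCOM2, SpecONE).  `γ1 < γ' < γ'' < γ2`.  PAF (`γ''`, `γ2`), PBI (`γ := γ''`, `γ1 := γ'`): `N0`.
KNM (`γ1`, `γ'`): `K`.  `n` large, `N = (n+1)/K ≥ N0`, `w = ⌊γ' N^a⌋`.  Variables `Fin (n+1)`, colours `Fin K`, `col v = v mod K` (at least `N` of each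
colour), relations `{J : Finset (Fin K) // J.card = a} × Fin w` (`choose K a * w ≥ ⌈γ1 n^a/a!⌉` many).  By PBI and COM2: `g` exact at all `S ≥ 0`,
`∑ S ≤ e`.  BLK with `π : Fin K → Unit` ((2), (4)): `dq ≤ E` in the one-colour multidegrees `e' ≤ e`, where
`push π (ind J) = a`.  ONE. -/
def SpecAFR : Prop := ∀ (a e : ℕ) (γ1 γ2 : ℝ), 2 ≤ a → 0 < γ1 → γ1 < γ2 → (∀ j ≤ e, 0 < mu a γ2 j) →
  ∃ n0 : ℕ, ∀ n ≥ n0, ∃ f : ℕ → MvPolynomial (Fin (n + 1)) ℂ, (∀ i, f i ∈ V (Fin (n + 1)) a) ∧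
    ∀ j ≤ ⌈γ1 * (n : ℝ) ^ a / (a.factorial : ℝ)⌉₊,
      (Module.finrank ℂ (V (Fin (n + 1)) e) : ℤ) - (Module.finrank ℂ (FrI.Iq f a e j) : ℤ) ≤
        FrI.Fs n a e j

/-! ### 14. The theorem -/

/-- AON (hypotheses FrI.SpecSEMI, FrI.SpecLV, FrI.SpecHILB, FrI.SpecFSR).  The case `m = d`, `A = 1`, `e = d - 1`, `1 ≤ d ≤ n`.  `s ≤ n + 1`: the variables `f i = X i` (`i ≤ n`, `0` otherwise)
form a regular sequence: if `X_k g ∈ (X_0, …, X_{k-1})` then `g ∈ (X_0, …, X_{k-1})` (in degree `e'`; compare monomials), so HILB gives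
the hypothesis of SEMI for `j ≤ s`; with LV (`d < n + 1`), `finrank_K_le`, `ldim_le_of_le` as in MAIN4.lean.  `s ≥ n + 2`: `m' = d` for the first
`n + 1` points, `1` for the next one, `0` for the others, `lvdim m' = -1`, so `ldim = 0` (`ldim_le_of_neg`): by `lvdim_extend` consider `n + 2` points.
The sets `I` without the last point: `k_I = d` (`|I| ≥ 1`), they give `∑_{i ≤ n} (-1)^i choose (n+1) i choose (n + d - i) n = 0`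
(this is `Fs n 1 d (n+1)`, as `choose (n + d - (n+1)) n = 0`, and `Fs n 1 d (j+1) = Fs n 1 d j - Fs n 1 (d-1) j` gives
`Fs n 1 d j = choose (n + d - j) (n - j)` for `j ≤ n`, and `0` for `j = n + 1`, `d ≥ 1`).  The sets with the last point: `k_I = 1`, `choose (n + 1 - |I|) n = 0` for
`|I| ≥ 2`; `|I| = 1` gives `-1`. -/
def SpecAON : Prop := ∀ n d s : ℕ, 1 ≤ d → d ≤ n → ∀ p : Fin s → Fin (n + 1) → ℂ,
  ldim n d s (fun _ => d) ≤ (Module.finrank ℂ (linSys n d s (fun _ => d) p) : ℤ)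

/-- MFD (hypotheses SpecGAM, SpecFSN, SpecAFR, SpecAON, FrI.SpecSEMI, FrI.SpecLV, FrI.SpecFSR).  As MAIN4.lean.  `n ≥ d`, `n ≥ 2`.  `A = d + 1 - m`, `e = m - 1`.  `A = 1`: AON.  `e < A`:
the trivial case of MAIN4.lean.  `2 ≤ A ≤ e`: GAM, `s1 = ⌈γ1 n^A / A!⌉`, `n` large.  If `s ≤ s1`: AFR, SEMI.  If `s > s1`: `Fs n A d s1 < 0` by FSN
(`d = e + A`), LV, `lvdim_extend`, `ldim_le_of_neg` as in MAIN4.lean.  `n0` = the maximum over `2 ≤ A ≤ d`. -/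
def SpecMFD : Prop := ∀ d : ℕ, ∃ n0 : ℕ, ∀ n ≥ n0, ∀ m s : ℕ, 1 ≤ m → m ≤ d →
  ∀ p : Fin s → Fin (n + 1) → ℂ,
    ldim n d s (fun _ => m) ≤ (Module.finrank ℂ (linSys n d s (fun _ => m) p) : ℤ)

end FrD
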