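import Pool.Agent.Lib.MP_921642_ag.FD.Spec2

section
/-!
# MP_921642_ag, FD, module STB: stabilisation
-/
set_option autoImplicit false

namespace FrD.STBM

open MvPolynomial FrD

lemma push_ind {ι' ι : Type} [Fintype ι'] [DecidableEq ι'] [DecidableEq ι] (π : ι' → ι)
    (J : Finset ι') (hJ : Set.InjOn π J) : push π (ind J) = ind (J.image π) := by
  funext k
  by_cases hk : k ∈ J.image π
  · obtain ⟨k0, hk0, rfl⟩ := Finset.mem_image.1 hk
    have h3 : ind (J.image π) (π k0) = 1 := if_pos hk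
    rw [h3]
    unfold push
    rw [Finset.sum_eq_single k0]
    · rw [if_pos rfl]
      exact if_pos hk0
    · intro b _ hb
      split_ifs with h
      · refine if_neg fun hbJ => hb (hJ hbJ hk0 h)
      · rfl
    · intro h
      exact absurd (Finset.mem_univ _) h
  · have h3 : ind (J.image π) k = 0 := if_neg hk
    rw [h3]
    unfold push
    refine Finset.sum_eq_zero fun b _ => ?_
    split_ifs with h
    · refine if_neg fun hbJ => hk (Finset.mem_image.2 ⟨b, hbJ, h⟩)
    · rfl

lemma push_lam {ι Z : Type} [Fintype ι] [DecidableEq ι] [Fintype Z] [DecidableEq Z] (S0 : ι → ℤ)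
    (l : ι → Z) : push Prod.fst (lam S0 l) = S0 := by
  funext k
  unfold push
  rw [Finset.sum_eq_single (k, l k)]
  · rw [if_pos rfl]
    exact if_pos rfl
  · rintro ⟨k', z⟩ _ hb
    split_ifs with h
    · refine if_neg fun h2 => hb ?_
      have h' : k' = k := h
      have h2' : z = l k' := h2
      rw [h2', h']
    · rfl
  · intro h
    exact absurd (Finset.mem_univ _) h

/-- the fine relations -/
abbrev TT (ι Z : Type) [DecidableEq ι] (a w : ℕ) : Type :=
  {J : Finset (ι × Z) // Set.InjOn Prod.fst (J : Set (ι × Z)) ∧ J.card = a} × Fin w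

/-- the dimension of the space of syzygies -/
lemma finrank_SZ_le {σ ι τ : Type} [Fintype σ] [DecidableEq ι] [Fintype τ] {F : Type} [Field F]
    (col : σ → ι) (κ : τ → ι → ℤ) (f : τ → MvPolynomial σ F) (S : ι → ℤ) :
    Module.finrank F (SZ col κ f Finset.univ S) ≤ ∑ i, rr col (S - κ i) := by
  classical
  let Φ : SZ col κ f Finset.univ S →ₗ[F] (∀ i, R F col (S - κ i)) :=
    { toFun := fun g i => ⟨g.1 i, g.2.1 i (Finset.mem_univ i)⟩
      map_add' := fun g h => rfl
      map_smul' := fun c g => rfl }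
  have hΦ : Function.Injective Φ := by
    intro g h hgh
    refine Subtype.ext (funext fun i => ?_)
    exact congrArg Subtype.val (congrFun hgh i)
  refine (LinearMap.finrank_le_finrank_of_injective hΦ).trans ?_
  rw [Module.finrank_pi_fintype]
  exact Finset.sum_le_sum fun i _ => (finrank_R col _).le

/-- the number of the fine relations below `lam` -/
lemma card_below (ι Z : Type) [Fintype ι] [DecidableEq ι] [Fintype Z] [DecidableEq Z] (a w : ℕ)
    (S0 : ι → ℤ) (l : ι → Z) :
    Nat.card {i : TT ι Z a w // ind i.1.1 ≤ lam S0 l} ≤ 2 ^ Fintype.card ι * w := by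
  classical
  have key : Function.Injective (fun i : {i : TT ι Z a w // ind i.1.1 ≤ lam S0 l} =>
      ((i.1.1.1.image Prod.fst, i.1.2) : Finset ι × Fin w)) := by
    have hgr : ∀ i : {i : TT ι Z a w // ind i.1.1 ≤ lam S0 l}, ∀ q ∈ i.1.1.1, q.2 = l q.1 := by
      intro i q hq
      by_contra hne
      have h1 : ind i.1.1.1 q ≤ lam S0 l q := i.2 q
      have h2 : ind i.1.1.1 q = 1 := if_pos hq
      have h3 : lam S0 l q = 0 := if_neg hne
      rw [h2, h3] at h1
      exact absurd h1 (by norm_num)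
    have hJ : ∀ i : {i : TT ι Z a w // ind i.1.1 ≤ lam S0 l},
        i.1.1.1 = (i.1.1.1.image Prod.fst).image (fun k => (k, l k)) := by
      intro i
      ext q
      rw [Finset.image_image, Finset.mem_image]
      constructor
      · intro hq
        exact ⟨q, hq, Prod.ext rfl (hgr i q hq).symm⟩
      · rintro ⟨q', hq', rfl⟩
        have h4 : ((q'.1, l q'.1) : ι × Z) = q' := Prod.ext rfl (hgr i q' hq').symm
        show (q'.1, l q'.1) ∈ _
        rw [h4]
        exact hq'
    intro i j hij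
    have hij' : ((i.1.1.1.image Prod.fst, i.1.2) : Finset ι × Fin w) =
      (j.1.1.1.image Prod.fst, j.1.2) := hij
    have h1 : i.1.1.1.image Prod.fst = j.1.1.1.image Prod.fst := (Prod.mk.inj hij').1
    have h2 : i.1.2 = j.1.2 := (Prod.mk.inj hij').2
    refine Subtype.ext (Prod.ext (Subtype.ext ?_) h2)
    rw [hJ i, hJ j, h1]
  refine (Nat.card_le_card_of_injective _ key).trans ?_
  rw [Nat.card_eq_fintype_card, Fintype.card_prod, Fintype.card_finset, Fintype.card_fin]

/-- the bound for the number of monomials -/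
lemma rr_below (ι Z : Type) [Fintype ι] [DecidableEq ι] [Fintype Z] [DecidableEq Z] (N : ℕ)
    (S0 : ι → ℤ) (l : ι → Z) (hRRB : SpecRRB) (S : ι × Z → ℤ) (hS : S ≤ lam S0 l) :
    rr (Prod.fst : (ι × Z) × Fin N → ι × Z) S ≤ (∏ k, (S0 k + 1).toNat) ^ N := by
  classical
  refine (hRRB ((ι × Z) × Fin N) (ι × Z) Prod.fst S).trans ?_
  have h1 : ∀ v : (ι × Z) × Fin N, (S v.1 + 1).toNat ≤
      (if v.1.2 = l v.1.1 then (S0 v.1.1 + 1).toNat else 1) := by
    intro v
    have h2 : S v.1 ≤ lam S0 l v.1 := hS v.1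
    have h3 : lam S0 l v.1 = if v.1.2 = l v.1.1 then S0 v.1.1 else 0 := rfl
    rw [h3] at h2
    split_ifs with h
    · rw [if_pos h] at h2
      exact Int.toNat_le_toNat (by linarith)
    · rw [if_neg h] at h2
      omega
  refine (Finset.prod_le_prod' fun v _ => h1 v).trans (le_of_eq ?_)
  rw [Fintype.prod_prod_type]
  simp only [Finset.prod_const, Finset.card_univ, Fintype.card_fin]
  rw [Finset.prod_pow, Fintype.prod_prod_type]
  congr 1
  refine Finset.prod_congr rfl fun k _ => ?_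
  rw [Finset.prod_ite_eq' Finset.univ (l k) (fun _ => (S0 k + 1).toNat), if_pos (Finset.mem_univ _)]

/-- the number of fine relations over a coarse one -/
lemma card_over (ι Z : Type) [Fintype ι] [DecidableEq ι] [Fintype Z] [DecidableEq Z] (a w : ℕ)
    (J : Finset ι) (hJ : J.card = a) :
    Fintype.card Z ^ a * w ≤ Nat.card {i : TT ι Z a w // i.1.1.image Prod.fst = J} := by
  classical
  have himg : ∀ g : J → Z, ((Finset.univ.image fun k : J => (k.1, g k)) : Finset (ι × Z)).image
      Prod.fst = J := by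
    intro g
    rw [Finset.image_image]
    ext k
    rw [Finset.mem_image]
    constructor
    · rintro ⟨k', _, rfl⟩
      exact k'.2
    · intro hk
      exact ⟨⟨k, hk⟩, Finset.mem_univ _, rfl⟩
  have hinj : ∀ g : J → Z, Set.InjOn Prod.fst
      (((Finset.univ.image fun k : J => (k.1, g k)) : Finset (ι × Z)) : Set (ι × Z)) := by
    intro g q hq q' hq' h
    rw [Finset.mem_coe, Finset.mem_image] at hq hq'
    obtain ⟨k, _, rfl⟩ := hq
    obtain ⟨k', _, rfl⟩ := hq'
    have h' : k = k' := Subtype.ext h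
    rw [h']
  have hcd : ∀ g : J → Z, ((Finset.univ.image fun k : J => (k.1, g k)) : Finset (ι × Z)).card = a := by
    intro g
    rw [← Finset.card_image_iff.2 (hinj g), himg g, hJ]
  have key : Function.Injective (fun q : (J → Z) × Fin w =>
      (⟨(⟨Finset.univ.image fun k : J => (k.1, q.1 k), hinj q.1, hcd q.1⟩, q.2), himg q.1⟩ :
        {i : TT ι Z a w // i.1.1.image Prod.fst = J})) := by
    rintro ⟨g, r⟩ ⟨g', r'⟩ h
    have h1 := congrArg Subtype.val h
    have h2 : r = r' := congrArg Prod.snd h1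
    have h3 : (Finset.univ.image fun k : J => (k.1, g k)) =
        (Finset.univ.image fun k : J => (k.1, g' k)) := congrArg Subtype.val (congrArg Prod.fst h1)
    refine Prod.ext (funext fun k => ?_) h2
    have h4 : (k.1, g k) ∈ (Finset.univ.image fun k : J => (k.1, g' k)) := by
      rw [← h3]
      exact Finset.mem_image_of_mem _ (Finset.mem_univ k)
    obtain ⟨k', _, h5⟩ := Finset.mem_image.1 h4
    have h6 : k' = k := Subtype.ext (congrArg Prod.fst h5)
    have h7 := congrArg Prod.snd h5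
    rw [h6] at h7
    exact h7.symm
  have h := Nat.card_le_card_of_injective _ key
  refine le_trans (le_of_eq ?_) h
  rw [Nat.card_eq_fintype_card, Fintype.card_prod, Fintype.card_fun, Fintype.card_coe,
    Fintype.card_fin, hJ]

theorem specSTB (hDEF : SpecDEF) (hCOM2 : SpecCOM2) (hEXT : SpecEXT) (hBLK : SpecBLK)
    (hCOM3 : SpecCOM3) (hUNI : SpecUNI) (hRRB : SpecRRB) : SpecSTB := by
  classical
  intro ι _ _ S0 x0 a N w ha hS0 hx0 hXX
  obtain ⟨D, hD⟩ : ∃ D : ℕ, D = 2 ^ Fintype.card ι * w * (∏ k, (S0 k + 1).toNat) ^ (N + 1) :=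
    ⟨_, rfl⟩
  have hcardZ : Fintype.card (ZMod (2 * D + 1)) = 2 * D + 1 := ZMod.card _
  -- the fine system
  have hne : ∀ i : TT ι (ZMod (2 * D + 1)) a w, i.1.1.Nonempty := by
    intro i
    rw [← Finset.card_pos, i.1.2.2]
    exact ha
  obtain ⟨f0, hf01, hf02⟩ := hCOM2 ℂ ((ι × ZMod (2 * D + 1)) × Fin N) (ι × ZMod (2 * D + 1))
    (TT ι (ZMod (2 * D + 1)) a w) Prod.fst (fun i => ind i.1.1)
    ((Fintype.piFinset (fun k' => Finset.Icc 0 (S0 k'.1))).filter
      (fun S' => push Prod.fst S' ≤ S0 ∧ ∀ l, S' ≠ lam S0 l))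
    (fun i => ind_nonneg _) (by
      intro S' hS'
      rw [Finset.mem_filter, Fintype.mem_piFinset] at hS'
      obtain ⟨h0, hS, hl⟩ := hS'
      have h0' : 0 ≤ S' := fun k' => (Finset.mem_Icc.1 (h0 k')).1
      refine hXX D S' h0' hS hl ((ι × ZMod (2 * D + 1)) × Fin N) (TT ι (ZMod (2 * D + 1)) a w)
        Prod.fst (fun i => i.1.1) ?_ hne ?_
      · intro k _
        have h1 : Function.Injective (fun j : Fin N =>
            (⟨(k, j), rfl⟩ : {v : (ι × ZMod (2 * D + 1)) × Fin N // v.1 = k})) := by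
          intro j j' h
          exact congrArg (fun v => v.1.2) h
        have h2 := Nat.card_le_card_of_injective _ h1
        rwa [Nat.card_eq_fintype_card, Fintype.card_fin] at h2
      · intro J _
        show _ ≤ if J.card = a then w else 0
        by_cases hJ : J.card = a
        · rw [if_pos hJ]
          have h1 : Function.Injective (fun i : {i : TT ι (ZMod (2 * D + 1)) a w // i.1.1 = J} =>
              i.1.2) := by
            rintro ⟨⟨⟨J1, hJ1⟩, r⟩, rfl⟩ ⟨⟨⟨J2, hJ2⟩, r'⟩, h⟩ hr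
            have h' : J2 = J1 := h
            have hr' : r = r' := hr
            subst h'
            subst hr'
            rfl
          have h2 := Nat.card_le_card_of_injective _ h1
          rwa [Nat.card_eq_fintype_card (α := Fin w), Fintype.card_fin] at h2
        · rw [if_neg hJ]
          have h1 : IsEmpty {i : TT ι (ZMod (2 * D + 1)) a w // i.1.1 = J} := by
            refine ⟨?_⟩
            rintro ⟨i, rfl⟩
            exact hJ i.1.2.2
          rw [Nat.card_of_isEmpty])
  -- one more variable of every colour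
  obtain ⟨u, hu⟩ : ∃ u : (ι × ZMod (2 * D + 1)) × Fin N → (ι × ZMod (2 * D + 1)) × Fin (N + 1),
      u = fun v => (v.1, v.2.castSucc) := ⟨_, rfl⟩
  have huinj : Function.Injective u := by
    intro v v' h
    rw [hu] at h
    have h1 := congrArg Prod.fst h
    have h2 := congrArg Prod.snd h
    exact Prod.ext h1 (Fin.castSucc_injective _ h2)
  have hcolu : (Prod.fst : (ι × ZMod (2 * D + 1)) × Fin (N + 1) → ι × ZMod (2 * D + 1)) ∘ u =
      Prod.fst := by
    funext v
    rw [hu]
    rfl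
  have hsy0 : Sy (Prod.fst ∘ u) (fun i : TT ι (ZMod (2 * D + 1)) a w => ind i.1.1) f0
      Finset.univ := by
    intro i _
    rw [hcolu]
    exact ⟨hf01 i, ind_nonneg _, ind_ne_zero (hne i)⟩
  obtain ⟨f, hf⟩ : ∃ f : TT ι (ZMod (2 * D + 1)) a w →
      MvPolynomial ((ι × ZMod (2 * D + 1)) × Fin (N + 1)) ℂ, f = fun i => rename u (f0 i) :=
    ⟨_, rfl⟩
  have hfR : ∀ i, f i ∈ R ℂ (Prod.fst : (ι × ZMod (2 * D + 1)) × Fin (N + 1) → _)
      (ind i.1.1) := by
    have hex : Ex (Prod.fst ∘ u) (fun i : TT ι (ZMod (2 * D + 1)) a w => ind i.1.1) f0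
        Finset.univ (fun _ => -1) := by
      intro S' hS'
      have hneg : ¬ 0 ≤ S' := by
        intro h0
        have h1 : (0 : ℤ) ≤ S' (x0, 0) := h0 (x0, 0)
        have h2 : S' (x0, 0) ≤ -1 := hS' (x0, 0)
        omega
      rw [dq_neg _ _ _ _ (fun i hi => (hsy0 i hi).1) hneg,
        E_neg _ _ _ (fun i hi => (hsy0 i hi).2.1) hneg]
    obtain ⟨h4, -⟩ := hEXT ℂ ((ι × ZMod (2 * D + 1)) × Fin N)
      ((ι × ZMod (2 * D + 1)) × Fin (N + 1))
      (ι × ZMod (2 * D + 1)) (TT ι (ZMod (2 * D + 1)) a w) u Prod.fst (fun i => ind i.1.1) f0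
      Finset.univ _ huinj hsy0 hex
    intro i
    rw [hf]
    exact (h4 i (Finset.mem_univ i)).1
  have hfE : ∀ S' : ι × ZMod (2 * D + 1) → ℤ, 0 ≤ S' → push Prod.fst S' ≤ S0 →
      (∀ l, S' ≠ lam S0 l) →
      dq Prod.fst (fun i : TT ι (ZMod (2 * D + 1)) a w => ind i.1.1) f Finset.univ S' ≤
        E (Prod.fst : (ι × ZMod (2 * D + 1)) × Fin (N + 1) → ι × ZMod (2 * D + 1))
          (fun i : TT ι (ZMod (2 * D + 1)) a w => ind i.1.1) Finset.univ S' := by
    intro S' h0 h1 h2
    have h3 : S' ∈ (Fintype.piFinset (fun k' : ι × ZMod (2 * D + 1) => Finset.Icc 0 (S0 k'.1))).filter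
      (fun S' => push Prod.fst S' ≤ S0 ∧ ∀ l, S' ≠ lam S0 l) := by
      rw [Finset.mem_filter, Fintype.mem_piFinset]
      refine ⟨fun k' => Finset.mem_Icc.2 ⟨h0 k', ?_⟩, h1, h2⟩
      exact (le_push Prod.fst h0 k').trans (h1 k'.1)
    have h4 := hf02 S' h3
    obtain ⟨-, h5⟩ := hEXT ℂ ((ι × ZMod (2 * D + 1)) × Fin N) ((ι × ZMod (2 * D + 1)) × Fin (N + 1))
      (ι × ZMod (2 * D + 1)) (TT ι (ZMod (2 * D + 1)) a w) u Prod.fst (fun i => ind i.1.1) f0
      Finset.univ S' huinj hsy0 (by rw [hcolu]; exact h4)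
    rw [hf]
    exact h5 S' le_rfl
  have hvar : ∀ k, ∃ z : (ι × ZMod (2 * D + 1)) × Fin (N + 1), z.1 = k ∧ ∀ i, z ∉ (f i).vars := by
    intro k
    refine ⟨(k, Fin.last N), rfl, fun i hi => ?_⟩
    rw [hf] at hi
    have h1 := vars_rename u (f0 i) hi
    obtain ⟨v, _, hv⟩ := Finset.mem_image.1 h1
    rw [hu] at hv
    exact (Fin.castSucc_lt_last v.2).ne (congrArg Prod.snd hv)
  have hSZ : ∀ l, Module.finrank ℂ (SZ Prod.fst
      (fun i : TT ι (ZMod (2 * D + 1)) a w => ind i.1.1) f Finset.univ (lam S0 l)) ≤ D := by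
    intro l
    refine (finrank_SZ_le _ _ _ _).trans ?_
    have h1 : ∀ i : TT ι (ZMod (2 * D + 1)) a w,
        rr (Prod.fst : (ι × ZMod (2 * D + 1)) × Fin (N + 1) → _) (lam S0 l - ind i.1.1) ≤
        if ind i.1.1 ≤ lam S0 l then (∏ k, (S0 k + 1).toNat) ^ (N + 1) else 0 := by
      intro i
      split_ifs with h
      · refine rr_below ι (ZMod (2 * D + 1)) (N + 1) S0 l hRRB _ ?_
        intro k
        have := ind_nonneg i.1.1 k
        show lam S0 l k - ind i.1.1 k ≤ lam S0 l k
        have h0 : (0 : ℤ) ≤ ind i.1.1 k := this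
        omega
      · rw [rr_neg]
        intro h2
        refine h fun k => ?_
        have := h2 k
        show ind i.1.1 k ≤ lam S0 l k
        have h0 : (0 : ℤ) ≤ lam S0 l k - ind i.1.1 k := this
        omega
    refine (Finset.sum_le_sum fun i _ => h1 i).trans ?_
    rw [← Finset.sum_filter, Finset.sum_const, smul_eq_mul]
    refine le_trans (Nat.mul_le_mul_right _ ?_) hD.ge
    have h2 := card_below ι (ZMod (2 * D + 1)) a w S0 l
    rwa [Nat.card_eq_fintype_card, Fintype.card_subtype] at h2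
  obtain ⟨f1, hf11, hf12⟩ := hDEF ι ((ι × ZMod (2 * D + 1)) × Fin (N + 1))
    (TT ι (ZMod (2 * D + 1)) a w) D Prod.fst (fun i => i.1.1) f S0 x0 hS0 hx0 hne
    (fun i => i.1.2.1) hfR hvar hfE hSZ
  have hpush : ∀ i : TT ι (ZMod (2 * D + 1)) a w, push Prod.fst (ind i.1.1) =
      ind (i.1.1.image Prod.fst) := fun i => push_ind _ _ i.1.2.1
  -- exact at all the multidegrees
  obtain ⟨f2, hf21, hf22⟩ := hCOM3 ℂ ((ι × ZMod (2 * D + 1)) × Fin (N + 1)) ι
    (TT ι (ZMod (2 * D + 1)) a w) (Prod.fst ∘ Prod.fst) (fun i => ind (i.1.1.image Prod.fst)) S0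
    (fun i => ind_nonneg _) (by
      intro S1 hS1 hS10
      by_cases h : S1 = S0
      · rw [h]
        exact ⟨f1, hf11, hf12⟩
      · refine ⟨f, ?_, ?_⟩
        · intro i
          obtain ⟨-, -, -, -, h5⟩ := hBLK ℂ ((ι × ZMod (2 * D + 1)) × Fin (N + 1)) ι
            (ι × ZMod (2 * D + 1)) (TT ι (ZMod (2 * D + 1)) a w) Prod.fst Prod.fst
            (fun i => ind i.1.1) f Finset.univ 0 (fun i _ => hfR i) (fun i _ => ind_nonneg _)
          have h6 := h5 (ind i.1.1) (hfR i)
          rwa [hpush] at h6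
        · obtain ⟨-, h2, -, h4, -⟩ := hBLK ℂ ((ι × ZMod (2 * D + 1)) × Fin (N + 1)) ι
            (ι × ZMod (2 * D + 1)) (TT ι (ZMod (2 * D + 1)) a w) Prod.fst Prod.fst
            (fun i => ind i.1.1) f Finset.univ S1 (fun i _ => hfR i) (fun i _ => ind_nonneg _)
          simp only [hpush] at h2 h4
          rw [h2]
          refine h4.trans (Finset.sum_le_sum fun S' hS' => ?_)
          rw [mem_fib] at hS'
          refine hfE S' hS'.1 (by rw [hS'.2]; exact hS1) ?_
          rintro l rfl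
          refine h ?_
          rw [← hS'.2, push_lam])
  refine ⟨2 * D + 1, by omega, ?_⟩
  refine hUNI ℂ ι (fun _ => (2 * D + 1) * (N + 1))
    (fun J => if J.card = a then (2 * D + 1) ^ a * w else 0) S0
    ((ι × ZMod (2 * D + 1)) × Fin (N + 1)) (TT ι (ZMod (2 * D + 1)) a w) (Prod.fst ∘ Prod.fst)
    (fun i => i.1.1.image Prod.fst) f2 (fun i => (hne i).image _) hf21 hf22 ?_ ?_
  · intro k _
    have h1 : Function.Injective (fun v : {v : (ι × ZMod (2 * D + 1)) × Fin (N + 1) //
        (Prod.fst ∘ Prod.fst) v = k} => ((v.1.1.2, v.1.2) : ZMod (2 * D + 1) × Fin (N + 1))) := by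
      rintro ⟨⟨⟨k1, z1⟩, j1⟩, h1⟩ ⟨⟨⟨k2, z2⟩, j2⟩, h2⟩ h
      have e1 : k1 = k := h1
      have e2 : k2 = k := h2
      have e3 : z1 = z2 := congrArg Prod.fst h
      have e4 : j1 = j2 := congrArg Prod.snd h
      subst e1 e2 e3 e4
      rfl
    have h2 := Nat.card_le_card_of_injective _ h1
    rwa [Nat.card_eq_fintype_card (α := ZMod (2 * D + 1) × Fin (N + 1)), Fintype.card_prod, hcardZ,
      Fintype.card_fin] at h2
  · intro J _
    by_cases hJ : J.card = a
    · rw [if_pos hJ]
      have h1 := card_over ι (ZMod (2 * D + 1)) a w J hJ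
      rwa [hcardZ] at h1
    · rw [if_neg hJ]
      exact Nat.zero_le _

end FrD.STBM
end

section
/-!
# MP_921642_ag, FD: bookkeeping on the fine colours (TGT)
-/
set_option autoImplicit false

namespace FrD

namespace TGTM

variable {ι : Type} [Fintype ι] [DecidableEq ι]

lemma push_fst {Z : Type} [Fintype Z] (S' : ι × Z → ℤ) (k : ι) :
    push Prod.fst S' k = ∑ z, S' (k, z) := by
  simp only [push]
  rw [Fintype.sum_prod_type, Finset.sum_eq_single k]
  · simp
  · intro b _ hb
    simp [hb]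
  · intro h; exact absurd (Finset.mem_univ _) h

lemma lam_apply {Z : Type} [DecidableEq Z] (S0 : ι → ℤ) (l : ι → Z) (k : ι) (z : Z) :
    lam S0 l (k, z) = if z = l k then S0 k else 0 := rfl

lemma tgt_ne {Z : Type} [DecidableEq Z] [Add Z] (S0 : ι → ℤ) (x0 : ι) (l : ι → Z) (c : Z)
    {k : ι} (hk : k ≠ x0) (z : Z) : tgt S0 x0 l c (k, z) = if z = l k then S0 k else 0 := by
  have h1 : ∀ u : Z, (Pi.single (x0, u) (1 : ℤ) : ι × Z → ℤ) (k, z) = 0 := by
    intro u
    rw [Pi.single_eq_of_ne]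
    intro h
    exact hk (congrArg Prod.fst h)
  simp only [tgt, Pi.add_apply, Pi.sub_apply, h1, sub_zero, add_zero]
  rfl

lemma tgt_eq {Z : Type} [DecidableEq Z] [Add Z] (S0 : ι → ℤ) (x0 : ι) (l : ι → Z) (c : Z)
    (z : Z) : tgt S0 x0 l c (x0, z) =
      (if z = l x0 then S0 x0 - 1 else 0) + (if z = l x0 + c then 1 else 0) := by
  have h1 : ∀ u : Z, (Pi.single (x0, u) (1 : ℤ) : ι × Z → ℤ) (x0, z) = if z = u then 1 else 0 := by
    intro u
    rw [Pi.single_apply]
    by_cases h : z = u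
    · subst h; simp
    · rw [if_neg h, if_neg]
      intro h2
      exact h (congrArg Prod.snd h2)
  simp only [tgt, Pi.add_apply, Pi.sub_apply, h1, lam_apply]
  split_ifs <;> ring

lemma lam_inj {Z : Type} [DecidableEq Z] (S0 : ι → ℤ) (h0 : ∀ k, 1 ≤ S0 k) (l l' : ι → Z)
    (h : lam S0 l = lam S0 l') : l = l' := by
  funext k
  have h1 := congrFun h (k, l k)
  rw [lam_apply, lam_apply, if_pos rfl] at h1
  by_contra hne
  rw [if_neg hne] at h1
  have := h0 k
  omega

end TGTM

open TGTM in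
theorem specTGT : SpecTGT := by
  intro ι _ _ S0 h0
  refine ⟨fun L _ l => ⟨fun k => ?_, ?_⟩, fun L _ l l' h => lam_inj S0 h0 l l' h, ?_, ?_⟩
  · obtain ⟨k, z⟩ := k
    rw [lam_apply]
    have := h0 k
    simp only [Pi.zero_apply]
    split_ifs <;> omega
  · funext k
    rw [push_fst, Finset.sum_eq_single (l k)]
    · rw [lam_apply, if_pos rfl]
    · intro z _ hz
      rw [lam_apply, if_neg hz]
    · intro h; exact absurd (Finset.mem_univ _) h
  · intro x0 D l l' c c' h2 h
    have hc : (((c : ℕ) : ZMod (2 * D + 1)) + 1) = (((c : ℕ) + 1 : ℕ) : ZMod (2 * D + 1)) := by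
      push_cast; rfl
    have hc' : (((c' : ℕ) : ZMod (2 * D + 1)) + 1) = (((c' : ℕ) + 1 : ℕ) : ZMod (2 * D + 1)) := by
      push_cast; rfl
    have hcD := c.2
    have hcD' := c'.2
    have hd : (((c : ℕ) : ZMod (2 * D + 1)) + 1) ≠ 0 := by
      rw [hc, Ne, ZMod.natCast_eq_zero_iff]
      intro hdv
      have := Nat.le_of_dvd (by omega) hdv
      omega
    have hd' : (((c' : ℕ) : ZMod (2 * D + 1)) + 1) ≠ 0 := by
      rw [hc', Ne, ZMod.natCast_eq_zero_iff]
      intro hdv
      have := Nat.le_of_dvd (by omega) hdv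
      omega
    have hdd : (((c : ℕ) : ZMod (2 * D + 1)) + 1) + (((c' : ℕ) : ZMod (2 * D + 1)) + 1) ≠ 0 := by
      rw [hc, hc', ← Nat.cast_add, Ne, ZMod.natCast_eq_zero_iff]
      intro hdv
      have := Nat.le_of_dvd (by omega) hdv
      omega
    generalize hdef : (((c : ℕ) : ZMod (2 * D + 1)) + 1) = d at h hd hdd
    generalize hdef' : (((c' : ℕ) : ZMod (2 * D + 1)) + 1) = d' at h hd' hdd
    have hu := congrFun h (x0, l x0)
    have hu' := congrFun h (x0, l' x0)
    have hud := congrFun h (x0, l x0 + d)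
    rw [tgt_eq, tgt_eq] at hu hu' hud
    have e1 : ¬ (l x0 = l x0 + d) := by
      intro e; exact hd (by simpa using e.symm)
    have e1' : ¬ (l' x0 = l' x0 + d') := by
      intro e; exact hd' (by simpa using e.symm)
    have e2 : ¬ (l x0 + d = l x0) := fun e => e1 e.symm
    rw [if_pos rfl, if_neg e1] at hu
    rw [if_pos (rfl : l' x0 = l' x0), if_neg e1'] at hu'
    rw [if_neg e2, if_pos rfl] at hud
    have hx : l x0 = l' x0 := by
      by_contra hne
      rw [if_neg hne] at hu
      rw [if_neg (fun e => hne e.symm)] at hu'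
      have a1 : l x0 = l' x0 + d' := by
        by_contra h3
        rw [if_neg h3] at hu
        omega
      have a2 : l' x0 = l x0 + d := by
        by_contra h3
        rw [if_neg h3] at hu'
        omega
      apply hdd
      have a3 : l x0 + (d + d') = l x0 + 0 := by
        rw [add_zero, ← add_assoc, ← a2, ← a1]
      exact add_left_cancel a3
    have hdeq : d = d' := by
      by_contra hne
      rw [← hx, if_neg e2, if_neg (fun e => hne (add_left_cancel e))] at hud
      omega
    constructor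
    · funext k
      by_cases hk : k = x0
      · rw [hk]; exact hx
      · have h1 := congrFun h (k, l k)
        rw [tgt_ne S0 x0 l d hk, tgt_ne S0 x0 l' d' hk, if_pos rfl] at h1
        by_contra hne
        rw [if_neg hne] at h1
        have := h0 k
        omega
    · rw [← hdef, ← hdef', hc, hc', ZMod.natCast_eq_natCast_iff', Nat.mod_eq_of_lt (by omega),
        Nat.mod_eq_of_lt (by omega)] at hdeq
      exact Fin.ext (by omega)
  · intro Z _ _ S' hS' hp hne
    by_contra hcard
    push Not at hcard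
    have hex : ∀ k, ∃ z, 0 < S' (k, z) := by
      intro k
      by_contra hno
      push Not at hno
      have h1 := congrFun hp k
      rw [push_fst] at h1
      have h2 : ∑ z, S' (k, z) ≤ 0 := Finset.sum_nonpos (fun z _ => hno z)
      have := h0 k
      omega
    choose l hl using hex
    have hsub : Finset.univ.image (fun k : ι => (k, l k)) ⊆
        Finset.univ.filter (fun k => 0 < S' k) := by
      intro x hx
      obtain ⟨k, _, rfl⟩ := Finset.mem_image.1 hx
      exact Finset.mem_filter.2 ⟨Finset.mem_univ _, hl k⟩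
    have hcardi : (Finset.univ.image (fun k : ι => (k, l k))).card = Fintype.card ι := by
      rw [Finset.card_image_of_injective _ (fun a b hab => congrArg Prod.fst hab),
        Finset.card_univ]
    have heq := Finset.eq_of_subset_of_card_le hsub (by rw [hcardi]; exact hcard)
    have hz : ∀ k z, z ≠ l k → S' (k, z) = 0 := by
      intro k z hzk
      by_contra h3
      have h4 : 0 < S' (k, z) := lt_of_le_of_ne (hS' (k, z)) (Ne.symm h3)
      have h5 : (k, z) ∈ Finset.univ.image (fun k : ι => (k, l k)) := by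
        rw [heq]; exact Finset.mem_filter.2 ⟨Finset.mem_univ _, h4⟩
      obtain ⟨k', _, hk'⟩ := Finset.mem_image.1 h5
      have e1 : k' = k := congrArg Prod.fst hk'
      have e2 : l k' = z := congrArg Prod.snd hk'
      subst e1
      exact hzk e2.symm
    apply hne l
    funext x
    obtain ⟨k, z⟩ := x
    rw [lam_apply]
    by_cases h : z = l k
    · rw [if_pos h, h]
      have h1 := congrFun hp k
      rw [push_fst, Finset.sum_eq_single (l k)] at h1
      · exact h1
      · intro z' _ hz'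
        exact hz k z' hz'
      · intro h; exact absurd (Finset.mem_univ _) h
    · rw [if_neg h]
      exact hz k z h

end FrD
end

section
/-!
# MP_921642_ag, FD, module THE (helper73): the numbers `θ`
-/
set_option autoImplicit false

namespace FrD.THEM

/-- the quotients `m j / m (j - 1)` -/
noncomputable def rho (m : ℕ → ℝ) (j : ℕ) : ℝ := m j / m (j - 1)

lemma prod_rho {m : ℕ → ℝ} {e : ℕ} (hm : ∀ j ≤ e, 0 < m j) (j : ℕ) (hj : j ≤ e) :
    ∀ k, k ≤ j → ∏ i ∈ Finset.range k, rho m (j - i) = m j / m (j - k) := by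
  intro k
  induction k with
  | zero =>
    intro _
    have h := hm j hj
    rw [Finset.prod_range_zero, Nat.sub_zero, div_self h.ne']
  | succ k ih =>
    intro hk
    have h1 := hm (j - k) (by omega)
    have h2 := hm (j - (k + 1)) (by omega)
    rw [Finset.prod_range_succ, ih (by omega), rho, show j - k - 1 = j - (k + 1) by omega]
    field_simp

lemma rho_pos {m : ℕ → ℝ} {e : ℕ} (hm : ∀ j ≤ e, 0 < m j) (j : ℕ) (hj : j ≤ e) : 0 < rho m j :=
  div_pos (hm j hj) (hm (j - 1) (by omega))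

lemma rho_succ {m : ℕ → ℝ} {e a : ℕ} {g : ℝ} (ha : 2 ≤ a) (hm : ∀ j ≤ e, 0 < m j)
    (hrec : ∀ p, m (p + 1) = m p - g * (p.choose (a - 1) : ℝ) * m (p + 1 - a)) (j : ℕ)
    (hj : a - 1 ≤ j) (hje : j < e) :
    rho m (j + 1) = 1 - g * (j.choose (a - 1) : ℝ) / ∏ i ∈ Finset.range (a - 1), rho m (j - i) := by
  have h1 := hm j hje.le
  have h2 := hm (j + 1 - a) (by omega)
  rw [prod_rho hm j hje.le (a - 1) hj, show j - (a - 1) = j + 1 - a by omega, rho,
    Nat.add_sub_cancel, hrec j]
  field_simp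

lemma rho_one {m : ℕ → ℝ} {e a : ℕ} {g : ℝ} (hm : ∀ j ≤ e, 0 < m j)
    (hrec : ∀ p, m (p + 1) = m p - g * (p.choose (a - 1) : ℝ) * m (p + 1 - a)) (j : ℕ)
    (hj : j < a - 1) (hje : j < e) : rho m (j + 1) = 1 := by
  have h1 := hm j hje.le
  rw [rho, Nat.add_sub_cancel, hrec j, Nat.choose_eq_zero_of_lt hj]
  simp only [Nat.cast_zero, mul_zero, zero_mul, sub_zero]
  exact div_self h1.ne'

lemma rho_le_one {m : ℕ → ℝ} {e a : ℕ} {g : ℝ} (ha : 2 ≤ a) (hg : 0 ≤ g) (hm : ∀ j ≤ e, 0 < m j)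
    (hrec : ∀ p, m (p + 1) = m p - g * (p.choose (a - 1) : ℝ) * m (p + 1 - a)) (j : ℕ)
    (hje : j < e) : rho m (j + 1) ≤ 1 := by
  by_cases hj : j < a - 1
  · exact (rho_one hm hrec j hj hje).le
  · rw [rho_succ ha hm hrec j (by omega) hje]
    have h : 0 ≤ g * (j.choose (a - 1) : ℝ) / ∏ i ∈ Finset.range (a - 1), rho m (j - i) := by
      refine div_nonneg (mul_nonneg hg (Nat.cast_nonneg _)) (Finset.prod_nonneg fun i _ => ?_)
      exact (rho_pos hm (j - i) (by omega)).le
    linarith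

lemma rho_anti {m : ℕ → ℝ} {e a : ℕ} {g : ℝ} (ha : 2 ≤ a) (hg : 0 ≤ g) (hm : ∀ j ≤ e, 0 < m j)
    (hrec : ∀ p, m (p + 1) = m p - g * (p.choose (a - 1) : ℝ) * m (p + 1 - a)) :
    ∀ j, 1 ≤ j → j < e → rho m (j + 1) ≤ rho m j := by
  intro j
  induction j using Nat.strong_induction_on with
  | _ j ih =>
    intro h1 hje
    by_cases hj : j < a
    · obtain ⟨k, rfl⟩ : ∃ k, j = k + 1 := ⟨j - 1, by omega⟩
      rw [rho_one hm hrec k (by omega) (by omega)]
      exact rho_le_one ha hg hm hrec (k + 1) hje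
    · obtain ⟨k, rfl⟩ : ∃ k, j = k + 1 := ⟨j - 1, by omega⟩
      rw [rho_succ ha hm hrec (k + 1) (by omega) hje, rho_succ ha hm hrec k (by omega) (by omega)]
      have hP1 : 0 < ∏ i ∈ Finset.range (a - 1), rho m (k + 1 - i) :=
        Finset.prod_pos fun i _ => rho_pos hm _ (by omega)
      have hP2 : 0 < ∏ i ∈ Finset.range (a - 1), rho m (k - i) :=
        Finset.prod_pos fun i _ => rho_pos hm _ (by omega)
      have hP : ∏ i ∈ Finset.range (a - 1), rho m (k + 1 - i) ≤
          ∏ i ∈ Finset.range (a - 1), rho m (k - i) := by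
        refine Finset.prod_le_prod (fun i _ => (rho_pos hm _ (by omega)).le) fun i hi => ?_
        rw [Finset.mem_range] at hi
        rw [show k + 1 - i = (k - i) + 1 by omega]
        exact ih (k - i) (by omega) (by omega) (by omega)
      have hC : ((k.choose (a - 1) : ℕ) : ℝ) ≤ (((k + 1).choose (a - 1) : ℕ) : ℝ) := by
        exact_mod_cast Nat.choose_le_choose (a - 1) (Nat.le_succ k)
      have h2 : g * (k.choose (a - 1) : ℝ) / ∏ i ∈ Finset.range (a - 1), rho m (k - i) ≤
          g * ((k + 1).choose (a - 1) : ℝ) / ∏ i ∈ Finset.range (a - 1), rho m (k + 1 - i) := by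
        refine div_le_div₀ (mul_nonneg hg (Nat.cast_nonneg _)) ?_ hP1 hP
        exact mul_le_mul_of_nonneg_left hC hg
      linarith

lemma rho_anti' {m : ℕ → ℝ} {e a : ℕ} {g : ℝ} (ha : 2 ≤ a) (hg : 0 ≤ g) (hm : ∀ j ≤ e, 0 < m j)
    (hrec : ∀ p, m (p + 1) = m p - g * (p.choose (a - 1) : ℝ) * m (p + 1 - a)) (j : ℕ) :
    ∀ p, j ≤ p → p < e → rho m (p + 1) ≤ rho m (j + 1) := by
  intro p hjp
  induction p, hjp using Nat.le_induction with
  | base => exact fun _ => le_rfl
  | succ p hp ih =>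
    intro hpe
    exact (rho_anti ha hg hm hrec (p + 1) (by omega) hpe).trans (ih (by omega))

theorem specTHE (hMUR : SpecMUR) : SpecTHE := by
  intro a e γ γ' ha hγ hγγ' hmu
  obtain ⟨-, hrec⟩ := hMUR a γ' (by omega)
  have hγ' : 0 < γ' := hγ.trans hγγ'
  set m : ℕ → ℝ := mu a γ' with hm
  have haR : (2 : ℝ) ≤ a := by exact_mod_cast ha
  obtain ⟨η, hη⟩ : ∃ η : ℝ, η = (1 - γ / γ') / a := ⟨_, rfl⟩
  have hq1 : γ / γ' < 1 := (div_lt_one hγ').2 hγγ'
  have hq0 : 0 < γ / γ' := div_pos hγ hγ'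
  have hη0 : 0 < η := by
    rw [hη]
    exact div_pos (by linarith) (by linarith)
  have haη : (a : ℝ) * η = 1 - γ / γ' := by
    rw [hη]
    field_simp
  have hη1 : η < 1 := by nlinarith
  have hbern : γ / γ' ≤ (1 - η) ^ (a - 1) := by
    have h1 := one_add_mul_le_pow (a := -η) (by linarith) (a - 1)
    have h2 : (((a - 1 : ℕ) : ℝ)) ≤ a := by exact_mod_cast Nat.sub_le a 1
    have h3 : (((a - 1 : ℕ) : ℝ)) * η ≤ a * η := mul_le_mul_of_nonneg_right h2 hη0.le
    have h4 : 1 + ((a - 1 : ℕ) : ℝ) * (-η) ≤ (1 + -η) ^ (a - 1) := h1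
    rw [← sub_eq_add_neg] at h4
    linarith
  have hγle : γ ≤ γ' * (1 - η) ^ (a - 1) := by
    have h := mul_le_mul_of_nonneg_left hbern hγ'.le
    rwa [mul_div_cancel₀ _ hγ'.ne'] at h
  have hle1 : ∀ i, 1 ≤ i → i ≤ e → rho m i ≤ 1 := by
    intro i h1 h2
    obtain ⟨k, rfl⟩ : ∃ k, i = k + 1 := ⟨i - 1, by omega⟩
    exact rho_le_one ha hγ'.le hmu hrec k (by omega)
  refine ⟨fun j => (1 - η) * rho m j, ?_, ?_⟩
  · intro i h1 h2
    have h3 := rho_pos hmu i h2
    have h4 := hle1 i h1 h2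
    refine ⟨mul_pos (by linarith) h3, ?_⟩
    nlinarith
  · intro p hp j hj haj
    have hje : j < e := by omega
    have hP : 0 < ∏ i ∈ Finset.range (a - 1), rho m (j - i) :=
      Finset.prod_pos fun i _ => rho_pos hmu _ (by omega)
    have h1 : ∏ i ∈ Finset.range (a - 1), ((1 - η) * rho m (j - i)) =
        (1 - η) ^ (a - 1) * ∏ i ∈ Finset.range (a - 1), rho m (j - i) := by
      rw [Finset.prod_mul_distrib, Finset.prod_const, Finset.card_range]
    have hη' : 0 < (1 - η) ^ (a - 1) := pow_pos (by linarith) _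
    have h2 : (j.choose (a - 1) : ℝ) * γ /
        ((1 - η) ^ (a - 1) * ∏ i ∈ Finset.range (a - 1), rho m (j - i)) ≤
        γ' * (j.choose (a - 1) : ℝ) / ∏ i ∈ Finset.range (a - 1), rho m (j - i) := by
      rw [div_le_div_iff₀ (mul_pos hη' hP) hP]
      have hc : (0 : ℝ) ≤ (j.choose (a - 1) : ℝ) := Nat.cast_nonneg _
      have h3 : (j.choose (a - 1) : ℝ) * γ ≤
          (j.choose (a - 1) : ℝ) * (γ' * (1 - η) ^ (a - 1)) :=
        mul_le_mul_of_nonneg_left hγle hc
      calc (j.choose (a - 1) : ℝ) * γ * ∏ i ∈ Finset.range (a - 1), rho m (j - i)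
          ≤ (j.choose (a - 1) : ℝ) * (γ' * (1 - η) ^ (a - 1)) *
            ∏ i ∈ Finset.range (a - 1), rho m (j - i) := mul_le_mul_of_nonneg_right h3 hP.le
        _ = _ := by ring
    have h5 := rho_succ ha hmu hrec j haj hje
    have h6 := rho_anti' ha hγ'.le hmu hrec j p hj hp
    have h7 := rho_pos hmu (p + 1) (by omega)
    have h8 : 0 < η * rho m (p + 1) := mul_pos hη0 h7
    show (j.choose (a - 1) : ℝ) * γ / (∏ i ∈ Finset.range (a - 1), ((1 - η) * rho m (j - i))) +
      (1 - η) * rho m (p + 1) < 1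
    rw [h1]
    nlinarith

end FrD.THEM
end
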