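import Pool.Agent.Lib.MP_921642_ag.FD.Spec
import Pool.Agent.Lib.MP_921642_ag.FD.Spec3
import Pool.Agent.Lib.MP_921642_ag.FI.THAG4
import Pool.Agent.Lib.MP_921642_ag.FD.OBS
import Pool.Agent.Lib.MP_921642_ag.FD.SAB
import Pool.Agent.Lib.MP_921642_ag.FD.SAA
import Pool.Agent.Lib.MP_921642_ag.FD.SA1
import Pool.Agent.Lib.MP_921642_ag.FD.THE
import Pool.Agent.Lib.MP_921642_ag.FD.ONE

section
/-!
# MP_921642_ag, FD, module SQB: blowing up the colours of a system which is exact at (1,…,1)
-/
set_option autoImplicit false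

namespace FrD.SQBM

open MvPolynomial

/-- the sets of fine colours over `J` with one element over each element of `J` -/
lemma card_lifts {ι : Type} [Fintype ι] [DecidableEq ι] (b : ι → ℕ) (J : Finset ι) :
    ∏ k ∈ J, b k ≤ (Finset.univ.filter (fun J' : Finset (Σ k, Fin (b k)) =>
      J'.image Sigma.fst = J ∧ J'.card = J.card)).card := by
  have h1 : (J.pi (fun k => (Finset.univ : Finset (Fin (b k))))).card = ∏ k ∈ J, b k := by
    rw [Finset.card_pi]
    simp
  rw [← h1]
  refine Finset.card_le_card_of_injOn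
    (fun c => J.attach.image (fun k => (⟨k.1, c k.1 k.2⟩ : Σ k, Fin (b k)))) ?_ ?_
  · intro c _
    have hinj : Function.Injective (fun k : {x // x ∈ J} => (⟨k.1, c k.1 k.2⟩ : Σ k, Fin (b k))) := by
      intro k k' h
      exact Subtype.ext (congrArg Sigma.fst h)
    simp only [Finset.coe_filter, Finset.mem_univ, true_and, Set.mem_setOf_eq]
    refine ⟨?_, ?_⟩
    · rw [Finset.image_image]
      ext k
      simp
    · rw [Finset.card_image_of_injective _ hinj, Finset.card_attach]
  · intro c _ c' _ h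
    funext k hk
    have h2 : (⟨k, c k hk⟩ : Σ k, Fin (b k)) ∈
        J.attach.image (fun k => (⟨k.1, c' k.1 k.2⟩ : Σ k, Fin (b k))) := by
      have h3 : (⟨k, c k hk⟩ : Σ k, Fin (b k)) ∈
          J.attach.image (fun k => (⟨k.1, c k.1 k.2⟩ : Σ k, Fin (b k))) :=
        Finset.mem_image.2 ⟨⟨k, hk⟩, Finset.mem_attach _ _, rfl⟩
      have h4 : J.attach.image (fun k => (⟨k.1, c k.1 k.2⟩ : Σ k, Fin (b k))) =
        J.attach.image (fun k => (⟨k.1, c' k.1 k.2⟩ : Σ k, Fin (b k))) := h
      rw [h4] at h3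
      exact h3
    obtain ⟨⟨k', hk'⟩, _, h5⟩ := Finset.mem_image.1 h2
    have h6 : k' = k := congrArg Sigma.fst h5
    subst h6
    exact (eq_of_heq (Sigma.mk.inj h5).2).symm

theorem specSQB (hBLX : SpecBLX) (hEMB : SpecEMB) (hMONS : SpecMONS) : SpecSQB := by
  intro F _ _ ι _ _ N0 N b w0 w hb hN hw h0
  refine hBLX F ι (Σ k, Fin (b k)) Sigma.fst N w (fun k' => N0 k'.1)
    (fun J' => w0 (J'.image Sigma.fst)) (fun _ => 1) ?_ ?_ ?_ ?_
  · intro k
    exact ⟨⟨k, ⟨0, hb k⟩⟩, rfl⟩
  · intro k _
    refine le_trans (le_of_eq ?_) (hN k)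
    rw [Fintype.sum_sigma]
    rw [Finset.sum_eq_single k]
    · simp
    · intro k' _ hk'
      refine Finset.sum_eq_zero fun i _ => ?_
      rw [if_neg hk']
    · intro h
      exact absurd (Finset.mem_univ k) h
  · intro J _
    refine le_trans (hw J) ?_
    have h1 : (∑ J' : Finset (Σ k, Fin (b k)), if J'.image Sigma.fst = J ∧ J'.card = J.card then
        w0 (J'.image Sigma.fst) else 0) = (Finset.univ.filter (fun J' : Finset (Σ k, Fin (b k)) =>
      J'.image Sigma.fst = J ∧ J'.card = J.card)).card * w0 J := by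
      rw [← Finset.sum_filter, ← smul_eq_mul, ← Finset.sum_const]
      refine Finset.sum_congr rfl fun J' hJ' => ?_
      rw [(Finset.mem_filter.1 hJ').2.1]
    rw [h1]
    exact Nat.mul_le_mul_right _ (card_lifts b J)
  · intro S' hS' hp
    refine hEMB F (Σ k, Fin (b k)) ι (fun k' => N0 k'.1) (fun J' => w0 (J'.image Sigma.fst)) S' N0 w0
      (push Sigma.fst S') Sigma.fst ?_ ?_ ?_ ?_ ?_ ?_ ?_
    · intro k k' hk hk' hkk
      by_contra hne
      have h1 : S' k + S' k' ≤ push Sigma.fst S' k.1 := by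
        simp only [push]
        have h2 := Finset.sum_le_sum_of_subset_of_nonneg
          (f := fun x : (Σ k, Fin (b k)) => if x.1 = k.1 then S' x else 0)
          (Finset.subset_univ ({k, k'} : Finset (Σ k, Fin (b k))))
          (fun x _ _ => by
            show (0 : ℤ) ≤ if x.1 = k.1 then S' x else 0
            split_ifs
            exacts [hS' x, le_rfl])
        rw [Finset.sum_pair hne] at h2
        rw [if_pos rfl, if_pos hkk.symm] at h2
        exact h2
      have h3 : push Sigma.fst S' k.1 ≤ 1 := hp k.1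
      omega
    · intro k
      simp only [push, Pi.zero_apply]
      exact Finset.sum_nonneg fun x _ => by
        split_ifs
        exacts [hS' x, le_rfl]
    · intro k _
      exact le_push Sigma.fst hS' k
    · intro k0 hk0
      by_contra hne
      push Not at hne
      have h1 : push Sigma.fst S' k0 ≤ 0 := by
        simp only [push]
        refine Finset.sum_nonpos fun x _ => ?_
        split_ifs with hx
        · by_contra h2
          exact hne x (by omega) hx
        · exact le_rfl
      omega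
    · intro k _
      exact le_rfl
    · intro J _
      exact le_rfl
    · exact hMONS F ι N0 w0 (fun _ => 1) (push Sigma.fst S') hp h0

end FrD.SQBM
end

section
set_option autoImplicit false

/-!
# MP_921642_ag, FD: module SUBR (subfamilies, with reindexing)
-/

namespace FrD.SUBRM

open MvPolynomial

variable {F : Type} [Field F] {σ ι τ τ0 : Type} [Fintype σ] [DecidableEq ι]

lemma Id_image [DecidableEq τ] (h : τ0 → τ) (col : σ → ι) (κ : τ → ι → ℤ)
    (f : τ → MvPolynomial σ F) (T : Finset τ0) (S : ι → ℤ) :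
    Id col (κ ∘ h) (f ∘ h) T S = Id col κ f (T.image h) S := by
  simp only [Id]
  rw [Finset.iSup_finset_image]
  rfl

lemma E_image [DecidableEq τ0] [DecidableEq τ] (h : τ0 → τ) (hinj : Function.Injective h)
    (col : σ → ι) (κ : τ → ι → ℤ) (T : Finset τ0) :
    ∀ S : ι → ℤ, E col (κ ∘ h) T S = E col κ (T.image h) S := by
  induction T using Finset.induction_on with
  | empty =>
    intro S
    rw [Finset.image_empty, E_empty, E_empty]
  | insert i T hi ih =>
    intro S
    have hi' : h i ∉ T.image h := by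
      intro hm
      obtain ⟨j, hj, hji⟩ := Finset.mem_image.mp hm
      exact hi (hinj hji ▸ hj)
    rw [E_insert col (κ ∘ h) T S i hi, Finset.image_insert, E_insert col κ _ S (h i) hi', ih S,
      ih (S - (κ ∘ h) i)]
    rfl

end FrD.SUBRM

namespace FrD

open Classical in
theorem specSUBR (hD1 : SpecD1) : SpecSUBR := by
  intro F _ σ ι τ0 τ _ _ _ _ _ h col κ f S hinj hSy hEx S' hS'
  have h1 := (hD1 F σ ι τ col κ f Finset.univ S hSy hEx).1 (Finset.univ.image h)
    (Finset.subset_univ _) S' hS'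
  rw [SUBRM.E_image h hinj col κ Finset.univ S', ← h1]
  unfold dq
  rw [SUBRM.Id_image h col κ f Finset.univ S']

end FrD
end

section
set_option autoImplicit false

namespace FrD.SYZM

open MvPolynomial FrD

theorem specSYZ (hD1 : SpecD1) : SpecSYZ := by
  intro F _ σ ι τ _ _ _ col κ f T S hSy hEx
  classical
  induction T using Finset.induction_on with
  | empty =>
    intro g hg _
    exact ⟨fun _ _ => 0, by simp, by simp, by simp, by simp⟩
  | insert k T' hk ih =>
    intro g hg hsum
    have hSy' : Sy col κ f T' := fun i hi => hSy i (Finset.mem_insert_of_mem hi)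
    have hD := hD1 F σ ι τ col κ f (insert k T') S hSy hEx
    have hEx' : Ex col κ f T' S := fun S' hS' =>
      (hD.1 T' (Finset.subset_insert k T') S' hS').le
    rw [Finset.sum_insert hk] at hsum
    have h1 : f k * g k ∈ Id col κ f T' S := by
      have h2 : f k * g k = ∑ i ∈ T', f i * (- g i) := by
        simp only [mul_neg, Finset.sum_neg_distrib]
        linear_combination hsum
      rw [h2]
      refine Submodule.sum_mem _ (fun i hi => ?_)
      exact f_mul_mem_Id col κ f T' hi (Submodule.neg_mem _ (hg i (Finset.mem_insert_of_mem hi)))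
    have h2 := hD.2 T' (Finset.subset_insert k T') k (Finset.mem_insert_self k T') hk S le_rfl
      (g k) (hg k (Finset.mem_insert_self k T')) h1
    obtain ⟨c, hc, hgc⟩ := (mem_Id col κ f T' (S - κ k) (g k)).1 h2
    have h3 := ih hSy' hEx' (fun i => g i + c i * f k) (fun i hi => by
        refine Submodule.add_mem _ (hg i (Finset.mem_insert_of_mem hi)) ?_
        have := mul_mem_R col (hc i) (hSy k (Finset.mem_insert_self k T')).1
        rwa [show S - κ k - κ i + κ k = S - κ i by abel] at this) (by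
        simp only [mul_add, Finset.sum_add_distrib]
        have h4 : ∑ i ∈ T', f i * (c i * f k) = f k * g k := by
          rw [hgc, Finset.mul_sum]
          exact Finset.sum_congr rfl (fun i _ => by ring)
        rw [h4]
        linear_combination hsum)
    obtain ⟨b, b1, b2, b3, b4⟩ := h3
    refine ⟨fun i j => if i = k then (if j = k then 0 else c j) else (if j = k then - c i else b i j),
      ?_, ?_, ?_, ?_⟩
    · intro i hi j hj
      by_cases hik : i = k
      · by_cases hjk : j = k
        · simp only [hik, hjk, if_true]; exact Submodule.zero_mem _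
        · simp only [hik, if_true, if_neg hjk]
          exact hc j
      · by_cases hjk : j = k
        · simp only [if_neg hik, hjk, if_true]
          have := hc i
          rw [sub_right_comm] at this
          exact Submodule.neg_mem _ this
        · simp only [if_neg hik, if_neg hjk]
          exact b1 i (Finset.mem_of_mem_insert_of_ne hi hik) j (Finset.mem_of_mem_insert_of_ne hj hjk)
    · intro i j
      by_cases hik : i = k
      · by_cases hjk : j = k
        · simp [hik, hjk]
        · simp [hik, hjk]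
      · by_cases hjk : j = k
        · simp [hik, hjk]
        · simp only [if_neg hik, if_neg hjk]
          exact b2 i j
    · intro i
      by_cases hik : i = k
      · simp [hik]
      · simp only [if_neg hik]; exact b3 i
    · intro i hi
      rw [Finset.sum_insert hk]
      by_cases hik : i = k
      · subst hik
        simp only [if_true, zero_mul, zero_add]
        rw [hgc]
        refine Finset.sum_congr rfl (fun j hj => ?_)
        have hne : j ≠ i := by rintro rfl; exact hk hj
        rw [if_neg hne]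
        ring
      · have hi' := Finset.mem_of_mem_insert_of_ne hi hik
        have h5 := b4 i hi'
        simp only [if_neg hik, if_true]
        have h6 : ∑ j ∈ T', (if j = k then - c i else b i j) * f j = ∑ j ∈ T', b i j * f j := by
          refine Finset.sum_congr rfl (fun j hj => ?_)
          have hne : j ≠ k := by rintro rfl; exact hk hj
          rw [if_neg hne]
        rw [h6, ← h5]
        ring

end FrD.SYZM
end

section
/-!
# MP_921642_ag, FD, module TRF: from any field to the complex numbers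
-/
set_option autoImplicit false

namespace FrD.TRFM

open MvPolynomial

section

variable {σ ι τ : Type} [Fintype σ] [DecidableEq ι] [Fintype τ]

/-- exponents of multidegree `S` -/
abbrev Cx (col : σ → ι) (S : ι → ℤ) : Type := {α : σ →₀ ℕ // md col α = S}

/-- indices of the generators of `Id` -/
abbrev Bx (col : σ → ι) (κ : τ → ι → ℤ) (S : ι → ℤ) : Type :=
  (i : τ) × {β : σ →₀ ℕ // md col β = S - κ i}

noncomputable instance fintypeCx (col : σ → ι) (S : ι → ℤ) : Fintype (Cx col S) :=
  (finite_md col S).fintype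

/-- the matrix of the coefficients of the generators `f i * x^β` -/
noncomputable def Nm {K : Type} [Field K] (col : σ → ι) (κ : τ → ι → ℤ) (S : ι → ℤ)
    (f : τ → MvPolynomial σ K) : Matrix (Cx col S) (Bx col κ S) K :=
  Matrix.of fun α b => coeff α.1 (f b.1 * monomial b.2.1 1)

lemma md_sub (col : σ → ι) {α β : σ →₀ ℕ} (h : β ≤ α) : md col (α - β) = md col α - md col β := by
  have h1 : md col (α - β) + md col β = md col α := by
    rw [← md_add, tsub_add_cancel_of_le h]
  rw [← h1, add_sub_cancel_right]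

/-- the combination of the generators with coefficients `h` -/
noncomputable def cmb {K : Type} [Field K] (col : σ → ι) (κ : τ → ι → ℤ) (S : ι → ℤ)
    (f : τ → MvPolynomial σ K) (h : Bx col κ S → K) : MvPolynomial σ K :=
  ∑ b : Bx col κ S, h b • (f b.1 * monomial b.2.1 1)

lemma cmb_mem {K : Type} [Field K] (col : σ → ι) (κ : τ → ι → ℤ) (S : ι → ℤ)
    (f : τ → MvPolynomial σ K) (h : Bx col κ S → K) :
    cmb col κ S f h ∈ Id col κ f Finset.univ S := by
  refine Submodule.sum_mem _ (fun b _ => Submodule.smul_mem _ _ ?_)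
  refine f_mul_mem_Id col κ f Finset.univ (Finset.mem_univ b.1) ?_
  have := monomial_mem_R (F := K) col b.2.1 1
  rwa [b.2.2] at this

lemma coeff_cmb {K : Type} [Field K] (col : σ → ι) (κ : τ → ι → ℤ) (S : ι → ℤ)
    (f : τ → MvPolynomial σ K) (h : Bx col κ S → K) (α : Cx col S) :
    coeff α.1 (cmb col κ S f h) = (Nm col κ S f).mulVec h α := by
  simp only [cmb, coeff_sum, coeff_smul, Matrix.mulVec, dotProduct, Nm, Matrix.of_apply,
    smul_eq_mul]
  exact Finset.sum_congr rfl (fun b _ => mul_comm _ _)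

lemma eq_sum_of_mem_R {K : Type} [Field K] (col : σ → ι) (S : ι → ℤ) (g : MvPolynomial σ K)
    (hg : g ∈ R K col S) : g = ∑ β : Cx col S, monomial β.1 (coeff β.1 g) := by
  classical
  rw [mem_R] at hg
  ext α
  rw [coeff_sum]
  by_cases h : md col α = S
  · rw [Finset.sum_eq_single (⟨α, h⟩ : Cx col S)]
    · rw [coeff_monomial, if_pos rfl]
    · intro b _ hb
      rw [coeff_monomial, if_neg]
      intro h1
      exact hb (Subtype.ext h1)
    · intro h1
      exact absurd (Finset.mem_univ _) h1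
  · have h0 : coeff α g = 0 := by
      by_contra hne
      exact h (hg α hne)
    rw [h0]
    symm
    refine Finset.sum_eq_zero (fun b _ => ?_)
    rw [coeff_monomial, if_neg]
    intro h1
    exact h (h1 ▸ b.2)

lemma exists_cmb {K : Type} [Field K] (col : σ → ι) (κ : τ → ι → ℤ) (S : ι → ℤ)
    (f : τ → MvPolynomial σ K) (p : MvPolynomial σ K) (hp : p ∈ Id col κ f Finset.univ S) :
    ∃ h : Bx col κ S → K, p = cmb col κ S f h := by
  classical
  obtain ⟨g, hg, rfl⟩ := (mem_Id col κ f Finset.univ S p).1 hp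
  refine ⟨fun b => coeff b.2.1 (g b.1), ?_⟩
  rw [cmb, Fintype.sum_sigma]
  refine Finset.sum_congr rfl (fun i _ => ?_)
  conv_lhs => rw [eq_sum_of_mem_R col (S - κ i) (g i) (hg i)]
  rw [Finset.mul_sum]
  refine Finset.sum_congr rfl (fun b _ => ?_)
  simp only
  rw [← mul_smul_comm, smul_monomial, smul_eq_mul, mul_one]

/-- a rank factorisation -/
lemma exists_factor {K : Type} [Field K] (col : σ → ι) (κ : τ → ι → ℤ) (S : ι → ℤ)
    (f : τ → MvPolynomial σ K) (hf : ∀ i, f i ∈ R K col (κ i)) :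
    ∃ (A : Matrix (Fin (Module.finrank K (Id col κ f Finset.univ S))) (Cx col S) K)
      (H : Matrix (Bx col κ S) (Fin (Module.finrank K (Id col κ f Finset.univ S))) K),
      A * Nm col κ S f * H = 1 := by
  classical
  set ρ := Module.finrank K (Id col κ f Finset.univ S) with hρ
  let b : Module.Basis (Fin ρ) K (Id col κ f Finset.univ S) := Module.finBasis K _
  choose h hh using fun j : Fin ρ => exists_cmb col κ S f (b j).1 (b j).2
  let Ψ : Id col κ f Finset.univ S →ₗ[K] (Cx col S → K) :=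
    LinearMap.pi (fun α => (lcoeff K α.1) ∘ₗ (Submodule.subtype _))
  have hΨ : Function.Injective Ψ := by
    rw [← LinearMap.ker_eq_bot, LinearMap.ker_eq_bot']
    intro x hx
    apply Subtype.ext
    ext α
    have hx2 := Id_le_R col κ f Finset.univ (fun i _ => hf i) S x.2
    rw [mem_R] at hx2
    by_cases hα : md col α = S
    · have := congrFun hx ⟨α, hα⟩
      exact this
    · by_contra hne
      exact hα (hx2 α hne)
  have hinj : Function.Injective (Ψ ∘ₗ b.equivFun.symm.toLinearMap) :=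
    hΨ.comp b.equivFun.symm.injective
  obtain ⟨L, hL⟩ := LinearMap.exists_leftInverse_of_injective _ (LinearMap.ker_eq_bot.2 hinj)
  refine ⟨LinearMap.toMatrix' L, Matrix.of (fun c j => h j c), ?_⟩
  have h1 : Nm col κ S f * Matrix.of (fun c j => h j c) =
      LinearMap.toMatrix' (Ψ ∘ₗ b.equivFun.symm.toLinearMap) := by
    ext α j
    rw [LinearMap.toMatrix'_apply]
    have h2 : (Nm col κ S f * Matrix.of (fun c j => h j c)) α j =
        (Nm col κ S f).mulVec (h j) α := rfl
    rw [h2, ← coeff_cmb, ← hh j]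
    have h3 : b.equivFun.symm (Pi.single j 1) = b j := by
      rw [Module.Basis.equivFun_symm_apply, Finset.sum_eq_single j]
      · simp
      · intro j' _ hj'
        rw [Pi.single_eq_of_ne hj', zero_smul]
      · intro h4
        exact absurd (Finset.mem_univ _) h4
    have h5 : (Ψ ∘ₗ b.equivFun.symm.toLinearMap) (Pi.single j 1) α = coeff α.1 (b j).1 := by
      change Ψ (b.equivFun.symm (Pi.single j 1)) α = _
      rw [h3]
      rfl
    rw [← h5]
  rw [Matrix.mul_assoc, h1, ← LinearMap.toMatrix'_comp, hL, LinearMap.toMatrix'_id]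

lemma le_of_det {K : Type} [Field K] (col : σ → ι) (κ : τ → ι → ℤ) (S : ι → ℤ)
    (f : τ → MvPolynomial σ K) (ρ : ℕ) (A : Matrix (Fin ρ) (Cx col S) K)
    (H : Matrix (Bx col κ S) (Fin ρ) K) (hdet : (A * Nm col κ S f * H).det ≠ 0) :
    ρ ≤ Module.finrank K (Id col κ f Finset.univ S) := by
  classical
  let Φ : (Fin ρ → K) →ₗ[K] Id col κ f Finset.univ S :=
    { toFun := fun x => ⟨cmb col κ S f (H.mulVec x), cmb_mem col κ S f _⟩
      map_add' := by
        intro x y
        apply Subtype.ext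
        simp only [cmb, Matrix.mulVec_add, Pi.add_apply, add_smul, Finset.sum_add_distrib,
          Submodule.coe_add]
      map_smul' := by
        intro c x
        apply Subtype.ext
        simp only [cmb, Matrix.mulVec_smul, Pi.smul_apply, smul_eq_mul, mul_smul,
          ← Finset.smul_sum, RingHom.id_apply, Submodule.coe_smul] }
  have hinj : Function.Injective Φ := by
    rw [← LinearMap.ker_eq_bot, LinearMap.ker_eq_bot']
    intro x hx
    have h1 : cmb col κ S f (H.mulVec x) = 0 := congrArg Subtype.val hx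
    have h2 : (Nm col κ S f).mulVec (H.mulVec x) = 0 := by
      funext α
      rw [← coeff_cmb, h1, coeff_zero]
      rfl
    have h3 : (A * Nm col κ S f * H).mulVec x = 0 := by
      rw [← Matrix.mulVec_mulVec, ← Matrix.mulVec_mulVec, h2, Matrix.mulVec_zero]
    exact Matrix.eq_zero_of_mulVec_eq_zero hdet h3
  have h4 := LinearMap.finrank_le_finrank_of_injective hinj
  rwa [Module.finrank_fin_fun] at h4

/-- the index type of the variables of the determinant -/
abbrev Vx (col : σ → ι) (κ : τ → ι → ℤ) (S : ι → ℤ) (ρ : ℕ) : Type :=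
  (Fin ρ × Cx col S) ⊕ ((τ × (σ →₀ ℕ)) ⊕ (Bx col κ S × Fin ρ))

open Classical in
/-- the three generic matrices -/
noncomputable def gA (col : σ → ι) (κ : τ → ι → ℤ) (S : ι → ℤ) (ρ : ℕ) :
    Matrix (Fin ρ) (Cx col S) (MvPolynomial (Vx col κ S ρ) ℤ) :=
  Matrix.of fun j α => X (Sum.inl (j, α))

open Classical in
noncomputable def gN (col : σ → ι) (κ : τ → ι → ℤ) (S : ι → ℤ) (ρ : ℕ) :
    Matrix (Cx col S) (Bx col κ S) (MvPolynomial (Vx col κ S ρ) ℤ) :=
  Matrix.of fun α b => if b.2.1 ≤ α.1 then X (Sum.inr (Sum.inl (b.1, α.1 - b.2.1))) else 0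

noncomputable def gH (col : σ → ι) (κ : τ → ι → ℤ) (S : ι → ℤ) (ρ : ℕ) :
    Matrix (Bx col κ S) (Fin ρ) (MvPolynomial (Vx col κ S ρ) ℤ) :=
  Matrix.of fun b j => X (Sum.inr (Sum.inr (b, j)))

/-- evaluation of the determinant -/
lemma eval_det (K : Type) [Field K] (col : σ → ι) (κ : τ → ι → ℤ) (S : ι → ℤ) (ρ : ℕ)
    (A : Matrix (Fin ρ) (Cx col S) K) (H : Matrix (Bx col κ S) (Fin ρ) K)
    (f : τ → MvPolynomial σ K) (y : τ → (σ →₀ ℕ) → K)
    (hy : ∀ i γ, md col γ = κ i → coeff γ (f i) = y i γ) :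
    eval₂Hom (Int.castRingHom K) (Sum.elim (fun p : Fin ρ × Cx col S => A p.1 p.2)
      (Sum.elim (fun p : τ × (σ →₀ ℕ) => y p.1 p.2) (fun p : Bx col κ S × Fin ρ => H p.1 p.2)))
      ((gA col κ S ρ * gN col κ S ρ * gH col κ S ρ).det) = (A * Nm col κ S f * H).det := by
  classical
  rw [RingHom.map_det]
  congr 1
  rw [RingHom.mapMatrix_apply, Matrix.map_mul, Matrix.map_mul]
  congr 1
  · congr 1
    · ext j α
      simp only [Matrix.map_apply, gA, Matrix.of_apply, coe_eval₂Hom, eval₂_X, Sum.elim_inl]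
    · ext α b
      simp only [Matrix.map_apply, gN, Nm, Matrix.of_apply]
      rw [coeff_mul_monomial']
      split_ifs with h
      · simp only [coe_eval₂Hom, eval₂_X, Sum.elim_inr, Sum.elim_inl, mul_one]
        rw [hy]
        rw [md_sub col h, α.2, b.2.2]
        abel
      · simp
  · ext b j
    simp only [Matrix.map_apply, gH, Matrix.of_apply, coe_eval₂Hom, eval₂_X, Sum.elim_inr]

end

theorem specTRF : SpecTRF := by
  intro k _ σ ι τ _ _ _ col κ f hf S
  classical
  have hex := exists_factor col κ S f hf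
  obtain ⟨ρ, hρ⟩ : ∃ ρ, ρ = Module.finrank k (Id col κ f Finset.univ S) := ⟨_, rfl⟩
  rw [← hρ] at hex
  rw [← hρ]
  obtain ⟨A, H, hAH⟩ := hex
  have h1 := eval_det k col κ S ρ A H f (fun i γ => coeff γ (f i)) (fun _ _ _ => rfl)
  rw [hAH, Matrix.det_one] at h1
  have hD : (gA col κ S ρ * gN col κ S ρ * gH col κ S ρ).det ≠ 0 := by
    intro h0
    rw [h0, map_zero] at h1
    exact zero_ne_one h1
  have hD2 : MvPolynomial.map (Int.castRingHom ℂ)
      (gA col κ S ρ * gN col κ S ρ * gH col κ S ρ).det ≠ 0 := by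
    intro h0
    apply hD
    apply MvPolynomial.map_injective (Int.castRingHom ℂ) Int.cast_injective
    rw [h0, map_zero]
  obtain ⟨x, hx⟩ : ∃ x : Vx col κ S ρ → ℂ, eval x (MvPolynomial.map (Int.castRingHom ℂ)
      (gA col κ S ρ * gN col κ S ρ * gH col κ S ρ).det) ≠ 0 := by
    by_contra hcon
    push Not at hcon
    apply hD2
    apply MvPolynomial.funext
    intro x
    rw [hcon x, map_zero]
  let f' : τ → MvPolynomial σ ℂ := fun i =>
    ∑ γ : Cx col (κ i), monomial γ.1 (x (Sum.inr (Sum.inl (i, γ.1))))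
  have hf' : ∀ i, f' i ∈ R ℂ col (κ i) := by
    intro i
    refine Submodule.sum_mem _ (fun γ _ => ?_)
    have := monomial_mem_R (F := ℂ) col γ.1 (x (Sum.inr (Sum.inl (i, γ.1))))
    rwa [γ.2] at this
  refine ⟨f', hf', ?_⟩
  have hc : ∀ i γ, md col γ = κ i → coeff γ (f' i) = x (Sum.inr (Sum.inl (i, γ))) := by
    intro i γ hγ
    simp only [f', coeff_sum]
    rw [Finset.sum_eq_single (⟨γ, hγ⟩ : Cx col (κ i))]
    · rw [coeff_monomial, if_pos rfl]
    · intro b _ hb
      rw [coeff_monomial, if_neg]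
      intro h2
      exact hb (Subtype.ext h2)
    · intro h2
      exact absurd (Finset.mem_univ _) h2
  have h2 := eval_det ℂ col κ S ρ (Matrix.of fun j α => x (Sum.inl (j, α)))
    (Matrix.of fun b j => x (Sum.inr (Sum.inr (b, j)))) f' (fun i γ => x (Sum.inr (Sum.inl (i, γ)))) hc
  refine le_of_det col κ S f' ρ (Matrix.of fun j α => x (Sum.inl (j, α)))
    (Matrix.of fun b j => x (Sum.inr (Sum.inr (b, j)))) ?_
  rw [← h2]
  rw [eval_map] at hx
  convert hx using 2
  rw [coe_eval₂Hom]
  congr 1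
  funext v
  rcases v with v | v | v <;> rfl

end FrD.TRFM
end

section
/-!
# MP_921642_ag, FD: module TRIM (relations which do not matter in the multidegrees `≤ S`)
-/
set_option autoImplicit false

namespace FrD

namespace TRIMM

open MvPolynomial

variable {F : Type} [Field F] {σ ι τ τ0 : Type} [Fintype σ] [DecidableEq ι]

lemma Id_image [DecidableEq τ] (h : τ0 → τ) (col : σ → ι) (κ : τ → ι → ℤ)
    (f : τ → MvPolynomial σ F) (T : Finset τ0) (S : ι → ℤ) :
    Id col (κ ∘ h) (f ∘ h) T S = Id col κ f (T.image h) S := by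
  simp only [Id]
  rw [Finset.iSup_finset_image]
  rfl

lemma E_image [DecidableEq τ0] [DecidableEq τ] (h : τ0 → τ) (hinj : Function.Injective h)
    (col : σ → ι) (κ : τ → ι → ℤ) (T : Finset τ0) :
    ∀ S : ι → ℤ, E col (κ ∘ h) T S = E col κ (T.image h) S := by
  induction T using Finset.induction_on with
  | empty =>
    intro S
    rw [Finset.image_empty, E_empty, E_empty]
  | insert i T hi ih =>
    intro S
    have hi' : h i ∉ T.image h := by
      intro hm
      obtain ⟨j, hj, hji⟩ := Finset.mem_image.mp hm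
      exact hi (hinj hji ▸ hj)
    rw [E_insert col (κ ∘ h) T S i hi, Finset.image_insert, E_insert col κ _ S (h i) hi', ih S,
      ih (S - (κ ∘ h) i)]
    rfl

omit [DecidableEq ι] in
lemma not_nonneg {S S' κ : ι → ℤ} (hS : S' ≤ S) (h : ¬ κ ≤ S) : ¬ 0 ≤ S' - κ := by
  intro h0
  exact h ((sub_nonneg.1 h0).trans hS)

lemma E_union [DecidableEq τ] (col : σ → ι) (κ : τ → ι → ℤ) (hκ : ∀ i, 0 ≤ κ i) (S : ι → ℤ)
    (T0 : Finset τ) (T : Finset τ) :
    (∀ i ∈ T, i ∉ T0) → (∀ i ∈ T, ¬ κ i ≤ S) → ∀ S' ≤ S, E col κ (T0 ∪ T) S' = E col κ T0 S' := by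
  induction T using Finset.induction_on with
  | empty =>
    intro _ _ S' _
    rw [Finset.union_empty]
  | insert i T hi ih =>
    intro h1 h2 S' hS'
    have hn : i ∉ T0 ∪ T := by
      rw [Finset.mem_union, not_or]
      exact ⟨h1 i (Finset.mem_insert_self i T), hi⟩
    rw [Finset.union_insert, E_insert col κ (T0 ∪ T) S' i hn,
      ih (fun j hj => h1 j (Finset.mem_insert_of_mem hj))
        (fun j hj => h2 j (Finset.mem_insert_of_mem hj)) S' hS',
      E_neg col κ (T0 ∪ T) (fun j _ => hκ j)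
        (not_nonneg hS' (h2 i (Finset.mem_insert_self i T))), sub_zero]

lemma Id_union [DecidableEq τ] (col : σ → ι) (κ : τ → ι → ℤ) (f : τ → MvPolynomial σ F) (S : ι → ℤ)
    (T0 : Finset τ) (T : Finset τ) (h2 : ∀ i ∈ T, i ∉ T0 → ¬ κ i ≤ S) (h3 : T0 ⊆ T)
    (S' : ι → ℤ) (hS' : S' ≤ S) : Id col κ f T S' = Id col κ f T0 S' := by
  refine le_antisymm (iSup₂_le fun i hi => ?_) (Id_mono col κ f h3 S')
  by_cases h : i ∈ T0
  · exact le_iSup₂ (f := fun i (_ : i ∈ T0) =>
      (R F col (S' - κ i)).map (LinearMap.mulLeft F (f i))) i h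
  · rw [R_neg col (not_nonneg hS' (h2 i hi h)), Submodule.map_bot]
    exact bot_le

open Classical in
theorem specTRIM : SpecTRIM := by
  intro F _ σ ι τ0 τ _ _ _ _ h col κ f S hinj hκ hS
  have h0 : ∀ i, i ∉ Finset.univ.image h → ¬ κ i ≤ S := by
    intro i hi
    apply hS
    rintro ⟨j, rfl⟩
    exact hi (Finset.mem_image_of_mem h (Finset.mem_univ j))
  have key : ∀ S' ≤ S, dq col (κ ∘ h) (f ∘ h) Finset.univ S' = dq col κ f Finset.univ S' ∧
      E col (κ ∘ h) Finset.univ S' = E col κ Finset.univ S' := by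
    intro S' hS'
    constructor
    · unfold dq
      rw [Id_image h col κ f Finset.univ S',
        Id_union col κ f S (Finset.univ.image h) Finset.univ (fun i _ hi => h0 i hi)
          (Finset.subset_univ _) S' hS']
    · rw [E_image h hinj col κ Finset.univ S',
        ← E_union col κ hκ S (Finset.univ.image h) (Finset.univ \ Finset.univ.image h)
          (fun i hi => (Finset.mem_sdiff.1 hi).2) (fun i hi => h0 i (Finset.mem_sdiff.1 hi).2)
          S' hS', Finset.union_sdiff_of_subset (Finset.subset_univ _)]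
  constructor
  · intro hE S' hS'
    rw [← (key S' hS').1, ← (key S' hS').2]
    exact hE S' hS'
  · intro hE S' hS'
    rw [(key S' hS').1, (key S' hS').2]
    exact hE S' hS'

end TRIMM

end FrD
end

section
/-!
# MP_921642_ag, FD, module TRX

Existence of exact systems passes from any field to `ℂ`.
-/
set_option autoImplicit false

namespace FrD.TRXM

open MvPolynomial

theorem specTRX (hTRF : SpecTRF) (hCOM3 : SpecCOM3) : SpecTRX := by
  intro K _ ι _ _ N w S hX σ τ _ _ col κ hv hκ hw
  obtain ⟨f, hf, hEx⟩ := hX σ τ col κ hv hκ hw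
  refine hCOM3 ℂ σ ι τ col (fun i => ind (κ i)) S (fun i => ind_nonneg (κ i)) ?_
  intro S' hS' _
  obtain ⟨f', hf', hle⟩ := hTRF K σ ι τ col (fun i => ind (κ i)) f hf S'
  refine ⟨f', hf', ?_⟩
  have h := hEx S' hS'
  simp only [dq] at h ⊢
  have h2 : (Module.finrank K (Id col (fun i => ind (κ i)) f Finset.univ S') : ℤ) ≤
      (Module.finrank ℂ (Id col (fun i => ind (κ i)) f' Finset.univ S') : ℤ) := by
    exact_mod_cast hle
  linarith

end FrD.TRXM
end

section
/-!
# FD, module UNI: one exact system gives `XX`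
-/
set_option autoImplicit false

namespace FrD

namespace UNIM

open MvPolynomial

/-- the fibre of a restriction is not larger than the fibre -/
lemma card_sub_le {α γ : Type} [Finite α] (p : α → Prop) (c : α → γ) (k : γ) :
    Nat.card {x : {a // p a} // c x.1 = k} ≤ Nat.card {x : α // c x = k} := by
  refine Nat.card_le_card_of_injective
    (fun x : {x : {a // p a} // c x.1 = k} => (⟨x.1.1, x.2⟩ : {x : α // c x = k})) ?_
  intro x y hxy
  have h : x.1.1 = y.1.1 := by simpa using hxy
  exact Subtype.ext (Subtype.ext h)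

lemma card_sub_zero {α γ : Type} (p : α → Prop) (c : α → γ) (k : γ)
    (h : ∀ a, p a → c a ≠ k) : Nat.card {x : {a // p a} // c x.1 = k} = 0 := by
  have : IsEmpty {x : {a // p a} // c x.1 = k} := ⟨fun x => h x.1.1 x.1.2 x.2⟩
  exact Nat.card_of_isEmpty

theorem specUNI (hSUBR : SpecSUBR) (hSUBV : SpecSUBV) (hEXT : SpecEXT) (hTRIM : SpecTRIM)
    (hFIBL : SpecFIBL) : SpecUNI := by
  classical
  intro F _ ι _ _ N w S σ0 τ0 _ _ col0 κ0 f0 hne hf hEx hN hw σ τ _ _ col κ hcol hκ hτ
  -- the maps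
  obtain ⟨h, hinj, hh⟩ := hFIBL.1 {i : τ // ind (κ i) ≤ S} τ0 (Finset ι) (fun x => κ x.1) κ0
    (by
      intro J
      by_cases hJ : ind J ≤ S
      · exact ((card_sub_le (fun i => ind (κ i) ≤ S) κ J).trans (hτ J hJ)).trans (hw J hJ)
      · rw [card_sub_zero (fun i => ind (κ i) ≤ S) κ J]
        · exact Nat.zero_le _
        · intro a ha hk
          exact hJ (hk ▸ ha))
  obtain ⟨u, uinj, hu⟩ := hFIBL.1 {v : σ0 // 0 < S (col0 v)} σ ι (fun x => col0 x.1) col
    (by
      intro k
      by_cases hk : 0 < S k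
      · exact ((card_sub_le (fun v => 0 < S (col0 v)) col0 k).trans (hN k hk)).trans (hcol k hk)
      · rw [card_sub_zero (fun v => 0 < S (col0 v)) col0 k]
        · exact Nat.zero_le _
        · intro a ha hk'
          exact hk (hk' ▸ ha))
  -- the subfamily
  have hSy0 : Sy col0 (fun i => ind (κ0 i)) f0 Finset.univ :=
    fun i _ => ⟨hf i, ind_nonneg _, ind_ne_zero (hne i)⟩
  have e1 := hSUBR F σ0 ι {i : τ // ind (κ i) ≤ S} τ0 h col0 (fun i => ind (κ0 i)) f0 S hinj hSy0 hEx
  -- restriction to the variables which matter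
  obtain ⟨v1, v2⟩ := hSUBV F {v : σ0 // 0 < S (col0 v)} σ0 ι {i : τ // ind (κ i) ≤ S} Subtype.val
    col0 S Subtype.val_injective (fun v' hv' => ⟨⟨v', hv'⟩, rfl⟩)
  have hk1 : ∀ i : {i : τ // ind (κ i) ≤ S}, κ0 (h i) = κ i.1 := hh
  have hex : ∀ i : {i : τ // ind (κ i) ≤ S}, ∃ q ∈ R F (col0 ∘ Subtype.val) (ind (κ i.1)),
      rename (Subtype.val : {v : σ0 // 0 < S (col0 v)} → σ0) q = f0 (h i) := by
    intro i
    have h3 := hf (h i)
    rw [hk1 i] at h3
    exact v1 (ind (κ i.1)) i.2 _ h3
  choose f1 hf1 hr1 using hex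
  have hSy1 : Sy (col0 ∘ (Subtype.val : {v : σ0 // 0 < S (col0 v)} → σ0))
      (fun i : {i : τ // ind (κ i) ≤ S} => ind (κ i.1)) f1 Finset.univ :=
    fun i _ => ⟨hf1 i, ind_nonneg _, ind_ne_zero (hκ i.1)⟩
  have hκeq : ((fun i => ind (κ0 i)) ∘ h : {i : τ // ind (κ i) ≤ S} → ι → ℤ) =
      fun i => ind (κ i.1) := by
    funext i
    simp only [Function.comp, hk1 i]
  have hfeq : (f0 ∘ h : {i : τ // ind (κ i) ≤ S} → MvPolynomial σ0 F) =
      fun i => rename (Subtype.val : {v : σ0 // 0 < S (col0 v)} → σ0) (f1 i) := by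
    funext i
    exact (hr1 i).symm
  rw [hκeq, hfeq] at e1
  have e2 := (v2 (fun i : {i : τ // ind (κ i) ≤ S} => ind (κ i.1)) f1 Finset.univ hSy1).2 e1
  -- extension to the variables `σ`
  have hceq : (col0 ∘ (Subtype.val : {v : σ0 // 0 < S (col0 v)} → σ0)) = col ∘ u := by
    funext x
    exact (hu x).symm
  rw [hceq] at hSy1 e2
  obtain ⟨s3, e3⟩ := hEXT F {v : σ0 // 0 < S (col0 v)} σ ι {i : τ // ind (κ i) ≤ S} u col
    (fun i : {i : τ // ind (κ i) ≤ S} => ind (κ i.1)) f1 Finset.univ S uinj hSy1 e2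
  -- the family
  refine ⟨fun i => if hi : ind (κ i) ≤ S then rename u (f1 ⟨i, hi⟩) else 0, fun i => ?_, ?_⟩
  · by_cases hi : ind (κ i) ≤ S
    · simp only [hi, dif_pos]
      exact (s3 ⟨i, hi⟩ (Finset.mem_univ _)).1
    · simp only [hi, dif_neg, not_false_eq_true]
      exact Submodule.zero_mem _
  · refine (hTRIM F σ ι {i : τ // ind (κ i) ≤ S} τ Subtype.val col (fun i => ind (κ i))
      (fun i => if hi : ind (κ i) ≤ S then rename u (f1 ⟨i, hi⟩) else 0) S
      Subtype.val_injective (fun i => ind_nonneg _) ?_).1 ?_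
    · intro i hi hle
      exact hi ⟨⟨i, hle⟩, rfl⟩
    · have hg : ((fun i => if hi : ind (κ i) ≤ S then rename u (f1 ⟨i, hi⟩) else 0) ∘
          (Subtype.val : {i : τ // ind (κ i) ≤ S} → τ)) = fun i => rename u (f1 i) := by
        funext i
        simp only [Function.comp, i.2, dif_pos]
      rw [hg]
      exact e3

end UNIM

end FrD
end

section
/-!
# MP_921642_ag, FD: assembly
-/
set_option autoImplicit false

namespace FrD

theorem hD1 : SpecD1 := D1M.specD1
theorem hSYZ : SpecSYZ := SYZM.specSYZ hD1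
theorem hKDIM : SpecKDIM := KDIMM.specKDIM hD1 hSYZ
theorem hLIFT : SpecLIFT := LIFTM.specLIFT
theorem hEXT : SpecEXT := EXTM.specEXT
theorem hFNS : SpecFNS := specFNS
theorem hSUBV : SpecSUBV := SUBVM.specSUBV
theorem hMAPC : SpecMAPC := MAPCM.specMAPC
theorem hTRIM : SpecTRIM := TRIMM.specTRIM
theorem hSUBR : SpecSUBR := specSUBR hD1
theorem hLO : SpecLO := specLO
theorem hGPX : SpecGPX := GPXM.specGPX hLO
theorem hOBS : SpecOBS := OBSM.specOBS hLO
theorem hCOMB : SpecCOMB := COMBM.specCOMB hGPX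
theorem hCOM2 : SpecCOM2 := COM2M.specCOM2 hCOMB
theorem hCOM3 : SpecCOM3 := COM2M.specCOM3 hCOMB
theorem hTRF : SpecTRF := TRFM.specTRF
theorem hTRX : SpecTRX := TRXM.specTRX hTRF hCOM3
theorem hBCU : SpecBCU := BCUM.specBCU
theorem hBCD : SpecBCD := BCDM.specBCD
theorem hBLK : SpecBLK := BLKM.specBLK
theorem hFIBL : SpecFIBL := FIBLM.specFIBL
theorem hUNI : SpecUNI := UNIM.specUNI hSUBR hSUBV hEXT hTRIM hFIBL
theorem hMONS : SpecMONS := specMONS hSUBV hEXT hTRIM
theorem hEMB : SpecEMB := specEMB hMAPC hEXT hTRIM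
theorem hISOX : SpecISOX := specISOX hEXT hTRIM
theorem hBLX : SpecBLX := BLXM.specBLX hBLK hCOM2 hFIBL
theorem hSQB : SpecSQB := SQBM.specSQB hBLX hEMB hMONS
theorem hFM : SpecFM := FMM.specFM
theorem hFMQ : SpecFMQ := FMQM.specFMQ hFM
theorem hISO : SpecISO := specISO
theorem hEXPN : SpecEXPN := specEXPN hD1 hISO
theorem hCHAIN : SpecCHAIN := CHAINM.specCHAIN
theorem hNREL : SpecNREL := NRELM.specNREL
theorem hBIGX : SpecBIGX := BIGXM.specBIGX hEMB hMONS hISOX
theorem hBIG : SpecBIG := BIGM.specBIG hBIGX hCOM2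
theorem hSA0 : SpecSA0 := SA0M.specSA0 hD1 hISO hEXPN hCHAIN
theorem hSAA : SpecSAA := SAAM.specSAA hD1 hSA0 hFMQ hNREL
theorem hSAB : SpecSAB := SABM.specSAB hBIG hBCD hBCU hSAA hEXT hTRIM hCOM3
theorem hSA1 : SpecSA1 := SA1M.specSA1 hSAB hUNI hEMB
theorem hMUR : SpecMUR := MURM.specMUR
theorem hTHE : SpecTHE := THEM.specTHE hMUR
theorem hPAN : SpecPAN := PANM.specPAN
theorem hPAI : SpecPAI := PAIM.specPAI hSA1 hSQB hPAN
theorem hPAF : SpecPAF := PAFM.specPAF hTHE hPAI hEMB hMONS hTRX
theorem hGRD : SpecGRD := GRDM.specGRD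
theorem hPHI : SpecPHI := PHIM.specPHI hGRD hLIFT hSYZ hFNS
theorem hTGT : SpecTGT := specTGT
theorem hDEB : SpecDEB := specDEB hPHI hGPX hKDIM
theorem hDEC : SpecDEC := DECM.specDEC hOBS hBLK hTGT
theorem hDEF : SpecDEF := DEFM.specDEF hDEB hDEC hBLK hTGT
theorem hRRB : SpecRRB := RRBM.specRRB
theorem hSTB : SpecSTB := STBM.specSTB hDEF hCOM2 hEXT hBLK hCOM3 hUNI hRRB
theorem hEV : SpecEV := specEV hBLX
theorem hPBR : SpecPBR := PBRM.specPBR hEMB
theorem hPBS : SpecPBS := PBSM.specPBS hSTB hEV hEMB hTGT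
theorem hPBI : SpecPBI := PBIM.specPBI hPBR hPBS hEV
theorem hGAM : SpecGAM := GAMM.specGAM hMUR
theorem hFSN : SpecFSN := FSNM.specFSN
theorem hKNM : SpecKNM := KNMM.specKNM
theorem hONE : SpecONE := ONEM.specONE hD1
theorem hAFR : SpecAFR := AFRM.specAFR hPAF hPBI hKNM hBLK hCOM2 hONE
theorem hAON : SpecAON := specAON FrI.hSEMI FrI.hLV FrI.hHILB FrI.hFSR
theorem hMFD : SpecMFD := MFDM.specMFD hGAM hFSN hAFR hAON FrI.hSEMI FrI.hLV FrI.hFSR

end FrD
end
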