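import Pool.Agent.Lib.MP_921642_ag.FD.Defs

/-!
# MP_921642_ag, FD: the weak Fröberg–Iarrobino inequality for fixed degree

THEOREM.  For every `d` there is `n₀` such that for all `n ≥ n₀`, all `1 ≤ m ≤ d`, every number `s` of points
and every configuration of points, `dim L_{n,d}(m^s) ≥ ldim L_{n,d}(m^s)`.

Every `SpecXXX : Prop` has its complete proof in the docstring.  Module `XXX` = file `FD/XXX.lean`, imports
`FD.Spec` (the modules of Spec2: `FD.Spec2`), theorem `specXXX (hypotheses named in the docstring, in that order) : SpecXXX`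
in the namespace `FrD.XXXM` (auxiliary lemmas there too).  The basic API is in Defs.lean: `md`, `R` (forms of
multidegree `S : ι → ℤ`, zero if `S` is not `≥ 0`), `rr` (number of monomials = dimension), `pr`, `Id`, `E`, `dq`, `Ex`,
`Kos`, `Sy`, `ind`, `XX`, `XXU`, `push`, `fib`, `SZ`, `KZ`, `cln` and lemmas.

Overview.  By semicontinuity and apolarity (library FI) it is enough to find, for `s ≤ (1-δ) c n^a` (`c` the critical
density in degree `e`), forms `f_1 … f_s` of degree `a` in `n + 1` variables whose ideal has in all degrees `≤ e` the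
expected dimensions.  The variables get `K` colours with `N ≈ n / K` variables each, and the forms are multigraded, with
`w ≈ γ N^a` forms of multidegree `J` for every set `J` of `a` colours.
PART A (multidegrees `≤ 1`, over the algebraic closure of `𝔽₂`): induction on the number of colours.  The last
colour is added with `m → ∞` variables; a counting argument over a finite field (FM) gives the new
relations if a subspace inequality holds in the old system; this inequality follows from exact systems with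
one auxiliary colour (EXPN).  All the exact systems for the different auxiliary colours exist simultaneously by
genericity (COMB), then the numbers of variables are equalised by blowing up (SQB).
PART B (all multidegrees, over `ℂ`): induction on (degree, number of repetitions of colours); a deformation argument:
the obstructed syzygies are Koszul (LIFT, an Euler argument), so a generic deformation (with fine colours, so that
the targets have fewer repetitions) kills the excess (OBS, STB).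
-/

set_option autoImplicit false

namespace FrD

open MvPolynomial

/-! ### 1. Exactness, syzygies -/

/-- D1.  Exactness in all multidegrees `≤ S` is inherited by subfamilies `T' ⊆ T`, there is equality, and every
`f i`, `i ∈ T ∖ T'`, is injective modulo the ideal of `T'`.
For `T' ⊆ T`, `i ∉ T'`: `Id (insert i T') S' = Id T' S' ⊔ f_i R(S' - κ_i)` (`Id_insert`), and the dimension increases by
`rr(S' - κ_i) - dim {g ∈ R(S' - κ_i) | f_i g ∈ Id T' S'} ≤ dq T' (S' - κ_i)`, as this kernel contains `Id T' (S' - κ_i)`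
(`mul_mem_Id`); so `dq (insert i T') S' ≥ dq T' S' - dq T' (S' - κ_i)`, with equality only if the kernel is `Id T' (S' - κ_i)`.
`E` satisfies this recursion with equality (`E_insert`).  Strong induction on `n` with `∑ k, S' k < n`, for all `S' ≤ S` (if
`¬ 0 ≤ S'` everything is `0` and `R(S' - κ_i) = ⊥`); note `∑ κ_i ≥ 1`, so in the multidegrees `S' - κ_i` all `T' ⊆ T` have
`dq T' = E T'` by induction.  Hence `h(T') = dq T' S' - E T' S'` satisfies `h(insert i T') ≥ h(T')`, so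
`0 = h(∅) ≤ h(T') ≤ h(T) ≤ 0` (`dq_empty`, `E_empty`): all are `0` and all the inequalities are equalities. -/
def SpecD1 : Prop := ∀ (F : Type) [Field F] (σ ι τ : Type) [Fintype σ] [Fintype ι] [DecidableEq ι]
  (col : σ → ι) (κ : τ → ι → ℤ) (f : τ → MvPolynomial σ F) (T : Finset τ) (S : ι → ℤ),
  Sy col κ f T → Ex col κ f T S →
  (∀ T' ⊆ T, ∀ S' ≤ S, dq col κ f T' S' = E col κ T' S') ∧
  (∀ T' ⊆ T, ∀ i ∈ T, i ∉ T' → ∀ S' ≤ S, ∀ g ∈ R F col (S' - κ i), f i * g ∈ Id col κ f T' S' →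
    g ∈ Id col κ f T' (S' - κ i))

/-- SYZ (hypothesis SpecD1).  In an exact multidegree all the syzygies are Koszul.  Induction on `T`.
`T = insert k T'` (`Ex T' S` by D1).  `f_k g_k = - ∑_{i ∈ T'} f_i g_i ∈ Id T' S`, so `g_k ∈ Id T' (S - κ_k)` by D1:
`g_k = ∑_{j ∈ T'} b_{kj} f_j` with `b_{kj} ∈ R(S - κ_k - κ_j)`.  Then `∑_{i ∈ T'} f_i (g_i + b_{ki} f_k) = 0`; by induction
`g_i + b_{ki} f_k = ∑_{j ∈ T'} b_{ij} f_j` with `b` antisymmetric; put `b_{ik} = - b_{ki}`, `b_{kk} = 0`. -/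
def SpecSYZ : Prop := ∀ (F : Type) [Field F] (σ ι τ : Type) [Fintype σ] [Fintype ι] [DecidableEq ι]
  (col : σ → ι) (κ : τ → ι → ℤ) (f : τ → MvPolynomial σ F) (T : Finset τ) (S : ι → ℤ),
  Sy col κ f T → Ex col κ f T S → ∀ g : τ → MvPolynomial σ F, (∀ i ∈ T, g i ∈ R F col (S - κ i)) →
  ∑ i ∈ T, f i * g i = 0 → Kos col κ f T S g

/-- KDIM (hypotheses SpecD1, SpecSYZ).  Upper bound for the Koszul syzygies, if the smaller multidegrees are exact.
`SZ` is finite dimensional (a subspace of functions with `g i ∈ R(S - κ_i)` on the finite set `T`, `0` outside) and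
`dim SZ = ∑_{i ∈ T} rr(S - κ_i) - dim Id T S` (rank-nullity for `g ↦ ∑ f_i g_i`).  `KZ ≤ SZ` by antisymmetry.
Claim: `dim KZ T S ≤ ∑_{M ⊆ T, |M| ≥ 2} (-1)^{|M|} rr(S - ∑_{i∈M} κ_i)`.  Induction on `T` (the hypothesis is inherited by
subsets, D1).  `T = insert k T'`: the linear map `KZ T S → Id T' (S - κ_k)`, `g ↦ g k = ∑_{j ∈ T'} b_{kj} f_j`, has kernel
contained in `KZ T' S`: if `∑_{j ∈ T'} f_j b_{kj} = 0` then by SYZ (multidegree `S - κ_k`, family `T'`)
`b_{kj} = ∑_{l ∈ T'} c_{jl} f_l`, `c` antisymmetric, `c_{jl} ∈ R(S - κ_k - κ_j - κ_l)`, and for `i ∈ T'`: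
`g_i = ∑_{j ∈ T'} b_{ij} f_j - b_{ki} f_k = ∑_{j ∈ T'} (b_{ij} - c_{ij} f_k) f_j`.  So `dim KZ T S ≤ dim KZ T' S + dim Id T' (S - κ_k)`, and
`dim Id T' (S - κ_k) = rr(S - κ_k) - E T' (S - κ_k)` (D1) `= ∑_{∅ ≠ M' ⊆ T'} (-1)^{|M'|+1} rr(S - κ_k - κ_{M'})`, the terms with `k ∈ M`.
Therefore `dim SZ - dim KZ ≥ ∑_i rr(S - κ_i) - dim Id T S - ∑_{|M| ≥ 2} = dq T S - E T S`. -/
def SpecKDIM : Prop := ∀ (F : Type) [Field F] (σ ι τ : Type) [Fintype σ] [Fintype ι] [DecidableEq ι]
  (col : σ → ι) (κ : τ → ι → ℤ) (f : τ → MvPolynomial σ F) (T : Finset τ) (S : ι → ℤ),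
  Sy col κ f T → (∀ i ∈ T, Ex col κ f T (S - κ i)) →
  Module.Finite F (SZ col κ f T S) ∧ KZ col κ f T S ≤ SZ col κ f T S ∧
  dq col κ f T S - E col κ T S + (Module.finrank F (KZ col κ f T S) : ℤ) ≤
    (Module.finrank F (SZ col κ f T S) : ℤ)

/-- LIFT.  Characteristic 0, a colour `x` with `S x ≥ 1`, all `κ_i x ∈ {0,1}`.  A syzygy `g` with `g_i ∈ Id T (S - κ_i)` for all `i ∈ T`
with `κ_i x = 1` is Koszul, provided that all syzygies of multidegree `S - e_x` are.
For `i` with `κ_i x = 1` write `g_i = ∑_j b_{ij} f_j`, `b_{ij} ∈ R(S - κ_i - κ_j)` (mem_Id); for the other `i` put `b_{ij} = 0`.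
For a variable `v` of colour `x` apply `∂_v` to `∑ f_i g_i = 0`.  `∂_v f_i = 0` if `κ_i x = 0` (no variable of colour `x`).
So `∑_j f_j (∂_v g_j + ∑_i b_{ij} ∂_v f_i) = 0`, a syzygy of multidegree `S - e_x` (`∂_v : R(S) → R(S - e_x)`), hence
`∂_v g_j + ∑_i b_{ij} ∂_v f_i = ∑_l c^v_{jl} f_l`, `c^v` antisymmetric in `R(S - e_x - κ_j - κ_l)`.  Multiply by `v` and sum over the
variables of colour `x`; Euler: `∑_v v ∂_v p = (T x) p` for `p ∈ R(T)`.  With `C_{jl} = ∑_v v c^v_{jl}`: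
`(S x - κ_j x) g_j + ∑_i b_{ij} f_i = ∑_l C_{jl} f_l` (`b_{ij} = 0` if `κ_i x = 0`).  And `(κ_j x) g_j = ∑_i b_{ji} f_i` in both cases.
So `(S x) g_j = ∑_i (b_{ji} - b_{ij} + C_{ji}) f_i`: antisymmetric, divide by `S x ≠ 0`. -/
def SpecLIFT : Prop := ∀ (F : Type) [Field F] [CharZero F] (σ ι τ : Type) [Fintype σ] [Fintype ι]
  [DecidableEq ι] (col : σ → ι) (κ : τ → ι → ℤ) (f : τ → MvPolynomial σ F) (T : Finset τ) (S : ι → ℤ)
  (x : ι), Sy col κ f T → 1 ≤ S x → (∀ i ∈ T, κ i x = 0 ∨ κ i x = 1) →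
  (∀ h : τ → MvPolynomial σ F, (∀ i ∈ T, h i ∈ R F col (S - Pi.single x 1 - κ i)) →
    ∑ i ∈ T, f i * h i = 0 → Kos col κ f T (S - Pi.single x 1) h) →
  ∀ g : τ → MvPolynomial σ F, (∀ i ∈ T, g i ∈ R F col (S - κ i)) → ∑ i ∈ T, f i * g i = 0 →
  (∀ i ∈ T, κ i x = 1 → g i ∈ Id col κ f T (S - κ i)) → Kos col κ f T S g

/-! ### 2. Changing the variables, the colours and the relations -/

/-- EXT.  Additional variables (not occurring in the `f i`) do not destroy exactness.
It is enough to add one variable: induction on the number of elements outside the range of `u` (if `v ∉ range u`, factor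
`u` as `σ → Option σ → σ'`, `none ↦ v`; `rename` of a composition).  One variable `v` of colour `k`
(`σ' = Option σ`): monomials with and without `v` give `rr' S' = rr' (S' - e_k) + rr S'`, hence the same for `E`.
`X v * Id' (S' - e_k)` and `rename (Id S')` are contained in `Id' S'` and intersect in `0` (all monomials of
the first contain `v`, those of the second do not), so `dq' S' ≤ dq' (S' - e_k) + dq S'`; induction on `S' k` (for
`S' k < 0` everything is 0). -/
def SpecEXT : Prop := ∀ (F : Type) [Field F] (σ σ' ι τ : Type) [Fintype σ] [Fintype σ'] [DecidableEq ι]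
  (u : σ → σ') (col : σ' → ι) (κ : τ → ι → ℤ) (f : τ → MvPolynomial σ F) (T : Finset τ) (S : ι → ℤ),
  Function.Injective u → Sy (col ∘ u) κ f T → Ex (col ∘ u) κ f T S →
  Sy col κ (fun i => rename u (f i)) T ∧ Ex col κ (fun i => rename u (f i)) T S

/-- FNS.  A variable which does not occur in the `f i` is a nonzerodivisor modulo the ideal.
`X z * g = ∑ f_i h_i` (mem_Id).  Divide by the monomial `X z` (`MvPolynomial.divMonomial`, linear): since `z` does not occur in
`f_i`, `(f_i h_i)/z = f_i (h_i/z)`; so `g = ∑ f_i (h_i/z)` and `h_i/z ∈ R(S - κ_i)`. -/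
def SpecFNS : Prop := ∀ (F : Type) [Field F] (σ ι τ : Type) [Fintype σ] [DecidableEq ι]
  (col : σ → ι) (κ : τ → ι → ℤ) (f : τ → MvPolynomial σ F) (T : Finset τ) (S : ι → ℤ) (z : σ),
  (∀ i ∈ T, z ∉ (f i).vars) → ∀ g : MvPolynomial σ F,
  X z * g ∈ Id col κ f T (S + Pi.single (col z) 1) → g ∈ Id col κ f T S

/-- SUBV.  Only the variables with colours `k`, `0 < S k`, matter in the multidegrees `≤ S`.
If all the variables `v'` with `0 < S (col v')` are in the range of `u`, then for `S' ≤ S` the exponents of multidegree `S'`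
are `0` outside the range of `u` (`le_md`), so `R' S' = rename u (R S')` (this is the first claim: `p ∈ R' S'` is a sum of monomials
which are renamed monomials), `rr' S' = rr S'`, `E' = E`, and `Id' S' = rename u (Id S')`, since
`R'(S' - κ_i) = rename u (R(S' - κ_i))` (`κ_i ≥ 0`). -/
def SpecSUBV : Prop := ∀ (F : Type) [Field F] (σ σ' ι τ : Type) [Fintype σ] [Fintype σ'] [DecidableEq ι]
  (u : σ → σ') (col : σ' → ι) (S : ι → ℤ), Function.Injective u →
  (∀ v', 0 < S (col v') → v' ∈ Set.range u) →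
  (∀ S' ≤ S, ∀ p ∈ R F col S', ∃ q ∈ R F (col ∘ u) S', rename u q = p) ∧
  ∀ (κ : τ → ι → ℤ) (f : τ → MvPolynomial σ F) (T : Finset τ), Sy (col ∘ u) κ f T →
    (Ex (col ∘ u) κ f T S ↔ Ex col κ (fun i => rename u (f i)) T S)

/-- MAPC.  Change of the set of colours.  All colours of variables and relations are in `A`, `g` is injective on `A`,
and `S k ≤ 0` outside `A`.  For `0 ≤ S' ≤ S` (so `S' = 0` outside `A`): `md col α = S' ↔ md (g ∘ col) α = push g S'`, and
`push g S' ≤ S0`.  So `R col S' = R (g ∘ col) (push g S')`, also for `S' - ind (κ_i)` (with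
`push g (ind J) = ind (J.image g)` for `J ⊆ A`; integer valued multidegrees vanishing outside `A`), so `rr`, `E`, `Id`, `dq` agree.  If
`¬ 0 ≤ S'` then `dq = E = 0`. -/
def SpecMAPC : Prop := ∀ (F : Type) [Field F] (σ ι ι0 τ : Type) [Fintype σ] [Fintype ι] [DecidableEq ι]
  [Fintype ι0] [DecidableEq ι0] (A : Finset ι) (g : ι → ι0) (col : σ → ι) (κ : τ → Finset ι)
  (f : τ → MvPolynomial σ F) (T : Finset τ) (S : ι → ℤ) (S0 : ι0 → ℤ),
  Set.InjOn g A → (∀ v, col v ∈ A) → (∀ i ∈ T, κ i ⊆ A) → (∀ k, k ∉ A → S k ≤ 0) → 0 ≤ S0 →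
  (∀ k ∈ A, S k ≤ S0 (g k)) → (∀ i ∈ T, f i ∈ R F (g ∘ col) (ind ((κ i).image g))) →
  Ex (g ∘ col) (fun i => ind ((κ i).image g)) f T S0 →
  (∀ i ∈ T, f i ∈ R F col (ind (κ i))) ∧ Ex col (fun i => ind (κ i)) f T S

/-- TRIM.  Relations with `¬ κ_i ≤ S` do not matter in multidegrees `≤ S`.  For such `i` and `S' ≤ S`: `R(S' - κ_i) = ⊥`, and
`rr(S' - κ_M) = 0` for `i ∈ M` (as `κ ≥ 0`).  So `E univ S'` is the sum over `M ⊆ image h`, and `Id` is the sum over the image of `h`. -/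
def SpecTRIM : Prop := ∀ (F : Type) [Field F] (σ ι τ0 τ : Type) [Fintype σ] [DecidableEq ι] [Fintype τ0]
  [Fintype τ] (h : τ0 → τ) (col : σ → ι) (κ : τ → ι → ℤ) (f : τ → MvPolynomial σ F) (S : ι → ℤ),
  Function.Injective h → (∀ i, 0 ≤ κ i) → (∀ i, i ∉ Set.range h → ¬ κ i ≤ S) →
  (Ex col (κ ∘ h) (f ∘ h) Finset.univ S ↔ Ex col κ f Finset.univ S)

/-- SUBR (hypothesis SpecD1).  Subfamilies, with reindexing: D1 for `T' = image h`, and
`Id (κ ∘ h) (f ∘ h) univ = Id κ f (univ.image h)`, the same for `E`. -/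
def SpecSUBR : Prop := ∀ (F : Type) [Field F] (σ ι τ0 τ : Type) [Fintype σ] [Fintype ι] [DecidableEq ι]
  [Fintype τ0] [Fintype τ] (h : τ0 → τ) (col : σ → ι) (κ : τ → ι → ℤ) (f : τ → MvPolynomial σ F)
  (S : ι → ℤ), Function.Injective h → Sy col κ f Finset.univ → Ex col κ f Finset.univ S →
  Ex col (κ ∘ h) (f ∘ h) Finset.univ S

/-! ### 3. Genericity -/

/-- LO.  The rank is lower semicontinuous on lines.  Choose `C ≤ U` with `A` injective on `C`, `dim C = rank A`, and a linear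
`L : W → C` with `L (A c) = c`.  `det (L ∘ (A + tB)|_C)` is a polynomial in `t` with value `1` at `t = 0`; where it does not vanish the
rank is at least `dim C`.  (Compare `rank_semicont` in `Pool/Agent/Lib/MP_921642_ag/Semicont.lean`, which is over `ℂ`.) -/
def SpecLO : Prop := ∀ (F : Type) [Field F] (U W : Type) [AddCommGroup U] [Module F U]
  [Module.Finite F U] [AddCommGroup W] [Module F W] (A B : U →ₗ[F] W),
  {t : F | Module.finrank F (LinearMap.range (A + t • B)) < Module.finrank F (LinearMap.range A)}.Finite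

/-- GPX (hypothesis SpecLO).  Finitely many rank conditions which depend linearly on a parameter, each of which can be
satisfied, can be satisfied simultaneously.  Induction on the finite set of conditions: if `v` satisfies those
in `Λ'` and `v'` the next one, take `v + t (v' - v)`: by LO (`A = Ψ l v`, `B = Ψ l (v' - v)`; for the new one
`A = Ψ l v'`, `B = Ψ l (v - v')`, parameter `1 - t`) only finitely many `t` are bad. -/
def SpecGPX : Prop := ∀ (F : Type) [Field F] [Infinite F] (P : Type) [AddCommGroup P] [Module F P]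
  (Λ : Type) [Finite Λ] (U W : Λ → Type) [∀ l, AddCommGroup (U l)] [∀ l, Module F (U l)]
  [∀ l, Module.Finite F (U l)] [∀ l, AddCommGroup (W l)] [∀ l, Module F (W l)]
  (Ψ : ∀ l, P →ₗ[F] (U l →ₗ[F] W l)) (ρ : Λ → ℕ),
  (∀ l, ∃ v, ρ l ≤ Module.finrank F (LinearMap.range (Ψ l v))) →
  ∃ v, ∀ l, ρ l ≤ Module.finrank F (LinearMap.range (Ψ l v))

/-- OBS (hypothesis SpecLO).  Second order: `C ≤ ker M0` on which `M1` is injective modulo the range of `M0`.  Let `D` be a
complement of `ker M0`.  `N_t : D × C → W`, `(d, c) ↦ M0 d + t M1 d + M1 c`.  `N_0` is injective (if `M0 d + M1 c = 0` then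
`M1 c ∈ range M0`, `c = 0`, `M0 d = 0`, `d = 0`), so `rank N_0 = rank M0 + dim C`; by LO there is `t ≠ 0` (`F` infinite) with
`rank N_t ≥ rank M0 + dim C`, and the range of `N_t` is contained in that of `M0 + t M1`, since
`(M0 + t M1)(t⁻¹ c) = M1 c`. -/
def SpecOBS : Prop := ∀ (F : Type) [Field F] [Infinite F] (U W : Type) [AddCommGroup U] [Module F U]
  [Module.Finite F U] [AddCommGroup W] [Module F W] (M0 M1 : U →ₗ[F] W) (C : Submodule F U),
  (∀ c ∈ C, M0 c = 0) → (∀ c ∈ C, M1 c ∈ LinearMap.range M0 → c = 0) →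
  ∃ t : F, Module.finrank F (LinearMap.range M0) + Module.finrank F C ≤
    Module.finrank F (LinearMap.range (M0 + t • M1))

/-- COMB (hypothesis SpecGPX).  `P = ∏ R(κ_i)`, `Λ = 𝒮`, `U S = ∏_i R(S - κ_i)`, `Ψ S f = (g ↦ ∑ f_i g_i)`, whose range is
`Id univ S` (mem_Id). -/
def SpecCOMB : Prop := ∀ (F : Type) [Field F] [Infinite F] (σ ι τ : Type) [Fintype σ] [DecidableEq ι]
  [Fintype τ] (col : σ → ι) (κ : τ → ι → ℤ) (𝒮 : Finset (ι → ℤ)) (ρ : (ι → ℤ) → ℕ),
  (∀ S ∈ 𝒮, ∃ f : τ → MvPolynomial σ F, (∀ i, f i ∈ R F col (κ i)) ∧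
    ρ S ≤ Module.finrank F (Id col κ f Finset.univ S)) →
  ∃ f : τ → MvPolynomial σ F, (∀ i, f i ∈ R F col (κ i)) ∧
    ∀ S ∈ 𝒮, ρ S ≤ Module.finrank F (Id col κ f Finset.univ S)

/-- COM2 (hypothesis SpecCOMB).  Apply COMB to the finite set of all `S'` with `0 ≤ S' ≤ S` for some `S ∈ 𝒮`, with
`ρ S' = (rr S' - E univ S').toNat`: `dq S' ≤ E S'` means `dim Id S' ≥ rr S' - E S'`.  For `¬ 0 ≤ S'`: `dq_neg`, `E_neg`. -/
def SpecCOM2 : Prop := ∀ (F : Type) [Field F] [Infinite F] (σ ι τ : Type) [Fintype σ] [Fintype ι]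
  [DecidableEq ι] [Fintype τ] (col : σ → ι) (κ : τ → ι → ℤ) (𝒮 : Finset (ι → ℤ)), (∀ i, 0 ≤ κ i) →
  (∀ S ∈ 𝒮, ∃ f : τ → MvPolynomial σ F, (∀ i, f i ∈ R F col (κ i)) ∧ Ex col κ f Finset.univ S) →
  ∃ f : τ → MvPolynomial σ F, (∀ i, f i ∈ R F col (κ i)) ∧ ∀ S ∈ 𝒮, Ex col κ f Finset.univ S

/-- COM3 (hypothesis SpecCOMB; in the same file as COM2).  As COM2, one multidegree at a time. -/
def SpecCOM3 : Prop := ∀ (F : Type) [Field F] [Infinite F] (σ ι τ : Type) [Fintype σ] [Fintype ι]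
  [DecidableEq ι] [Fintype τ] (col : σ → ι) (κ : τ → ι → ℤ) (S : ι → ℤ), (∀ i, 0 ≤ κ i) →
  (∀ S' ≤ S, 0 ≤ S' → ∃ f : τ → MvPolynomial σ F, (∀ i, f i ∈ R F col (κ i)) ∧
    dq col κ f Finset.univ S' ≤ E col κ Finset.univ S') →
  ∃ f : τ → MvPolynomial σ F, (∀ i, f i ∈ R F col (κ i)) ∧ Ex col κ f Finset.univ S

/-! ### 4. Change of the field -/

/-- TRF.  From any field to `ℂ`.  `ρ = dim Id f univ S`; a basis `u_j = ∑_i f_i h_{ij}` (`j < ρ`, `h_{ij} ∈ R(S - κ_i)`), and
`c_{j'α} ∈ k` (`α` in the finite set of exponents of multidegree `S`) with `∑_α c_{j'α} coeff_α (u_j) = δ_{j'j}` (left inverse of an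
injective linear map).  Take variables for all the coefficients of the `f_i`, of the `h_{ij}` and for the `c_{j'α}`: the matrix
`A_{j'j} = ∑_α c_{j'α} ∑_i ∑_{β + β' = α} f_{iβ} h_{ijβ'}` has entries in `MvPolynomial _ ℤ` and its determinant has the value `1` at the
given point over `k`, so it is a nonzero integer polynomial, hence nonzero over `ℂ`, and there is a complex point where it
does not vanish (`MvPolynomial.funext`).  The forms `f'_i` with these coefficients: the `u'_j = ∑ f'_i h'_{ij} ∈ Id f' univ S` are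
linearly independent. -/
def SpecTRF : Prop := ∀ (k : Type) [Field k] (σ ι τ : Type) [Fintype σ] [DecidableEq ι] [Fintype τ]
  (col : σ → ι) (κ : τ → ι → ℤ) (f : τ → MvPolynomial σ k), (∀ i, f i ∈ R k col (κ i)) → ∀ S : ι → ℤ,
  ∃ f' : τ → MvPolynomial σ ℂ, (∀ i, f' i ∈ R ℂ col (κ i)) ∧
    Module.finrank k (Id col κ f Finset.univ S) ≤ Module.finrank ℂ (Id col κ f' Finset.univ S)

/-- TRX (hypotheses SpecTRF, SpecCOM3).  For each `S' ≤ S` TRF gives forms over `ℂ` with `dq ≤ E` (`rr` and `E` do not depend on the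
field). -/
def SpecTRX : Prop := ∀ (K : Type) [Field K] (ι : Type) [Fintype ι] [DecidableEq ι] (N : ι → ℕ)
  (w : Finset ι → ℕ) (S : ι → ℤ), XX K N w S → XX ℂ N w S

/-- BCU.  Base change `k → K`: the polynomials `map p`, `p` in a basis of `Id f T S`, span `Id (map f) T S` over `K` (it is spanned by
the `map (f_i) * x^α = map (f_i x^α)`), and they are linearly independent over `K`: a left inverse matrix over `k` of the
coefficient matrix is also one over `K`. -/
def SpecBCU : Prop := ∀ (k K : Type) [Field k] [Field K] [Algebra k K] (σ ι τ : Type) [Fintype σ]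
  [DecidableEq ι] (col : σ → ι) (κ : τ → ι → ℤ) (f : τ → MvPolynomial σ k) (T : Finset τ) (S : ι → ℤ),
  ((∀ i ∈ T, f i ∈ R k col (κ i)) ↔ ∀ i ∈ T, MvPolynomial.map (algebraMap k K) (f i) ∈ R K col (κ i)) ∧
  Module.finrank K (Id col κ (fun i => MvPolynomial.map (algebraMap k K) (f i)) T S) =
    Module.finrank k (Id col κ f T S)

/-- the algebraic closure of the field with two elements -/
abbrev KK : Type := AlgebraicClosure (ZMod 2)

/-- BCD.  Finitely many polynomials over `KK` have coefficients in a finite subfield: `IntermediateField.adjoin` of the finite set of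
the coefficients is finite dimensional over `ZMod 2`, as they are algebraic, hence finite. -/
def SpecBCD : Prop := ∀ (σ τ : Type) [Finite τ] (f : τ → MvPolynomial σ KK),
  ∃ (k : Type) (_ : Field k) (_ : Finite k) (_ : Algebra k KK) (f' : τ → MvPolynomial σ k),
    ∀ i, MvPolynomial.map (algebraMap k KK) (f' i) = f i

/-! ### 5. Blocks: fine and coarse colours -/

/-- BLK.  `π` : fine colours → coarse colours, `col : σ → ι'` fine, `κ` fine multidegrees.  `R (π ∘ col) S` is the direct sum of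
the `R col S'`, `S' ∈ fib π S` (`md (π ∘ col) α = push π (md col α)`).  (1) count monomials.  (2) `E`: for `M ⊆ T` the terms of
`∑_{S' ∈ fib S} rr col (S' - κ_M)` are `0` unless `U = S' - κ_M ≥ 0`, and then `U ∈ fib (S - push π κ_M)`; conversely every such `U` comes
from `S' = U + κ_M ≥ 0`.  (3) `Id col κ f T S' ≤ Id (π ∘ col) (push π ∘ κ) f T S` for `S' ∈ fib S`, and
the sum over `S'` of subspaces `Id S' ≤ R col S'` is direct (coefficients, `pr`).  (4) follows from (1) and (3). -/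
def SpecBLK : Prop := ∀ (F : Type) [Field F] (σ ι ι' τ : Type) [Fintype σ] [Fintype ι] [DecidableEq ι]
  [Fintype ι'] [DecidableEq ι'] (π : ι' → ι) (col : σ → ι') (κ : τ → ι' → ℤ)
  (f : τ → MvPolynomial σ F) (T : Finset τ) (S : ι → ℤ), (∀ i ∈ T, f i ∈ R F col (κ i)) →
  (∀ i ∈ T, 0 ≤ κ i) →
  (rr (π ∘ col) S = ∑ S' ∈ fib π S, rr col S') ∧
  (E (π ∘ col) (fun i => push π (κ i)) T S = ∑ S' ∈ fib π S, E col κ T S') ∧
  (∑ S' ∈ fib π S, Module.finrank F (Id col κ f T S') ≤
    Module.finrank F (Id (π ∘ col) (fun i => push π (κ i)) f T S)) ∧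
  (dq (π ∘ col) (fun i => push π (κ i)) f T S ≤ ∑ S' ∈ fib π S, dq col κ f T S') ∧
  (∀ S' : ι' → ℤ, R F col S' ≤ R F (π ∘ col) (push π S'))

/-- FIBL.  Three elementary facts on maps of finite sets with prescribed sizes of the fibres.
(1) Choose an injection for every fibre.  (2) For `k ∈ G` the sets `Fin (n y)`, `q y = k`, inject disjointly into the fibre of `c` over `k`:
send the image of the `y`-th one to `y` and the remaining elements to any `y` over `k` (exists, as `c x = q y` for some `y`).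
(3) For `k ∈ G` the fibre of `c` over `k` injects into the disjoint union of the `Fin (n y)`, `q y = k`. -/
def SpecFIBL : Prop :=
  (∀ (α β γ : Type) [Finite α] [Finite β] (c : α → γ) (c' : β → γ),
    (∀ k, Nat.card {x // c x = k} ≤ Nat.card {y // c' y = k}) →
    ∃ u : α → β, Function.Injective u ∧ ∀ x, c' (u x) = c x) ∧
  (∀ (α β γ : Type) [Finite α] [Fintype β] [DecidableEq γ] (c : α → γ) (q : β → γ) (n : β → ℕ)
    (G : Set γ), (∀ x, ∃ y, q y = c x) →
    (∀ k ∈ G, (∑ y, if q y = k then n y else 0) ≤ Nat.card {x // c x = k}) →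
    ∃ u : α → β, (∀ x, q (u x) = c x) ∧ ∀ y, q y ∈ G → n y ≤ Nat.card {x // u x = y}) ∧
  (∀ (α β γ : Type) [Finite α] [Fintype β] [DecidableEq γ] (c : α → γ) (q : β → γ) (n : β → ℕ)
    (G : Set γ), (∀ x, ∃ y, q y = c x) →
    (∀ k ∈ G, Nat.card {x // c x = k} ≤ ∑ y, if q y = k then n y else 0) →
    ∃ u : α → β, (∀ x, q (u x) = c x) ∧ ∀ y, q y ∈ G → Nat.card {x // u x = y} ≤ n y)

/-! ### 6. Calculus of XX -/

/-- UNI (hypotheses SpecSUBR, SpecSUBV, SpecEXT, SpecTRIM, SpecFIBL).  One exact system gives `XX`.  Given `(σ, τ, col, κ)` as in `XX`.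
`σ1 = {v : σ0 // 0 < S (col0 v)}`.  `τ1 = {i : τ // ind (κ i) ≤ S}`; by FIBL (1) there are injections `h : τ1 → τ0` with `κ0 ∘ h = κ`, and
`u : σ1 → σ` with `col ∘ u = col0`.  By SUBR `f0 ∘ h` is exact at `S` on `σ0`; by SUBV (first part, as `ind (κ0 (h i)) ≤ S`)
`f0 (h i) = rename (f1 i)` with `f1` on `σ1`, exact at `S` (second part).  EXT: `rename u ∘ f1` is exact at `S` on `σ`.  Put
`f i = rename u (f1 i)` for `i ∈ τ1`, `f i = 0` otherwise; TRIM. -/
def SpecUNI : Prop := ∀ (F : Type) [Field F] (ι : Type) [Fintype ι] [DecidableEq ι] (N : ι → ℕ)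
  (w : Finset ι → ℕ) (S : ι → ℤ) (σ0 τ0 : Type) [Fintype σ0] [Fintype τ0] (col0 : σ0 → ι)
  (κ0 : τ0 → Finset ι) (f0 : τ0 → MvPolynomial σ0 F), (∀ i, (κ0 i).Nonempty) →
  (∀ i, f0 i ∈ R F col0 (ind (κ0 i))) → Ex col0 (fun i => ind (κ0 i)) f0 Finset.univ S →
  (∀ k, 0 < S k → Nat.card {v // col0 v = k} ≤ N k) →
  (∀ J, ind J ≤ S → w J ≤ Nat.card {i // κ0 i = J}) → XX F N w S

/-- MONS (hypotheses SpecSUBV, SpecEXT, SpecTRIM).  Smaller multidegrees.  If `¬ 0 ≤ S'` take `f = 0` (`dq_neg`, `E_neg`).  Let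
`0 ≤ S' ≤ S`, `(σ, τ, col, κ)` as in `XX .. S'`, `A = {k | 0 < S' k}`.  `σA = {v // col v ∈ A}`, `σ1 = σA ⊕ (Σ k : {k // k ∉ A}, Fin (N k))`
with the obvious colours, `τ1 = {i // κ i ⊆ A}`; note `ind J ≤ S' ↔ J ⊆ A`.  The hypotheses of `XX .. S` hold for `(σ1, τ1)`: get `f1` exact
at `S`, so at `S'` (`Ex_mono`).  By SUBV for `Sum.inl : σA → σ1` and `S'`: `f1 i = rename inl (f2 i)` (`ind (κ i) ≤ S'`), `f2` exact at
`S'`.  EXT for `σA → σ`, then TRIM (`f = 0` outside `τ1`). -/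
def SpecMONS : Prop := ∀ (F : Type) [Field F] (ι : Type) [Fintype ι] [DecidableEq ι] (N : ι → ℕ)
  (w : Finset ι → ℕ) (S S' : ι → ℤ), S' ≤ S → XX F N w S → XX F N w S'

/-- EMB (hypotheses SpecMAPC, SpecEXT, SpecTRIM).  Change of the set of colours.  Given `(σ, τ, col, κ)` as in `XX F N w S`; we may assume `0 ≤ S`
(otherwise `f = 0`).  `A = {k | 0 < S k}`, `σA = {v // col v ∈ A}`, `τA = {i // κ i ⊆ A}` (`ind J ≤ S ↔ J ⊆ A`).  `XX F N0 w0 S0` for
`(σA, τA, g ∘ col, image g ∘ κ)`: if `0 < S0 k0` then `k0 = g k`, `0 < S k`, and the fibre over `k0` is that over `k`, with at least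
`N k ≥ N0 k0` elements; if `ind J0 ≤ S0` then `J0 ⊆ g(A)` (as `0 < S0 k0` for `k0 ∈ J0`), so `J0 = J.image g` with a unique `J ⊆ A`, and
`{i ∈ τA | (κ i).image g = J0} = {i | κ i = J}` has at most `w J ≤ w0 J0` elements.  MAPC, EXT (`σA → σ`), TRIM (`f = 0` outside `τA`). -/
def SpecEMB : Prop := ∀ (F : Type) [Field F] (ι ι0 : Type) [Fintype ι] [DecidableEq ι] [Fintype ι0]
  [DecidableEq ι0] (N : ι → ℕ) (w : Finset ι → ℕ) (S : ι → ℤ) (N0 : ι0 → ℕ) (w0 : Finset ι0 → ℕ)
  (S0 : ι0 → ℤ) (g : ι → ι0), (∀ k k', 0 < S k → 0 < S k' → g k = g k' → k = k') → 0 ≤ S0 →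
  (∀ k, 0 < S k → S k ≤ S0 (g k)) → (∀ k0, 0 < S0 k0 → ∃ k, 0 < S k ∧ g k = k0) →
  (∀ k, 0 < S k → N0 (g k) ≤ N k) → (∀ J, ind J ≤ S → w J ≤ w0 (J.image g)) → XX F N0 w0 S0 → XX F N w S

/-- ISOX (hypotheses SpecEXT, SpecTRIM).  An isolated colour `z` can be added to the multidegree.  Given `(σ, τ, col, κ)` for `S + e_z`;
`σ1 = {v // col v ≠ z}`, `τ1 = {i // z ∉ κ i}`.  `XX F N w S` gives `f1` on `(σ1, τ1)` exact at `S`.  It is exact at
`S + e_z` on `σ1`: if `S' ≤ S + e_z` and `S' z ≤ 0` then `S' ≤ S`; if `S' z = 1`, there are no variables of colour `z` and no relation contains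
`z`, so `rr (S' - κ_M) = 0` for all `M`, `dq = E = 0`.  EXT (`σ1 → σ`), TRIM: if `z ∈ κ i` then `¬ ind (κ i) ≤ S + e_z`, because otherwise
`w (κ i) = 0`. -/
def SpecISOX : Prop := ∀ (F : Type) [Field F] (ι : Type) [Fintype ι] [DecidableEq ι] (N : ι → ℕ)
  (w : Finset ι → ℕ) (S : ι → ℤ) (z : ι), S z = 0 →
  (∀ J, z ∈ J → ind J ≤ S + Pi.single z 1 → w J = 0) → XX F N w S → XX F N w (S + Pi.single z 1)

/-- BLX (hypotheses SpecBLK, SpecCOM2, SpecFIBL).  From fine to coarse colours.  Given `(σ, τ, col, κ)` for the coarse colours.  By FIBL (2) (`G = {k | 0 < S k}`)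
there is a fine colouring `col'` with `π ∘ col' = col` and at least `N' k'` variables of colour `k'` if `0 < S (π k')`; by FIBL (3) with
`β = {J' // (J'.image π).card = J'.card}`, `q J' = J'.image π`, `G = {J | ind J ≤ S}`, there is a lift `κ'` of `κ` with
`(κ' i).image π = κ i`, equal cardinalities, at most `w' J'` relations over `J'` if `ind (J'.image π) ≤ S`.  (Every `J` has a lift, as
`π` is surjective.)  For every `S' ≥ 0` with `push π S' ≤ S`: `0 < S' k'` implies `0 < S (π k')`; `ind J' ≤ S'` implies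
`ind (J'.image π) ≤ push π (ind J') ≤ S`; so XX gives forms exact at `S'` for `(col', κ')` (XX is used with `κ'`); by COM2 there are common `f` for the finitely
many `S'`.  `f i ∈ R col' (ind (κ' i)) ≤ R col (ind (κ i))`, since `push π (ind (κ' i)) = ind (κ i)` (equal cardinalities).  By BLK (4), (2)
`dq S1 ≤ ∑_{S' ∈ fib S1} dq S' ≤ ∑ E S' = E S1` for all `0 ≤ S1 ≤ S`. -/
def SpecBLX : Prop := ∀ (F : Type) [Field F] [Infinite F] (ι ι' : Type) [Fintype ι] [DecidableEq ι]
  [Fintype ι'] [DecidableEq ι'] (π : ι' → ι) (N : ι → ℕ) (w : Finset ι → ℕ) (N' : ι' → ℕ)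
  (w' : Finset ι' → ℕ) (S : ι → ℤ), Function.Surjective π →
  (∀ k, 0 < S k → (∑ k', if π k' = k then N' k' else 0) ≤ N k) →
  (∀ J, ind J ≤ S → w J ≤ ∑ J' : Finset ι', if J'.image π = J ∧ J'.card = J.card then w' J' else 0) →
  (∀ S' : ι' → ℤ, 0 ≤ S' → push π S' ≤ S → XX F N' w' S') → XX F N w S

/-- SQB (hypotheses SpecBLX, SpecEMB, SpecMONS).  Blowing up a system which is exact at `(1,…,1)`: every colour `k` is replaced by
`b k` colours.  `ι' = Σ k, Fin (b k)`, `π` = first component, `N' k' = N0 (π k')`, `w' J' = w0 (J'.image π)`.  For `S' ≥ 0` with `push π S' ≤ 1`: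
`S'` is `0` or `1` and `π` is injective on its support, `push π S' ≤ 1`, so `XX F N0 w0 (push π S')` by MONS and `XX F N' w' S'` by EMB with
`g = π`, `S0 = push π S'`.  Then BLX: `∑_{k' over k} N0 k = b k * N0 k`, and there are `∏_{k ∈ J} b k` sets `J'` over `J` with
`|J'| = |J|`. -/
def SpecSQB : Prop := ∀ (F : Type) [Field F] [Infinite F] (ι : Type) [Fintype ι] [DecidableEq ι]
  (N0 N b : ι → ℕ) (w0 w : Finset ι → ℕ), (∀ k, 1 ≤ b k) → (∀ k, b k * N0 k ≤ N k) →
  (∀ J, w J ≤ (∏ k ∈ J, b k) * w0 J) → XX F N0 w0 (fun _ => 1) → XX F N w (fun _ => 1)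

end FrD
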