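import Pool.Agent.Lib.MP_921642_ag.FD.Spec

/-!
# MP_921642_ag, FD: PART A (multidegrees `≤ 1`) and PART B (all multidegrees)

See Spec.lean.
-/

set_option autoImplicit false

namespace FrD

open MvPolynomial

/-! ### 7. The counting lemma -/

/-- FM.  `q = |k|`.  For `d ≠ 0` let `Z(d) ≤ Q` be the span of all `μ J a (d J j)`; it is `≠ ⊥` (if `d J j ≠ 0` then `u J > 0`).  For fixed `d` and `t`
the linear map `(a_{J,j}) ↦ ∑ μ J a_{J,j} (d J j)` has range `Z(d)`, so the number of `φ` with all the sums `= 0` is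
`|Φ| / |Z(d)|^m`, `Φ` = set of all `φ`.  For `Z ≠ ⊥` the number of `d` with `Z(d) = Z` is at most the number of `d` with all
`d J j ∈ (Z : J) = ⨅ a, comap (μ J a) Z`, i.e. `∏_J |(Z : J)|^{u J m} = (q^{∑ u J dim (Z : J)})^m ≤ (|Z| / q)^m`.  So the number of pairs
`(φ, d)`, `d ≠ 0`, with all the sums `0` is at most `∑_Z |Φ| q^{-m} ≤ |Φ| · #{Z} / 2^m < |Φ|` if `2^m > #{Z}`; so some `φ` has no such `d`. -/
def SpecFM : Prop := ∀ (k : Type) [Field k] [Finite k] (𝒥 : Type) [Fintype 𝒥] (A D : 𝒥 → Type)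
  [∀ J, AddCommGroup (A J)] [∀ J, Module k (A J)] [∀ J, Module.Finite k (A J)]
  [∀ J, AddCommGroup (D J)] [∀ J, Module k (D J)] [∀ J, Module.Finite k (D J)]
  (Q : Type) [AddCommGroup Q] [Module k Q] [Module.Finite k Q] (μ : ∀ J, A J →ₗ[k] D J →ₗ[k] Q)
  (u : 𝒥 → ℕ),
  (∀ J, 0 < u J → ∀ d : D J, (∀ a, μ J a d = 0) → d = 0) →
  (∀ Z : Submodule k Q, Z ≠ ⊥ →
    ∑ J, u J * Module.finrank k (⨅ a : A J, Z.comap (μ J a) : Submodule k (D J)) <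
      Module.finrank k Z) →
  ∃ m0 : ℕ, ∀ m ≥ m0, ∃ φ : ∀ J, Fin (u J * m) → Fin m → A J,
    ∀ d : ∀ J, Fin (u J * m) → D J, (∀ t, ∑ J, ∑ j, μ J (φ J j t) (d J j) = 0) → ∀ J j, d J j = 0

/-- FMQ (hypothesis SpecFM).  FM for `𝒥 = Finset ι`, `A J = R (ind J)`, `D J = R (S - ind J)` modulo `Id (S - ind J)`,
`Q = R S` modulo `Id S` (quotients by `Submodule.comap` of the subtype maps), `μ` = multiplication (`mul_mem_Id`).  A subspace of `Q` is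
`Z / Id S`, and `(Z / Id S : J) = cln S Z J / Id (S - ind J)`. -/
def SpecFMQ : Prop := ∀ (k : Type) [Field k] [Finite k] (σ ι τ : Type) [Fintype σ] [Fintype ι]
  [DecidableEq ι] (col : σ → ι) (κ : τ → ι → ℤ) (f : τ → MvPolynomial σ k) (T : Finset τ)
  (S : ι → ℤ) (u : Finset ι → ℕ), (∀ i ∈ T, f i ∈ R k col (κ i)) →
  (∀ J, 0 < u J → cln col S (Id col κ f T S) J = Id col κ f T (S - ind J)) →
  (∀ Z : Submodule k (MvPolynomial σ k), Id col κ f T S ≤ Z → Z ≤ R k col S → Z ≠ Id col κ f T S →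
    ∑ J, (u J : ℤ) * ((Module.finrank k (cln col S Z J) : ℤ) -
      (Module.finrank k (Id col κ f T (S - ind J)) : ℤ)) <
      (Module.finrank k Z : ℤ) - (Module.finrank k (Id col κ f T S) : ℤ)) →
  ∃ m0 : ℕ, ∀ m ≥ m0, ∃ φ : ∀ J : Finset ι, Fin (u J * m) → Fin m → MvPolynomial σ k,
    (∀ J j t, φ J j t ∈ R k col (ind J)) ∧
    ∀ g : ∀ J : Finset ι, Fin (u J * m) → MvPolynomial σ k, (∀ J j, g J j ∈ R k col (S - ind J)) →
      (∀ t, ∑ J, ∑ j, φ J j t * g J j ∈ Id col κ f T S) → ∀ J j, g J j ∈ Id col κ f T (S - ind J)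

/-! ### 8. Isolated colours, expansion -/

/-- ISO.  A colour `z` which occurs in no relation; `S z = 0`.  `R (e_z)` is spanned by the variables `X v` of colour `z`.  For
`W ≤ R S` the sum `∑_v X v * W` is direct (elements of `W` contain no variable of colour `z`: compare the monomials which contain
`X v`) and each summand has dimension `dim W`.  `R (S - κ_i + e_z) = R (e_z) * R (S - κ_i)` since `(S - κ_i) z = 0`; so the same
for the ideals.  The first claim holds for `W = R S` too: that is the third one. -/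
def SpecISO : Prop := ∀ (F : Type) [Field F] (σ ι τ : Type) [Fintype σ] [DecidableEq ι]
  (col : σ → ι) (κ : τ → ι → ℤ) (f : τ → MvPolynomial σ F) (T : Finset τ) (S : ι → ℤ) (z : ι),
  S z = 0 → (∀ i ∈ T, κ i z = 0) →
  (∀ W : Submodule F (MvPolynomial σ F), W ≤ R F col S →
    Module.finrank F (R F col (Pi.single z 1) * W : Submodule F (MvPolynomial σ F)) =
      Nat.card {v // col v = z} * Module.finrank F W) ∧
  Id col κ f T (S + Pi.single z 1) = R F col (Pi.single z 1) * Id col κ f T S ∧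
  R F col (S + Pi.single z 1) = R F col (Pi.single z 1) * R F col S

/-- EXPN (hypotheses SpecD1, SpecISO).  `T`: relations without the colour `z`; `H`: relations of multidegree `e_x + e_z`.  Claim: if
`g i ∈ R S` (`i ∈ H`) and `∑_{i ∈ H} f_i g_i ∈ Id T (S + e_x + e_z)` then all `g i ∈ Id T S`: induction on `H'' ⊆ H`, D1 for
`T' = T ∪ H''` and the next element `i` of `H` gives `g i ∈ Id (T ∪ H'') S = Id T S` (for `j ∈ H''`: `(S - κ_j) z < 0`, so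
`R (S - κ_j) = ⊥`).  Therefore the map `U^H → R (S + e_x + e_z)`, `g ↦ ∑ f_i g_i`, has modulo `Id T (S + e_x + e_z)` the kernel `(Id T S)^H`, and
`|H| (dim U - dim Id T S) = dim (image + Id T (S + e_x + e_z)) - dim Id T (S + e_x + e_z)`.  `f_i ∈ R (e_x + e_z) = R (e_z) * R (e_x)` (ISO), so the image
plus `Id T (S + e_x + e_z) = R (e_z) * Id T (S + e_x)` (ISO) is contained in `R (e_z) * (R (e_x) * U ⊔ Id T (S + e_x))`, of dimension
`N_z dim (R (e_x) * U ⊔ Id T (S + e_x))`; and `dim Id T (S + e_x + e_z) = N_z dim Id T (S + e_x)` (ISO). -/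
def SpecEXPN : Prop := ∀ (F : Type) [Field F] (σ ι τ : Type) [Fintype σ] [Fintype ι] [DecidableEq ι]
  [DecidableEq τ] (col : σ → ι) (κ : τ → ι → ℤ) (f : τ → MvPolynomial σ F) (T H : Finset τ)
  (S : ι → ℤ) (x z : ι), Disjoint T H → Sy col κ f (T ∪ H) → x ≠ z → S z = 0 → (∀ i ∈ T, κ i z = 0) →
  (∀ i ∈ H, κ i = Pi.single x 1 + Pi.single z 1) →
  Ex col κ f (T ∪ H) (S + Pi.single x 1 + Pi.single z 1) →
  ∀ U : Submodule F (MvPolynomial σ F), Id col κ f T S ≤ U → U ≤ R F col S →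
    (H.card : ℤ) * ((Module.finrank F U : ℤ) - (Module.finrank F (Id col κ f T S) : ℤ)) ≤
      (Nat.card {v // col v = z} : ℤ) *
        ((Module.finrank F (R F col (Pi.single x 1) * U ⊔ Id col κ f T (S + Pi.single x 1) :
          Submodule F (MvPolynomial σ F)) : ℤ) -
        (Module.finrank F (Id col κ f T (S + Pi.single x 1)) : ℤ))

/-- CHAIN.  Iterate the expansion.  Induction on `J`.  `J = ∅`: `U ≤ Z` since `1 ∈ R 0`.  `J = insert x J'`: put `P' = insert x P`,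
`U' = R (e_x) * U ⊔ Id (ind P' + b) ≤ R (ind P' + b)`; `R (ind J') * U' ≤ Z` since `R (ind J') * R (e_x) ≤ R (ind J)` and
`R (ind J') * Id (ind P' + b) ≤ Id (ind (P' ∪ J') + b) ≤ Z`.  The induction hypothesis for `J', P', U', Z` and the hypothesis for `P, x, U`. -/
def SpecCHAIN : Prop := ∀ (F : Type) [Field F] (σ ι τ : Type) [Fintype σ] [Fintype ι] [DecidableEq ι]
  (col : σ → ι) (κ : τ → ι → ℤ) (f : τ → MvPolynomial σ F) (T : Finset τ) (b : ι → ℤ)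
  (Pm : Finset ι) (ρ : ℕ → ℝ), (∀ i ∈ T, f i ∈ R F col (κ i)) → (∀ j, 0 ≤ ρ j) →
  (∀ (P : Finset ι) (x : ι), x ∉ P → insert x P ⊆ Pm → ∀ U : Submodule F (MvPolynomial σ F),
    Id col κ f T (ind P + b) ≤ U → U ≤ R F col (ind P + b) →
    ρ (P.card + 1) * ((Module.finrank F U : ℝ) - (Module.finrank F (Id col κ f T (ind P + b)) : ℝ)) ≤
      (Module.finrank F (R F col (Pi.single x 1) * U ⊔ Id col κ f T (ind (insert x P) + b) :
          Submodule F (MvPolynomial σ F)) : ℝ) -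
        (Module.finrank F (Id col κ f T (ind (insert x P) + b)) : ℝ)) →
  ∀ (J P : Finset ι), Disjoint J P → J ∪ P ⊆ Pm → ∀ U Z : Submodule F (MvPolynomial σ F),
    Id col κ f T (ind P + b) ≤ U → U ≤ R F col (ind P + b) →
    Id col κ f T (ind (P ∪ J) + b) ≤ Z → Z ≤ R F col (ind (P ∪ J) + b) →
    R F col (ind J) * U ≤ Z →
    (∏ i ∈ Finset.range J.card, ρ (P.card + i + 1)) *
      ((Module.finrank F U : ℝ) - (Module.finrank F (Id col κ f T (ind P + b)) : ℝ)) ≤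
      (Module.finrank F Z : ℝ) - (Module.finrank F (Id col κ f T (ind (P ∪ J) + b)) : ℝ)

/-! ### 9. The step: a new colour -/

/-- NREL.  A new colour `y` with `m` variables and new relations `F_r = ∑_t X_t φ_{r,t}` of multidegree `insert y (J r)`, in a multidegree
`S + e_y`, `S y = 0`.  Every monomial of multidegree `S + e_y` contains exactly one new variable: `R⁺ (S + e_y) = ⊕_t X_t R S`,
`rr⁺ (S + e_y) = m rr S`, and `rr⁺ U = rr U` if `U y = 0`.  `Id⁺ (S + e_y) ⊇ ⊕_t X_t Id S + ∑_r F_r R (S - ind (J r))`; the map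
`∏_r R (S - ind (J r)) → R⁺`, `g ↦ ∑ F_r g_r = ∑_t X_t ∑_r φ_{r,t} g_r`, has modulo `⊕ X_t Id S` the kernel `∏ Id (S - ind (J r))` (hypothesis;
`⊇` by mul_mem_Id).  So `dim Id⁺ ≥ m dim Id S + ∑_r dq (S - ind (J r))`, `dq⁺ ≤ m dq S - ∑_r dq (S - ind (J r))`.  In `E⁺ (S + e_y)` the sets `M` with two
new relations give `0` (the component at `y` is `< 0`), those without new relations give `m E S`, those with exactly the new
relation `r` give `- E (S - ind (J r))`. -/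
def SpecNREL : Prop := ∀ (F : Type) [Field F] (σ ι τ ρ : Type) [Fintype σ] [Fintype ι] [DecidableEq ι]
  [Fintype τ] [Fintype ρ] (col : σ → ι) (κ : τ → Finset ι) (f : τ → MvPolynomial σ F) (y : ι)
  (S : ι → ℤ) (m : ℕ) (J : ρ → Finset ι) (φ : ρ → Fin m → MvPolynomial σ F),
  (∀ v, col v ≠ y) → (∀ i, y ∉ κ i) → (∀ i, (κ i).Nonempty) →
  (∀ i, f i ∈ R F col (ind (κ i))) → S y = 0 → (∀ r, y ∉ J r) →
  (∀ r t, φ r t ∈ R F col (ind (J r))) →
  dq col (fun i => ind (κ i)) f Finset.univ S = E col (fun i => ind (κ i)) Finset.univ S →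
  (∀ r, dq col (fun i => ind (κ i)) f Finset.univ (S - ind (J r)) =
    E col (fun i => ind (κ i)) Finset.univ (S - ind (J r))) →
  (∀ g : ρ → MvPolynomial σ F, (∀ r, g r ∈ R F col (S - ind (J r))) →
    (∀ t, ∑ r, φ r t * g r ∈ Id col (fun i => ind (κ i)) f Finset.univ S) →
    ∀ r, g r ∈ Id col (fun i => ind (κ i)) f Finset.univ (S - ind (J r))) →
  ∃ f' : τ ⊕ ρ → MvPolynomial (σ ⊕ Fin m) F,
    (∀ i, f' i ∈ R F (Sum.elim col (fun _ : Fin m => y))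
      (ind (Sum.elim κ (fun r => insert y (J r)) i))) ∧
    dq (Sum.elim col (fun _ : Fin m => y)) (fun i => ind (Sum.elim κ (fun r => insert y (J r)) i)) f'
      Finset.univ (S + Pi.single y 1) ≤
    E (Sum.elim col (fun _ : Fin m => y)) (fun i => ind (Sum.elim κ (fun r => insert y (J r)) i))
      Finset.univ (S + Pi.single y 1)

/-- colours: `o x` ordinary, `c P x` auxiliary (certificates), `z` isolated, `y` new -/
inductive CC (p : ℕ) : Type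
  | o : Fin p → CC p
  | c : Finset (Fin p) → Fin p → CC p
  | z : CC p
  | y : CC p
  deriving DecidableEq, Fintype

/-- variables: `N` of every colour except `y` -/
abbrev VB (p N : ℕ) : Type := (Option (Fin p ⊕ (Finset (Fin p) × Fin p))) × Fin N

/-- colouring of the variables -/
def colB (p N : ℕ) : VB p N → CC p
  | (none, _) => CC.z
  | (some (Sum.inl x), _) => CC.o x
  | (some (Sum.inr q), _) => CC.c q.1 q.2

/-- relations: `w0` for every set of `a` ordinary colours; `wc |P|` between `x` and `c P x` for `x ∈ P` -/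
abbrev TB (p a w0 : ℕ) (wc : ℕ → ℕ) : Type :=
  ({J : Finset (Fin p) // J.card = a} × Fin w0) ⊕
    (Σ q : Finset (Fin p) × Fin p, Fin (if q.2 ∈ q.1 then wc q.1.card else 0))

/-- multidegrees of the relations -/
def kB (p a w0 : ℕ) (wc : ℕ → ℕ) : TB p a w0 wc → Finset (CC p)
  | Sum.inl q => q.1.1.image CC.o
  | Sum.inr q => {CC.o q.1.2, CC.c q.1.1 q.1.2}

/-- the ordinary colours in `P` and the colours in `b` -/
def pat (p : ℕ) (P : Finset (Fin p)) (b : Finset (CC p)) : Finset (CC p) := P.image CC.o ∪ b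

/-- colours in `Fin p`, `z = inr false`, `y = inr true` -/
abbrev CB (p : ℕ) : Type := Fin p ⊕ Bool

/-- `w0` relations for every set of `a` colours different from `z`, `w1` for `{y, z}` -/
def wB (p a w0 w1 : ℕ) (J : Finset (CB p)) : ℕ :=
  if Sum.inr false ∉ J ∧ J.card = a then w0
  else if J = {Sum.inr true, Sum.inr false} then w1 else 0

/-- BIGX (hypotheses SpecEMB, SpecMONS, SpecISOX).  `w J = w0` if `J ⊆ P.image o`, `|J| = a`, `w J = wc |P|` if `J = {o x, c P x}`, `w J = 0`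
otherwise.  `XX KK N w (ind (pat P {c P x}))`: EMB from `CB j`, `j = |P| - 1`, `S0 = 1`, `g (o x) = inr true`, `g (c P x) = inr false`, `g (o x') = inl` (number of
`x'`) for `x' ∈ P ∖ {x}`, for the other colours anything.  Then ISOX adds `z`.  Second part (`p ≥ 1`): EMB from
`CB (p - 1)`: `g (o x) = inl x` or `inr true` (for one `x`), `g z = inr false`; `w = 0` for the sets which are not contained in `univ.image o`. -/
def SpecBIGX : Prop := ∀ (p a N w0 : ℕ) (wc : ℕ → ℕ), 2 ≤ a →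
  (∀ j < p, XX KK (fun _ : CB j => N) (wB j a w0 (wc (j + 1))) (fun _ => 1)) →
  (∀ (P : Finset (Fin p)) (x : Fin p), x ∈ P →
    XX KK (fun _ : CC p => N) (fun J => if J ⊆ P.image CC.o ∧ J.card = a then w0
      else if J = {CC.o x, CC.c P x} then wc P.card else 0) (ind (pat p P {CC.c P x, CC.z}))) ∧
  (1 ≤ p → XX KK (fun _ : CC p => N)
    (fun J => if J ⊆ Finset.univ.image CC.o ∧ J.card = a then w0 else 0)
    (ind (pat p Finset.univ {CC.z})))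

/-- BIG (hypotheses SpecBIGX, SpecCOM2).  Simultaneous exact systems.  By COM2 (finitely many multidegrees) it is enough
to have each of them separately.  The system `(VB, TB)` has `N` variables of every colour `≠ y`, and if
`ind J ≤ ind (pat P {c P x, z})` at most as many relations of multidegree `J` as in BIGX (a relation `{o x', c P' x'}` with `c P' x' = c P x` has `P' = P`,
`x' = x`; `pat` does not contain `y`).  Multidegree `ind (pat univ {z})`: BIGX, second part, if `p ≥ 1`.  For `p = 0` there are no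
relations (`a ≥ 2`), `f = 0`. -/
def SpecBIG : Prop := ∀ (p a N w0 : ℕ) (wc : ℕ → ℕ), 2 ≤ a →
  (∀ j < p, XX KK (fun _ : CB j => N) (wB j a w0 (wc (j + 1))) (fun _ => 1)) →
  ∃ f : TB p a w0 wc → MvPolynomial (VB p N) KK,
    (∀ i, f i ∈ R KK (colB p N) (ind (kB p a w0 wc i))) ∧
    (∀ (P : Finset (Fin p)) (x : Fin p), x ∈ P →
      Ex (colB p N) (fun i => ind (kB p a w0 wc i)) f Finset.univ (ind (pat p P {CC.c P x, CC.z}))) ∧
    Ex (colB p N) (fun i => ind (kB p a w0 wc i)) f Finset.univ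
      (ind (pat p Finset.univ {CC.z}))

/-- numbers of new relations, divided by `m`: `u` for every set of `a - 1` ordinary colours, `uz` for `{z}` -/
def uu (p a u uz : ℕ) (J : Finset (CC p)) : ℕ :=
  if J ⊆ Finset.univ.image CC.o ∧ J.card = a - 1 then u else if J = {CC.z} then uz else 0

/-- SA0 (hypotheses SpecD1, SpecISO, SpecEXPN, SpecCHAIN).  The subspace inequality.  `T` = the original relations (`Sum.inl`), `S = ind (pat P b)`.
In multidegrees `S' ≤ S` the other relations do not matter: `Id univ S' = Id T S'` (`R (S' - κ_i) = ⊥`).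
For `P'' ⊆ univ`, `x ∉ P''`, `P1 = insert x P''`: EXPN with `S := ind (pat P'' b)`, `x := o x`, `z := c P1 x`, `H` = relations
`Sum.inr ⟨(P1, x), _⟩` (`wc |P1|` many), exactness from the hypothesis for `(P1, x)` (D1: subfamily `T ∪ H`; `Ex_mono`), `N` variables of colour `c P1 x`:
`(wc |P1| / N) (dim U - dim Id) ≤ dim (R (e_{o x}) * U ⊔ Id) - dim Id`.  So CHAIN holds with `ρ i = wc i / N` (`Pm = univ.image o`, `b := ind b`).
Let `Id ≤ Z ≤ R S`, `j = |P|`.  `J = J'.image o`, `|J'| = a - 1`: if `J' ⊆ P`, CHAIN for `U = cln S Z J` (it contains `Id (S - ind J)` by mul_mem_Id, and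
`R (ind J) * U ≤ Z`) gives `∏_{i < a-1} ρ (j - i) (dim U - dim Id (S - ind J)) ≤ dim Z - dim Id S` (factors in another order); if `J' ⊄ P`
then `R (S - ind J) = ⊥`.  `J = {z}`, `b = {z}`: `R (e_z) * cln S Z {z} ≤ Z`, so by ISO
`N (dim cln - dim Id (S - e_z)) ≤ dim Z - dim Id S`; `b = ∅`: `R (S - e_z) = ⊥`.  Since all the `ρ > 0`, `Z = Id S` gives the first claim.  For
`Z ≠ Id S` the sum is at most `(choose j (a-1) u / ∏ ρ (j - i) + uz / N) (dim Z - dim Id S) < dim Z - dim Id S` if `a - 1 ≤ j`, and at most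
`(uz / N) (dim Z - dim Id S)` if `j < a - 1`. -/
def SpecSA0 : Prop := ∀ (k : Type) [Field k] (p a N w0 u uz : ℕ) (wc : ℕ → ℕ), 2 ≤ a → 1 ≤ N →
  (∀ i, 1 ≤ i → i ≤ p → 1 ≤ wc i) → uz < N →
  (∀ j ≤ p, a - 1 ≤ j → (j.choose (a - 1) : ℝ) * u /
    (∏ i ∈ Finset.range (a - 1), ((wc (j - i) : ℝ) / N)) + (uz : ℝ) / N < 1) →
  ∀ f : TB p a w0 wc → MvPolynomial (VB p N) k,
  (∀ i, f i ∈ R k (colB p N) (ind (kB p a w0 wc i))) →
  (∀ (P : Finset (Fin p)) (x : Fin p), x ∈ P →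
    Ex (colB p N) (fun i => ind (kB p a w0 wc i)) f Finset.univ (ind (pat p P {CC.c P x, CC.z}))) →
  ∀ (P : Finset (Fin p)) (b : Finset (CC p)), (b = ∅ ∨ b = {CC.z}) →
  (∀ J, 0 < uu p a u uz J → cln (colB p N) (ind (pat p P b))
      (Id (colB p N) (fun i => ind (kB p a w0 wc i)) f Finset.univ (ind (pat p P b))) J =
    Id (colB p N) (fun i => ind (kB p a w0 wc i)) f Finset.univ (ind (pat p P b) - ind J)) ∧
  (∀ Z : Submodule k (MvPolynomial (VB p N) k),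
    Id (colB p N) (fun i => ind (kB p a w0 wc i)) f Finset.univ (ind (pat p P b)) ≤ Z →
    Z ≤ R k (colB p N) (ind (pat p P b)) →
    Z ≠ Id (colB p N) (fun i => ind (kB p a w0 wc i)) f Finset.univ (ind (pat p P b)) →
    ∑ J, (uu p a u uz J : ℤ) * ((Module.finrank k (cln (colB p N) (ind (pat p P b)) Z J) : ℤ) -
      (Module.finrank k (Id (colB p N) (fun i => ind (kB p a w0 wc i)) f Finset.univ
        (ind (pat p P b) - ind J)) : ℤ)) <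
      (Module.finrank k Z : ℤ) -
      (Module.finrank k (Id (colB p N) (fun i => ind (kB p a w0 wc i)) f Finset.univ
        (ind (pat p P b))) : ℤ))

/-- numbers of variables after the step -/
def Npl (p N m : ℕ) : CB p → ℕ
  | Sum.inr true => m
  | _ => N

/-- numbers of relations after the step -/
def wpl (p a w0 u uz m : ℕ) (J : Finset (CB p)) : ℕ :=
  if Sum.inr true ∈ J then
    (if Sum.inr false ∉ J ∧ J.card = a then u * m
      else if J = {Sum.inr true, Sum.inr false} then uz * m else 0)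
  else (if Sum.inr false ∉ J ∧ J.card = a then w0 else 0)

/-- the new relations of the step (they contain `y` and the set `r.1`) -/
abbrev RN (p a u uz m : ℕ) : Type := Σ J : Finset (CC p), Fin (uu p a u uz J * m)

/-- multidegrees of the old and the new relations -/
abbrev kN (p a w0 u uz m : ℕ) (wc : ℕ → ℕ) : TB p a w0 wc ⊕ RN p a u uz m → Finset (CC p) :=
  Sum.elim (kB p a w0 wc) (fun r => insert CC.y r.1)

/-- colouring of the old and the new variables -/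
abbrev colN (p N m : ℕ) : VB p N ⊕ Fin m → CC p := Sum.elim (colB p N) (fun _ : Fin m => CC.y)

/-- SAA (hypotheses SpecD1, SpecSA0, SpecFMQ, SpecNREL).  New relations over a finite field, one multidegree at a time.  SA0 and FMQ
(`T = univ`, `S = ind (pat P b)`, `u := uu p a u uz`) give `m0` and for `m ≥ m0` the `φ`.  NREL with `y := CC.y`, `ρ = Σ J : Finset (CC p), Fin (uu p a u uz J * m)`,
`J r = r.1` (if `uu J > 0` then `y ∉ J`); the equalities `dq = E` at `S` and at `S - ind J` by D1 and the exactness at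
`ind (pat univ {z}) ≥ S`. -/
def SpecSAA : Prop := ∀ (k : Type) [Field k] [Finite k] (p a N w0 u uz : ℕ) (wc : ℕ → ℕ), 2 ≤ a → 1 ≤ N →
  (∀ i, 1 ≤ i → i ≤ p → 1 ≤ wc i) → uz < N →
  (∀ j ≤ p, a - 1 ≤ j → (j.choose (a - 1) : ℝ) * u /
    (∏ i ∈ Finset.range (a - 1), ((wc (j - i) : ℝ) / N)) + (uz : ℝ) / N < 1) →
  ∀ f : TB p a w0 wc → MvPolynomial (VB p N) k,
  (∀ i, f i ∈ R k (colB p N) (ind (kB p a w0 wc i))) →
  (∀ (P : Finset (Fin p)) (x : Fin p), x ∈ P →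
    Ex (colB p N) (fun i => ind (kB p a w0 wc i)) f Finset.univ (ind (pat p P {CC.c P x, CC.z}))) →
  Ex (colB p N) (fun i => ind (kB p a w0 wc i)) f Finset.univ (ind (pat p Finset.univ {CC.z})) →
  ∀ (P : Finset (Fin p)) (b : Finset (CC p)), (b = ∅ ∨ b = {CC.z}) → ∃ m0 : ℕ, ∀ m ≥ m0,
    ∃ f' : TB p a w0 wc ⊕ RN p a u uz m → MvPolynomial (VB p N ⊕ Fin m) k,
      (∀ i, f' i ∈ R k (colN p N m) (ind (kN p a w0 u uz m wc i))) ∧
      dq (colN p N m) (fun i => ind (kN p a w0 u uz m wc i)) f' Finset.univ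
        (ind (pat p P b) + Pi.single CC.y 1) ≤
      E (colN p N m) (fun i => ind (kN p a w0 u uz m wc i)) Finset.univ
        (ind (pat p P b) + Pi.single CC.y 1)

/-- SAB (hypotheses SpecBIG, SpecBCD, SpecBCU, SpecSAA, SpecEXT, SpecTRIM, SpecCOM3).  BIG: `f` over `KK`; BCD: `f = map f0` with `f0`
over a finite field `k`; by BCU all the exactness statements hold for `f0` (`dq` does not change, and `f0 i ∈ R`).  `m0` = the maximum of the
`m0(P, b)` of SAA.  SAA for `f0`, then BCU gives a system over `KK` with `dq ≤ E` at `ind (pat P b) + e_y`.  For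
`0 ≤ S' ≤ ind (pat univ {z, y})`: `S' = ind (pat P b) + e_y` or `S' = ind (pat P b)` with `b = ∅` or `{z}`; in the second case take `rename inl ∘ f` for the old
and `0` for the new relations (EXT, and TRIM as the new relations contain `y`).  COM3. -/
def SpecSAB : Prop := ∀ (p a N w0 u uz : ℕ) (wc : ℕ → ℕ), 2 ≤ a → 1 ≤ N →
  (∀ i, 1 ≤ i → i ≤ p → 1 ≤ wc i) → uz < N →
  (∀ j ≤ p, a - 1 ≤ j → (j.choose (a - 1) : ℝ) * u /
    (∏ i ∈ Finset.range (a - 1), ((wc (j - i) : ℝ) / N)) + (uz : ℝ) / N < 1) →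
  (∀ j < p, XX KK (fun _ : CB j => N) (wB j a w0 (wc (j + 1))) (fun _ => 1)) →
  ∃ m0 : ℕ, ∀ m ≥ m0, ∃ f' : TB p a w0 wc ⊕ RN p a u uz m → MvPolynomial (VB p N ⊕ Fin m) KK,
    (∀ i, f' i ∈ R KK (colN p N m) (ind (kN p a w0 u uz m wc i))) ∧
    Ex (colN p N m) (fun i => ind (kN p a w0 u uz m wc i)) f' Finset.univ
      (ind (pat p Finset.univ {CC.z, CC.y}))

/-- SA1 (hypotheses SpecSAB, SpecUNI, SpecEMB).  UNI on the colours `CC p` for the system of SAB, `S = ind (pat univ {z, y})` (variables: `N` of colour `o x` and `z`,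
`m` of colour `y`; relations: `w0` over `J ⊆ image o`, `|J| = a`; `u m` over `insert y J'`, `J' ⊆ image o`, `|J'| = a - 1`; `uz m` over `{y, z}`), then EMB to `CB p` with
`g (inl x) = o x`, `g (inr false) = z`, `g (inr true) = y`, `S0 = ind (pat univ {z, y})`. -/
def SpecSA1 : Prop := ∀ (p a N w0 u uz : ℕ) (wc : ℕ → ℕ), 2 ≤ a → 1 ≤ N →
  (∀ i, 1 ≤ i → i ≤ p → 1 ≤ wc i) → uz < N →
  (∀ j ≤ p, a - 1 ≤ j → (j.choose (a - 1) : ℝ) * u /
    (∏ i ∈ Finset.range (a - 1), ((wc (j - i) : ℝ) / N)) + (uz : ℝ) / N < 1) →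
  (∀ j < p, XX KK (fun _ : CB j => N) (wB j a w0 (wc (j + 1))) (fun _ => 1)) →
  ∃ m0 : ℕ, ∀ m ≥ m0, XX KK (Npl p N m) (wpl p a w0 u uz m) (fun _ : CB p => 1)

/-! ### 10. The numbers of Part A and the result of Part A -/

/-- `∑_i (-γ)^i p! / (i! (a!)^i (p - i a)!)`, the weighted number of matchings of `a`-subsets of `p` points -/
noncomputable def mu (a : ℕ) (γ : ℝ) (p : ℕ) : ℝ :=
  ∑ i ∈ (Finset.range (p + 1)).filter (fun i => i * a ≤ p),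
    (-γ) ^ i * (p.factorial : ℝ) /
      ((i.factorial : ℝ) * (a.factorial : ℝ) ^ i * ((p - i * a).factorial : ℝ))

/-- MUR.  With `M_i(p) = p! / (i! (a!)^i (p - i a)!)`: `M_i(p) = M_i(p+1) (p + 1 - i a)/(p + 1)`,
`choose p (a-1) M_{i-1}(p + 1 - a) = M_i(p + 1) a i/(p + 1)`, the sum is `M_i(p + 1)`. -/
def SpecMUR : Prop := ∀ (a : ℕ) (γ : ℝ), 1 ≤ a → mu a γ 0 = 1 ∧
  ∀ p, mu a γ (p + 1) = mu a γ p - γ * (p.choose (a - 1) : ℝ) * mu a γ (p + 1 - a)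

/-- THE (hypothesis SpecMUR).  `ρ_j = mu a γ' j / mu a γ' (j - 1)` for `1 ≤ j ≤ e`.  By MUR `ρ_{j+1} = 1 - γ' choose j (a-1) / ∏_{i < a-1} ρ_{j-i}` if
`a - 1 ≤ j`, and `ρ_{j+1} = 1` if `j < a - 1`; so `0 < ρ ≤ 1`, and `ρ` is nonincreasing (induction: `choose j (a-1)` increases and the product
decreases).  `η = (1 - γ/γ')/a`, so `γ ≤ γ' (1 - η)^{a-1}` (Bernoulli), and `θ_j = (1 - η) ρ_j`:
`choose j (a-1) γ / ∏ θ_{j-i} + θ_{p+1} ≤ choose j (a-1) γ' / ∏ ρ_{j-i} + (1-η) ρ_{p+1} = 1 - ρ_{j+1} + (1-η) ρ_{p+1} ≤ 1 - η ρ_{p+1} < 1`. -/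
def SpecTHE : Prop := ∀ (a e : ℕ) (γ γ' : ℝ), 2 ≤ a → 0 < γ → γ < γ' → (∀ j ≤ e, 0 < mu a γ' j) →
  ∃ θ : ℕ → ℝ, (∀ i, 1 ≤ i → i ≤ e → 0 < θ i ∧ θ i < 1) ∧
    ∀ p < e, ∀ j ≤ p, a - 1 ≤ j →
      (j.choose (a - 1) : ℝ) * γ / (∏ i ∈ Finset.range (a - 1), θ (j - i)) + θ (p + 1) < 1

/-- PAN.  `wc i = ⌈θ_i N²⌉`, so `wc i / N ≥ θ_i N > 0`; `∏ (wc (j-i)/N) ≥ N^{a-1} ∏ θ_{j-i}`, `⌈γ N^{a-1}⌉ ≤ (γ + 1/N) N^{a-1}` (`a ≥ 2`), `⌈θ N⌉ / N ≤ θ + 1/N`; so the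
left side is at most `choose j (a-1) (γ + 1/N) / ∏ θ_{j-i} + θ_{p+1} + 1/N`, which is `< 1` for `N` large, for all the finitely many `j`; `⌈θ N⌉ < N` for `N` large. -/
def SpecPAN : Prop := ∀ (a e p : ℕ) (γ : ℝ) (θ : ℕ → ℝ), 2 ≤ a → 0 < γ → p < e →
  (∀ i, 1 ≤ i → i ≤ e → 0 < θ i ∧ θ i < 1) →
  (∀ j ≤ p, a - 1 ≤ j →
      (j.choose (a - 1) : ℝ) * γ / (∏ i ∈ Finset.range (a - 1), θ (j - i)) + θ (p + 1) < 1) →
  ∃ N2 : ℕ, ∀ N ≥ N2, 1 ≤ N → (∀ i, 1 ≤ i → i ≤ p → 1 ≤ ⌈θ i * (N : ℝ) ^ 2⌉₊) ∧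
    ⌈θ (p + 1) * (N : ℝ)⌉₊ < N ∧
    ∀ j ≤ p, a - 1 ≤ j → (j.choose (a - 1) : ℝ) * (⌈γ * (N : ℝ) ^ (a - 1)⌉₊ : ℕ) /
      (∏ i ∈ Finset.range (a - 1), (((⌈θ (j - i) * (N : ℝ) ^ 2⌉₊ : ℕ) : ℝ) / N)) +
      ((⌈θ (p + 1) * (N : ℝ)⌉₊ : ℕ) : ℝ) / N < 1

/-- PAI (hypotheses SpecSA1, SpecSQB, SpecPAN).  Induction on `p`.  Step `p → p + 1` (`p < e`): take `N` from the induction hypothesis, `N ≥ N1, N2, 1` (PAN);
SA1 with `w0 = ⌈γ N^a⌉`, `u = ⌈γ N^{a-1}⌉`, `uz = ⌈θ_{p+1} N⌉`, `wc i = ⌈θ_i N²⌉`.  Let `b ≥ 1` with `m = N b ≥ m0`.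
New `N` := `N b`.  For `j = p`: SQB with `b k = b` for `k ≠ inr true`,
`b (inr true) = 1`: `b^a ⌈γ N^a⌉ ≥ ⌈γ (N b)^a⌉` for `inr true ∉ J`; `b^{a-1} ⌈γ N^{a-1}⌉ N b ≥ ⌈γ (N b)^a⌉` for `inr true ∈ J`,
`b ⌈θ N⌉ N b ≥ ⌈θ (N b)²⌉` for `J = {inr true, inr false}`.  For `j < p`: SQB with `b k = b` for all `k`. -/
def SpecPAI : Prop := ∀ (a e : ℕ) (γ : ℝ) (θ : ℕ → ℝ), 2 ≤ a → 0 < γ →
  (∀ i, 1 ≤ i → i ≤ e → 0 < θ i ∧ θ i < 1) →
  (∀ p < e, ∀ j ≤ p, a - 1 ≤ j →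
      (j.choose (a - 1) : ℝ) * γ / (∏ i ∈ Finset.range (a - 1), θ (j - i)) + θ (p + 1) < 1) →
  ∀ p ≤ e, ∀ N1 : ℕ, ∃ N ≥ N1, 1 ≤ N ∧ ∀ j < p,
    XX KK (fun _ : CB j => N) (wB j a ⌈γ * (N : ℝ) ^ a⌉₊ ⌈θ (j + 1) * (N : ℝ) ^ 2⌉₊) (fun _ => 1)

/-- PAF (hypotheses SpecTHE, SpecPAI, SpecEMB, SpecMONS, SpecTRX).  `w = ⌈γ N^a⌉`, `p = e`.  `J = ∅`: `f = 0`; in the multidegrees `S' ≤ 0` only `S' = 0`
matters, `dq = rr 0 = E` since all the `κ_i` are nonzero.  `|J| = j + 1`: EMB (`F = KK`) with `g : ι → CB j`, bijective from `J` to `{inl _} ∪ {inr true}`,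
`S0 = ind (univ.erase (inr false))` (`MONS` from `1`), then TRX. -/
def SpecPAF : Prop := ∀ (a e : ℕ) (γ γ' : ℝ), 2 ≤ a → 0 < γ → γ < γ' → (∀ j ≤ e, 0 < mu a γ' j) →
  ∀ N1 : ℕ, ∃ N ≥ N1, 1 ≤ N ∧ ∃ w : ℕ, γ * (N : ℝ) ^ a ≤ w ∧
    ∀ (ι : Type) [Fintype ι] [DecidableEq ι] (J : Finset ι), J.card ≤ e → XXU ℂ a N w (ind J)

/-! ### 11. Part B: the deformation -/

/-- GRD.  Greedy choice.  Induction on `n ≤ D`: there are `ψ c ∈ 𝒲 c` for `c < n` such that the common kernel has dimension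
`≤ finrank C - n` (or is `0`): if it contains `g ≠ 0`, choose `ψ n` with `ψ n g ≠ 0`. -/
def SpecGRD : Prop := ∀ (F : Type) [Field F] (C : Type) [AddCommGroup C] [Module F C]
  [Module.Finite F C] (D : ℕ) (Q : Fin D → Type) [∀ c, AddCommGroup (Q c)] [∀ c, Module F (Q c)]
  (𝒲 : ∀ c, Set (C →ₗ[F] Q c)), Module.finrank F C ≤ D → (∀ c, (𝒲 c).Nonempty) →
  (∀ c, ∀ g : C, g ≠ 0 → ∃ ψ ∈ 𝒲 c, ψ g ≠ 0) →
  ∃ ψ : ∀ c, C →ₗ[F] Q c, (∀ c, ψ c ∈ 𝒲 c) ∧ ∀ g : C, (∀ c, ψ c g = 0) → g = 0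

/-- the multidegree `S0` on the fine colours `(k, l k)` -/
def lam {ι Z : Type} [DecidableEq Z] (S0 : ι → ℤ) (l : ι → Z) : ι × Z → ℤ :=
  fun k => if k.2 = l k.1 then S0 k.1 else 0

/-- shift of the fine colours over `x0` by `c` -/
def sh {ι Z : Type} [DecidableEq ι] [DecidableEq Z] [Add Z] (x0 : ι) (c : Z)
    (J : Finset (ι × Z)) : Finset (ι × Z) :=
  J.image (fun k => if k.1 = x0 then (k.1, k.2 + c) else k)

/-- the multidegree `lam S0 l` with one of the copies of `(x0, l x0)` replaced by `(x0, l x0 + c)` -/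
def tgt {ι Z : Type} [DecidableEq ι] [DecidableEq Z] [Add Z] (S0 : ι → ℤ) (x0 : ι) (l : ι → Z)
    (c : Z) : ι × Z → ℤ :=
  lam S0 l - Pi.single (x0, l x0) 1 + Pi.single (x0, l x0 + c) 1

/-- PHI (hypotheses SpecGRD, SpecLIFT, SpecSYZ, SpecFNS).  GRD with `Q c` = polynomials modulo `Id (tgt c)`, `𝒲 c` = the maps `g ↦ ∑_i φ_i g_i` with
`φ_i ∈ R (ind (sh x0 (c+1) (κ i)))`, `φ_i = 0` if `κ i` has no element over `x0`.  Let `0 ≠ g ∈ C`, so `g` is not Koszul.  LIFT with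
`x = (x0, l x0)`, `S = lam S0 l` (`S x = S0 x0 ≥ 2`; the syzygies of multidegree `S - e_x` are Koszul by SYZ): there is `i` with `x ∈ κ i` and
`g_i ∉ Id (S - ind (κ i))`.  Let `φ_i` be the product of the variables `z_k`, `k ∈ sh x0 (c+1) (κ i)`, of the hypothesis, and
`φ_j = 0` for `j ≠ i`.  `x` is the only element of `κ i` over `x0`, so `S - ind (κ i) + ind (sh x0 (c+1) (κ i)) = tgt S0 x0 l (c+1)`, and by FNS
(repeated) `φ_i g_i ∉ Id (tgt)`. -/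
def SpecPHI : Prop := ∀ (ι σ τ : Type) [Fintype σ] [Fintype ι] [DecidableEq ι] [Fintype τ] (L : ℕ)
  [NeZero L] (col : σ → ι × ZMod L) (κ : τ → Finset (ι × ZMod L)) (f : τ → MvPolynomial σ ℂ)
  (S0 : ι → ℤ) (x0 : ι) (l : ι → ZMod L) (D : ℕ) (C : Submodule ℂ (τ → MvPolynomial σ ℂ)),
  (∀ i, (κ i).Nonempty) → (∀ i, Set.InjOn Prod.fst (κ i : Set (ι × ZMod L))) →
  (∀ i, f i ∈ R ℂ col (ind (κ i))) → (∀ k, ∃ z, col z = k ∧ ∀ i, z ∉ (f i).vars) → 2 ≤ S0 x0 →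
  Ex col (fun i => ind (κ i)) f Finset.univ (lam S0 l - Pi.single (x0, l x0) 1) →
  C ≤ SZ col (fun i => ind (κ i)) f Finset.univ (lam S0 l) →
  Disjoint C (KZ col (fun i => ind (κ i)) f Finset.univ (lam S0 l)) → Module.Finite ℂ C →
  Module.finrank ℂ C ≤ D →
  ∃ φ : Fin D → τ → MvPolynomial σ ℂ,
    (∀ (c : Fin D) (i : τ), φ c i ∈ R ℂ col (ind (sh x0 (((c : ℕ) : ZMod L) + 1) (κ i)))) ∧
    (∀ (c : Fin D) (i : τ), (∀ k ∈ κ i, k.1 ≠ x0) → φ c i = 0) ∧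
    ∀ g ∈ C, (∀ c : Fin D, ∑ i, φ c i * g i ∈ Id col (fun i => ind (κ i)) f Finset.univ
      (tgt S0 x0 l (((c : ℕ) : ZMod L) + 1))) → g = 0

/-- TGT.  Bookkeeping on the fine colours.  `tgt S0 x0 l (c+1)` determines `l` and `c`: at `k ≠ x0` the support is `(k, l k)` (`S0 k ≥ 1`); over `x0` there are the
colours `l x0` with multiplicity `S0 x0 - 1 ≥ 1` and `l x0 + c + 1` with multiplicity `1` (they are different, `1 ≤ c + 1 ≤ D`); if
`S0 x0 = 2` both multiplicities are `1`, but `c + 1` is in `{1, …, D}` and `-(c' + 1)` is not, modulo `2D+1`.  Last claim: the support contains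
at least one element over every `k`; if exactly one over every `k`, then `S' = lam S0 l`. -/
def SpecTGT : Prop := ∀ (ι : Type) [Fintype ι] [DecidableEq ι] (S0 : ι → ℤ), (∀ k, 1 ≤ S0 k) →
  (∀ (L : ℕ) [NeZero L] (l : ι → ZMod L), 0 ≤ lam S0 l ∧ push Prod.fst (lam S0 l) = S0) ∧
  (∀ (L : ℕ) [NeZero L] (l l' : ι → ZMod L), lam S0 l = lam S0 l' → l = l') ∧
  (∀ (x0 : ι) (D : ℕ) (l l' : ι → ZMod (2 * D + 1)) (c c' : Fin D), 2 ≤ S0 x0 →
    tgt S0 x0 l (((c : ℕ) : ZMod (2 * D + 1)) + 1) = tgt S0 x0 l' (((c' : ℕ) : ZMod (2 * D + 1)) + 1) →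
    l = l' ∧ c = c') ∧
  (∀ (Z : Type) [Fintype Z] [DecidableEq Z] (S' : ι × Z → ℤ), 0 ≤ S' → push Prod.fst S' = S0 →
    (∀ l, S' ≠ lam S0 l) → Fintype.card ι < (Finset.univ.filter (fun k => 0 < S' k)).card)

/-- DEB (hypotheses SpecPHI, SpecGPX, SpecKDIM).  For every `l` let `C l` be a complement of `KZ` in `SZ` at `lam S0 l`; by KDIM
`dim C_l ≥ dq (lam S0 l) - E (lam S0 l)` (exactness at `lam S0 l - ind (κ i)`: let `S'` be `≤` it; if `¬ 0 ≤ S'` use `dq_neg`, `E_neg`; if `0 ≤ S'` the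
push forward of `S'` is `≤ S0` and `≠ S0`, so `S'` is not of the form `lam`).  By PHI for every `l` there is `φ` such that the map
`Ψ_l(φ) : C_l → ∏_c MvPolynomial / Id (tgt c)`, `g ↦ (∑_i φ_{c,i} g_i)_c`, is injective; `Ψ_l` is linear in `φ`, `φ` in the space of all `φ` with
`φ_{c,i} ∈ R (ind (sh x0 (c+1) (κ i)))`, `= 0` if `κ i` has no element over `x0`.  GPX (`ρ l = dim C_l`): one `φ` for all `l`. -/
def SpecDEB : Prop := ∀ (ι σ τ : Type) [Fintype σ] [Fintype ι] [DecidableEq ι] [Fintype τ] (D : ℕ)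
  (col : σ → ι × ZMod (2 * D + 1)) (κ : τ → Finset (ι × ZMod (2 * D + 1)))
  (f : τ → MvPolynomial σ ℂ) (S0 : ι → ℤ) (x0 : ι),
  (∀ k, 1 ≤ S0 k) → 2 ≤ S0 x0 → (∀ i, (κ i).Nonempty) →
  (∀ i, Set.InjOn Prod.fst (κ i : Set (ι × ZMod (2 * D + 1)))) →
  (∀ i, f i ∈ R ℂ col (ind (κ i))) → (∀ k, ∃ z, col z = k ∧ ∀ i, z ∉ (f i).vars) →
  (∀ S' : ι × ZMod (2 * D + 1) → ℤ, 0 ≤ S' → push Prod.fst S' ≤ S0 → (∀ l, S' ≠ lam S0 l) →
    dq col (fun i => ind (κ i)) f Finset.univ S' ≤ E col (fun i => ind (κ i)) Finset.univ S') →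
  (∀ l, Module.finrank ℂ (SZ col (fun i => ind (κ i)) f Finset.univ (lam S0 l)) ≤ D) →
  ∃ (C : (ι → ZMod (2 * D + 1)) → Submodule ℂ (τ → MvPolynomial σ ℂ))
    (φ : Fin D → τ → MvPolynomial σ ℂ),
    (∀ l, C l ≤ SZ col (fun i => ind (κ i)) f Finset.univ (lam S0 l)) ∧
    (∀ l, dq col (fun i => ind (κ i)) f Finset.univ (lam S0 l) -
      E col (fun i => ind (κ i)) Finset.univ (lam S0 l) ≤ (Module.finrank ℂ (C l) : ℤ)) ∧
    (∀ (c : Fin D) (i : τ),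
      φ c i ∈ R ℂ col (ind (sh x0 (((c : ℕ) : ZMod (2 * D + 1)) + 1) (κ i)))) ∧
    (∀ (c : Fin D) (i : τ), (∀ k ∈ κ i, k.1 ≠ x0) → φ c i = 0) ∧
    ∀ l, ∀ g ∈ C l, (∀ c : Fin D, ∑ i, φ c i * g i ∈ Id col (fun i => ind (κ i)) f Finset.univ
      (tgt S0 x0 l (((c : ℕ) : ZMod (2 * D + 1)) + 1))) → g = 0

/-- DEC (hypotheses SpecOBS, SpecBLK, SpecTGT).  OBS with `U = ∏_i R(fst ∘ col) (S0 - ind ((κ i).image fst))`, `M0 g = ∑ f_i g_i` (range = coarse `Id S0`),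
`M1 g = ∑_i (∑_c φ_{c,i}) g_i`, `C = ∑_l C_l` (direct: `g_i ∈ R col (lam S0 l - ind (κ i))`, different multidegrees; `C_l ≤ U` by BLK (5), as
`push fst (ind (κ i)) = ind ((κ i).image fst)` by injectivity).  Suppose `g = ∑_l g^l`, `M1 g ∈ Id S0` coarse, so
`M1 g = ∑ f_i h_i`; its `pr` to `T = tgt S0 x0 l (c+1)` is in `Id col T` (`pr_mem_Id`).  The product `φ_{c',i} g^{l'}_i` is zero unless
`ind (κ i) ≤ lam S0 l'` (otherwise `g^{l'}_i ∈ R (lam S0 l' - ind (κ i)) = 0`) and `κ i` has an element over `x0`, which is then `(x0, l' x0)` (and the only one), so it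
has the multidegree `lam S0 l' - ind (κ i) + ind (sh x0 (c'+1) (κ i)) = tgt S0 x0 l' (c'+1)`.  By TGT the projection is `∑_i φ_{c,i} g^l_i ∈ Id (tgt)`, for all
`l, c`: `g^l = 0`.  Conclusion of OBS: `f' = f + t φ`, `φ_i = ∑_c φ_{c,i}`, has `dim Id' S0 ≥ dim Id S0 + ∑_l dim C_l ≥ ∑_{S' ∈ fib S0} dim Id S' + ∑_l dim C_l`
(BLK (3)).  `f'_i ∈ R (fst ∘ col) (ind ((κ i).image fst))` by BLK (5) (`sh` has the same image). -/
def SpecDEC : Prop := ∀ (ι σ τ : Type) [Fintype σ] [Fintype ι] [DecidableEq ι] [Fintype τ] (D : ℕ)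
  (col : σ → ι × ZMod (2 * D + 1)) (κ : τ → Finset (ι × ZMod (2 * D + 1)))
  (f : τ → MvPolynomial σ ℂ) (S0 : ι → ℤ) (x0 : ι)
  (C : (ι → ZMod (2 * D + 1)) → Submodule ℂ (τ → MvPolynomial σ ℂ))
  (φ : Fin D → τ → MvPolynomial σ ℂ),
  (∀ k, 1 ≤ S0 k) → 2 ≤ S0 x0 → (∀ i, (κ i).Nonempty) →
  (∀ i, Set.InjOn Prod.fst (κ i : Set (ι × ZMod (2 * D + 1)))) →
  (∀ i, f i ∈ R ℂ col (ind (κ i))) →
  (∀ l, C l ≤ SZ col (fun i => ind (κ i)) f Finset.univ (lam S0 l)) →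
  (∀ (c : Fin D) (i : τ),
    φ c i ∈ R ℂ col (ind (sh x0 (((c : ℕ) : ZMod (2 * D + 1)) + 1) (κ i)))) →
  (∀ (c : Fin D) (i : τ), (∀ k ∈ κ i, k.1 ≠ x0) → φ c i = 0) →
  (∀ l, ∀ g ∈ C l, (∀ c : Fin D, ∑ i, φ c i * g i ∈ Id col (fun i => ind (κ i)) f Finset.univ
      (tgt S0 x0 l (((c : ℕ) : ZMod (2 * D + 1)) + 1))) → g = 0) →
  ∃ f' : τ → MvPolynomial σ ℂ,
    (∀ i, f' i ∈ R ℂ (Prod.fst ∘ col) (ind ((κ i).image Prod.fst))) ∧
    ∑ S' ∈ fib Prod.fst S0, Module.finrank ℂ (Id col (fun i => ind (κ i)) f Finset.univ S') +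
      ∑ l, Module.finrank ℂ (C l) ≤
    Module.finrank ℂ (Id (Prod.fst ∘ col) (fun i => ind ((κ i).image Prod.fst)) f' Finset.univ S0)

/-- DEF (hypotheses SpecDEB, SpecDEC, SpecBLK, SpecTGT).  Deformation of a fine system (fine colours `ι × ZMod (2D+1)`) to a coarse system with
`dq ≤ E` at `S0`: DEB, DEC, and `dq' S0 = rr S0 - dim Id' S0 ≤ ∑_{S' ∈ fib S0} (rr S' - dim Id S') - ∑_l dim C_l ≤ ∑_{S' ∈ fib, S' ≠ lam} dq S' +
∑_l (dq (lam S0 l) - dim C_l) ≤ ∑_{S' ∈ fib} E S' = E S0` (BLK (1), (2); the `lam S0 l ∈ fib S0` are distinct, TGT). -/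
def SpecDEF : Prop := ∀ (ι σ τ : Type) [Fintype σ] [Fintype ι] [DecidableEq ι] [Fintype τ] (D : ℕ)
  (col : σ → ι × ZMod (2 * D + 1)) (κ : τ → Finset (ι × ZMod (2 * D + 1)))
  (f : τ → MvPolynomial σ ℂ) (S0 : ι → ℤ) (x0 : ι),
  (∀ k, 1 ≤ S0 k) → 2 ≤ S0 x0 → (∀ i, (κ i).Nonempty) →
  (∀ i, Set.InjOn Prod.fst (κ i : Set (ι × ZMod (2 * D + 1)))) →
  (∀ i, f i ∈ R ℂ col (ind (κ i))) → (∀ k, ∃ z, col z = k ∧ ∀ i, z ∉ (f i).vars) →
  (∀ S' : ι × ZMod (2 * D + 1) → ℤ, 0 ≤ S' → push Prod.fst S' ≤ S0 → (∀ l, S' ≠ lam S0 l) →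
    dq col (fun i => ind (κ i)) f Finset.univ S' ≤ E col (fun i => ind (κ i)) Finset.univ S') →
  (∀ l, Module.finrank ℂ (SZ col (fun i => ind (κ i)) f Finset.univ (lam S0 l)) ≤ D) →
  ∃ f' : τ → MvPolynomial σ ℂ,
    (∀ i, f' i ∈ R ℂ (Prod.fst ∘ col) (ind ((κ i).image Prod.fst))) ∧
    dq (Prod.fst ∘ col) (fun i => ind ((κ i).image Prod.fst)) f' Finset.univ S0 ≤
      E (Prod.fst ∘ col) (fun i => ind ((κ i).image Prod.fst)) Finset.univ S0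

/-- RRB.  `α v ≤ S (col v)` (`le_md`). -/
def SpecRRB : Prop := ∀ (σ ι : Type) [Fintype σ] [DecidableEq ι] (col : σ → ι) (S : ι → ℤ),
  rr col S ≤ ∏ v, (S (col v) + 1).toNat

/-- STB (hypotheses SpecDEF, SpecCOM2, SpecEXT, SpecBLK, SpecCOM3, SpecUNI, SpecRRB).  `D = choose |ι| a · w · (∏_k (S0 k + 1))^{N+1}`, `L = 2D+1`.  Fine system: variables
`(ι × ZMod L) × Fin N`, relations `{J : Finset (ι × ZMod L) // fst injective on J, |J| = a} × Fin w`.  COM2: `f0` exact at all `S' ≥ 0` with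
`push fst S' ≤ S0`, `S' ≠ lam` (finitely many: `push fst S' ≤ S0`).  EXT to `(ι × ZMod L) × Fin (N+1)` by `castSucc`: `f`, and the variables `(k, last)` do not occur.
`dim SZ (lam S0 l) ≤ ∑_{i : ind (κ i) ≤ lam} rr (lam S0 l - ind (κ i)) ≤ choose |ι| a · w · ∏_{v} (S0 + 1)` over the variables of colours `(k, l k)` (RRB for
`lam S0 l`, monotone), `≤ D`.  DEF gives `dq ≤ E` at `S0` for a coarse system on the variables `(ι × ZMod L) × Fin (N+1)`, colouring `k.1.1`.  For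
`0 ≤ S1 ≤ S0`, `S1 ≠ S0`: `f` itself, by BLK (4), (2), as all the fine `S'` over `S1` are exact.  COM3: exact at `S0`; UNI: `L (N+1)` variables of every colour,
`L^a w` relations for every `J` with `|J| = a`. -/
def SpecSTB : Prop := ∀ (ι : Type) [Fintype ι] [DecidableEq ι] (S0 : ι → ℤ) (x0 : ι) (a N w : ℕ),
  1 ≤ a → (∀ k, 1 ≤ S0 k) → 2 ≤ S0 x0 →
  (∀ (D : ℕ) (S' : ι × ZMod (2 * D + 1) → ℤ), 0 ≤ S' → push Prod.fst S' ≤ S0 →
    (∀ l, S' ≠ lam S0 l) → XXU ℂ a N w S') →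
  ∃ L ≥ 1, XXU ℂ a (L * (N + 1)) (L ^ a * w) S0

/-- EV (hypothesis SpecBLX).  From one `N2` to all large `N`.  `q = N / N2`; BLX with `π = Prod.fst : ι × Fin q → ι`, `N' = N2`,
`w' J' = w2` if `|J'| = a`: `q N2 ≤ N`, and there are `q^a` sets `J'` over `J`, `|J| = a`: `w ≤ γ1 N^a ≤ γ1 ((q+1) N2)^a ≤ q^a γ3 N2^a ≤ q^a w2` as soon as
`(1 + 1/q)^a ≤ γ3/γ1`. -/
def SpecEV : Prop := ∀ (ι : Type) [Fintype ι] [DecidableEq ι] (S : ι → ℤ) (a N2 w2 : ℕ) (γ1 γ3 : ℝ),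
  1 ≤ N2 → 0 < γ1 → γ1 < γ3 → γ3 * (N2 : ℝ) ^ a ≤ w2 →
  (∀ q ≥ 1, ∀ S' : ι × Fin q → ℤ, 0 ≤ S' → push Prod.fst S' ≤ S → XXU ℂ a N2 w2 S') →
  ∃ N0 : ℕ, ∀ N ≥ N0, ∀ w : ℕ, (w : ℝ) ≤ γ1 * (N : ℝ) ^ a → XXU ℂ a N w S

/-- PBR (hypothesis SpecEMB).  Standard form of a multidegree: `c = |supp S| ≥ 1`, `g : ι → Fin c` bijective from `supp S` to `Fin c`, `S0 (g k) = S k`.  EMB: for
`J ⊆ supp S` the image under `g` has the same cardinality. -/
def SpecPBR : Prop := ∀ (ι : Type) [Fintype ι] [DecidableEq ι] (S : ι → ℤ), 0 ≤ S → S ≠ 0 →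
  ∃ S0 : Fin (Finset.univ.filter (fun k => 0 < S k)).card → ℤ, (∀ k, 1 ≤ S0 k) ∧ ∑ k, S0 k = ∑ k, S k ∧
    ∀ (F : Type) [Field F] (a N w : ℕ), XXU F a N w S0 → XXU F a N w S

/-- PBS (hypotheses SpecSTB, SpecEV, SpecEMB, SpecTGT).  The step of PBI.  Let `γ1 < γ3 < γ2 < γ`, `N0'` from the hypothesis for `γ2`, and `N ≥ N0'`, `N ≥ 1` so large that
`w = ⌊γ2 N^a⌋ ≥ γ3 (N+1)^a`.  STB for `(N, w)`: let `S' ≥ 0` be fine with `push fst S' ≤ S0`, not of the form `lam S0 l`.  `|S'| = |push fst S'|`.  Either `|S'| < |S0|`, or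
`push fst S' = S0` and then the support of `S'` has more than `c` elements (TGT): so `XXU ℂ a N w S'` by hypothesis.  We get `L`, `N2 = L (N+1)`,
`w2 = L^a w` with `XXU ℂ a N2 w2 S0` and `γ3 N2^a ≤ w2 ≤ γ2 N2^a`, `N2 ≥ N0'`.  EV (`γ1 < γ3`): let `S' ≥ 0` on `Fin c × Fin q`, `push fst S' ≤ S0`.  If `S' = lam S0 l`: EMB with
`g = fst`, `S0`; otherwise the hypothesis as before (TGT, last part, with `Z = Fin q`). -/
def SpecPBS : Prop := ∀ (a c : ℕ) (γ : ℝ) (S0 : Fin c → ℤ) (x0 : Fin c), 1 ≤ a → 0 < γ →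
  (∀ k, 1 ≤ S0 k) → 2 ≤ S0 x0 →
  (∀ γ1 : ℝ, 0 < γ1 → γ1 < γ → ∃ N0 : ℕ, ∀ N ≥ N0, ∀ w : ℕ, (w : ℝ) ≤ γ1 * (N : ℝ) ^ a →
    ∀ (ι : Type) [Fintype ι] [DecidableEq ι] (S : ι → ℤ), 0 ≤ S →
      (∑ k, S k < ∑ k, S0 k ∨
        (∑ k, S k = ∑ k, S0 k ∧ c < (Finset.univ.filter (fun k => 0 < S k)).card)) →
      XXU ℂ a N w S) →
  ∀ γ1 : ℝ, 0 < γ1 → γ1 < γ → ∃ N0 : ℕ, ∀ N ≥ N0, ∀ w : ℕ, (w : ℝ) ≤ γ1 * (N : ℝ) ^ a →
    XXU ℂ a N w S0

/-- PBI (hypotheses SpecPBR, SpecPBS, SpecEV).  `|S| = ∑ S k`, `c(S) = |supp S|`, `def S = |S| - c(S)`.  Claim `C(p, d)`, `p ≤ e`: for every `0 < γ1 < γ` there is `N0` such that for all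
`N ≥ N0`, `w ≤ γ1 N^a`, all `(ι, S)`, `S ≥ 0`, with `|S| < p`, or `|S| = p` and `def S < d`: `XXU ℂ a N w S`.  (`C(p, p + 1)` is `C(p+1, 0)`.)  Induction on `(p, d)`
lexicographically.  `S = 0` is immediate from the hypothesis for `J = ∅` (for `S = 0` the numbers `N`, `w` play no role).  For `|S| = p ≥ 1`, by PBR it is enough to treat
the finitely many `S0 : Fin c → ℤ`, `1 ≤ c ≤ p`, `1 ≤ S0 ≤ p`, `|S0| = p`, `p - c = d` (`N0` = maximum).
`d = 0`: `S0 = 1 = ind univ`; the hypothesis (for `N1 = 0`) and EV with `γ3 = γ`: a fine `S' ≥ 0`, `push fst S' ≤ 1`, is `ind J'` with `|J'| ≤ c ≤ e`.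
`d ≥ 1`: there is `x0` with `S0 x0 ≥ 2`: PBS. -/
def SpecPBI : Prop := ∀ (a e : ℕ) (γ : ℝ), 1 ≤ a → 0 < γ →
  (∀ N1 : ℕ, ∃ N ≥ N1, 1 ≤ N ∧ ∃ w : ℕ, γ * (N : ℝ) ^ a ≤ w ∧
    ∀ (ι : Type) [Fintype ι] [DecidableEq ι] (J : Finset ι), J.card ≤ e → XXU ℂ a N w (ind J)) →
  ∀ γ1 : ℝ, 0 < γ1 → γ1 < γ → ∃ N0 : ℕ, ∀ N ≥ N0, ∀ w : ℕ, (w : ℝ) ≤ γ1 * (N : ℝ) ^ a →
    ∀ (ι : Type) [Fintype ι] [DecidableEq ι] (S : ι → ℤ), 0 ≤ S → ∑ k, S k ≤ e → XXU ℂ a N w S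

end FrD
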